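import Pool.Agent.U288.SP.MT3
import Pool.Agent.U288.SP.LB1
import Pool.Agent.U288.SP.Cl0
import Pool.Agent.Y949.DK.SV
import Pool.Agent.Y185.DK.Avg
import Pool.Agent.H152.HR.Ramsey

/-! **Consecutive primes: all the sub-patterns, all the dilates and all the residue classes at once.** -/

set_option autoImplicit false

namespace Pool.Agent.U288.RO.Nx

open Finset Filter Pool.Agent.U288.SP

/-- for infinitely many `N ≡ r (mod q)` the numbers `N + l t`, `t ∈ T`, are consecutive primes -/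
def ConS (l : ℤ) (q r : ℕ) (T : Finset ℕ) : Prop :=
  {N : ℕ | N ≡ r [MOD q] ∧ (∀ t ∈ T, ((N : ℤ) + l * (t : ℤ)).toNat.Prime) ∧
    ∀ p : ℕ, p.Prime → (∃ t ∈ T, (N : ℤ) + l * (t : ℤ) ≤ p) → (∃ t ∈ T, (p : ℤ) ≤ N + l * (t : ℤ)) →
      ∃ t ∈ T, (p : ℤ) = N + l * (t : ℤ)}.Infinite

lemma conS_mod (l : ℤ) (q r : ℕ) (T : Finset ℕ) : ConS l q (r % q) T ↔ ConS l q r T := by
  have h : ∀ N : ℕ, N ≡ r % q [MOD q] ↔ N ≡ r [MOD q] := fun N =>
    ⟨fun h => h.trans (Nat.mod_modEq r q), fun h => h.trans (Nat.mod_modEq r q).symm⟩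
  unfold ConS
  simp only [h]

/-- translation -/
lemma conS_translate {l : ℤ} {q r : ℕ} {T : Finset ℕ} (hT : T.Nonempty) {z : ℕ} (hz : q ∣ z)
    (h : ConS l q r (T.image (fun t => t + z))) : ConS l q r T := by
  classical
  obtain ⟨t₀, ht₀⟩ := hT
  have hpos : ∀ N : ℕ, (∀ t ∈ T.image (fun t => t + z), ((N : ℤ) + l * (t : ℤ)).toNat.Prime) →
      0 ≤ (N : ℤ) + l * (z : ℤ) := by
    intro N hN
    have h1 := hN (t₀ + z) (mem_image_of_mem _ ht₀)
    have h2 : 0 < (N : ℤ) + l * ((t₀ + z : ℕ) : ℤ) := by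
      by_contra hcon
      rw [Int.toNat_of_nonpos (not_lt.1 hcon)] at h1
      exact Nat.not_prime_zero h1
    push_cast at h2
    rcases le_total 0 l with hl | hl
    · have : 0 ≤ l * (z : ℤ) := mul_nonneg hl (by positivity)
      positivity
    · have : l * (t₀ : ℤ) ≤ 0 := mul_nonpos_of_nonpos_of_nonneg hl (by positivity)
      have h3 : l * ((t₀ : ℤ) + z) = l * t₀ + l * z := by ring
      linarith
  unfold ConS at h ⊢
  have hinj : Set.InjOn (fun N : ℕ => ((N : ℤ) + l * (z : ℤ)).toNat) {N : ℕ | N ≡ r [MOD q] ∧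
      (∀ t ∈ T.image (fun t => t + z), ((N : ℤ) + l * (t : ℤ)).toNat.Prime) ∧
      ∀ p : ℕ, p.Prime → (∃ t ∈ T.image (fun t => t + z), (N : ℤ) + l * (t : ℤ) ≤ p) →
        (∃ t ∈ T.image (fun t => t + z), (p : ℤ) ≤ N + l * (t : ℤ)) →
        ∃ t ∈ T.image (fun t => t + z), (p : ℤ) = N + l * (t : ℤ)} := by
    intro a ha b hb hab
    have h1 := hpos a ha.2.1
    have h2 := hpos b hb.2.1
    simp only at hab
    omega
  apply (h.image hinj).mono
  rintro _ ⟨N, ⟨hN1, hN2, hN3⟩, rfl⟩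
  have h0 := hpos N hN2
  have hc : ((((N : ℤ) + l * (z : ℤ)).toNat : ℕ) : ℤ) = (N : ℤ) + l * z := Int.toNat_of_nonneg h0
  have key : ∀ t : ℕ, (N : ℤ) + l * z + l * (t : ℤ) = (N : ℤ) + l * ((t + z : ℕ) : ℤ) := fun t => by
    push_cast
    ring
  refine ⟨?_, fun t ht => ?_, fun p hp h1 h2 => ?_⟩
  · rw [← Int.natCast_modEq_iff]
    dsimp only
    rw [hc]
    have h3 : (N : ℤ) ≡ (r : ℤ) [ZMOD q] := (Int.natCast_modEq_iff).2 hN1
    have h4 : l * (z : ℤ) ≡ 0 [ZMOD q] := (Int.modEq_zero_iff_dvd).2 (Dvd.dvd.mul_left (by exact_mod_cast hz) l)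
    simpa using h3.add h4
  · dsimp only
    rw [hc, key]
    exact hN2 _ (mem_image_of_mem _ ht)
  · dsimp only at h1 h2 ⊢
    simp only [hc] at h1 h2 ⊢
    obtain ⟨t1, ht1, h1⟩ := h1
    obtain ⟨t2, ht2, h2⟩ := h2
    rw [key] at h1 h2
    obtain ⟨u, hu, hpu⟩ := hN3 p hp ⟨_, mem_image_of_mem _ ht1, h1⟩ ⟨_, mem_image_of_mem _ ht2, h2⟩
    obtain ⟨t, ht, rfl⟩ := mem_image.1 hu
    exact ⟨t, ht, by rw [key]; exact hpu⟩

/-- from increasing vectors to sets -/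
lemma conS_of_consec {j : ℕ} {l : ℤ} {q r : ℕ} {z τ : Fin (j + 1) → ℕ} (hz : StrictMono z) (A : ℕ) (hA : q ∣ A)
    (hzt : ∀ a, (z a : ℤ) = A + l * τ a) (h : Consec q r z) : ConS l q r (univ.image τ) := by
  classical
  unfold Consec at h
  unfold ConS
  have hinj : Set.InjOn (fun N : ℕ => N + A) {N : ℕ | N ≡ r [MOD q] ∧ (∀ i, (N + z i).Prime) ∧
    ∀ p : ℕ, p.Prime → N + z 0 ≤ p → p ≤ N + z (Fin.last j) → ∃ i, p = N + z i} := fun a _ b _ h => by simpa using h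
  apply (h.image hinj).mono
  rintro _ ⟨N, ⟨hN1, hN2, hN3⟩, rfl⟩
  have key : ∀ a, ((N + A : ℕ) : ℤ) + l * (τ a : ℤ) = ((N + z a : ℕ) : ℤ) := fun a => by
    push_cast
    rw [hzt a]
    ring
  refine ⟨?_, fun t ht => ?_, fun p hp h1 h2 => ?_⟩
  · have h5 : N + A ≡ r + 0 [MOD q] := hN1.add ((Nat.modEq_zero_iff_dvd).2 hA)
    simpa using h5
  · obtain ⟨a, _, rfl⟩ := mem_image.1 ht
    dsimp only
    rw [key, Int.toNat_natCast]
    exact hN2 a
  · obtain ⟨t1, ht1, h1⟩ := h1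
    obtain ⟨t2, ht2, h2⟩ := h2
    obtain ⟨a, _, rfl⟩ := mem_image.1 ht1
    obtain ⟨b, _, rfl⟩ := mem_image.1 ht2
    dsimp only at h1 h2
    rw [key] at h1 h2
    have h3 : N + z a ≤ p := by exact_mod_cast h1
    have h4 : p ≤ N + z b := by exact_mod_cast h2
    have h5 := hz.monotone (Fin.zero_le a)
    have h6 := hz.monotone (Fin.le_last b)
    obtain ⟨i, hi⟩ := hN3 p hp (by omega) (by omega)
    refine ⟨τ i, mem_image_of_mem _ (mem_univ i), ?_⟩
    dsimp only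
    rw [key, hi]

/-- the first `j + 1` elements -/
lemma first_run {D j : ℕ} (PI : Finset (Fin D)) (h : j + 1 ≤ PI.card) : ∃ v : Fin (j + 1) → Fin D, StrictMono v ∧
    (∀ i, v i ∈ PI) ∧ ∀ u ∈ PI, v 0 ≤ u → u ≤ v (Fin.last j) → ∃ i, u = v i := by
  classical
  set f := PI.orderEmbOfFin rfl with hf
  refine ⟨fun i => f (Fin.castLE h i), fun a b hab => f.strictMono (by simpa using hab),
    fun i => PI.orderEmbOfFin_mem rfl _, fun u hu _ h2 => ?_⟩
  have h6 : u ∈ Set.range f := by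
    rw [hf, range_orderEmbOfFin]
    exact hu
  obtain ⟨b, hb⟩ := h6
  rw [← hb] at h2
  have h7 : (b : ℕ) ≤ j := f.le_iff_le.1 h2
  exact ⟨⟨b, by omega⟩, by rw [← hb]; rfl⟩

/-- every set of `4 (k + 1) K` multiples of the modulus contains, for every size at most `k + 1`, every dilation and
every class, a pattern of consecutive primes -/
lemma exists_in (k : ℕ) : ∃ K : ℕ, 1 ≤ K ∧ ∀ q r : ℕ, 1 ≤ q → r.Coprime q → ∀ Q : Finset ℕ,
    Q.card = 4 * (k + 1) * K → (∀ y ∈ Q, (4 * (k + 1) * K).factorial * q ∣ y) → ∀ l : ℤ, l ≠ 0 → ∀ j ≤ k,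
      ∃ T ⊆ Q, T.card = j + 1 ∧ ConS l q r T := by
  classical
  obtain ⟨K, hK, hex⟩ := exactP (4 * (k + 1))
  refine ⟨K, hK, fun q r hq hrq Q hQc hQd l hl j hj => ?_⟩
  set D := 4 * (k + 1) * K with hD
  set e := Q.orderEmbOfFin hQc with he
  have heQ : ∀ i, e i ∈ Q := fun i => Q.orderEmbOfFin_mem hQc i
  -- the general step
  have step : ∀ (z τ : Fin D → ℕ) (A : ℕ), StrictMono z → Function.Injective τ → (∀ i, τ i ∈ Q) →
      (∀ i, D.factorial * q ∣ z i) → q ∣ A → (∀ i, (z i : ℤ) = A + l * τ i) → ∃ T ⊆ Q, T.card = j + 1 ∧ ConS l q r T := by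
    intro z τ A hz hτ hτQ hzd hA hzt
    obtain ⟨PI, S, c, hS, hSP, hE⟩ := hex q r hq hrq z hz hzd
    have hcard : j + 1 ≤ PI.card := by
      have h1 : S.card ≤ PI.card := by
        apply card_le_card_of_injOn (fun g => finProdFinEquiv (g, c g))
        · intro g hg
          exact hSP g hg
        · intro g _ g' _ h
          have h2 := finProdFinEquiv.injective h
          exact (Prod.ext_iff.1 h2).1
      omega
    obtain ⟨v, hv1, hv2, hv3⟩ := first_run PI hcard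
    have h1 := exact_run q r z hz PI hE v hv2 hv3
    refine ⟨univ.image (fun a => τ (v a)), ?_, ?_, ?_⟩
    · intro t ht
      obtain ⟨a, _, rfl⟩ := mem_image.1 ht
      exact hτQ _
    · rw [card_image_of_injective univ (show Function.Injective (fun a => τ (v a)) from hτ.comp hv1.injective), card_univ,
        Fintype.card_fin]
    · exact conS_of_consec (hz.comp hv1) A hA (fun a => hzt (v a)) h1
  rcases lt_or_gt_of_ne hl with hneg | hpos
  · -- the reflections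
    set M := ∑ y ∈ Q, y with hM
    have hle : ∀ i, e i ≤ M := fun i => single_le_sum (f := fun y : ℕ => y) (fun _ _ => Nat.zero_le _) (heQ i)
    have hMd : D.factorial * q ∣ M := dvd_sum (fun y hy => hQd y hy)
    have hn : 0 < l.natAbs := Int.natAbs_pos.2 hl
    have hl' : (l.natAbs : ℤ) = -l := by omega
    apply step (fun i => l.natAbs * (M - e (Fin.rev i))) (fun i => e (Fin.rev i)) (l.natAbs * M)
    · intro a b hab
      have h1 : e (Fin.rev b) < e (Fin.rev a) := e.strictMono (Fin.rev_lt_rev.2 hab)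
      have h2 := hle (Fin.rev a)
      have h3 : M - e (Fin.rev a) < M - e (Fin.rev b) := by omega
      exact Nat.mul_lt_mul_of_pos_left h3 hn
    · exact e.injective.comp Fin.rev_injective
    · exact fun i => heQ _
    · intro i
      exact Dvd.dvd.mul_left (Nat.dvd_sub hMd (hQd _ (heQ _))) _
    · exact Dvd.dvd.mul_left ((Dvd.intro_left _ rfl).trans hMd) _
    · intro i
      rw [Nat.cast_mul, Nat.cast_sub (hle _), Nat.cast_mul, hl']
      ring
  · have hn : 0 < l.natAbs := Int.natAbs_pos.2 hl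
    have hl' : (l.natAbs : ℤ) = l := by omega
    apply step (fun i => l.natAbs * e i) (fun i => e i) 0
    · intro a b hab
      exact Nat.mul_lt_mul_of_pos_left (e.strictMono hab) hn
    · exact e.injective
    · exact heQ
    · intro i
      exact Dvd.dvd.mul_left (hQd _ (heQ _)) _
    · exact dvd_zero q
    · intro i
      rw [Nat.cast_mul, hl']
      push_cast
      ring

/-- Ramsey's theorem for all the sizes below `s` -/
theorem ramseyM (κ : Type) [Fintype κ] (s : ℕ) : ∀ K : ℕ, ∃ J : ℕ, ∀ c : Finset ℕ → κ, ∀ S : Finset ℕ, J ≤ S.card →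
    ∃ Q ⊆ S, Q.card = K ∧ ∀ t < s, ∃ col : κ, ∀ T ⊆ Q, T.card = t → c T = col := by
  classical
  induction s with
  | zero =>
    intro K
    refine ⟨K, fun c S hS => ?_⟩
    obtain ⟨Q, hQ, hc⟩ := exists_subset_card_eq hS
    exact ⟨Q, hQ, hc, fun t ht => absurd ht (Nat.not_lt_zero t)⟩
  | succ s ih =>
    intro K
    obtain ⟨J, hJ⟩ := ih K
    obtain ⟨N, hN⟩ := H152HR.ramsey κ s J
    refine ⟨N, fun c S hS => ?_⟩
    obtain ⟨Q₁, hQ1, hQc, col, hcol⟩ := hN c S hS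
    obtain ⟨Q, hQ2, hQ3, hQ4⟩ := hJ c Q₁ hQc.ge
    refine ⟨Q, hQ2.trans hQ1, hQ3, fun t ht => ?_⟩
    rcases (Nat.lt_succ_iff.1 ht).lt_or_eq with h | h
    · exact hQ4 t h
    · subst h
      exact ⟨col, fun T hT hTc => hcol T (hT.trans hQ2) hTc⟩

abbrev Dn (L : ℕ) : Type := {l : ℤ // l ∈ Icc (-(L : ℤ)) L}

/-- everything at once -/
def AllS (L q : ℕ) (U : Finset ℕ) : Prop :=
  ∀ l : ℤ, l ≠ 0 → l.natAbs ≤ L → ∀ r : ℕ, r.Coprime q → ∀ T ⊆ U, T.Nonempty → ConS l q r T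

theorem pattern_all (k L q : ℕ) (hq : 1 ≤ q) : ∃ D : ℕ, 1 ≤ D ∧ ∀ y : Fin D → ℕ, StrictMono y →
    (∀ i, D.factorial * q ∣ y i) → ∃ v : Fin (k + 1) → Fin D, StrictMono v ∧
      AllS L q (univ.image (fun a => y (v a))) := by
  classical
  obtain ⟨K, hK, hex⟩ := exists_in k
  set K₁ := 4 * (k + 1) * K with hK1
  have hK1k : k + 1 ≤ K₁ := by
    rw [hK1]
    nlinarith
  obtain ⟨J, hJ⟩ := ramseyM (Dn L × Fin q → Bool) (k + 2) K₁
  set D := max J K₁ with hD
  have hDK : K₁ ≤ D := le_max_right _ _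
  refine ⟨D, by omega, fun y hy hyd => ?_⟩
  obtain ⟨Q, hQ1, hQc, hcol⟩ := hJ (fun T x => decide (ConS x.1.1 q x.2.1 T)) (univ.image y) (by
    rw [card_image_of_injective _ hy.injective, card_univ, Fintype.card_fin]
    exact le_max_left _ _)
  have hQd : ∀ t ∈ Q, K₁.factorial * q ∣ t := by
    intro t ht
    obtain ⟨i, _, rfl⟩ := mem_image.1 (hQ1 ht)
    exact (Nat.mul_dvd_mul_right (Nat.factorial_dvd_factorial hDK) q).trans (hyd i)
  have hmem : ∀ l : ℤ, l.natAbs ≤ L → l ∈ Icc (-(L : ℤ)) L := by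
    intro l hl
    rw [mem_Icc]
    omega
  have hall : ∀ l : ℤ, l ≠ 0 → l.natAbs ≤ L → ∀ r : ℕ, r.Coprime q → ∀ T ⊆ Q, T.Nonempty → T.card ≤ k + 1 →
      ConS l q r T := by
    intro l hl0 hl r hr T hTQ hTn hTc
    have h1 : 0 < T.card := hTn.card_pos
    obtain ⟨col, hcol1⟩ := hcol T.card (by omega)
    obtain ⟨T₀, hT0, hT0c, hT0S⟩ := hex q r hq hr Q hQc hQd l hl0 (T.card - 1) (by omega)
    have hrq : r % q < q := Nat.mod_lt r hq
    have h2 := congrFun (hcol1 T₀ hT0 (by omega)) (⟨l, hmem l hl⟩, ⟨r % q, hrq⟩)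
    have h3 := congrFun (hcol1 T hTQ rfl) (⟨l, hmem l hl⟩, ⟨r % q, hrq⟩)
    rw [← h2] at h3
    have h4 : decide (ConS l q (r % q) T₀) = true := by
      rw [decide_eq_true_eq]
      exact (conS_mod l q r T₀).2 hT0S
    dsimp only at h3
    rw [h4, decide_eq_true_eq] at h3
    exact (conS_mod l q r T).1 h3
  obtain ⟨U, hUQ, hUc⟩ := exists_subset_card_eq (show k + 1 ≤ Q.card by omega)
  have h1 : ∀ a : Fin (k + 1), ∃ i : Fin D, y i = U.orderEmbOfFin hUc a := by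
    intro a
    obtain ⟨i, _, hi⟩ := mem_image.1 (hQ1 (hUQ (U.orderEmbOfFin_mem hUc a)))
    exact ⟨i, hi⟩
  choose v hv using h1
  refine ⟨v, fun a b hab => ?_, ?_⟩
  · rw [← hy.lt_iff_lt, hv, hv]
    exact (U.orderEmbOfFin hUc).strictMono hab
  · have h2 : univ.image (fun a => y (v a)) ⊆ U := by
      intro t ht
      obtain ⟨a, _, rfl⟩ := mem_image.1 ht
      rw [hv]
      exact U.orderEmbOfFin_mem hUc a
    intro l hl0 hl r hr T hT hTn
    exact hall l hl0 hl r hr T (hT.trans (h2.trans hUQ)) hTn ((card_le_card (hT.trans h2)).trans hUc.le)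

open Classical in
theorem fin_all (k L q : ℕ) (hq : 1 ≤ q) (σ : ℤ) (hσ : σ = 0 ∨ σ = 1 ∨ σ = -1) :
    ∃ c C : ℝ, 0 < c ∧ ∀ᶠ X : ℕ in atTop,
      c * ((X : ℝ) ^ k / Real.log X ^ (if σ = 0 then 0 else k * (k + 1) / 2)) ≤
        (((shifts (fun _ _ : Fin (k + 1) => σ) X).filter (fun h => AllS L q (univ.image h))).card : ℝ) ∧
      ((shifts (fun _ _ : Fin (k + 1) => σ) X).card : ℝ) ≤
        C * ((X : ℝ) ^ k / Real.log X ^ (if σ = 0 then 0 else k * (k + 1) / 2)) := by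
  obtain ⟨D, hD1, hpat⟩ := pattern_all k L q hq
  obtain ⟨c, hc, h1⟩ := shifts_lower Pool.Agent.Y949.DK.t_SV Pool.Agent.Y185.DK.AV.t_AVG ext_main k
    (fun _ _ => σ) D (fun _ _ => σ) hD1 (fun i j => hσ) q hq
    (fun _ z => AllS L q (univ.image z)) (fun _ z => AllS L q (univ.image z))
    (fun r _ y hy hQ => by
      obtain ⟨v, hv1, hv2⟩ := hpat y hy hQ
      exact ⟨v, hv1, fun _ _ _ => rfl, hv2⟩)
    (fun r z hz hzq h l hl0 hl r' hr' T hT hTn => by
      apply conS_translate hTn (hzq 0)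
      apply h l hl0 hl r' hr' _ _ (hTn.image _)
      intro t ht
      obtain ⟨s, hs, rfl⟩ := mem_image.1 ht
      obtain ⟨a, _, ha⟩ := mem_image.1 (hT hs)
      have h2 := hz.monotone (Fin.zero_le a)
      rw [mem_image]
      refine ⟨a, mem_univ a, ?_⟩
      omega)
  obtain ⟨C, hC, h2⟩ := shifts_upper Pool.Agent.Y949.DK.t_SV Pool.Agent.Y185.DK.AV.t_AVG k (fun _ _ => σ)
  refine ⟨c, C, hc, ?_⟩
  rw [edg_const k σ] at h1 h2
  filter_upwards [h1, h2] with X hX1 hX2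
  exact ⟨hX1 1 (Nat.coprime_one_left q), hX2⟩

end Pool.Agent.U288.RO.Nx
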