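import Pool.Agent.U288.SP.Cl3
import Pool.Agent.U288.RO.N1

/-! **The hereditary principle for images under arbitrary injective maps.** -/

set_option autoImplicit false

namespace Pool.Agent.U288.RO.Nx

open Finset Filter Pool.Agent.U288.SP

/-- all the images of all the parts have the property -/
def HerI {k m L : ℕ} (P : Fin m → Finset ℤ → Prop) (φ : Fin L → ℕ → ℤ) (h : Fin (k + 1) → ℕ) : Prop :=
  ∀ i j, ∀ T ⊆ (univ : Finset (Fin k)).image (fun a => h a.succ), T.Nonempty → P i (T.image (φ j))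

open Classical in
/-- **The hereditary principle for images.** -/
theorem hered (k m L K₁ M : ℕ) (hk : k ≤ K₁) (hM : 1 ≤ M) (σ : ℤ) (hσ : σ = 0 ∨ σ = 1 ∨ σ = -1) :
    ∃ c : ℝ, 0 < c ∧ ∀ᶠ X : ℕ in atTop, ∀ P : Fin m → Finset ℤ → Prop, ∀ φ : Fin L → ℕ → ℤ,
      (∀ i, ∀ V : Finset ℤ, (∀ v ∈ V, ∃ j, ∃ n ≤ X, v = φ j n) → V.card = K₁ →
        (∀ u ∈ V, ∀ v ∈ V, (M : ℤ) ∣ u - v) → ∀ s, 1 ≤ s → s ≤ k → ∃ T ⊆ V, T.card = s ∧ P i T) →
      (∀ j, Set.InjOn (φ j) (Set.Iic X)) →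
      c * ((X : ℝ) ^ k / Real.log X ^ (edg (fun _ _ : Fin (k + 1) => σ)).card) ≤
        (((shifts (fun _ _ : Fin (k + 1) => σ) X).filter (fun h => HerI P φ h)).card : ℝ) := by
  obtain ⟨J, hJ⟩ := ramseyM (Fin m × Fin L → Bool) (k + 1) K₁
  set K := Fintype.card (Fin L → Fin M) * J + k + 2 with hK
  obtain ⟨c, hc, h1⟩ := principle k K (by omega) σ hσ
  refine ⟨c, hc, ?_⟩
  filter_upwards [h1] with X hX
  intro P φ hP hφ
  refine hX (fun h => HerI P φ h) ?_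
  intro S hS hSc
  have hSne : S.Nonempty := card_pos.1 (by omega)
  set s₀ := S.min' hSne with hs0
  have hs0m : s₀ ∈ S := S.min'_mem hSne
  have hmin : ∀ s ∈ S, s₀ ≤ s := fun s hs => S.min'_le s hs
  set Y₀ := (S.erase s₀).image (fun s => s - s₀) with hY0
  have hY₀c : Y₀.card = K - 1 := by
    rw [hY0, card_image_of_injOn, card_erase_of_mem hs0m, hSc]
    intro a ha c' hc' hac
    have h2 := hmin a (mem_of_mem_erase ha)
    have h3 := hmin c' (mem_of_mem_erase hc')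
    dsimp only at hac
    omega
  -- the pigeonhole principle
  have hMZ : (M : ℤ) ≠ 0 := by exact_mod_cast (by omega : M ≠ 0)
  set ψ : ℕ → Fin L → Fin M := fun y j => ⟨((φ j y) % (M : ℤ)).toNat, by
    have h2 := Int.emod_nonneg (φ j y) hMZ
    have h3 := Int.emod_lt_of_pos (φ j y) (by exact_mod_cast hM : (0 : ℤ) < M)
    omega⟩ with hψ
  obtain ⟨b, _, hb⟩ := exists_lt_card_fiber_of_mul_lt_card_of_maps_to (s := Y₀) (t := (univ : Finset (Fin L → Fin M)))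
    (f := ψ) (n := J) (fun _ _ => mem_univ _) (by rw [card_univ, hY₀c]; omega)
  set Y := Y₀.filter (fun y => ψ y = b) with hY
  have hYc : J ≤ Y.card := hb.le
  have hYX : ∀ y ∈ Y, y ≤ X ∧ s₀ + y ∈ S ∧ 0 < y := by
    intro y hy
    obtain ⟨s, hs, rfl⟩ := mem_image.1 (mem_filter.1 hy).1
    have hs1 := mem_of_mem_erase hs
    have hs2 := (mem_erase.1 hs).1
    have h2 := hmin s hs1
    have h5 := mem_range.1 (hS hs1)
    refine ⟨by omega, ?_, by omega⟩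
    rw [Nat.add_sub_cancel' h2]
    exact hs1
  have hYM : ∀ j, ∀ y ∈ Y, ∀ y' ∈ Y, (M : ℤ) ∣ φ j y - φ j y' := by
    intro j y hy y' hy'
    have h2 := congrFun ((mem_filter.1 hy).2.trans (mem_filter.1 hy').2.symm) j
    simp only [hψ, Fin.mk.injEq] at h2
    have h3 := Int.emod_nonneg (φ j y) hMZ
    have h4 := Int.emod_nonneg (φ j y') hMZ
    have h5 : φ j y % (M : ℤ) = φ j y' % (M : ℤ) := by omega
    exact Int.ModEq.dvd (show φ j y' ≡ φ j y [ZMOD M] from h5.symm)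
  obtain ⟨Q, hQY, hQc, hcol⟩ := hJ (fun T x => decide (P x.1 (T.image (φ x.2)))) Y hYc
  have hall : ∀ i j, ∀ T ⊆ Q, T.Nonempty → T.card ≤ k → P i (T.image (φ j)) := by
    intro i j T hTQ hTn hTk
    have hinj : Set.InjOn (φ j) (Q : Set ℕ) := by
      intro a ha c' hc' hac
      exact hφ j (Set.mem_Iic.2 (hYX a (hQY ha)).1) (Set.mem_Iic.2 (hYX c' (hQY hc')).1) hac
    obtain ⟨T', hT'1, hT'2, hT'3⟩ := hP i (Q.image (φ j)) (by
        intro v hv
        obtain ⟨a, ha, rfl⟩ := mem_image.1 hv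
        exact ⟨j, a, (hYX a (hQY ha)).1, rfl⟩) (by rw [card_image_of_injOn hinj, hQc]) (by
        intro u hu v hv
        obtain ⟨a, ha, rfl⟩ := mem_image.1 hu
        obtain ⟨c', hc', rfl⟩ := mem_image.1 hv
        exact hYM j a (hQY ha) c' (hQY hc')) T.card hTn.card_pos hTk
    -- `T'` is the image of `T₀`
    set T₀ := Q.filter (fun x => φ j x ∈ T') with hT₀
    have himg : T₀.image (φ j) = T' := by
      ext y
      rw [mem_image]
      constructor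
      · rintro ⟨x, hx, rfl⟩
        exact (mem_filter.1 hx).2
      · intro hy
        obtain ⟨x, hx, rfl⟩ := mem_image.1 (hT'1 hy)
        exact ⟨x, mem_filter.2 ⟨hx, hy⟩, rfl⟩
    have hT₀Q : T₀ ⊆ Q := filter_subset _ _
    have hT₀c : T₀.card = T.card := by
      rw [← hT'2, ← himg, card_image_of_injOn (hinj.mono (by exact_mod_cast hT₀Q))]
    obtain ⟨col, hcol1⟩ := hcol T.card (by omega)
    have h3 := congrFun (hcol1 T₀ hT₀Q hT₀c) (i, j)
    have h4 := congrFun (hcol1 T hTQ rfl) (i, j)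
    rw [← h3] at h4
    dsimp only at h4
    rw [himg, decide_eq_true hT'3, decide_eq_true_eq] at h4
    exact h4
  obtain ⟨U, hUQ, hUc⟩ := exists_subset_card_eq (show k ≤ Q.card by omega)
  set e := U.orderEmbOfFin hUc with he
  have heU : ∀ a, e a ∈ U := fun a => U.orderEmbOfFin_mem hUc a
  have heY : ∀ a, e a ∈ Y := fun a => hQY (hUQ (heU a))
  refine ⟨Fin.cons s₀ (fun a => s₀ + e a), ?_, ?_, ?_⟩
  · intro a c' hac
    induction c' using Fin.cases with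
    | zero => exact absurd hac (Fin.not_lt_zero a)
    | succ c' =>
      induction a using Fin.cases with
      | zero =>
        simp only [Fin.cons_zero, Fin.cons_succ]
        have := (hYX _ (heY c')).2.2
        omega
      | succ a =>
        simp only [Fin.cons_succ]
        have h2 : a < c' := Fin.succ_lt_succ_iff.1 hac
        have := e.strictMono h2
        omega
  · intro a
    induction a using Fin.cases with
    | zero =>
      simp only [Fin.cons_zero]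
      exact hs0m
    | succ a =>
      simp only [Fin.cons_succ]
      exact (hYX _ (heY a)).2.1
  · intro i j T hT hTn
    have h2 : (univ : Finset (Fin k)).image (fun a => (Fin.cons s₀ (fun a => s₀ + e a) : Fin (k + 1) → ℕ) a.succ -
        (Fin.cons s₀ (fun a => s₀ + e a) : Fin (k + 1) → ℕ) 0) ⊆ U := by
      intro t ht
      obtain ⟨a, _, rfl⟩ := mem_image.1 ht
      simp only [Fin.cons_zero, Fin.cons_succ, Nat.add_sub_cancel_left]
      exact heU a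
    exact hall i j T (hT.trans (h2.trans hUQ)) hTn ((card_le_card (hT.trans h2)).trans hUc.le)

/-- for infinitely many integers `N` the numbers `N + v`, `v ∈ V`, are consecutive primes, all `≡ r (mod q)` -/
def ConZ (q r : ℕ) (V : Finset ℤ) : Prop :=
  {N : ℤ | (∀ v ∈ V, (N + v).toNat.Prime ∧ N + v ≡ r [ZMOD q]) ∧
    ∀ p : ℕ, p.Prime → (∃ v ∈ V, N + v ≤ p) → (∃ v ∈ V, (p : ℤ) ≤ N + v) → ∃ v ∈ V, (p : ℤ) = N + v}.Infinite

lemma conZ_of_conS {q r : ℕ} {T : Finset ℕ} (hT : ∀ t ∈ T, q ∣ t) (a : ℤ) (h : ConS 1 q r T) :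
    ConZ q r (T.image (fun t : ℕ => a + (t : ℤ))) := by
  classical
  unfold ConS at h
  unfold ConZ
  have hinj : Function.Injective (fun N : ℕ => (N : ℤ) - a) := by
    intro x y hxy
    simp only at hxy
    omega
  apply (h.image hinj.injOn).mono
  rintro _ ⟨N, ⟨h1, h2, h3⟩, rfl⟩
  have key : ∀ t : ℕ, (N : ℤ) - a + (a + t) = N + 1 * t := by
    intro t
    ring
  refine ⟨?_, ?_⟩
  · intro v hv
    obtain ⟨t, ht, rfl⟩ := mem_image.1 hv
    dsimp only
    rw [key]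
    refine ⟨h2 t ht, ?_⟩
    have h4 : (N : ℤ) ≡ (r : ℤ) [ZMOD q] := (Int.natCast_modEq_iff).2 h1
    have h5 : (1 : ℤ) * (t : ℤ) ≡ 0 [ZMOD q] := by
      rw [one_mul]
      exact (Int.modEq_zero_iff_dvd).2 (by exact_mod_cast hT t ht)
    simpa using h4.add h5
  · intro p hp h4 h5
    obtain ⟨v1, hv1, h4⟩ := h4
    obtain ⟨v2, hv2, h5⟩ := h5
    obtain ⟨t1, ht1, rfl⟩ := mem_image.1 hv1
    obtain ⟨t2, ht2, rfl⟩ := mem_image.1 hv2
    dsimp only at h4 h5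
    rw [key] at h4 h5
    obtain ⟨t, ht, he⟩ := h3 p hp ⟨t1, ht1, h4⟩ ⟨t2, ht2, h5⟩
    refine ⟨a + t, mem_image_of_mem _ ht, ?_⟩
    dsimp only
    rw [key]
    exact he

/-- the set `V` moved to the natural numbers -/
lemma move {V : Finset ℤ} {K₁ M : ℕ} (hK : 1 ≤ K₁) (hVc : V.card = K₁) (hV : ∀ u ∈ V, ∀ v ∈ V, (M : ℤ) ∣ u - v) :
    ∃ (v₀ : ℤ) (V' : Finset ℕ), v₀ ∈ V ∧ V'.card = K₁ ∧ (∀ t ∈ V', M ∣ t) ∧ ∀ t ∈ V', v₀ + (t : ℤ) ∈ V := by
  classical
  have hne : V.Nonempty := card_pos.1 (by omega)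
  set v₀ := V.min' hne with hv0
  have hv0m : v₀ ∈ V := V.min'_mem hne
  have hmin : ∀ v ∈ V, v₀ ≤ v := fun v hv => V.min'_le v hv
  have hcast : ∀ v ∈ V, (((v - v₀).toNat : ℕ) : ℤ) = v - v₀ := fun v hv => Int.toNat_of_nonneg (by
    have := hmin v hv
    omega)
  refine ⟨v₀, V.image (fun v => (v - v₀).toNat), hv0m, ?_, ?_, ?_⟩
  · rw [card_image_of_injOn, hVc]
    intro a ha b hb hab
    have h1 := hcast a ha
    have h2 := hcast b hb
    dsimp only at hab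
    rw [hab] at h1
    omega
  · intro t ht
    obtain ⟨v, hv, rfl⟩ := mem_image.1 ht
    have h1 := hV v hv v₀ hv0m
    rw [← hcast v hv] at h1
    exact_mod_cast h1
  · intro t ht
    obtain ⟨v, hv, rfl⟩ := mem_image.1 ht
    rw [hcast v hv]
    have e : v₀ + (v - v₀) = v := by ring
    rw [e]
    exact hv

lemma base_A (k q : ℕ) (hq : 1 ≤ q) : ∃ K₁ M : ℕ, k ≤ K₁ ∧ 1 ≤ M ∧ ∀ r : ℕ, r.Coprime q → ∀ V : Finset ℤ,
    V.card = K₁ → (∀ u ∈ V, ∀ v ∈ V, (M : ℤ) ∣ u - v) → ∀ s, 1 ≤ s → s ≤ k → ∃ T ⊆ V, T.card = s ∧ ConZ q r T := by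
  classical
  obtain ⟨K, hK, hex⟩ := exists_in k
  set K₁ := 4 * (k + 1) * K with hK1
  have hK1k : k + 1 ≤ K₁ := by
    rw [hK1]
    nlinarith
  refine ⟨K₁, K₁.factorial * q, by omega, Nat.mul_pos (Nat.factorial_pos _) hq, fun r hr V hVc hV s hs1 hs2 => ?_⟩
  obtain ⟨v₀, V', hv0, hV'c, hV'd, hV'V⟩ := move (by omega) hVc hV
  obtain ⟨T', hT'1, hT'2, hT'3⟩ := hex q r hq hr V' hV'c hV'd 1 one_ne_zero (s - 1) (by omega)
  refine ⟨T'.image (fun t : ℕ => v₀ + (t : ℤ)), ?_, ?_, ?_⟩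
  · intro v hv
    obtain ⟨t, ht, rfl⟩ := mem_image.1 hv
    exact hV'V t (hT'1 ht)
  · rw [card_image_of_injective, hT'2]
    · omega
    · intro a b hab
      simp only at hab
      omega
  · exact conZ_of_conS (fun t ht => (Dvd.intro_left _ rfl).trans (hV'd t (hT'1 ht))) v₀ hT'3

lemma conZ_mod (q r : ℕ) (V : Finset ℤ) : ConZ q (r % q) V ↔ ConZ q r V := by
  have h : ∀ N : ℤ, N ≡ ((r % q : ℕ) : ℤ) [ZMOD q] ↔ N ≡ (r : ℤ) [ZMOD q] := fun N => by
    have h1 : (((r % q : ℕ) : ℕ) : ℤ) ≡ (r : ℤ) [ZMOD q] := (Int.natCast_modEq_iff).2 (Nat.mod_modEq r q)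
    exact ⟨fun h => h.trans h1, fun h => h.trans h1.symm⟩
  unfold ConZ
  simp only [h]

/-- all the images of all the parts are patterns of consecutive primes -/
def HerC {k L : ℕ} (q : ℕ) (φ : Fin L → ℕ → ℤ) (h : Fin (k + 1) → ℕ) : Prop :=
  ∀ r : ℕ, r.Coprime q → ∀ j, ∀ T ⊆ (univ : Finset (Fin k)).image (fun a => h a.succ), T.Nonempty →
    ConZ q r (T.image (φ j))

open Classical in
theorem fin_images (k L q : ℕ) (hq : 1 ≤ q) (σ : ℤ) (hσ : σ = 0 ∨ σ = 1 ∨ σ = -1) :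
    ∃ c C : ℝ, 0 < c ∧ ∀ᶠ X : ℕ in atTop,
      ((shifts (fun _ _ : Fin (k + 1) => σ) X).card : ℝ) ≤
        C * ((X : ℝ) ^ k / Real.log X ^ (if σ = 0 then 0 else k * (k + 1) / 2)) ∧
      ∀ φ : Fin L → ℕ → ℤ,
      (∀ j, Set.InjOn (φ j) (Set.Iic X)) →
      c * ((X : ℝ) ^ k / Real.log X ^ (if σ = 0 then 0 else k * (k + 1) / 2)) ≤
        (((shifts (fun _ _ : Fin (k + 1) => σ) X).filter (fun h => HerC q φ h)).card : ℝ) := by
  obtain ⟨K₁, M, hkK, hM, hbase⟩ := base_A k q hq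
  obtain ⟨c, hc, h1⟩ := hered k q L K₁ M hkK hM σ hσ
  obtain ⟨C, hC, h2⟩ := shifts_upper Pool.Agent.Y949.DK.t_SV Pool.Agent.Y185.DK.AV.t_AVG k (fun _ _ => σ)
  refine ⟨c, C, hc, ?_⟩
  rw [edg_const k σ] at h1 h2
  filter_upwards [h1, h2] with X hX1 hX2
  refine ⟨hX2, fun φ hφ => ?_⟩
  refine (hX1 (fun i V => (i : ℕ).Coprime q → ConZ q i V) φ ?_ hφ).trans ?_
  · intro i V _ hVc hV s hs1 hs2
    by_cases hi : (i : ℕ).Coprime q
    · obtain ⟨T, hT1, hT2, hT3⟩ := hbase i hi V hVc hV s hs1 hs2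
      exact ⟨T, hT1, hT2, fun _ => hT3⟩
    · obtain ⟨T, hT1, hT2⟩ := exists_subset_card_eq (show s ≤ V.card by omega)
      exact ⟨T, hT1, hT2, fun h => absurd h hi⟩
  · rw [Nat.cast_le]
    apply card_le_card
    intro h hh
    rw [mem_filter] at hh ⊢
    unfold HerI at hh
    refine ⟨hh.1, fun r hr j T hT hTn => ?_⟩
    have hrq : r % q < q := Nat.mod_lt r hq
    have h3 := hh.2 ⟨r % q, hrq⟩ j T hT hTn (by
      show (r % q).Coprime q
      rw [Nat.coprime_comm, Nat.coprime_iff_gcd_eq_one, Nat.gcd_comm, ← Nat.gcd_rec, Nat.gcd_comm]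
      exact hr)
    exact (conZ_mod q r _).1 h3

end Pool.Agent.U288.RO.Nx
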