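import Pool.Agent.Y949.DK.SV
import Pool.Agent.U288.SP.UB1

/-! An upper bound for the number of the `n` with `n + b` free of small primes for all `b` of a set, with the
dependence on the differences. -/

set_option autoImplicit false

namespace Pool.Agent.U288.RO

open Finset Filter Topology
open Pool.Agent.Y959.Sv (nu up_sieve)
open Pool.Agent.Helper923.HMertens (mertens_ratio)
open Pool.Agent.Y851.DK
open Pool.Agent.Y949.DK (Qf Qf_per nu_eq Exc Exc_sum prodP floor_pow')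

/-- no prime factor up to `N ^ κ` -/
def Ro (κ : ℝ) (N : ℕ) (m : ℤ) : Prop := ∀ p : ℕ, p.Prime → (p : ℝ) ≤ (N : ℝ) ^ κ → ¬ (p : ℤ) ∣ m

open Classical in
theorem rough_sieve (r : ℕ) (κ₀ : ℝ) (hκ₀ : 0 < κ₀) : ∃ C : ℝ, 1 ≤ C ∧ ∀ᶠ N : ℕ in atTop,
    ∀ F : Finset ℤ, F.card = r →
    (((Icc 1 N).filter (fun n : ℕ => ∀ b ∈ F, Ro κ₀ N ((n : ℤ) + b))).card : ℝ) ≤
      C * Real.exp (C * ∑ f ∈ F, ∑ g ∈ F, sg (g - f).natAbs) * (N / Real.log N ^ r) := by
  obtain ⟨K, z0, hK, hup⟩ := up_sieve r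
  obtain ⟨C1, hC0, hC1⟩ := mertens_ratio
  have hK0 : (1 : ℝ) ≤ K := by exact_mod_cast hK
  set κ : ℝ := min κ₀ (1 / (2 * K)) with hκ
  have hκ0 : 0 < κ := lt_min hκ₀ (by positivity)
  have hκ1 : κ ≤ κ₀ := min_le_left _ _
  have hκ2 : κ ≤ 1 / (2 * K) := min_le_right _ _
  set L : ℕ := z0 + 2 * r + 2 with hLdef
  have hL2 : 2 ≤ L := by omega
  have hLr : (2 : ℝ) ≤ L := by exact_mod_cast hL2
  have hlogL : 0 ≤ Real.log L := Real.log_natCast_nonneg L
  set B : ℝ := 2 * Real.exp (r * (2 * C1)) * (2 / κ * Real.log L) ^ r with hB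
  have hB0 : 0 ≤ B := by positivity
  have e4 : ∀ᶠ Y : ℝ in atTop, Real.log Y ^ r ≤ √Y := by
    have h1 : (fun x : ℝ => Real.log x ^ r) =o[atTop] (fun x : ℝ => x ^ (1 / 2 : ℝ)) := by
      have := isLittleO_log_rpow_rpow_atTop (r : ℝ) (show (0 : ℝ) < 1 / 2 by norm_num)
      simpa [Real.rpow_natCast] using this
    have h2 := (h1.bound (show (0 : ℝ) < 1 by norm_num))
    filter_upwards [h2, eventually_ge_atTop 1] with X hX hX1
    have hlog : 0 ≤ Real.log X := Real.log_nonneg hX1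
    rw [Real.norm_of_nonneg (by positivity), Real.norm_of_nonneg (by positivity),
      ← Real.sqrt_eq_rpow, one_mul] at hX
    exact hX
  refine ⟨B + r + 1, by have := Nat.cast_nonneg (α := ℝ) r; linarith, ?_⟩
  filter_upwards [(tendsto_natCast_atTop_atTop (R := ℝ)).eventually e4, floor_pow' hκ0 (max 3 L),
    eventually_ge_atTop 4] with N g4 g5 g6 F hFr
  have hN3 : (3 : ℝ) < N := by
    have : 3 < N := by omega
    exact_mod_cast this
  have hlogN : 0 < Real.log N := Real.log_pos (by linarith)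
  set y : ℕ := ⌊(N : ℝ) ^ κ⌋₊ with hy
  have hyN : (y : ℝ) ≤ (N : ℝ) ^ κ := Nat.floor_le (by positivity)
  have hy3 : 3 ≤ y := (le_max_left _ _).trans g5.1
  have hLy : L ≤ y := (le_max_right _ _).trans g5.1
  have hysq : (y : ℝ) ^ K ≤ √(N : ℝ) := by
    calc ((y : ℝ)) ^ K ≤ ((N : ℝ) ^ κ) ^ K := pow_le_pow_left₀ (Nat.cast_nonneg _) hyN K
      _ = (N : ℝ) ^ (κ * K) := by rw [← Real.rpow_natCast, ← Real.rpow_mul (by linarith)]
      _ ≤ (N : ℝ) ^ (1 / 2 : ℝ) := by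
          apply Real.rpow_le_rpow_of_exponent_le (by linarith)
          calc κ * K ≤ 1 / (2 * K) * K := by gcongr
            _ = 1 / 2 := by field_simp
      _ = √(N : ℝ) := by rw [← Real.sqrt_eq_rpow]
  have hsq1 : 1 ≤ √(N : ℝ) := by
    rw [Real.one_le_sqrt]
    linarith
  have hsqN : √(N : ℝ) * √(N : ℝ) = N := Real.mul_self_sqrt (by linarith)
  have hyK : y ^ K ≤ N := by
    have h6 : √(N : ℝ) ≤ N := by nlinarith
    exact_mod_cast hysq.trans h6
  -- the forms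
  set F' : Finset (ℤ × ℤ) := F.image (fun b => ((1 : ℤ), b)) with hF'
  have hinj : Set.InjOn (fun b : ℤ => ((1 : ℤ), b)) (F : Set ℤ) := fun a _ b _ h => (Prod.mk.inj h).2
  have hF'r : F'.card = r := by rw [hF', card_image_of_injOn hinj, hFr]
  have hF1 : ∀ f ∈ F', f.1 = 1 := by
    intro f hf
    obtain ⟨b, _, rfl⟩ := mem_image.1 hf
    rfl
  set σ : ℝ := ∑ f ∈ F, ∑ g ∈ F, sg (g - f).natAbs with hσ
  have hσ0 : 0 ≤ σ := sum_nonneg fun f _ => sum_nonneg fun g _ => SP.sg_nonneg _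
  have hσ' : ∑ f ∈ F', sg f.1.natAbs + ∑ f ∈ F', ∑ g ∈ F', sg (f.1 * g.2 - g.1 * f.2).natAbs = σ := by
    have h1 : ∑ f ∈ F', sg f.1.natAbs = 0 := by
      apply sum_eq_zero
      intro f hf
      rw [hF1 f hf]
      simp [sg]
    rw [h1, zero_add, hF', sum_image hinj, hσ]
    apply sum_congr rfl
    intro f _
    rw [sum_image hinj]
    simp only [one_mul]
  set S := (Ioc L y).filter Nat.Prime with hS
  set E := Exc F' S with hE
  have hES : E ⊆ S := by
    rw [hE]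
    unfold Exc
    exact filter_subset _ _
  have hSp : ∀ p ∈ S, p.Prime := fun p hp => (mem_filter.1 hp).2
  have hEc : ∑ p ∈ E, (1 : ℝ) / p ≤ σ := by
    refine (Exc_sum F' S hSp ?_ ?_).trans hσ'.le
    · intro f hf
      rw [hF1 f hf]
      norm_num
    · intro f hf g hg hne h
      apply hne
      rw [hF1 f hf, hF1 g hg, one_mul, one_mul] at h
      have h2 : f.2 = g.2 := by linarith
      exact Prod.ext ((hF1 f hf).trans (hF1 g hg).symm) h2
  have hprod := prodP hC0 hC1 r L y hL2 (by omega) hLy E hES σ hEc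
  have hnu : ∀ p ∈ S \ E, nu (Qf F') p = r := by
    intro p hp
    obtain ⟨hpS, hpE⟩ := Finset.mem_sdiff.1 hp
    rw [← hF'r]
    apply nu_eq F' (hSp p hpS)
    · intro f hf hd
      exact hpE (by rw [hE]; unfold Exc; exact mem_filter.2 ⟨hpS, Or.inl ⟨f, hf, hd⟩⟩)
    · intro f hf g hg hne hd
      exact hpE (by rw [hE]; unfold Exc; exact mem_filter.2 ⟨hpS, Or.inr ⟨f, hf, g, hg, hne, hd⟩⟩)
  have key := hup y N hy3 hyK (Qf F') (Qf_per F') (S \ E) (by
    intro p hp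
    obtain ⟨hpS, hpE⟩ := Finset.mem_sdiff.1 hp
    have h1 := mem_Ioc.1 (mem_filter.1 hpS).1
    exact ⟨hSp p hpS, by omega, h1.2, (hnu p hp).le⟩)
  have hprod' : ∏ p ∈ S \ E, (1 - (nu (Qf F') p : ℝ) / p) = ∏ p ∈ S \ E, (1 - (r : ℝ) / p) := by
    apply prod_congr rfl
    intro p hp
    rw [hnu p hp]
  rw [hprod'] at key
  have hsub : (Icc 1 N).filter (fun n : ℕ => ∀ b ∈ F, Ro κ₀ N ((n : ℤ) + b)) ⊆
      (Icc 1 N).filter (fun n : ℕ => ∀ p ∈ S \ E, ¬ Qf F' p n) := by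
    intro n hn
    rw [mem_filter] at hn ⊢
    refine ⟨hn.1, ?_⟩
    rintro p hp ⟨f, hf, hd⟩
    obtain ⟨hpS, hpE⟩ := Finset.mem_sdiff.1 hp
    obtain ⟨b, hb, rfl⟩ := mem_image.1 hf
    have h1 := mem_Ioc.1 (mem_filter.1 hpS).1
    apply hn.2 b hb p (hSp p hpS)
    · calc (p : ℝ) ≤ y := by exact_mod_cast h1.2
        _ ≤ (N : ℝ) ^ κ := hyN
        _ ≤ (N : ℝ) ^ κ₀ := Real.rpow_le_rpow_of_exponent_le (by linarith) hκ1
    · have e : (1 : ℤ) * (n : ℤ) + b = (n : ℤ) + b := by ring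
      simp only at hd
      rwa [e] at hd
  have hcard : (((Icc 1 N).filter (fun n : ℕ => ∀ b ∈ F, Ro κ₀ N ((n : ℤ) + b))).card : ℝ) ≤
      (((Icc 1 N).filter (fun n : ℕ => ∀ p ∈ S \ E, ¬ Qf F' p n)).card : ℝ) := by
    exact_mod_cast card_le_card hsub
  -- the ratio of the logarithms
  have hlogy : κ / 2 * Real.log N ≤ Real.log y := g5.2
  have hYK : 0 < κ / 2 * Real.log N := by positivity
  have ht : Real.log L / Real.log y ≤ 2 / κ * Real.log L / Real.log N := by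
    calc Real.log L / Real.log y ≤ Real.log L / (κ / 2 * Real.log N) :=
          div_le_div_of_nonneg_left hlogL hYK hlogy
      _ = _ := by field_simp
  have ht0 : 0 ≤ Real.log L / Real.log y := div_nonneg hlogL (hYK.le.trans hlogy)
  have htr : (Real.log L / Real.log y) ^ r ≤ (2 / κ * Real.log L) ^ r / Real.log N ^ r := by
    rw [← div_pow]
    exact pow_le_pow_left₀ ht0 ht r
  have hY0 : (0 : ℝ) ≤ N / Real.log N ^ r := by positivity
  have k1 : 2 * ((N : ℝ) * ∏ p ∈ S \ E, (1 - (r : ℝ) / p)) ≤ B * Real.exp (r * σ) * (N / Real.log N ^ r) := by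
    calc 2 * ((N : ℝ) * ∏ p ∈ S \ E, (1 - (r : ℝ) / p)) ≤
        2 * ((N : ℝ) * (Real.exp (r * (2 * C1 + σ)) * (Real.log L / Real.log y) ^ r)) := by gcongr
      _ ≤ 2 * (N * (Real.exp (r * (2 * C1 + σ)) * ((2 / κ * Real.log L) ^ r / Real.log N ^ r))) := by
          gcongr
      _ = B * Real.exp (r * σ) * (N / Real.log N ^ r) := by
          rw [mul_add, Real.exp_add, hB]
          ring
  have k2 : √(N : ℝ) ≤ N / Real.log N ^ r := by
    rw [le_div_iff₀ (by positivity)]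
    calc √(N : ℝ) * Real.log N ^ r ≤ √(N : ℝ) * √(N : ℝ) := by gcongr
      _ = N := hsqN
  have hr0 : (0 : ℝ) ≤ r := Nat.cast_nonneg r
  have k3 : Real.exp (r * σ) ≤ Real.exp ((B + r + 1) * σ) := by
    apply Real.exp_le_exp.2
    nlinarith
  have k4 : 1 ≤ Real.exp ((B + r + 1) * σ) := Real.one_le_exp (by positivity)
  calc _ ≤ 2 * ((N : ℝ) * ∏ p ∈ S \ E, (1 - (r : ℝ) / p)) + √(N : ℝ) := hcard.trans key
    _ ≤ B * Real.exp ((B + r + 1) * σ) * (N / Real.log N ^ r) +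
        1 * Real.exp ((B + r + 1) * σ) * (N / Real.log N ^ r) := by
        apply add_le_add
        · refine k1.trans ?_
          gcongr
        · refine k2.trans ?_
          rw [one_mul]
          exact le_mul_of_one_le_left hY0 k4
    _ ≤ _ := by
        rw [← add_mul, ← add_mul]
        gcongr
        linarith

end Pool.Agent.U288.RO
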