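import Pool.Agent.H387R2.MB11
import Pool.Agent.Y877.RoC
import Pool.Agent.U288.RO.A1

/-! The theorem of Maynard with the right order of magnitude, for all sets of `K` multiples of `D` up to a power of
`log N`. -/

set_option autoImplicit false

namespace Pool.Agent.U288.RO

open Finset Filter Topology
open Pool.Agent.H378R2 Pool.Agent.H387R2 Pool.Agent.H387R2.MB Pool.Agent.Y877.RO

lemma ro_of_rg {δ : ℝ} (hδ : 0 < δ) {N : ℕ} (hN : 16 ≤ N) {m : ℕ} (h : Rg δ ((N : ℝ) / 4) m) :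
    Ro (δ / 400) N (m : ℤ) := by
  intro p hp hpN hd
  apply h p _ (by exact_mod_cast hd)
  rw [mem_PS]
  refine ⟨hp, hpN.trans ?_⟩
  have hN0 : (0 : ℝ) < N := by
    have : 0 < N := by omega
    exact_mod_cast this
  have hN16 : (16 : ℝ) ≤ N := by exact_mod_cast hN
  rw [Real.rpow_def_of_pos hN0]
  apply Real.exp_le_exp.2
  unfold LL
  rw [Real.log_div hN0.ne' (by norm_num)]
  have h1 : Real.log 16 ≤ Real.log N := Real.log_le_log (by norm_num) hN16
  have h2 : Real.log 16 = 2 * Real.log 4 := by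
    rw [show (16 : ℝ) = 4 ^ 2 by norm_num, Real.log_pow]
    norm_num
  nlinarith

/-- the classes partition the integers -/
lemma sum_nu' (X : ℝ) (W n : ℕ) (hW : 0 < W) : ∑ b ∈ range W, nu X W b n = Phi (n / X) := by
  rw [sum_eq_single_of_mem (n % W) (mem_range.2 (Nat.mod_lt _ hW))]
  · unfold nu
    rw [if_pos]
    exact (Nat.mod_modEq n W).symm
  · intro b hb hne
    unfold nu
    rw [if_neg]
    intro h
    apply hne
    have h1 : n % W = b % W := h
    rw [h1, Nat.mod_eq_of_lt (mem_range.1 hb)]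

lemma dD_ge (D : ℕ) (hD : 1 ≤ D) (y : ℕ) : ∏ p ∈ D.primeFactors, (1 - 1 / (p : ℝ)) ≤ dD D y := by
  have hsub : ((y + 1).primesBelow).filter (fun p => p ∣ D) ⊆ D.primeFactors := by
    intro p hp
    rw [mem_filter] at hp
    rw [Nat.mem_primeFactors]
    exact ⟨Nat.prime_of_mem_primesBelow hp.1, hp.2, by omega⟩
  unfold dD
  rw [← prod_sdiff hsub]
  apply mul_le_of_le_one_left
  · exact prod_nonneg fun p hp => (fac_pos (Nat.prime_of_mem_primesBelow (mem_filter.1 hp).1)).le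
  · apply prod_le_one
    · intro p hp
      exact (fac_pos (Nat.prime_of_mem_primeFactors (mem_sdiff.1 hp).1)).le
    · intro p _
      exact fac_le

open Classical in
theorem low_global (k : ℕ) : ∃ K : ℕ, 1 ≤ K ∧ ∃ κ : ℝ, 0 < κ ∧ ∀ D : ℕ, 1 ≤ D →
    (∀ p : ℕ, p.Prime → p ≤ 4 * K ^ 2 → p ∣ D) →
    ∃ c : ℝ, 0 < c ∧ ∀ A : ℝ, ∀ᶠ N : ℕ in atTop, ∀ R : Finset ℕ, R.card = K →
      (∀ a ∈ R, (a : ℝ) ≤ Real.log N ^ A) → (∀ a ∈ R, D ∣ a) →
      c * (N / Real.log N ^ K) ≤ (((Icc 1 N).filter (fun n : ℕ => k + 1 ≤ (R.filter (fun a => (n + a).Prime)).card ∧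
        ∀ a ∈ R, Ro κ N ((n : ℤ) + a))).card : ℝ) := by
  obtain ⟨K, hK, δ, hδ, c0, hc0, hlow⟩ := low_eventually k
  refine ⟨K, hK, δ / 400, by positivity, fun D hD1 hD2 => ?_⟩
  set d0 : ℝ := ∏ p ∈ D.primeFactors, (1 - 1 / (p : ℝ)) with hd0
  have hd0p : 0 < d0 := prod_pos fun p hp => fac_pos (Nat.prime_of_mem_primeFactors hp)
  refine ⟨c0 / 160 * d0, by positivity, fun A => ?_⟩
  have tN : Tendsto (fun N : ℕ => (N : ℝ)) atTop atTop := tendsto_natCast_atTop_atTop
  have tX : Tendsto (fun N : ℕ => (N : ℝ) / 4) atTop atTop := tN.atTop_div_const (by norm_num)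
  filter_upwards [hlow A, tX.eventually MPhi_big, (LL_tendsto.comp tX).eventually_ge_atTop 1,
    eventually_ge_atTop 16] with N h1 h2 h3 h4 R hRK hRA hRD
  set X := (N : ℝ) / 4 with hX
  set y := ⌊Real.log (Real.log (N : ℝ))⌋₊ with hy
  have hN16 : (16 : ℝ) ≤ N := by exact_mod_cast h4
  have hL1 : 1 ≤ LL X := h3
  have hL0 : 0 < LL X := by linarith
  have hXN : X ≤ N := by rw [hX]; linarith
  have hX0 : 0 < X := by rw [hX]; linarith
  have hlogN : 0 < Real.log N := Real.log_pos (by linarith)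
  have hLN : LL X ≤ Real.log N := by
    unfold LL
    have h5 : Real.log X ≤ Real.log N := Real.log_le_log hX0 hXN
    linarith
  have hW := Uni.WW_pos y
  have hWr : (0 : ℝ) < Uni.WW y := by exact_mod_cast hW
  set ind : ℕ → Prop := fun n => k + 1 ≤ (R.filter (fun a => (n + a).Prime)).card ∧ ∀ a ∈ R, Rg δ X (n + a) with hind
  -- the classes
  have h5 : ∀ b ∈ (range (Uni.WW y)).filter (fun m => ∀ t ∈ R, Nat.Coprime (Uni.WW y) (m + t)),
      c0 * UU K X y ≤ ∑ n ∈ Icc 1 ⌊3 * X⌋₊, nu X (Uni.WW y) b n * (if ind n then 1 else 0) := by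
    intro b hb
    exact h1 b R hRK (fun a ha => Nat.le_floor (hRA a ha)) (mem_filter.1 hb).2
  have h6 := sum_le_sum h5
  rw [sum_const, nsmul_eq_mul] at h6
  have h7 : ∑ b ∈ (range (Uni.WW y)).filter (fun m => ∀ t ∈ R, Nat.Coprime (Uni.WW y) (m + t)),
      ∑ n ∈ Icc 1 ⌊3 * X⌋₊, nu X (Uni.WW y) b n * (if ind n then (1 : ℝ) else 0) ≤
      (((Icc 1 ⌊3 * X⌋₊).filter ind).card : ℝ) := by
    calc _ ≤ ∑ b ∈ range (Uni.WW y), ∑ n ∈ Icc 1 ⌊3 * X⌋₊, nu X (Uni.WW y) b n * (if ind n then (1 : ℝ) else 0) := by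
          apply sum_le_sum_of_subset_of_nonneg (filter_subset _ _)
          intro b _ _
          apply sum_nonneg
          intro n _
          apply mul_nonneg (nu_nonneg _ _ _ _)
          split_ifs <;> norm_num
      _ = ∑ n ∈ Icc 1 ⌊3 * X⌋₊, Phi (n / X) * (if ind n then (1 : ℝ) else 0) := by
          rw [sum_comm]
          apply sum_congr rfl
          intro n _
          rw [← sum_mul, sum_nu' X _ n hW]
      _ ≤ ∑ n ∈ Icc 1 ⌊3 * X⌋₊, (if ind n then (1 : ℝ) else 0) := by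
          apply sum_le_sum
          intro n _
          split_ifs
          · rw [mul_one]; exact Phi_le_one _
          · rw [mul_zero]
      _ = _ := by
          rw [← sum_filter, sum_const, nsmul_eq_mul, mul_one]
  have h8 := h6.trans h7
  -- the number of the classes
  have h9 := gT_lower K D y hK hD2 R hRK.le hRD
  have h10 : ((((range (Uni.WW y)).filter (fun m => ∀ t ∈ R, Nat.Coprime (Uni.WW y) (m + t))).card : ℕ) : ℝ) =
      Uni.gT (Uni.WW y) R := by
    unfold Uni.gT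
    congr!
  rw [h10] at h8
  have hrho := rho_pos y
  have h11 := rho_le_rD D y
  have h12 := dD_ge D hD1 y
  have h13 : d0 / 2 * (Uni.WW y * rho y ^ K) ≤ Uni.gT (Uni.WW y) R := by
    refine le_trans ?_ h9
    have h14 : rho y ^ K ≤ rD D y ^ K := pow_le_pow_left₀ hrho.le h11 K
    calc d0 / 2 * (Uni.WW y * rho y ^ K) = 1 / 2 * (Uni.WW y * d0) * rho y ^ K := by ring
      _ ≤ 1 / 2 * (Uni.WW y * dD D y) * rD D y ^ K := by
          have hdp := dD_pos D y
          apply mul_le_mul _ h14 (by positivity) (by positivity)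
          apply mul_le_mul_of_nonneg_left _ (by norm_num)
          exact mul_le_mul_of_nonneg_left h12 hWr.le
  have h14 : c0 / 160 * d0 * (N / Real.log N ^ K) ≤ (Uni.gT (Uni.WW y) R : ℝ) * (c0 * UU K X y) := by
    have h15 : c0 / 160 * d0 * (N / Real.log N ^ K) ≤ d0 / 2 * (Uni.WW y * rho y ^ K) * (c0 * UU K X y) := by
      have h16 : d0 / 2 * (Uni.WW y * rho y ^ K) * (c0 * UU K X y) = c0 / 2 * d0 * (MPhi X / LL X ^ K) := by
        unfold UU
        rw [mul_pow]
        field_simp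
      rw [h16]
      have h17 : (N : ℝ) / 80 / Real.log N ^ K ≤ MPhi X / LL X ^ K := by
        apply div_le_div₀ (MPhi_nonneg X) _ (by positivity) (pow_le_pow_left₀ hL0.le hLN K)
        refine le_trans ?_ h2
        rw [hX]
        linarith
      calc c0 / 160 * d0 * (N / Real.log N ^ K) = c0 / 2 * d0 * ((N : ℝ) / 80 / Real.log N ^ K) := by ring
        _ ≤ _ := by gcongr
    refine h15.trans (mul_le_mul_of_nonneg_right h13 ?_)
    exact mul_nonneg hc0.le (UU_nonneg K hL0.le y)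
  refine (h14.trans h8).trans ?_
  rw [Nat.cast_le]
  apply card_le_card
  intro n hn
  rw [mem_filter, mem_Icc] at hn ⊢
  refine ⟨⟨hn.1.1, ?_⟩, hn.2.1, fun a ha => ?_⟩
  · have h15 : (n : ℝ) ≤ 3 * X := (Nat.le_floor_iff (by positivity)).1 hn.1.2
    have h16 : (n : ℝ) ≤ N := by rw [hX] at h15; linarith
    exact_mod_cast h16
  · have := ro_of_rg hδ h4 (hn.2.2 a ha)
    push_cast at this
    exact this

end Pool.Agent.U288.RO
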