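import Pool.Agent.U288.RO.N2
import Pool.Agent.U288.RO.A2

/-! **Coloured primes: the images of sparse patterns under arbitrary injective maps into a polylogarithmic interval, with
counts.** -/

set_option autoImplicit false

namespace Pool.Agent.U288.RO.Nx

open Finset Filter Topology Pool.Agent.U288.SP

open Classical in
/-- the integers `m`, `|m| ≤ 2 N`, such that all `m + t`, `t ∈ T`, are primes of the same colour -/
noncomputable def monoSet {r : ℕ} (f : ℕ → Fin r) (N : ℕ) (T : Finset ℤ) : Finset ℤ :=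
  (Icc (-(2 * (N : ℤ))) (2 * N)).filter (fun m => (∀ t ∈ T, (m + t).toNat.Prime) ∧ ∃ col : Fin r, ∀ t ∈ T, f (m + t).toNat = col)

/-- the pigeonhole principle for coloured primes -/
lemma pigF {r k s : ℕ} (hs : s ≤ k) (f : ℕ → Fin r) (R : Finset ℕ) (m : ℕ)
    (h : r * k + 1 ≤ (R.filter (fun a => (m + a).Prime)).card) :
    ∃ T ∈ R.powersetCard s, (∀ t ∈ T, (m + t).Prime) ∧ ∃ col : Fin r, ∀ t ∈ T, f (m + t) = col := by
  classical
  obtain ⟨c, _, hc⟩ := exists_lt_card_fiber_of_mul_lt_card_of_maps_to (s := R.filter (fun a => (m + a).Prime))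
    (t := (univ : Finset (Fin r))) (f := fun a => f (m + a)) (n := k) (fun _ _ => mem_univ _) (by
      rw [card_univ, Fintype.card_fin]
      omega)
  obtain ⟨T, hT1, hT2⟩ := exists_subset_card_eq (show s ≤ _ from hs.trans hc.le)
  refine ⟨T, ?_, fun t ht => ?_, c, fun t ht => ?_⟩
  · rw [mem_powersetCard]
    exact ⟨hT1.trans ((filter_subset _ _).trans (filter_subset _ _)), hT2⟩
  · exact (mem_filter.1 (mem_filter.1 (hT1 ht)).1).2
  · exact (mem_filter.1 (hT1 ht)).2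

theorem base_G (r k : ℕ) : ∃ (K M K₁ : ℕ) (c : ℝ), 0 < c ∧ 1 ≤ M ∧ k ≤ K₁ ∧ ∀ A : ℝ, ∀ᶠ N : ℕ in atTop,
    ∀ f : ℕ → Fin r, ∀ V : Finset ℤ, V.card = K₁ → (∀ v ∈ V, |(v : ℝ)| ≤ Real.log N ^ A) →
    (∀ u ∈ V, ∀ v ∈ V, (M : ℤ) ∣ u - v) → ∀ s, 1 ≤ s → s ≤ k → ∃ T ⊆ V, T.card = s ∧
      c * (N / Real.log N ^ K) ≤ ((monoSet f N T).card : ℝ) := by
  classical
  obtain ⟨K, hK, κ, hκ, hlow⟩ := low_global (r * k)
  set M := (4 * K ^ 2).factorial with hM
  have hM1 : 1 ≤ M := Nat.factorial_pos _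
  obtain ⟨c0, hc0, hlow⟩ := hlow M hM1 (fun p hp h => (hp.dvd_factorial).2 h)
  refine ⟨K, M, K + k, c0 / 2 ^ K, by positivity, hM1, by omega, fun A => ?_⟩
  have tN : Tendsto (fun N : ℕ => (N : ℝ)) atTop atTop := tendsto_natCast_atTop_atTop
  have tL : Tendsto (fun N : ℕ => Real.log (N : ℝ)) atTop atTop := Real.tendsto_log_atTop.comp tN
  have e2 : ∀ᶠ N : ℕ in atTop, Real.log N ^ A ≤ (N : ℝ) := by
    have h1 := (isLittleO_log_rpow_rpow_atTop A (show (0 : ℝ) < 1 by norm_num)).bound (show (0 : ℝ) < 1 by norm_num)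
    filter_upwards [tN.eventually h1, eventually_ge_atTop 3] with N hN hN3
    have hNr : (3 : ℝ) ≤ N := by exact_mod_cast hN3
    have hl : 0 ≤ Real.log N := Real.log_nonneg (by linarith)
    rw [Real.norm_of_nonneg (Real.rpow_nonneg hl _), Real.norm_of_nonneg (by positivity), Real.rpow_one, one_mul] at hN
    exact hN
  filter_upwards [hlow (A + 1), e2, tL.eventually_ge_atTop 2] with N hN1 hN2 hN3
  intro f V hVc hVA hVM s hs1 hs2
  have hlN : 0 < Real.log N := by linarith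
  obtain ⟨v₀, V', hv0, hV'c, hV'M, hV'V⟩ := move (M := M) (by omega) hVc hVM
  obtain ⟨R, hRV, hRc⟩ := exists_subset_card_eq (show K ≤ V'.card by omega)
  have hRA : ∀ a ∈ R, (a : ℝ) ≤ Real.log N ^ (A + 1) := by
    intro a ha
    have h1 := hVA _ (hV'V a (hRV ha))
    have h2 := hVA _ hv0
    rw [abs_le] at h1 h2
    push_cast at h1
    rw [Real.rpow_add hlN, Real.rpow_one]
    have h3 : 0 ≤ Real.log N ^ A := Real.rpow_nonneg hlN.le _
    nlinarith
  have h1 := hN1 R hRc hRA (fun a ha => hV'M a (hRV ha))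
  set G := (Icc 1 N).filter (fun n : ℕ => r * k + 1 ≤ (R.filter (fun a => (n + a).Prime)).card ∧
        ∀ a ∈ R, Ro κ N ((n : ℤ) + a)) with hG
  -- the pigeonhole principle for the shapes
  have h2 : G ⊆ (R.powersetCard s).biUnion (fun T => (Icc 1 N).filter (fun n : ℕ => (∀ t ∈ T, (n + t).Prime) ∧
      ∃ col : Fin r, ∀ t ∈ T, f (n + t) = col)) := by
    intro n hn
    rw [hG, mem_filter] at hn
    obtain ⟨T, hT1, hT2, hT3⟩ := pigF hs2 f R n hn.2.1
    rw [mem_biUnion]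
    exact ⟨T, hT1, mem_filter.2 ⟨hn.1, hT2, hT3⟩⟩
  have h3 : ∃ T ∈ R.powersetCard s, c0 / 2 ^ K * (N / Real.log N ^ K) ≤
      (((Icc 1 N).filter (fun n : ℕ => (∀ t ∈ T, (n + t).Prime) ∧ ∃ col : Fin r, ∀ t ∈ T, f (n + t) = col)).card : ℝ) := by
    by_contra hcon
    push Not at hcon
    have h4 : (G.card : ℝ) ≤ ∑ T ∈ R.powersetCard s, (((Icc 1 N).filter (fun n : ℕ => (∀ t ∈ T, (n + t).Prime) ∧
        ∃ col : Fin r, ∀ t ∈ T, f (n + t) = col)).card : ℝ) := by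
      exact_mod_cast (card_le_card h2).trans card_biUnion_le
    have hne : (R.powersetCard s).Nonempty := by
      rw [← card_pos, card_powersetCard]
      apply Nat.choose_pos
      by_contra hlt
      push Not at hlt
      -- then `G` is empty
      have h5 : G = ∅ := by
        rw [hG, filter_eq_empty_iff]
        rintro n _ ⟨h6, _⟩
        have h7 : (R.filter (fun a => (n + a).Prime)).card ≤ R.card := card_filter_le _ _
        obtain ⟨T, hT1, -⟩ := pigF hs2 f R n h6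
        have := (mem_powersetCard.1 hT1)
        have h8 := card_le_card this.1
        omega
      rw [h5, card_empty, Nat.cast_zero] at h1
      have hN0 : (0 : ℝ) < N := by
        rcases Nat.eq_zero_or_pos N with h | h
        · rw [h, Nat.cast_zero, Real.log_zero] at hlN
          exact absurd hlN (lt_irrefl _)
        · exact_mod_cast h
      have : 0 < c0 * (N / Real.log N ^ K) := by positivity
      linarith
    have h5 : ∑ T ∈ R.powersetCard s, (((Icc 1 N).filter (fun n : ℕ => (∀ t ∈ T, (n + t).Prime) ∧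
        ∃ col : Fin r, ∀ t ∈ T, f (n + t) = col)).card : ℝ) < ∑ _T ∈ R.powersetCard s, c0 / 2 ^ K * (N / Real.log N ^ K) :=
      sum_lt_sum_of_nonempty hne hcon
    rw [sum_const, card_powersetCard, nsmul_eq_mul, hRc] at h5
    have h6 : (K.choose s : ℝ) ≤ 2 ^ K := by exact_mod_cast Nat.choose_le_two_pow K s
    have h7 : 0 ≤ c0 / 2 ^ K * (N / Real.log N ^ K) := by positivity
    have h8 : (K.choose s : ℝ) * (c0 / 2 ^ K * (N / Real.log N ^ K)) ≤ 2 ^ K * (c0 / 2 ^ K * (N / Real.log N ^ K)) :=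
      mul_le_mul_of_nonneg_right h6 h7
    have h9 : (2 : ℝ) ^ K * (c0 / 2 ^ K * (N / Real.log N ^ K)) = c0 * (N / Real.log N ^ K) := by
      field_simp
    linarith
  obtain ⟨T, hT1, hT2⟩ := h3
  obtain ⟨hTR, hTc⟩ := mem_powersetCard.1 hT1
  refine ⟨T.image (fun t : ℕ => v₀ + (t : ℤ)), ?_, ?_, hT2.trans ?_⟩
  · intro v hv
    obtain ⟨t, ht, rfl⟩ := mem_image.1 hv
    exact hV'V t (hRV (hTR ht))
  · rw [card_image_of_injective, hTc]
    intro x y hxy
    simp only at hxy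
    omega
  · rw [Nat.cast_le]
    apply card_le_card_of_injOn (fun n : ℕ => (n : ℤ) - v₀)
    · intro n hn
      rw [mem_coe, mem_filter, mem_Icc] at hn
      obtain ⟨⟨hn1, hn2⟩, hn3, col, hn4⟩ := hn
      have hv := hVA _ hv0
      rw [abs_le] at hv
      have hv1 : ((v₀ : ℤ) : ℝ) ≤ ((N : ℕ) : ℝ) := hv.2.trans hN2
      have hv2 : -((N : ℕ) : ℝ) ≤ ((v₀ : ℤ) : ℝ) := by linarith [hv.1]
      have hv1' : v₀ ≤ (N : ℤ) := by exact_mod_cast hv1
      have hv2' : -(N : ℤ) ≤ v₀ := by exact_mod_cast hv2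
      rw [mem_coe]
      unfold monoSet
      rw [mem_filter, mem_Icc]
      have e : ∀ t : ℕ, ((n : ℤ) - v₀ + (v₀ + (t : ℤ))).toNat = n + t := by
        intro t
        have : (n : ℤ) - v₀ + (v₀ + (t : ℤ)) = ((n + t : ℕ) : ℤ) := by
          push_cast
          ring
        rw [this, Int.toNat_natCast]
      dsimp only
      refine ⟨⟨by omega, by omega⟩, fun v hv => ?_, col, fun v hv => ?_⟩
      · obtain ⟨t, ht, rfl⟩ := mem_image.1 hv
        rw [e]
        exact hn3 t ht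
      · obtain ⟨t, ht, rfl⟩ := mem_image.1 hv
        rw [e]
        exact hn4 t ht
    · intro a _ b _ hab
      simp only at hab
      omega

/-- all the images of all the parts have many translates that consist of primes of one colour -/
def HerG {k L r : ℕ} (f : ℕ → Fin r) (w : ℝ) (N : ℕ) (φ : Fin L → ℕ → ℤ) (h : Fin (k + 1) → ℕ) : Prop :=
  ∀ j, ∀ T ⊆ (univ : Finset (Fin k)).image (fun a => h a.succ), T.Nonempty → w ≤ ((monoSet f N (T.image (φ j))).card : ℝ)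

open Classical in
theorem fin_mono (r k L : ℕ) (σ : ℤ) (hσ : σ = 0 ∨ σ = 1 ∨ σ = -1) :
    ∃ (c₁ C c : ℝ) (K : ℕ), 0 < c₁ ∧ 0 < c ∧ ∃ X₀ : ℕ, (∀ X : ℕ, X₀ ≤ X →
      ((shifts (fun _ _ : Fin (k + 1) => σ) X).card : ℝ) ≤
        C * ((X : ℝ) ^ k / Real.log X ^ (if σ = 0 then 0 else k * (k + 1) / 2))) ∧
      ∀ A : ℝ, ∃ N₀ : ℕ, ∀ N : ℕ, N₀ ≤ N → ∀ X : ℕ, X₀ ≤ X → ∀ f : ℕ → Fin r, ∀ φ : Fin L → ℕ → ℤ,
        (∀ j, Set.InjOn (φ j) (Set.Iic X)) → (∀ j, ∀ n ≤ X, |(φ j n : ℝ)| ≤ Real.log N ^ A) →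
        c₁ * ((X : ℝ) ^ k / Real.log X ^ (if σ = 0 then 0 else k * (k + 1) / 2)) ≤
          (((shifts (fun _ _ : Fin (k + 1) => σ) X).filter
            (fun h => HerG f (c * (N / Real.log N ^ K)) N φ h)).card : ℝ) := by
  obtain ⟨K, M, K₁, c, hc, hM, hkK, hbase⟩ := base_G r k
  obtain ⟨c₁, hc1, h1⟩ := hered k 1 L K₁ M hkK hM σ hσ
  obtain ⟨C, hC, h2⟩ := shifts_upper Pool.Agent.Y949.DK.t_SV Pool.Agent.Y185.DK.AV.t_AVG k (fun _ _ => σ)
  rw [edg_const k σ] at h1 h2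
  obtain ⟨X₀, hX⟩ := eventually_atTop.1 (h1.and h2)
  refine ⟨c₁, C, c, K, hc1, hc, X₀, fun X hX0 => (hX X hX0).2, fun A => ?_⟩
  obtain ⟨N₀, hN⟩ := eventually_atTop.1 (hbase A)
  refine ⟨N₀, fun N hN0 X hX0 f φ hφ hφA => ?_⟩
  refine ((hX X hX0).1 (fun _ V => c * (N / Real.log N ^ K) ≤ ((monoSet f N V).card : ℝ)) φ ?_ hφ).trans ?_
  · intro _ V hVZ hVc hVM s hs1 hs2
    refine hN N hN0 f V hVc ?_ hVM s hs1 hs2
    intro v hv
    obtain ⟨j, n, hn, rfl⟩ := hVZ v hv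
    exact hφA j n hn
  · rw [Nat.cast_le]
    apply card_le_card
    intro h hh
    rw [mem_filter] at hh ⊢
    unfold HerI at hh
    exact ⟨hh.1, fun j T hT hTn => hh.2 0 j T hT hTn⟩

end Pool.Agent.U288.RO.Nx
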