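import Pool.Agent.U288.RO.N2
import Pool.Agent.R498.MP.StrC
import Pool.Agent.H304R3.Corner

/-! **Primes with index in a residue class, with almost prime values of a polynomial: the images of sparse patterns.** -/

set_option autoImplicit false

namespace Pool.Agent.U288.RO.Nx

open Finset Filter Polynomial Pool.Agent.U288.SP

lemma card_fin {H : Finset ℕ} {i : ℕ} (hi : i < H.card) : ∀ hf : (Set.ofPred (· ∈ H)).Finite, i < hf.toFinset.card := by
  intro hf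
  have : hf.toFinset = H := by
    ext x
    simp
  rw [this]
  exact hi

/-- the indices of the primes of a string -/
lemma idx_string {x₀ M : ℕ} {H : Finset ℕ} (hH : ∀ h ∈ H, h ≤ M) (hp : ∀ y ≤ M, (x₀ + y).Prime ↔ y ∈ H) {i : ℕ}
    (hi : i < H.card) : Nat.nth Nat.Prime (Nat.count Nat.Prime x₀ + i) = x₀ + Nat.nth (· ∈ H) i := by
  classical
  have hm : Nat.nth (· ∈ H) i ∈ H := Nat.nth_mem i (card_fin hi)
  have h1 : (x₀ + Nat.nth (· ∈ H) i).Prime := (hp _ (hH _ hm)).2 hm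
  have h2 : Nat.count Nat.Prime (x₀ + Nat.nth (· ∈ H) i) = Nat.count Nat.Prime x₀ + i := by
    rw [Nat.count_add]
    congr 1
    calc Nat.count (fun k => Nat.Prime (x₀ + k)) (Nat.nth (· ∈ H) i)
        = Nat.count (· ∈ H) (Nat.nth (· ∈ H) i) := by
          rw [Nat.count_eq_card_filter_range, Nat.count_eq_card_filter_range]
          congr 1
          apply filter_congr
          intro y hy
          have := hH _ hm
          exact hp y (by have := mem_range.1 hy; omega)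
      _ = i := Nat.count_nth (card_fin hi)
  rw [← h2]
  exact Nat.nth_count h1

/-- The set `V` occurs in `(N, 2 N]`: there is a narrow progression of `l` terms `x` for which the `x + v`, `v ∈ V`, are the
primes with the indices `u t + ρ`, `u (t + 1) + ρ`, ... (`|V|` of them), they are `≡ a (mod q)`, and `f` is almost prime. -/
def OccI (f : ℤ[X]) (q a r : ℕ) (w : ℝ) (u ρ l B N : ℕ) (V : Finset ℤ) : Prop :=
  ∃ (m : ℤ) (d : ℕ), 1 ≤ d ∧ (d : ℝ) ≤ Real.log N ^ B ∧ ∀ i < l,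
    (∀ v ∈ V, (N : ℤ) < m + i * d + v ∧ m + i * d + v ≤ 2 * N ∧ m + i * d + v ≡ a [ZMOD q] ∧
      Pool.Agent.R498.MP.AP r w (f.eval (m + i * d + v))) ∧
    ∃ t : ℕ, V.image (fun v => m + i * d + v) =
      (range V.card).image (fun j => ((Nat.nth Nat.Prime (u * (t + j) + ρ) : ℕ) : ℤ))

lemma OccI.mono {f : ℤ[X]} {q a r : ℕ} {w : ℝ} {u ρ l B B' N : ℕ} {V : Finset ℤ} (hN : 3 ≤ N) (hB : B ≤ B')
    (H : OccI f q a r w u ρ l B N V) : OccI f q a r w u ρ l B' N V := by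
  obtain ⟨m, d, h1, h2, h3⟩ := H
  refine ⟨m, d, h1, h2.trans ?_, h3⟩
  have hNr : (3 : ℝ) ≤ N := by exact_mod_cast hN
  apply pow_le_pow_right₀ _ hB
  rw [Real.le_log_iff_exp_le (by linarith)]
  linarith [Real.exp_one_lt_d9]

lemma base_D (f : ℤ[X]) (hz : ∀ n : ℤ, n ≠ 0 → f.eval n ≠ 0)
    (hadm : ∀ p : ℕ, p.Prime → ∃ n : ℤ, ¬ (p : ℤ) ∣ n * f.eval n) (q a : ℕ) (hq : Squarefree q)
    (ha : ∀ p : ℕ, p.Prime → p ∣ q → ¬ (p : ℤ) ∣ (a : ℤ) * f.eval (a : ℤ)) (k U : ℕ) :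
    ∃ (K₁ r : ℕ) (δ : ℝ), 0 < δ ∧ k ≤ K₁ ∧ ∀ V : Finset ℤ, V.card = K₁ → ∀ l : ℕ, ∃ B : ℕ, ∀ᶠ N : ℕ in atTop,
      ∀ u ρ, 1 ≤ u → u ≤ U → ρ < u → ∀ s, 1 ≤ s → s ≤ k →
        ∃ T ⊆ V, T.card = s ∧ OccI f q a r ((N : ℝ) ^ δ) u ρ l B N T := by
  classical
  obtain ⟨K, r, δ, hδ, hmain⟩ := Pool.Agent.R498.MP.stringsCR f hz hadm q a hq ha (U * k)
  refine ⟨max K (k + 1), r, δ, hδ, by omega, fun V hVc l => ?_⟩
  obtain ⟨v₀, V', hv0, hV'c, -, hV'V⟩ := move (M := 1) (by omega) hVc (fun u _ v _ => by simp)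
  choose Wu hWu using fun u : ℕ => Pool.Agent.H304R3.Corner.vdw l u
  set W : ℕ := ∑ u ∈ range (U + 1), Wu u with hW
  have hWle : ∀ u ≤ U, Wu u ≤ W := fun u hu =>
    single_le_sum (f := Wu) (fun _ _ => Nat.zero_le _) (mem_range.2 (by omega))
  obtain ⟨B, hB⟩ := hmain V' (by rw [hV'c]; exact le_max_left _ _) (W + 1)
  refine ⟨B + 1, ?_⟩
  have t1 : Tendsto (fun N : ℕ => Real.log (N : ℝ)) atTop atTop :=
    Real.tendsto_log_atTop.comp tendsto_natCast_atTop_atTop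
  filter_upwards [hB, t1.eventually_ge_atTop (W : ℝ), t1.eventually_ge_atTop 1] with N hN hlogW hlog1
  obtain ⟨H, hHV, hHc, n, d, hd1, hd2, hj⟩ := hN
  intro u ρ hu1 huU hρ s hs1 hs2
  have hHM : ∀ h ∈ H, h ≤ V'.sup id := fun h hh => Finset.le_sup (f := id) (hHV hh)
  have hu0 : 0 < u := hu1
  obtain ⟨x, st, hx1, hx2, hx3, hx4⟩ := hWu u (fun j => ⟨Nat.count Nat.Prime (n + j * d) % u, Nat.mod_lt _ hu0⟩)
  have hWuW := hWle u huU
  -- the residue class of the first index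
  set π₀ := Nat.count Nat.Prime (n + x * d) with hπ₀
  have hcol : ∀ i ≤ l, Nat.count Nat.Prime (n + (x + i * st) * d) % u = π₀ % u := by
    intro i hi
    have h1 := hx4 i hi
    simpa only [Fin.mk.injEq] using h1
  set e := (ρ + (u - π₀ % u)) % u with he
  have heu : e < u := Nat.mod_lt _ hu0
  have hadd : ∀ π : ℕ, π % u = π₀ % u → (π + e) % u = ρ := by
    intro π hπ
    rw [he, Nat.add_mod_mod, ← Nat.mod_add_mod, hπ]
    have h1 := Nat.mod_lt π₀ hu0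
    have h2 : π₀ % u + (ρ + (u - π₀ % u)) = ρ + u := by omega
    rw [h2, Nat.add_mod_right, Nat.mod_eq_of_lt hρ]
  have hHb : ∀ j < s, e + u * j < H.card := by
    intro j hj'
    have h1 : u * j + u ≤ u * s := by
      have : u * (j + 1) ≤ u * s := Nat.mul_le_mul_left _ hj'
      linarith
    have h2 : u * s ≤ U * k := Nat.mul_le_mul huU hs2
    omega
  have hinj : Set.InjOn (fun j : ℕ => v₀ + ((Nat.nth (· ∈ H) (e + u * j) : ℕ) : ℤ)) (range s) := by
    intro j1 h1 j2 h2 h12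
    rw [mem_coe, mem_range] at h1 h2
    simp only at h12
    have h3 : Nat.nth (· ∈ H) (e + u * j1) = Nat.nth (· ∈ H) (e + u * j2) := by omega
    rcases lt_trichotomy j1 j2 with h4 | h4 | h4
    · have h5 : e + u * j1 < e + u * j2 := by
        have : u * j1 < u * j2 := Nat.mul_lt_mul_of_pos_left h4 hu0
        omega
      have h6 := Nat.nth_lt_nth' (p := (· ∈ H)) h5 (card_fin (hHb j2 h2))
      omega
    · exact h4
    · have h5 : e + u * j2 < e + u * j1 := by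
        have : u * j2 < u * j1 := Nat.mul_lt_mul_of_pos_left h4 hu0
        omega
      have h6 := Nat.nth_lt_nth' (p := (· ∈ H)) h5 (card_fin (hHb j1 h1))
      omega
  have hcard : ((range s).image (fun j : ℕ => v₀ + ((Nat.nth (· ∈ H) (e + u * j) : ℕ) : ℤ))).card = s := by
    rw [card_image_of_injOn hinj, card_range]
  refine ⟨(range s).image (fun j => v₀ + ((Nat.nth (· ∈ H) (e + u * j) : ℕ) : ℤ)), ?_, hcard,
    ((n + x * d : ℕ) : ℤ) - v₀, st * d, ?_, ?_, fun i hi => ⟨?_, ?_⟩⟩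
  · intro v hv
    obtain ⟨j, hj', rfl⟩ := mem_image.1 hv
    exact hV'V _ (hHV (Nat.nth_mem _ (card_fin (hHb j (mem_range.1 hj')))))
  · exact Nat.mul_pos hx1 hd1
  · have h1 : (st : ℝ) ≤ Real.log N := le_trans (by exact_mod_cast hx2.trans hWuW) hlogW
    push_cast
    rw [pow_succ, mul_comm]
    exact mul_le_mul hd2 h1 (by positivity) (by positivity)
  · intro v hv
    obtain ⟨j, hj', rfl⟩ := mem_image.1 hv
    have hm : Nat.nth (· ∈ H) (e + u * j) ∈ H := Nat.nth_mem _ (card_fin (hHb j (mem_range.1 hj')))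
    have hxi : x + i * st < W + 1 := by
      have : i * st ≤ l * st := Nat.mul_le_mul_right _ hi.le
      omega
    obtain ⟨g1, g2, g3, g4⟩ := hj (x + i * st) hxi
    obtain ⟨g5, g6⟩ := g4 _ hm
    have e1 : ((n + x * d : ℕ) : ℤ) - v₀ + i * ((st * d : ℕ) : ℤ) + (v₀ + ((Nat.nth (· ∈ H) (e + u * j) : ℕ) : ℤ)) =
        ((n + (x + i * st) * d + Nat.nth (· ∈ H) (e + u * j) : ℕ) : ℤ) := by
      push_cast
      ring
    rw [e1]
    have h3 := hHM _ hm
    refine ⟨by exact_mod_cast (by omega : N < n + (x + i * st) * d + Nat.nth (· ∈ H) (e + u * j)),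
      by exact_mod_cast (by omega : n + (x + i * st) * d + Nat.nth (· ∈ H) (e + u * j) ≤ 2 * N),
      (Int.natCast_modEq_iff).2 g5, g6⟩
  · have hxi : x + i * st < W + 1 := by
      have : i * st ≤ l * st := Nat.mul_le_mul_right _ hi.le
      omega
    obtain ⟨g1, g2, g3, g4⟩ := hj (x + i * st) hxi
    set π := Nat.count Nat.Prime (n + (x + i * st) * d) with hπ
    have hπe := hadd π (hcol i hi.le)
    refine ⟨(π + e) / u, ?_⟩
    rw [hcard, image_image]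
    apply image_congr
    intro j hj'
    have h1 := idx_string hHM g3 (hHb j (by simpa using hj'))
    simp only [Function.comp]
    have h2 : u * ((π + e) / u + j) + ρ = π + (e + u * j) := by
      have h3 := Nat.div_add_mod (π + e) u
      rw [hπe] at h3
      rw [mul_add]
      omega
    rw [h2, h1]
    push_cast
    ring

open Classical in
theorem fin_idx (f : ℤ[X]) (hz : ∀ n : ℤ, n ≠ 0 → f.eval n ≠ 0)
    (hadm : ∀ p : ℕ, p.Prime → ∃ n : ℤ, ¬ (p : ℤ) ∣ n * f.eval n) (q a : ℕ) (hq : Squarefree q)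
    (ha : ∀ p : ℕ, p.Prime → p ∣ q → ¬ (p : ℤ) ∣ (a : ℤ) * f.eval (a : ℤ)) (k L U : ℕ) (σ : ℤ)
    (hσ : σ = 0 ∨ σ = 1 ∨ σ = -1) :
    ∃ (c₁ C δ : ℝ) (r : ℕ), 0 < c₁ ∧ 0 < δ ∧ ∀ᶠ X : ℕ in atTop,
      ((shifts (fun _ _ : Fin (k + 1) => σ) X).card : ℝ) ≤
        C * ((X : ℝ) ^ k / Real.log X ^ (if σ = 0 then 0 else k * (k + 1) / 2)) ∧
      ∀ φ : Fin L → ℕ → ℤ, (∀ j, Set.InjOn (φ j) (Set.Iic X)) → ∀ l : ℕ, ∃ B : ℕ, ∀ᶠ N : ℕ in atTop,
      c₁ * ((X : ℝ) ^ k / Real.log X ^ (if σ = 0 then 0 else k * (k + 1) / 2)) ≤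
        (((shifts (fun _ _ : Fin (k + 1) => σ) X).filter (fun h => ∀ u ρ, 1 ≤ u → u ≤ U → ρ < u → ∀ j,
          ∀ T ⊆ (univ : Finset (Fin k)).image (fun a => h a.succ), T.Nonempty →
            OccI f q a r ((N : ℝ) ^ δ) u ρ l B N (T.image (φ j)))).card : ℝ) := by
  obtain ⟨K₁, r, δ, hδ, hkK, hbase⟩ := base_D f hz hadm q a hq ha k U
  obtain ⟨c₁, hc1, h1⟩ := hered k (U * U) L K₁ 1 hkK le_rfl σ hσ
  obtain ⟨C, hC, h2⟩ := shifts_upper Pool.Agent.Y949.DK.t_SV Pool.Agent.Y185.DK.AV.t_AVG k (fun _ _ => σ)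
  refine ⟨c₁, C, δ, r, hc1, hδ, ?_⟩
  rw [edg_const k σ] at h1 h2
  filter_upwards [h1, h2] with X hX1 hX2
  refine ⟨hX2, fun φ hφ l => ?_⟩
  set Z : Finset ℤ := (univ : Finset (Fin L)).biUnion (fun j => (range (X + 1)).image (φ j)) with hZ
  choose B hB using fun V : {V : Finset ℤ // V.card = K₁} => hbase V.1 V.2 l
  set BM := Z.powerset.sup (fun V => if h : V.card = K₁ then B ⟨V, h⟩ else 0) with hBM
  refine ⟨BM, ?_⟩
  have h3 : ∀ᶠ N : ℕ in atTop, ∀ V ∈ Z.powerset, V.card = K₁ → ∀ u ρ, 1 ≤ u → u ≤ U → ρ < u → ∀ s, 1 ≤ s → s ≤ k →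
      ∃ T ⊆ V, T.card = s ∧ OccI f q a r ((N : ℝ) ^ δ) u ρ l BM N T := by
    rw [Filter.eventually_all_finset]
    intro V hV
    by_cases hVc : V.card = K₁
    swap
    · exact Eventually.of_forall fun N h => absurd h hVc
    filter_upwards [hB ⟨V, hVc⟩, eventually_ge_atTop 3] with N hN hN3 _ u ρ hu1 hu2 hρ s hs1 hs2
    obtain ⟨T, hT1, hT2, hT3⟩ := hN u ρ hu1 hu2 hρ s hs1 hs2
    refine ⟨T, hT1, hT2, hT3.mono hN3 ?_⟩
    have h6 := Finset.le_sup (f := fun V => if h : V.card = K₁ then B ⟨V, h⟩ else 0) hV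
    rw [← hBM] at h6
    simpa only [dif_pos hVc] using h6
  filter_upwards [h3] with N hN
  refine (hX1 (fun i V => (i : ℕ) % U < (i : ℕ) / U + 1 →
    OccI f q a r ((N : ℝ) ^ δ) ((i : ℕ) / U + 1) ((i : ℕ) % U) l BM N V) φ ?_ hφ).trans ?_
  · intro i V hVZ hVc _ s hs1 hs2
    by_cases hi : (i : ℕ) % U < (i : ℕ) / U + 1
    swap
    · obtain ⟨T, hT1, hT2⟩ := exists_subset_card_eq (show s ≤ V.card by omega)
      exact ⟨T, hT1, hT2, fun h => absurd h hi⟩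
    have hiU : (i : ℕ) / U < U := Nat.div_lt_of_lt_mul i.isLt
    obtain ⟨T, hT1, hT2, hT3⟩ := hN V (by
      rw [mem_powerset]
      intro v hv
      obtain ⟨j, n, hn, rfl⟩ := hVZ v hv
      rw [hZ, mem_biUnion]
      exact ⟨j, mem_univ j, mem_image_of_mem _ (mem_range.2 (by omega))⟩) hVc ((i : ℕ) / U + 1) ((i : ℕ) % U)
      (by omega) (by omega) hi s hs1 hs2
    exact ⟨T, hT1, hT2, fun _ => hT3⟩
  · rw [Nat.cast_le]
    apply card_le_card
    intro h hh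
    rw [mem_filter] at hh ⊢
    unfold HerI at hh
    refine ⟨hh.1, fun u ρ hu1 hu2 hρ j T hT hTn => ?_⟩
    have hU : 0 < U := by omega
    have h4 : (u - 1) * U + ρ < U * U := by
      calc (u - 1) * U + ρ < (u - 1) * U + U := by omega
        _ = ((u - 1) + 1) * U := by ring
        _ ≤ U * U := Nat.mul_le_mul_right _ (by omega)
    have h5 := hh.2 ⟨(u - 1) * U + ρ, h4⟩ j T hT hTn
    have h6 : ((u - 1) * U + ρ) / U = u - 1 := by
      rw [mul_comm, Nat.mul_add_div hU, Nat.div_eq_of_lt (by omega), add_zero]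
    have h7 : ((u - 1) * U + ρ) % U = ρ := by
      rw [Nat.mul_comm, Nat.mul_add_mod, Nat.mod_eq_of_lt (by omega)]
    simp only [h6, h7] at h5
    have h8 : u - 1 + 1 = u := by omega
    rw [h8] at h5
    exact h5 hρ

end Pool.Agent.U288.RO.Nx
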