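import Pool.Agent.U288.RO.N2
import Pool.Agent.R498.MP.StrC

/-! **Half missing and almost missing integers: the images of sparse patterns.** -/

set_option autoImplicit false

namespace Pool.Agent.U288.RO.Nx

open Finset Filter Polynomial Pool.Agent.U288.SP

/-- the number `6 n - 1` is prime -/
def Half (n : ℤ) : Prop := (6 * n - 1).toNat.Prime

/-- `6 n + 1` has at most `r` prime factors, all of them `≥ w` -/
def Alm (r : ℕ) (w : ℝ) (n : ℤ) : Prop :=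
  (6 * n + 1).natAbs.primeFactorsList.length ≤ r ∧ ∀ p : ℕ, p.Prime → (p : ℤ) ∣ 6 * n + 1 → w ≤ p

/-- the set `V` occurs in `(N, 2 N]` -/
def OccH (q c r : ℕ) (w : ℝ) (l B N : ℕ) (V : Finset ℤ) : Prop :=
  ∃ (m : ℤ) (d : ℕ), 1 ≤ d ∧ (d : ℝ) ≤ Real.log N ^ B ∧ ∀ i < l,
    (∀ v ∈ V, (N : ℤ) < m + i * d + v ∧ m + i * d + v ≤ 2 * N ∧ Half (m + i * d + v) ∧
      m + i * d + v ≡ c [ZMOD q] ∧ Alm r w (m + i * d + v)) ∧
    ∀ n : ℤ, Half n → (∃ v ∈ V, m + i * d + v ≤ n) → (∃ v ∈ V, n ≤ m + i * d + v) → ∃ v ∈ V, n = m + i * d + v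

lemma sq6 : Squarefree 6 := by
  have h : Squarefree (2 * 3) := (Nat.squarefree_mul_iff).2 ⟨by norm_num, Irreducible.squarefree Nat.prime_two,
    Irreducible.squarefree Nat.prime_three⟩
  simpa using h

lemma first_nat {j : ℕ} (H : Finset ℕ) (h : j + 1 ≤ H.card) : ∃ v : Fin (j + 1) → ℕ, StrictMono v ∧
    (∀ i, v i ∈ H) ∧ ∀ u ∈ H, u ≤ v (Fin.last j) → ∃ i, u = v i := by
  classical
  set f := H.orderEmbOfFin rfl with hf
  refine ⟨fun i => f (Fin.castLE h i), fun a b hab => f.strictMono (by simpa using hab),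
    fun i => H.orderEmbOfFin_mem rfl _, fun u hu h2 => ?_⟩
  have h6 : u ∈ Set.range f := by
    rw [hf, range_orderEmbOfFin]
    exact hu
  obtain ⟨b, hb⟩ := h6
  rw [← hb] at h2
  have h7 : (b : ℕ) ≤ j := f.le_iff_le.1 h2
  exact ⟨⟨b, by omega⟩, by rw [← hb]; rfl⟩

lemma base_B (k q c : ℕ) (hq : Squarefree q) (h6 : Nat.Coprime 6 q)
    (hc : ∀ p : ℕ, p.Prime → p ∣ q → ¬ (p : ℤ) ∣ (6 * (c : ℤ) - 1) * (6 * c + 1)) :
    ∃ (K₁ r : ℕ) (δ : ℝ), 0 < δ ∧ k ≤ K₁ ∧ ∀ V : Finset ℤ, V.card = K₁ → ∀ l : ℕ, ∃ B : ℕ, ∀ᶠ N : ℕ in atTop,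
      ∀ s, 1 ≤ s → s ≤ k → ∃ T ⊆ V, T.card = s ∧ OccH q c r ((N : ℝ) ^ δ) l B N T := by
  classical
  have hq0 : 1 ≤ q := Nat.pos_of_ne_zero hq.ne_zero
  set f : ℤ[X] := X + C 2 with hf
  have hev : ∀ n : ℤ, f.eval n = n + 2 := fun n => by rw [hf]; simp
  have hf0 : f ≠ 0 := by
    intro h
    have h1 := hev 0
    rw [h, eval_zero] at h1
    norm_num at h1
  set a : ℕ := 6 * c + 6 * q - 1 with ha
  have haZ : (a : ℤ) = 6 * c + 6 * q - 1 := by
    rw [ha]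
    omega
  obtain ⟨K, r, δ, hδ, hmain⟩ := Pool.Agent.R498.MP.stringsC f hf0 (fun p hp => ⟨-1, by
      rw [hev]
      intro h
      have h1 : (p : ℤ) ∣ 1 := by
        have e : (-1 : ℤ) * (-1 + 2) = -1 := by norm_num
        rw [e] at h
        exact (dvd_neg.1 h)
      have h2 := Int.natCast_dvd_natCast.1 (show (p : ℤ) ∣ ((1 : ℕ) : ℤ) by exact_mod_cast h1)
      exact hp.one_lt.ne' (Nat.dvd_one.1 h2)⟩) (6 * q) a
    ((Nat.squarefree_mul_iff).2 ⟨h6, sq6, hq⟩) (fun p hp hpq => by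
      rw [hev, haZ]
      intro h
      rcases (hp.dvd_mul).1 hpq with h1 | h1
      · have h2 : (p : ℤ) ∣ 6 := by exact_mod_cast h1
        have e : (6 * (c : ℤ) + 6 * q - 1) * (6 * (c : ℤ) + 6 * q - 1 + 2) = 6 * (6 * (c + q) * (c + q)) - 1 := by ring
        rw [e] at h
        have h3 : (p : ℤ) ∣ 1 := by
          have h4 := dvd_sub (Dvd.dvd.mul_right h2 (6 * ((c : ℤ) + q) * (c + q))) h
          have e2 : 6 * (6 * ((c : ℤ) + q) * (c + q)) - (6 * (6 * ((c : ℤ) + q) * (c + q)) - 1) = 1 := by ring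
          rwa [e2] at h4
        have h4 := Int.natCast_dvd_natCast.1 (show (p : ℤ) ∣ ((1 : ℕ) : ℤ) by exact_mod_cast h3)
        exact hp.one_lt.ne' (Nat.dvd_one.1 h4)
      · apply hc p hp h1
        have h2 : (p : ℤ) ∣ q := by exact_mod_cast h1
        have e : (6 * (c : ℤ) - 1) * (6 * c + 1) =
            (6 * (c : ℤ) + 6 * q - 1) * (6 * (c : ℤ) + 6 * q - 1 + 2) - q * (36 * (2 * c + q)) := by ring
        rw [e]
        exact dvd_sub h (Dvd.dvd.mul_right h2 _)) k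
  refine ⟨max K (k + 1), r, δ, hδ, by omega, fun V hVc l => ?_⟩
  obtain ⟨v₀, V', hv0, hV'c, -, hV'V⟩ := move (M := 1) (by omega) hVc (fun u _ v _ => by simp)
  set S := V'.image (fun t => 6 * t) with hS
  have hSc : K ≤ S.card := by
    rw [hS, card_image_of_injective _ (fun x y hxy => by simpa using hxy), hV'c]
    exact le_max_left _ _
  have hS6 : ∀ y ∈ S, ∃ t ∈ V', y = 6 * t := by
    intro y hy
    obtain ⟨t, ht, rfl⟩ := mem_image.1 hy
    exact ⟨t, ht, rfl⟩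
  obtain ⟨B, hB⟩ := hmain S hSc (l + 2)
  have ht : Tendsto (fun N : ℕ => 6 * N) atTop atTop := by
    apply tendsto_atTop_mono (fun n => ?_) tendsto_id
    simp only [id]
    omega
  refine ⟨B + 1, ?_⟩
  have hlog : ∀ᶠ N : ℕ in atTop, Real.log ((6 * N : ℕ) : ℝ) ^ B ≤ Real.log N ^ (B + 1) := by
    have t1 : Tendsto (fun N : ℕ => Real.log (N : ℝ)) atTop atTop :=
      Real.tendsto_log_atTop.comp tendsto_natCast_atTop_atTop
    filter_upwards [t1.eventually_ge_atTop ((2 : ℝ) ^ B), t1.eventually_ge_atTop 6, eventually_ge_atTop 1] with N h1 h2 h3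
    have hN : (0 : ℝ) < N := by exact_mod_cast h3
    have h4 : Real.log ((6 * N : ℕ) : ℝ) ≤ 2 * Real.log N := by
      push_cast
      rw [Real.log_mul (by norm_num) hN.ne']
      have h5 : Real.log 6 ≤ 6 - 1 := Real.log_le_sub_one_of_pos (by norm_num)
      linarith
    have h5 : 0 ≤ Real.log ((6 * N : ℕ) : ℝ) := Real.log_nonneg (by
      exact_mod_cast (by omega : 1 ≤ 6 * N))
    calc Real.log ((6 * N : ℕ) : ℝ) ^ B ≤ (2 * Real.log N) ^ B := pow_le_pow_left₀ h5 h4 B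
      _ = 2 ^ B * Real.log N ^ B := by rw [mul_pow]
      _ ≤ Real.log N * Real.log N ^ B := by
          apply mul_le_mul_of_nonneg_right h1
          positivity
      _ = Real.log N ^ (B + 1) := by rw [pow_succ]; ring
  filter_upwards [ht.eventually hB, hlog] with N hN hlogN
  intro s hs1 hs2
  obtain ⟨H, hHS, hHk, n, d, hn1, hn2, hd1, hd2, hj⟩ := hN
  obtain ⟨v, hv1, hv2, hv3⟩ := first_nat (j := s - 1) H (by omega)
  -- the points divided by 6
  have hv6 : ∀ i, ∃ t ∈ V', v i = 6 * t := fun i => hS6 _ (hHS (hv2 i))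
  choose t htV htv using hv6
  have ht1 : StrictMono t := by
    intro x y hxy
    have h1 := hv1 hxy
    rw [htv, htv] at h1
    omega
  -- residues modulo `6 q`
  have hres : ∀ i < l + 2, ∀ j, (6 * q : ℤ) ∣ (6 * c + 6 * q - 1 : ℤ) - ((n + i * d + v j : ℕ) : ℤ) := by
    intro i hi j
    have h1 := ((hj i hi).1 (v j) (hv2 j)).2.1
    have h2 : ((n + i * d + v j : ℕ) : ℤ) ≡ (a : ℤ) [ZMOD ((6 * q : ℕ) : ℤ)] := (Int.natCast_modEq_iff).2 h1
    have h3 := h2.dvd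
    rw [haZ] at h3
    exact_mod_cast h3
  have hn6 : ∃ m₁ : ℕ, n + 1 = 6 * m₁ := by
    have h1 := (Dvd.intro (q : ℤ) rfl : (6 : ℤ) ∣ 6 * q).trans (hres 0 (by omega) 0)
    rw [htv 0] at h1
    obtain ⟨w, hw⟩ := h1
    refine ⟨(n + 1) / 6, ?_⟩
    push_cast at hw
    omega
  obtain ⟨m₁, hm₁⟩ := hn6
  have hd6 : ∃ d₁ : ℕ, d = 6 * d₁ := by
    have h1 := (Dvd.intro (q : ℤ) rfl : (6 : ℤ) ∣ 6 * q).trans (hres 1 (by omega) 0)
    rw [htv 0] at h1
    obtain ⟨w, hw⟩ := h1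
    refine ⟨d / 6, ?_⟩
    push_cast at hw
    omega
  obtain ⟨d₁, hd₁⟩ := hd6
  have hx : ∀ i : ℕ, (n : ℤ) + i * d = 6 * ((m₁ : ℤ) + i * d₁) - 1 := by
    intro i
    have e1 : (n : ℤ) + 1 = 6 * m₁ := by exact_mod_cast hm₁
    have e2 : (d : ℤ) = 6 * d₁ := by exact_mod_cast hd₁
    rw [e2]
    linarith
  have hup : ∀ y ∈ S, y ≤ S.sup id := fun y hy => Finset.le_sup (f := id) hy
  refine ⟨univ.image (fun j => v₀ + (t j : ℤ)), ?_, ?_, (m₁ : ℤ) - v₀, d₁, ?_, ?_, fun i hi => ⟨?_, ?_⟩⟩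
  · intro y hy
    obtain ⟨j, _, rfl⟩ := mem_image.1 hy
    exact hV'V _ (htV j)
  · rw [card_image_of_injective, card_univ, Fintype.card_fin]
    · omega
    · intro x y hxy
      simp only at hxy
      exact ht1.injective (by omega)
  · omega
  · refine le_trans ?_ (hd2.trans hlogN)
    exact_mod_cast (by omega : d₁ ≤ d)
  · intro y hy
    obtain ⟨j, _, rfl⟩ := mem_image.1 hy
    obtain ⟨g1, g2, g3, g4⟩ := (hj i (by omega)).1 (v j) (hv2 j)
    have e : (m₁ : ℤ) - v₀ + i * d₁ + (v₀ + (t j : ℤ)) = (m₁ : ℤ) + i * d₁ + t j := by ring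
    rw [e]
    have e2 : 6 * ((m₁ : ℤ) + i * d₁ + t j) - 1 = ((n + i * d + v j : ℕ) : ℤ) := by
      push_cast
      rw [htv j]
      have := hx i
      push_cast
      linarith
    have hsup := hup _ (hHS (hv2 j))
    have hid : i * d ≤ (l + 2) * d := Nat.mul_le_mul_right _ (by omega)
    have hid0 : 0 ≤ (i : ℤ) * d₁ := by positivity
    refine ⟨?_, ?_, ?_, ?_, ?_, ?_⟩
    · have h1 : (6 : ℤ) * N < n := by exact_mod_cast hn1
      have h2 : (n : ℤ) + 1 = 6 * m₁ := by exact_mod_cast hm₁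
      have h3 : (0 : ℤ) ≤ t j := by positivity
      linarith
    · have h1 : ((n + i * d + v j : ℕ) : ℤ) ≤ 2 * (6 * N) := by exact_mod_cast (by omega : n + i * d + v j ≤ 2 * (6 * N))
      rw [← e2] at h1
      omega
    · unfold Half
      rw [e2, Int.toNat_natCast]
      exact g1
    · have h1 := hres i (by omega) j
      rw [← e2] at h1
      obtain ⟨w, hw⟩ := h1
      apply Int.ModEq.symm
      rw [Int.modEq_iff_dvd]
      refine ⟨1 - w, ?_⟩
      have h2 : (6 : ℤ) * (c + q - ((m₁ : ℤ) + i * d₁ + t j)) = 6 * (q * w) := by linarith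
      have h3 : (c : ℤ) + q - ((m₁ : ℤ) + i * d₁ + t j) = q * w := by omega
      linarith
    · rw [hev] at g3
      have e3 : 6 * ((m₁ : ℤ) + i * d₁ + t j) + 1 = ((n + i * d + v j : ℕ) : ℤ) + 2 := by linarith
      rw [e3]
      exact g3
    · intro p hp hpd
      have e3 : 6 * ((m₁ : ℤ) + i * d₁ + t j) + 1 = ((n + i * d + v j : ℕ) : ℤ) + 2 := by linarith
      rw [e3] at hpd
      have h1 := g4 p hp (by rw [hev]; exact hpd)
      refine le_trans ?_ h1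
      apply Real.rpow_le_rpow (Nat.cast_nonneg _) _ hδ.le
      exact_mod_cast (by omega : N ≤ 6 * N)
  · intro y hy h1 h2
    obtain ⟨u1, hu1, h1⟩ := h1
    obtain ⟨u2, hu2, h2⟩ := h2
    obtain ⟨j1, _, rfl⟩ := mem_image.1 hu1
    obtain ⟨j2, _, rfl⟩ := mem_image.1 hu2
    have e : ∀ j, (m₁ : ℤ) - v₀ + i * d₁ + (v₀ + (t j : ℤ)) = (m₁ : ℤ) + i * d₁ + t j := fun j => by ring
    rw [e] at h1 h2
    obtain ⟨y', hy'⟩ : ∃ y' : ℕ, y = (m₁ : ℤ) + i * d₁ + y' := ⟨(y - ((m₁ : ℤ) + i * d₁)).toNat, by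
      have : (0 : ℤ) ≤ t j1 := by positivity
      omega⟩
    rw [hy'] at h1 h2 hy
    have h3 : y' ≤ t j2 := by
      have : (y' : ℤ) ≤ t j2 := by linarith
      exact_mod_cast this
    have h4 : t j2 ≤ t (Fin.last _) := ht1.monotone (Fin.le_last _)
    have h5 : 6 * y' ≤ v (Fin.last _) := by
      rw [htv]
      omega
    have h6' : 6 * y' ≤ S.sup id := h5.trans (hup _ (hHS (hv2 _)))
    have hprime : (n + i * d + 6 * y').Prime := by
      unfold Half at hy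
      have e2 : 6 * ((m₁ : ℤ) + i * d₁ + y') - 1 = ((n + i * d + 6 * y' : ℕ) : ℤ) := by
        push_cast
        have := hx i
        linarith
      rw [e2, Int.toNat_natCast] at hy
      exact hy
    have hmem : 6 * y' ∈ H := by
      by_contra hcon
      refine (hj i (by omega)).2 (6 * y') h6' hcon (fun h hh hne => ?_) hprime
      rw [hev]
      obtain ⟨t', _, rfl⟩ := hS6 h hh
      push_cast
      omega
    obtain ⟨j, hj'⟩ := hv3 _ hmem h5
    refine ⟨v₀ + (t j : ℤ), mem_image_of_mem _ (mem_univ j), ?_⟩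
    rw [e, hy']
    rw [htv] at hj'
    have : y' = t j := by omega
    rw [this]

/-- the exponent `B` may be enlarged -/
lemma OccH.mono {q c r : ℕ} {w : ℝ} {l B B' N : ℕ} {V : Finset ℤ} (hN : 3 ≤ N) (hB : B ≤ B')
    (H : OccH q c r w l B N V) : OccH q c r w l B' N V := by
  obtain ⟨m, d, h1, h2, h3⟩ := H
  refine ⟨m, d, h1, h2.trans ?_, h3⟩
  have hNr : (3 : ℝ) ≤ N := by exact_mod_cast hN
  apply pow_le_pow_right₀ _ hB
  rw [Real.le_log_iff_exp_le (by linarith)]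
  linarith [Real.exp_one_lt_d9]

/-- all the images of all the parts occur -/
def HerH {k L : ℕ} (q c r : ℕ) (w : ℝ) (l B N : ℕ) (φ : Fin L → ℕ → ℤ) (h : Fin (k + 1) → ℕ) : Prop :=
  ∀ j, ∀ T ⊆ (univ : Finset (Fin k)).image (fun a => h a.succ), T.Nonempty → OccH q c r w l B N (T.image (φ j))

open Classical in
theorem fin_half (k L q c : ℕ) (hq : Squarefree q) (h6 : Nat.Coprime 6 q)
    (hc : ∀ p : ℕ, p.Prime → p ∣ q → ¬ (p : ℤ) ∣ (6 * (c : ℤ) - 1) * (6 * c + 1)) (σ : ℤ)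
    (hσ : σ = 0 ∨ σ = 1 ∨ σ = -1) :
    ∃ (c₁ C δ : ℝ) (r : ℕ), 0 < c₁ ∧ 0 < δ ∧ ∀ᶠ X : ℕ in atTop,
      ((shifts (fun _ _ : Fin (k + 1) => σ) X).card : ℝ) ≤
        C * ((X : ℝ) ^ k / Real.log X ^ (if σ = 0 then 0 else k * (k + 1) / 2)) ∧
      ∀ φ : Fin L → ℕ → ℤ, (∀ j, Set.InjOn (φ j) (Set.Iic X)) → ∀ l : ℕ, ∃ B : ℕ, ∀ᶠ N : ℕ in atTop,
      c₁ * ((X : ℝ) ^ k / Real.log X ^ (if σ = 0 then 0 else k * (k + 1) / 2)) ≤
        (((shifts (fun _ _ : Fin (k + 1) => σ) X).filter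
          (fun h => HerH q c r ((N : ℝ) ^ δ) l B N φ h)).card : ℝ) := by
  obtain ⟨K₁, r, δ, hδ, hkK, hbase⟩ := base_B k q c hq h6 hc
  obtain ⟨c₁, hc1, h1⟩ := hered k 1 L K₁ 1 hkK le_rfl σ hσ
  obtain ⟨C, hC, h2⟩ := shifts_upper Pool.Agent.Y949.DK.t_SV Pool.Agent.Y185.DK.AV.t_AVG k (fun _ _ => σ)
  refine ⟨c₁, C, δ, r, hc1, hδ, ?_⟩
  rw [edg_const k σ] at h1 h2
  filter_upwards [h1, h2] with X hX1 hX2
  refine ⟨hX2, fun φ hφ l => ?_⟩
  set Z : Finset ℤ := (univ : Finset (Fin L)).biUnion (fun j => (range (X + 1)).image (φ j)) with hZ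
  choose B hB using fun V : {V : Finset ℤ // V.card = K₁} => hbase V.1 V.2 l
  set BM := Z.powerset.sup (fun V => if h : V.card = K₁ then B ⟨V, h⟩ else 0) with hBM
  refine ⟨BM, ?_⟩
  have h3 : ∀ᶠ N : ℕ in atTop, ∀ V ∈ Z.powerset, V.card = K₁ → ∀ s, 1 ≤ s → s ≤ k →
      ∃ T ⊆ V, T.card = s ∧ OccH q c r ((N : ℝ) ^ δ) l BM N T := by
    rw [Filter.eventually_all_finset]
    intro V hV
    by_cases hVc : V.card = K₁
    swap
    · exact Eventually.of_forall fun N h => absurd h hVc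
    filter_upwards [hB ⟨V, hVc⟩, eventually_ge_atTop 3] with N hN hN3 _ s hs1 hs2
    obtain ⟨T, hT1, hT2, hT3⟩ := hN s hs1 hs2
    refine ⟨T, hT1, hT2, hT3.mono hN3 ?_⟩
    have h6 := Finset.le_sup (f := fun V => if h : V.card = K₁ then B ⟨V, h⟩ else 0) hV
    rw [← hBM] at h6
    simpa only [dif_pos hVc] using h6
  filter_upwards [h3] with N hN
  refine (hX1 (fun _ V => OccH q c r ((N : ℝ) ^ δ) l BM N V) φ ?_ hφ).trans ?_
  · intro _ V hVZ hVc _ s hs1 hs2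
    refine hN V ?_ hVc s hs1 hs2
    rw [mem_powerset]
    intro v hv
    obtain ⟨j, n, hn, rfl⟩ := hVZ v hv
    rw [hZ, mem_biUnion]
    exact ⟨j, mem_univ j, mem_image_of_mem _ (mem_range.2 (by omega))⟩
  · rw [Nat.cast_le]
    apply card_le_card
    intro h hh
    rw [mem_filter] at hh ⊢
    unfold HerI at hh
    exact ⟨hh.1, fun j T hT hTn => hh.2 0 j T hT hTn⟩

end Pool.Agent.U288.RO.Nx
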