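import Pool.Agent.U288.RO.N2
import Pool.Agent.U288.SP.Cl2

/-! **Simultaneous almost prime values of a quadratic polynomial and of another polynomial: the images of sparse patterns
under arbitrary injective maps.** -/

set_option autoImplicit false

namespace Pool.Agent.U288.RO.Nx

open Finset Filter Polynomial Pool.Agent.U288.SP

/-- the set `T` occurs in the window `(N, N + 2 N ^ (3/4)]` -/
def OccF (A B C : ℤ) (f : ℤ[X]) (r : ℕ) (δ : ℝ) (l b N : ℕ) (T : Finset ℤ) : Prop :=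
  ∃ (m : ℤ) (d : ℕ), 1 ≤ d ∧ (d : ℝ) ≤ Real.log N ^ b ∧ ∀ i < l, ∀ v ∈ T, (N : ℤ) < m + i * d + v ∧
    ((m + i * d + v : ℤ) : ℝ) ≤ N + 2 * (N : ℝ) ^ (3 / 4 : ℝ) ∧
    APr 3 ((N : ℝ) ^ (73 / 400 : ℝ)) (A * (m + i * d + v) ^ 2 + B * (m + i * d + v) + C) ∧
    APr r ((N : ℝ) ^ δ) (f.eval (m + i * d + v))

lemma OccF.mono {A B C : ℤ} {f : ℤ[X]} {r r' : ℕ} {δ δ' : ℝ} {l b b' N : ℕ} {T : Finset ℤ} (hN : 3 ≤ N) (hr : r ≤ r')
    (hδ : δ' ≤ δ) (hb : b ≤ b') (H : OccF A B C f r δ l b N T) : OccF A B C f r' δ' l b' N T := by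
  obtain ⟨m, d, h1, h2, h3⟩ := H
  have hNr : (3 : ℝ) ≤ N := by exact_mod_cast hN
  refine ⟨m, d, h1, h2.trans ?_, fun i hi v hv => ?_⟩
  · apply pow_le_pow_right₀ _ hb
    rw [Real.le_log_iff_exp_le (by linarith)]
    linarith [Real.exp_one_lt_d9]
  · obtain ⟨g1, g2, g3, g4⟩ := h3 i hi v hv
    exact ⟨g1, g2, g3, g4.mono hr (Real.rpow_le_rpow_of_exponent_le (by linarith) hδ)⟩

lemma base_F (A B C : ℤ) (hA : A ≠ 0) (hΔ : ¬ IsSquare (B ^ 2 - 4 * A * C)) (f : ℤ[X]) (hf : f ≠ 0)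
    (hadm : ∀ p : ℕ, p.Prime → ∃ n : ℤ, ¬ (p : ℤ) ∣ (A * n ^ 2 + B * n + C) * f.eval n) (k : ℕ) :
    ∃ K₁ : ℕ, k ≤ K₁ ∧ ∀ V : Finset ℤ, V.card = K₁ → ∃ (r : ℕ) (δ : ℝ), 0 < δ ∧ ∀ l : ℕ, ∃ b : ℕ, ∀ᶠ N : ℕ in atTop,
      ∀ s, 1 ≤ s → s ≤ k → ∃ T ⊆ V, T.card = s ∧ OccF A B C f r δ l b N T := by
  classical
  obtain ⟨K, hK⟩ := Pool.Agent.R498.MT.quad_sys A B C hA hΔ f hf hadm k
  obtain ⟨n₀, hn₀⟩ := Pool.Agent.Y677.RSZ.ne_zero_ev f hf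
  refine ⟨max K (k + 1), by omega, fun V hVc => ?_⟩
  obtain ⟨v₀, V', hv0, hV'c, -, hV'V⟩ := move (M := 1) (by omega) hVc (fun u _ v _ => by simp)
  obtain ⟨r, δ, hδ, hl⟩ := hK V' (by rw [hV'c]; exact le_max_left _ _)
  refine ⟨r, δ, hδ, fun l => ?_⟩
  obtain ⟨b, hb⟩ := hl l
  refine ⟨b, ?_⟩
  have hM : ∀ᶠ N : ℕ in atTop, ((V'.sup id : ℕ) : ℝ) ≤ (N : ℝ) ^ (3 / 4 : ℝ) :=
    ((tendsto_rpow_atTop (by norm_num)).comp tendsto_natCast_atTop_atTop).eventually_ge_atTop _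
  filter_upwards [hb, hM, eventually_ge_atTop n₀] with N hN hNM hNn
  intro s hs1 hs2
  obtain ⟨H, hHV, hHc, n, d, hd1, hd2, hj⟩ := hN
  obtain ⟨H', hH'H, hH'c⟩ := exists_subset_card_eq (show s ≤ H.card by omega)
  refine ⟨H'.image (fun t : ℕ => v₀ + (t : ℤ)), ?_, ?_, (n : ℤ) - v₀, d, hd1, hd2, fun i hi v hv => ?_⟩
  · intro v hv
    obtain ⟨t, ht, rfl⟩ := mem_image.1 hv
    exact hV'V t (hHV (hH'H ht))
  · rw [card_image_of_injective, hH'c]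
    intro x y hxy
    simp only at hxy
    omega
  · obtain ⟨t, ht, rfl⟩ := mem_image.1 hv
    obtain ⟨g1, g2, g3⟩ := hj i hi
    obtain ⟨g4, g5, g6, g7⟩ := g3 t (hH'H ht)
    have e : (n : ℤ) - v₀ + i * d + (v₀ + (t : ℤ)) = ((n + i * d + t : ℕ) : ℤ) := by
      push_cast
      ring
    rw [e]
    have ht2 : t ≤ V'.sup id := Finset.le_sup (f := id) (hHV (hH'H ht))
    refine ⟨?_, ?_, ⟨?_, g4, g5⟩, hn₀ _ (by omega), g6, g7⟩
    · exact_mod_cast (by omega : N < n + i * d + t)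
    · have h1 : (t : ℝ) ≤ (N : ℝ) ^ (3 / 4 : ℝ) := le_trans (by exact_mod_cast ht2) hNM
      push_cast at g2 ⊢
      linarith
    · exact Pool.Agent.R498.MT.QG_ne_zero A B C hΔ _

/-- all the images of all the parts occur -/
def HerF {k L : ℕ} (A B C : ℤ) (f : ℤ[X]) (r : ℕ) (δ : ℝ) (l b N : ℕ) (φ : Fin L → ℕ → ℤ) (h : Fin (k + 1) → ℕ) : Prop :=
  ∀ j, ∀ T ⊆ (univ : Finset (Fin k)).image (fun a => h a.succ), T.Nonempty → OccF A B C f r δ l b N (T.image (φ j))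

open Classical in
theorem fin_quad2 (k L : ℕ) (A B C : ℤ) (hA : A ≠ 0) (hΔ : ¬ IsSquare (B ^ 2 - 4 * A * C)) (f : ℤ[X]) (hf : f ≠ 0)
    (hadm : ∀ p : ℕ, p.Prime → ∃ n : ℤ, ¬ (p : ℤ) ∣ (A * n ^ 2 + B * n + C) * f.eval n) (σ : ℤ)
    (hσ : σ = 0 ∨ σ = 1 ∨ σ = -1) :
    ∃ c₁ c₂ : ℝ, 0 < c₁ ∧ ∀ᶠ X : ℕ in atTop,
      ((shifts (fun _ _ : Fin (k + 1) => σ) X).card : ℝ) ≤
        c₂ * ((X : ℝ) ^ k / Real.log X ^ (if σ = 0 then 0 else k * (k + 1) / 2)) ∧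
      ∀ φ : Fin L → ℕ → ℤ, (∀ j, Set.InjOn (φ j) (Set.Iic X)) → ∃ (r : ℕ) (δ : ℝ), 0 < δ ∧
        ∀ l : ℕ, ∃ b : ℕ, ∀ᶠ N : ℕ in atTop,
      c₁ * ((X : ℝ) ^ k / Real.log X ^ (if σ = 0 then 0 else k * (k + 1) / 2)) ≤
        (((shifts (fun _ _ : Fin (k + 1) => σ) X).filter (fun h => HerF A B C f r δ l b N φ h)).card : ℝ) := by
  obtain ⟨K₁, hkK, hbase⟩ := base_F A B C hA hΔ f hf hadm k
  obtain ⟨c₁, hc1, h1⟩ := hered k 1 L K₁ 1 hkK le_rfl σ hσ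
  obtain ⟨C', hC, h2⟩ := shifts_upper Pool.Agent.Y949.DK.t_SV Pool.Agent.Y185.DK.AV.t_AVG k (fun _ _ => σ)
  refine ⟨c₁, C', hc1, ?_⟩
  rw [edg_const k σ] at h1 h2
  filter_upwards [h1, h2] with X hX1 hX2
  refine ⟨hX2, fun φ hφ => ?_⟩
  set Z : Finset ℤ := (univ : Finset (Fin L)).biUnion (fun j => (range (X + 1)).image (φ j)) with hZ
  choose r δ hδ hb' using fun V : {V : Finset ℤ // V.card = K₁} => hbase V.1 V.2
  obtain ⟨ε, hε, hε2⟩ := fin_pos Z.powerset (fun V => if h : V.card = K₁ then δ ⟨V, h⟩ else 1) (fun V _ => by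
    split_ifs
    · exact hδ _
    · exact one_pos)
  set RM := Z.powerset.sup (fun V => if h : V.card = K₁ then r ⟨V, h⟩ else 0) with hRM
  refine ⟨RM, ε, hε, fun l => ?_⟩
  choose b hb using fun V : {V : Finset ℤ // V.card = K₁} => hb' V l
  set BM := Z.powerset.sup (fun V => if h : V.card = K₁ then b ⟨V, h⟩ else 0) with hBM
  refine ⟨BM, ?_⟩
  have h3 : ∀ᶠ N : ℕ in atTop, ∀ V ∈ Z.powerset, V.card = K₁ → ∀ s, 1 ≤ s → s ≤ k →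
      ∃ T ⊆ V, T.card = s ∧ OccF A B C f RM ε l BM N T := by
    rw [Filter.eventually_all_finset]
    intro V hV
    by_cases hVc : V.card = K₁
    swap
    · exact Eventually.of_forall fun N h => absurd h hVc
    filter_upwards [hb ⟨V, hVc⟩, eventually_ge_atTop 3] with N hN hN3 _ s hs1 hs2
    obtain ⟨T, hT1, hT2, hT3⟩ := hN s hs1 hs2
    refine ⟨T, hT1, hT2, hT3.mono hN3 ?_ ?_ ?_⟩
    · have h6 := Finset.le_sup (f := fun V => if h : V.card = K₁ then r ⟨V, h⟩ else 0) hV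
      rw [← hRM] at h6
      simpa only [dif_pos hVc] using h6
    · have h6 := hε2 V hV
      simpa only [dif_pos hVc] using h6
    · have h6 := Finset.le_sup (f := fun V => if h : V.card = K₁ then b ⟨V, h⟩ else 0) hV
      rw [← hBM] at h6
      simpa only [dif_pos hVc] using h6
  filter_upwards [h3] with N hN
  refine (hX1 (fun _ V => OccF A B C f RM ε l BM N V) φ ?_ hφ).trans ?_
  · intro _ V hVZ hVc _ s hs1 hs2
    refine hN V ?_ hVc s hs1 hs2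
    rw [mem_powerset]
    intro v hv
    obtain ⟨j, n, hn, rfl⟩ := hVZ v hv
    rw [hZ, mem_biUnion]
    exact ⟨j, mem_univ j, mem_image_of_mem _ (mem_range.2 (by omega))⟩
  · rw [Nat.cast_le]
    apply card_le_card
    intro h hh
    rw [mem_filter] at hh ⊢
    unfold HerI at hh
    exact ⟨hh.1, fun j T hT hTn => hh.2 0 j T hT hTn⟩

end Pool.Agent.U288.RO.Nx
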