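import Pool.Agent.H362R2.QT.Fin2
import Pool.Agent.U288.RO.A2

/-! The coloured theorem of Maynard with the right order of magnitude, for all systems of classes of multiples of `D`
up to a power of `log N`. -/

set_option autoImplicit false

namespace Pool.Agent.U288.RO

open Finset Filter Topology
open Pool.Agent.H378R2 Pool.Agent.H387R2 Pool.Agent.H387R2.MB Pool.Agent.Y877.RO Pool.Agent.H362R2.QT

open Classical in
/-- the `n` with primes in `m` of the `4 m` classes, all numbers without small prime factors -/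
noncomputable def CSet (m K' N : ℕ) (κ : ℝ) (R : Fin (4 * m) × Fin K' → ℕ) : Finset ℕ :=
  (Icc 1 N).filter (fun n : ℕ => m ≤ ((univ : Finset (Fin (4 * m))).filter (fun g => ∃ j, (n + R (g, j)).Prime)).card ∧
    ∀ x, Ro κ N ((n : ℤ) + R x))

lemma mem_CSet {m K' N : ℕ} {κ : ℝ} {R : Fin (4 * m) × Fin K' → ℕ} {n : ℕ} : n ∈ CSet m K' N κ R ↔
    n ∈ Icc 1 N ∧ m ≤ ((univ : Finset (Fin (4 * m))).filter (fun g => ∃ j, (n + R (g, j)).Prime)).card ∧
      ∀ x, Ro κ N ((n : ℤ) + R x) := by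
  classical
  simp only [CSet, mem_filter]

theorem low_globalC (m : ℕ) (hm : 1 ≤ m) : ∃ K' : ℕ, 1 ≤ K' ∧ ∃ κ : ℝ, 0 < κ ∧ ∀ D : ℕ, 1 ≤ D →
    (∀ p : ℕ, p.Prime → p ≤ 4 * (4 * m * K') ^ 2 → p ∣ D) →
    ∃ c : ℝ, 0 < c ∧ ∀ A : ℝ, ∀ᶠ N : ℕ in atTop, ∀ R : Fin (4 * m) × Fin K' → ℕ, Function.Injective R →
      (∀ x, (R x : ℝ) ≤ Real.log N ^ A) → (∀ x, D ∣ R x) →
      c * (N / Real.log N ^ (4 * m * K')) ≤ ((CSet m K' N κ R).card : ℝ) := by
  classical
  obtain ⟨K', hK, δ, hδ, -, c0, hc0, hlow⟩ := low_holds m hm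
  set K := 4 * m * K' with hKd
  have hK1 : 1 ≤ K := by rw [hKd]; nlinarith
  refine ⟨K', hK, δ / 400, by positivity, fun D hD1 hD2 => ?_⟩
  set d0 : ℝ := ∏ p ∈ D.primeFactors, (1 - 1 / (p : ℝ)) with hd0
  have hd0p : 0 < d0 := prod_pos fun p hp => fac_pos (Nat.prime_of_mem_primeFactors hp)
  refine ⟨c0 / 160 * d0, by positivity, fun A => ?_⟩
  have tN : Tendsto (fun N : ℕ => (N : ℝ)) atTop atTop := tendsto_natCast_atTop_atTop
  have tX : Tendsto (fun N : ℕ => (N : ℝ) / 4) atTop atTop := tN.atTop_div_const (by norm_num)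
  filter_upwards [hlow A, tX.eventually MPhi_big, (LL_tendsto.comp tX).eventually_ge_atTop 1,
    eventually_ge_atTop 16] with N h1 h2 h3 h4 R hRinj hRA hRD
  set X := (N : ℝ) / 4 with hX
  set y := ⌊Real.log (Real.log (N : ℝ))⌋₊ with hy
  have hN16 : (16 : ℝ) ≤ N := by exact_mod_cast h4
  have hL1 : 1 ≤ LL X := h3
  have hL0 : 0 < LL X := by linarith
  have hXN : X ≤ N := by rw [hX]; linarith
  have hX0 : 0 < X := by rw [hX]; linarith
  have hlogN : 0 < Real.log N := Real.log_pos (by linarith)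
  have hLN : LL X ≤ Real.log N := by
    unfold LL
    have h5 : Real.log X ≤ Real.log N := Real.log_le_log hX0 hXN
    linarith
  have hW := Uni.WW_pos y
  have hWr : (0 : ℝ) < Uni.WW y := by exact_mod_cast hW
  set R' : Finset ℕ := univ.image R with hR'
  have hR'c : R'.card = K := by
    rw [hR', card_image_of_injective _ hRinj, card_univ, Fintype.card_prod, Fintype.card_fin, Fintype.card_fin]
  set ind : ℕ → Prop := fun n => (m ≤ ((univ : Finset (Fin (4 * m))).filter (fun g => ∃ j, (n + R (g, j)).Prime)).card) ∧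
        (∀ x, Rg δ X (n + R x)) with hind
  -- the classes
  have h5 : ∀ b ∈ (range (Uni.WW y)).filter (fun m => ∀ t ∈ R', Nat.Coprime (Uni.WW y) (m + t)),
      c0 * UU K X y ≤ ∑ n ∈ Icc 1 ⌊3 * X⌋₊, nu X (Uni.WW y) b n * (if ind n then 1 else 0) := by
    intro b hb
    have h6 := h1 b R hRinj (fun x => Nat.le_floor (hRA x))
      (fun x => (mem_filter.1 hb).2 _ (mem_image_of_mem _ (mem_univ x)))
    refine h6.trans (le_of_eq ?_)
    apply sum_congr rfl
    intro n _
    congr 1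
  have h6 := sum_le_sum h5
  rw [sum_const, nsmul_eq_mul] at h6
  have h7 : ∑ b ∈ (range (Uni.WW y)).filter (fun m => ∀ t ∈ R', Nat.Coprime (Uni.WW y) (m + t)),
      ∑ n ∈ Icc 1 ⌊3 * X⌋₊, nu X (Uni.WW y) b n * (if ind n then (1 : ℝ) else 0) ≤
      (((Icc 1 ⌊3 * X⌋₊).filter ind).card : ℝ) := by
    calc _ ≤ ∑ b ∈ range (Uni.WW y), ∑ n ∈ Icc 1 ⌊3 * X⌋₊, nu X (Uni.WW y) b n * (if ind n then (1 : ℝ) else 0) := by
          apply sum_le_sum_of_subset_of_nonneg (filter_subset _ _)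
          intro b _ _
          apply sum_nonneg
          intro n _
          apply mul_nonneg (nu_nonneg _ _ _ _)
          split_ifs <;> norm_num
      _ = ∑ n ∈ Icc 1 ⌊3 * X⌋₊, Phi (n / X) * (if ind n then (1 : ℝ) else 0) := by
          rw [sum_comm]
          apply sum_congr rfl
          intro n _
          rw [← sum_mul, sum_nu' X _ n hW]
      _ ≤ ∑ n ∈ Icc 1 ⌊3 * X⌋₊, (if ind n then (1 : ℝ) else 0) := by
          apply sum_le_sum
          intro n _
          split_ifs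
          · rw [mul_one]; exact Phi_le_one _
          · rw [mul_zero]
      _ = _ := by
          rw [← sum_filter, sum_const, nsmul_eq_mul, mul_one]
  have h8 := h6.trans h7
  -- the number of the classes
  have h9 := gT_lower K D y hK1 hD2 R' hR'c.le (by
    intro t ht
    obtain ⟨x, _, rfl⟩ := mem_image.1 ht
    exact hRD x)
  have h10 : ((((range (Uni.WW y)).filter (fun m => ∀ t ∈ R', Nat.Coprime (Uni.WW y) (m + t))).card : ℕ) : ℝ) =
      Uni.gT (Uni.WW y) R' := by
    unfold Uni.gT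
    congr!
  rw [h10] at h8
  have hrho := rho_pos y
  have h11 := rho_le_rD D y
  have h12 := dD_ge D hD1 y
  have h13 : d0 / 2 * (Uni.WW y * rho y ^ K) ≤ Uni.gT (Uni.WW y) R' := by
    refine le_trans ?_ h9
    have h14 : rho y ^ K ≤ rD D y ^ K := pow_le_pow_left₀ hrho.le h11 K
    calc d0 / 2 * (Uni.WW y * rho y ^ K) = 1 / 2 * (Uni.WW y * d0) * rho y ^ K := by ring
      _ ≤ 1 / 2 * (Uni.WW y * dD D y) * rD D y ^ K := by
          have hdp := dD_pos D y
          apply mul_le_mul _ h14 (by positivity) (by positivity)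
          apply mul_le_mul_of_nonneg_left _ (by norm_num)
          exact mul_le_mul_of_nonneg_left h12 hWr.le
  have h14 : c0 / 160 * d0 * (N / Real.log N ^ K) ≤ (Uni.gT (Uni.WW y) R' : ℝ) * (c0 * UU K X y) := by
    have h15 : c0 / 160 * d0 * (N / Real.log N ^ K) ≤ d0 / 2 * (Uni.WW y * rho y ^ K) * (c0 * UU K X y) := by
      have h16 : d0 / 2 * (Uni.WW y * rho y ^ K) * (c0 * UU K X y) = c0 / 2 * d0 * (MPhi X / LL X ^ K) := by
        unfold UU
        rw [mul_pow]
        field_simp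
      rw [h16]
      have h17 : (N : ℝ) / 80 / Real.log N ^ K ≤ MPhi X / LL X ^ K := by
        apply div_le_div₀ (MPhi_nonneg X) _ (by positivity) (pow_le_pow_left₀ hL0.le hLN K)
        refine le_trans ?_ h2
        rw [hX]
        linarith
      calc c0 / 160 * d0 * (N / Real.log N ^ K) = c0 / 2 * d0 * ((N : ℝ) / 80 / Real.log N ^ K) := by ring
        _ ≤ _ := by gcongr
    refine h15.trans (mul_le_mul_of_nonneg_right h13 ?_)
    exact mul_nonneg hc0.le (UU_nonneg K hL0.le y)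
  refine (h14.trans h8).trans ?_
  rw [Nat.cast_le]
  apply card_le_card
  intro n hn
  rw [mem_filter, mem_Icc] at hn
  rw [mem_CSet, mem_Icc]
  refine ⟨⟨hn.1.1, ?_⟩, hn.2.1, fun x => ?_⟩
  · have h15 : (n : ℝ) ≤ 3 * X := (Nat.le_floor_iff (by positivity)).1 hn.1.2
    have h16 : (n : ℝ) ≤ N := by rw [hX] at h15; linarith
    exact_mod_cast h16
  · have := ro_of_rg hδ h4 (hn.2.2 x)
    push_cast at this
    exact this

end Pool.Agent.U288.RO
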