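import Pool.Agent.U288.SP.UB3

/-! Sums of `exp (c sg (α n + β))` over the `n` at which the values of linear forms are prime. -/

set_option autoImplicit false

namespace Pool.Agent.U288.RO

open Finset Filter Topology
open Pool.Agent.Y851.DK Pool.Agent.U288.SP

/-- the primes used in the expansion -/
noncomputable def PE (A0 X : ℕ) : Finset ℕ := (Ioc A0 ⌊Real.log X / 4⌋₊).filter Nat.Prime

lemma PE_prime {A0 X p : ℕ} (hp : p ∈ PE A0 X) : p.Prime := (mem_filter.1 hp).2

lemma sg_mul_le (a b : ℕ) (ha : a ≠ 0) : sg (a * b) ≤ sg a + sg b := by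
  rcases eq_or_ne b 0 with rfl | hb
  · rw [mul_zero]
    have h1 : sg 0 = 0 := by simp [sg]
    rw [h1]
    have := sg_nonneg a
    linarith
  · unfold sg
    rw [Nat.primeFactors_mul ha hb]
    have h1 := sum_union_inter (s₁ := a.primeFactors) (s₂ := b.primeFactors) (f := fun p : ℕ => (1 : ℝ) / p)
    have h2 : 0 ≤ ∑ p ∈ a.primeFactors ∩ b.primeFactors, (1 : ℝ) / p := sum_nonneg fun p _ => by positivity
    linarith

lemma omega_le {m : ℕ} (hm : m ≠ 0) : (m.primeFactors.card : ℝ) ≤ 2 * Real.log m := by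
  have h1 : 2 ^ m.primeFactors.card ≤ m := by
    calc 2 ^ m.primeFactors.card = ∏ _p ∈ m.primeFactors, 2 := by rw [prod_const]
      _ ≤ ∏ p ∈ m.primeFactors, p := prod_le_prod' fun p hp => (Nat.prime_of_mem_primeFactors hp).two_le
      _ ≤ m := Nat.le_of_dvd (Nat.pos_of_ne_zero hm) (Nat.prod_primeFactors_dvd m)
  have h2 : ((2 : ℝ)) ^ m.primeFactors.card ≤ m := by exact_mod_cast h1
  have h3 := Real.log_le_log (by positivity) h2
  rw [Real.log_pow] at h3
  have h4 := Real.log_two_gt_d9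
  nlinarith [(Nat.cast_nonneg m.primeFactors.card : (0 : ℝ) ≤ m.primeFactors.card)]

/-- the expansion -/
lemma sg_expand (c : ℝ) (hc : 0 ≤ c) (A0 : ℕ) (B0 : ℝ) : ∃ C : ℝ, 1 ≤ C ∧ ∀ᶠ X : ℕ in atTop, ∀ m : ℕ,
    Real.log m ≤ B0 * Real.log X →
    Real.exp (c * sg m) ≤ C * ∑ S ∈ (PE A0 X).powerset, if (∀ p ∈ S, p ∣ m) then ∏ p ∈ S, (Real.exp (c / p) - 1) else 0 := by
  refine ⟨Real.exp (c * (A0 + 8 * |B0|)), Real.one_le_exp (by positivity), ?_⟩
  filter_upwards [eventually_ge_atTop 3] with X hX3 m hm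
  have hXr : (3 : ℝ) ≤ X := by exact_mod_cast hX3
  have hlog : 0 < Real.log X := Real.log_pos (by linarith)
  have hterm : ∀ S ∈ (PE A0 X).powerset, 0 ≤ ∏ p ∈ S, (Real.exp (c / p) - 1) := by
    intro S _
    apply prod_nonneg
    intro p _
    have : 1 ≤ Real.exp (c / p) := Real.one_le_exp (by positivity)
    linarith
  rcases eq_or_ne m 0 with rfl | hm0
  · have h1 : sg 0 = 0 := by simp [sg]
    rw [h1, mul_zero, Real.exp_zero]
    have h2 : 1 ≤ ∑ S ∈ (PE A0 X).powerset, if (∀ p ∈ S, p ∣ 0) then ∏ p ∈ S, (Real.exp (c / p) - 1) else 0 := by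
      have h3 := single_le_sum (f := fun S : Finset ℕ => if (∀ p ∈ S, p ∣ 0) then ∏ p ∈ S, (Real.exp (c / p) - 1) else 0)
        (s := (PE A0 X).powerset) (fun S hS => by
          split_ifs
          · exact hterm S hS
          · exact le_rfl) (empty_mem_powerset _)
      simpa using h3
    have h3 : 1 ≤ Real.exp (c * (A0 + 8 * |B0|)) := Real.one_le_exp (by positivity)
    nlinarith
  set T := (PE A0 X).filter (fun p => p ∣ m) with hT
  have h1 : ∑ S ∈ (PE A0 X).powerset, (if (∀ p ∈ S, p ∣ m) then ∏ p ∈ S, (Real.exp (c / p) - 1) else 0) =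
      ∏ p ∈ T, Real.exp (c / p) := by
    have h2 : ∏ p ∈ T, Real.exp (c / p) = ∏ p ∈ T, (1 + (Real.exp (c / p) - 1)) := prod_congr rfl fun p _ => by ring
    rw [h2, prod_one_add, ← sum_filter]
    apply sum_congr _ fun _ _ => rfl
    ext S
    rw [mem_filter, mem_powerset, mem_powerset]
    constructor
    · rintro ⟨h3, h4⟩ p hp
      exact mem_filter.2 ⟨h3 hp, h4 p hp⟩
    · intro h3
      exact ⟨fun p hp => (mem_filter.1 (h3 hp)).1, fun p hp => (mem_filter.1 (h3 hp)).2⟩
  rw [h1, ← Real.exp_sum, ← Real.exp_add]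
  apply Real.exp_le_exp.2
  -- the three parts of the sum
  set U : Finset ℕ := m.primeFactors.filter (fun p : ℕ => Real.log X / 4 < (p : ℝ)) with hU
  have h2 : sg m ≤ A0 + 8 * |B0| + ∑ p ∈ T, (1 : ℝ) / p := by
    unfold sg
    have h3 : m.primeFactors ⊆ (Icc 1 A0) ∪ (U ∪ T) := by
      intro p hp
      rw [mem_union, mem_union]
      have hpp := Nat.prime_of_mem_primeFactors hp
      by_cases h4 : p ≤ A0
      · exact Or.inl (mem_Icc.2 ⟨hpp.one_le, h4⟩)
      · by_cases h5 : Real.log X / 4 < p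
        · exact Or.inr (Or.inl (mem_filter.2 ⟨hp, h5⟩))
        · refine Or.inr (Or.inr (mem_filter.2 ⟨?_, Nat.dvd_of_mem_primeFactors hp⟩))
          unfold PE
          rw [mem_filter, mem_Ioc]
          exact ⟨⟨not_le.1 h4, Nat.le_floor (not_lt.1 h5)⟩, hpp⟩
    have hpos : ∀ p : ℕ, (0 : ℝ) ≤ 1 / p := fun p => by positivity
    have h4 := sum_le_sum_of_subset_of_nonneg h3 (fun p _ _ => hpos p)
    have h5 := sum_union_inter (s₁ := Icc 1 A0) (s₂ := U ∪ T)
      (f := fun p : ℕ => (1 : ℝ) / p)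
    have h6 := sum_union_inter (s₁ := U) (s₂ := T)
      (f := fun p : ℕ => (1 : ℝ) / p)
    have h7 : 0 ≤ ∑ p ∈ Icc 1 A0 ∩ (U ∪ T), (1 : ℝ) / p :=
      sum_nonneg fun p _ => hpos p
    have h8 : 0 ≤ ∑ p ∈ U ∩ T, (1 : ℝ) / p :=
      sum_nonneg fun p _ => hpos p
    have h9 : ∑ p ∈ Icc 1 A0, (1 : ℝ) / p ≤ A0 := by
      calc _ ≤ ∑ _p ∈ Icc 1 A0, (1 : ℝ) := by
            apply sum_le_sum
            intro p hp
            have hp1 : (1 : ℝ) ≤ p := by exact_mod_cast (mem_Icc.1 hp).1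
            rw [div_le_one (by linarith)]
            exact hp1
        _ = _ := by rw [sum_const, Nat.card_Icc, Nat.add_sub_cancel, nsmul_eq_mul, mul_one]
    have h10 : ∑ p ∈ U, (1 : ℝ) / p ≤ 8 * |B0| := by
      calc _ ≤ ∑ _p ∈ U, (4 / Real.log X : ℝ) := by
            apply sum_le_sum
            intro p hp
            have h11 := (mem_filter.1 hp).2
            rw [div_le_div_iff₀ (by linarith [div_pos hlog (by norm_num : (0 : ℝ) < 4)]) hlog]
            linarith
        _ = ((U).card : ℝ) * (4 / Real.log X) := by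
            rw [sum_const, nsmul_eq_mul]
        _ ≤ (2 * (|B0| * Real.log X)) * (4 / Real.log X) := by
            apply mul_le_mul_of_nonneg_right _ (by positivity)
            have h12 : ((U).card : ℝ) ≤ m.primeFactors.card := by
              exact_mod_cast card_filter_le _ _
            have h13 := omega_le hm0
            have h14 : B0 * Real.log X ≤ |B0| * Real.log X := mul_le_mul_of_nonneg_right (le_abs_self _) hlog.le
            linarith
        _ = _ := by field_simp; ring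
    linarith
  have h3 : ∑ p ∈ T, c / (p : ℝ) = c * ∑ p ∈ T, (1 : ℝ) / p := by
    rw [mul_sum]
    apply sum_congr rfl
    intro p _
    ring
  rw [h3, ← mul_add]
  exact mul_le_mul_of_nonneg_left h2 hc

lemma PE_prod_le (A0 X : ℕ) (hX : 1 ≤ X) (S : Finset ℕ) (hS : S ⊆ PE A0 X) : ((∏ p ∈ S, p : ℕ) : ℝ) ≤ (X : ℝ) ^ (1 / 2 : ℝ) := by
  set y := ⌊Real.log X / 4⌋₊ with hy
  have h1 : ∏ p ∈ S, p ≤ primorial y := by
    unfold primorial
    apply prod_le_prod_of_subset_of_one_le'
    · intro p hp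
      have h2 := hS hp
      unfold PE at h2
      rw [mem_filter, mem_Ioc] at h2
      rw [mem_filter, mem_range]
      exact ⟨by omega, h2.2⟩
    · intro p hp _
      exact (mem_filter.1 hp).2.one_le
  have h2 := h1.trans (primorial_le_four_pow y)
  have hX0 : (0 : ℝ) < X := by exact_mod_cast hX
  have hlog : 0 ≤ Real.log X := Real.log_natCast_nonneg X
  have h3 : (y : ℝ) ≤ Real.log X / 4 := Nat.floor_le (by positivity)
  calc ((∏ p ∈ S, p : ℕ) : ℝ) ≤ (4 : ℝ) ^ y := by exact_mod_cast h2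
    _ = Real.exp (Real.log 4 * y) := by rw [← Real.rpow_natCast, Real.rpow_def_of_pos (by norm_num)]
    _ ≤ Real.exp (Real.log X * (1 / 2)) := by
        apply Real.exp_le_exp.2
        have h4 : Real.log 4 ≤ 2 := by
          have h5 : Real.log 4 = 2 * Real.log 2 := by
            rw [show (4 : ℝ) = 2 ^ 2 by norm_num, Real.log_pow]
            norm_num
          have h6 := Real.log_two_lt_d9
          rw [h5]
          linarith
        have h5 : 0 ≤ Real.log 4 := Real.log_nonneg (by norm_num)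
        nlinarith [Nat.cast_nonneg (α := ℝ) y]
    _ = _ := by rw [Real.rpow_def_of_pos hX0]

lemma exp_sub_one_le (c : ℝ) (hc : 0 ≤ c) (p : ℕ) (hp : 1 ≤ p) : Real.exp (c / p) - 1 ≤ c * Real.exp c / p := by
  have hp0 : (0 : ℝ) < p := by exact_mod_cast hp
  have hp1 : (1 : ℝ) ≤ p := by exact_mod_cast hp
  have h1 : c / p ≤ c := div_le_self hc hp1
  have h2 : Real.exp (c / p) ≤ Real.exp c := Real.exp_le_exp.2 h1
  have h3 : Real.exp (-(c / p)) ≥ 1 - c / p := by
    have := Real.add_one_le_exp (-(c / p))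
    linarith
  have h4 : Real.exp (c / p) - 1 ≤ c / p * Real.exp (c / p) := by
    have h5 : Real.exp (c / p) * Real.exp (-(c / p)) = 1 := by rw [← Real.exp_add]; simp
    have h6 : 0 < Real.exp (c / p) := Real.exp_pos _
    nlinarith
  calc Real.exp (c / p) - 1 ≤ c / p * Real.exp (c / p) := h4
    _ ≤ c / p * Real.exp c := by gcongr
    _ = _ := by ring

/-- the convergent sum -/
lemma sum_sub (c C' : ℝ) (hc : 0 ≤ c) (hC' : 0 ≤ C') : ∃ C : ℝ, 1 ≤ C ∧ ∀ P : Finset ℕ, (∀ p ∈ P, p.Prime) →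
    ∑ S ∈ P.powerset, (∏ p ∈ S, (Real.exp (c / p) - 1)) * (Real.exp (C' * ∑ p ∈ S, (1 : ℝ) / p) / ((∏ p ∈ S, p : ℕ) : ℝ)) ≤ C := by
  refine ⟨Real.exp (c * Real.exp c * Real.exp C' * 2), Real.one_le_exp (by positivity), fun P hP => ?_⟩
  have h1 : ∀ S ∈ P.powerset, (∏ p ∈ S, (Real.exp (c / p) - 1)) * (Real.exp (C' * ∑ p ∈ S, (1 : ℝ) / p) / ((∏ p ∈ S, p : ℕ) : ℝ)) =
      ∏ p ∈ S, ((Real.exp (c / p) - 1) * (Real.exp (C' * (1 / p)) / p)) := by
    intro S _
    rw [prod_mul_distrib, prod_div_distrib, mul_sum, Real.exp_sum]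
    push_cast
    rfl
  rw [sum_congr rfl h1, ← prod_one_add]
  have h2 : ∀ p ∈ P, 1 + (Real.exp (c / p) - 1) * (Real.exp (C' * (1 / p)) / p) ≤
      Real.exp (c * Real.exp c * Real.exp C' * (1 / (p : ℝ) ^ 2)) := by
    intro p hp
    have hp1 : 1 ≤ p := (hP p hp).one_le
    have hp0 : (0 : ℝ) < p := by exact_mod_cast hp1
    have hpr : (1 : ℝ) ≤ p := by exact_mod_cast hp1
    have h3 := exp_sub_one_le c hc p hp1
    have h4 : Real.exp (C' * (1 / p)) ≤ Real.exp C' := by
      apply Real.exp_le_exp.2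
      have h5 : 1 / (p : ℝ) ≤ 1 := by rw [div_le_one hp0]; exact hpr
      nlinarith
    have h0 : 0 ≤ Real.exp (c / p) - 1 := by
      have : 1 ≤ Real.exp (c / p) := Real.one_le_exp (by positivity)
      linarith
    have h5 : (Real.exp (c / p) - 1) * (Real.exp (C' * (1 / p)) / p) ≤ c * Real.exp c / p * (Real.exp C' / p) := by
      gcongr
    have h6 := Real.add_one_le_exp (c * Real.exp c * Real.exp C' * (1 / (p : ℝ) ^ 2))
    have h7 : c * Real.exp c / p * (Real.exp C' / p) = c * Real.exp c * Real.exp C' * (1 / (p : ℝ) ^ 2) := by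
      field_simp
    linarith
  calc ∏ p ∈ P, (1 + (Real.exp (c / p) - 1) * (Real.exp (C' * (1 / p)) / p)) ≤
      ∏ p ∈ P, Real.exp (c * Real.exp c * Real.exp C' * (1 / (p : ℝ) ^ 2)) := by
        apply prod_le_prod _ h2
        intro p _
        have : 1 ≤ Real.exp (c / p) := Real.one_le_exp (by positivity)
        have h3 : 0 ≤ (Real.exp (c / p) - 1) * (Real.exp (C' * (1 / p)) / p) :=
          mul_nonneg (by linarith) (by positivity)
        linarith
    _ = Real.exp (c * Real.exp c * Real.exp C' * ∑ p ∈ P, 1 / (p : ℝ) ^ 2) := by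
        rw [← Real.exp_sum, mul_sum]
    _ ≤ _ := by
        apply Real.exp_le_exp.2
        apply mul_le_mul_of_nonneg_left _ (by positivity)
        have h3 : ∀ n : ℕ, ∑ i ∈ Ioc 1 (n + 1), 1 / (i : ℝ) ^ 2 ≤ 1 - 1 / (n + 1 : ℝ) := by
          intro n
          induction n with
          | zero => simp
          | succ n ih =>
            rw [sum_Ioc_succ_top (by omega)]
            have hn : (0 : ℝ) < n + 1 := by positivity
            have hn2 : (0 : ℝ) < n + 2 := by positivity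
            have e : ((n + 1 + 1 : ℕ) : ℝ) = n + 2 := by push_cast; ring
            rw [e]
            have h4 : 1 / ((n : ℝ) + 2) ^ 2 ≤ 1 / (n + 1 : ℝ) - 1 / (n + 2) := by
              rw [div_sub_div _ _ hn.ne' hn2.ne', div_le_div_iff₀ (by positivity) (by positivity)]
              nlinarith
            push_cast
            have e2 : (n : ℝ) + 1 + 1 = n + 2 := by ring
            rw [e2]
            linarith
        obtain ⟨n, hn⟩ : ∃ n, ∀ p ∈ P, p ≤ n := ⟨P.sup id, fun p hp => le_sup (f := id) hp⟩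
        have h4 : P ⊆ Ioc 1 (n + 1) := by
          intro p hp
          rw [mem_Ioc]
          exact ⟨(hP p hp).one_lt, (hn p hp).trans (Nat.le_succ n)⟩
        have h5 := sum_le_sum_of_subset_of_nonneg (f := fun p : ℕ => 1 / (p : ℝ) ^ 2) h4 (fun p _ _ => by positivity)
        have h6 := h3 n
        have h7 : (0 : ℝ) ≤ 1 / (n + 1 : ℝ) := by positivity
        linarith

/-- a crude bound for the sum of the weights -/
lemma sum_crude (c : ℝ) (hc : 0 ≤ c) (A0 X : ℕ) (hX : 3 ≤ X) :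
    ∑ S ∈ (PE A0 X).powerset, ∏ p ∈ S, (Real.exp (c / p) - 1) ≤ Real.exp (c * (1 + Real.log (1 + Real.log X))) := by
  rw [← prod_one_add]
  have h1 : ∏ p ∈ PE A0 X, (1 + (Real.exp (c / p) - 1)) = Real.exp (c * ∑ p ∈ PE A0 X, (1 : ℝ) / p) := by
    rw [mul_sum, Real.exp_sum]
    apply prod_congr rfl
    intro p _
    rw [mul_one_div]
    ring
  rw [h1]
  apply Real.exp_le_exp.2
  apply mul_le_mul_of_nonneg_left _ hc
  have hXr : (3 : ℝ) ≤ X := by exact_mod_cast hX
  have hlog : 0 < Real.log X := Real.log_pos (by linarith)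
  set y := ⌊Real.log X / 4⌋₊ with hy
  have h2 : PE A0 X ⊆ Icc 1 (y + 1) := by
    intro p hp
    unfold PE at hp
    rw [mem_filter, mem_Ioc] at hp
    rw [mem_Icc]
    exact ⟨hp.2.one_le, by omega⟩
  have h3 := sum_le_sum_of_subset_of_nonneg (f := fun p : ℕ => (1 : ℝ) / p) h2 (fun p _ _ => by positivity)
  have h4 : ∑ p ∈ Icc 1 (y + 1), (1 : ℝ) / p ≤ 1 + Real.log ((y + 1 : ℕ) : ℝ) := by
    have h5 := harmonic_le_one_add_log (y + 1)
    rw [harmonic_eq_sum_Icc] at h5
    push_cast at h5 ⊢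
    simp only [one_div]
    exact h5
  have h5 : Real.log ((y + 1 : ℕ) : ℝ) ≤ Real.log (1 + Real.log X) := by
    apply Real.log_le_log (by positivity)
    push_cast
    have h6 : (y : ℝ) ≤ Real.log X / 4 := Nat.floor_le (by positivity)
    linarith
  linarith

end Pool.Agent.U288.RO
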