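import Pool.Agent.U288.RO.B1

/-! The weighted sieve on one line. -/

set_option autoImplicit false

namespace Pool.Agent.U288.RO

open Finset Filter Topology
open Pool.Agent.Y851.DK Pool.Agent.U288.SP

lemma ev_crude (c K : ℝ) (r : ℕ) : ∀ᶠ X : ℕ in atTop,
    K * Real.exp (c * (1 + Real.log (1 + Real.log X))) ≤ X / Real.log X ^ r := by
  obtain ⟨m, hm⟩ := exists_nat_ge |c|
  set A : ℝ := |K| * Real.exp |c| * 2 ^ m with hA
  have h1 := (Real.isLittleO_pow_log_id_atTop (n := m + r)).bound (show (0 : ℝ) < 1 / (A + 1) by positivity)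
  have h2 := (tendsto_natCast_atTop_atTop (R := ℝ)).eventually h1
  filter_upwards [h2, eventually_ge_atTop 3] with X hX hX3
  have hXr : (3 : ℝ) ≤ X := by exact_mod_cast hX3
  have hl1 : 1 ≤ Real.log X := by
    have := Real.exp_one_lt_d9
    rw [Real.le_log_iff_exp_le (by linarith)]
    linarith
  rw [Real.norm_of_nonneg (by positivity)] at hX
  simp only [id, Real.norm_eq_abs] at hX
  rw [abs_of_nonneg (by linarith : (0 : ℝ) ≤ X)] at hX
  rw [le_div_iff₀ (by positivity)]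
  have h3 : K * Real.exp (c * (1 + Real.log (1 + Real.log X))) ≤ A * Real.log X ^ m := by
    calc K * Real.exp (c * (1 + Real.log (1 + Real.log X))) ≤ |K| * Real.exp (|c| * (1 + Real.log (1 + Real.log X))) := by
          have h4 : 0 ≤ Real.log (1 + Real.log X) := Real.log_nonneg (by linarith)
          have h5 : Real.exp (c * (1 + Real.log (1 + Real.log X))) ≤ Real.exp (|c| * (1 + Real.log (1 + Real.log X))) := by
            apply Real.exp_le_exp.2
            exact mul_le_mul_of_nonneg_right (le_abs_self c) (by linarith)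
          calc K * Real.exp (c * (1 + Real.log (1 + Real.log X))) ≤ |K| * Real.exp (c * (1 + Real.log (1 + Real.log X))) :=
                mul_le_mul_of_nonneg_right (le_abs_self K) (Real.exp_pos _).le
            _ ≤ _ := mul_le_mul_of_nonneg_left h5 (abs_nonneg K)
      _ = |K| * Real.exp |c| * (1 + Real.log X) ^ |c| := by
          rw [mul_add, mul_one, Real.exp_add, Real.rpow_def_of_pos (by linarith)]
          ring_nf
      _ ≤ |K| * Real.exp |c| * (1 + Real.log X) ^ (m : ℝ) := by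
          apply mul_le_mul_of_nonneg_left _ (by positivity)
          exact Real.rpow_le_rpow_of_exponent_le (by linarith) hm
      _ ≤ |K| * Real.exp |c| * (2 * Real.log X) ^ (m : ℝ) := by
          apply mul_le_mul_of_nonneg_left _ (by positivity)
          exact Real.rpow_le_rpow (by linarith) (by linarith) (by positivity)
      _ = A * Real.log X ^ m := by
          rw [Real.rpow_natCast, mul_pow, hA]
          ring
  calc K * Real.exp (c * (1 + Real.log (1 + Real.log X))) * Real.log X ^ r ≤ A * Real.log X ^ m * Real.log X ^ r := by gcongr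
    _ = A * Real.log X ^ (m + r) := by rw [pow_add]; ring
    _ ≤ A * (1 / (A + 1) * X) := by gcongr
    _ ≤ X := by
        have h4 : A / (A + 1) ≤ 1 := by
          rw [div_le_one (by positivity)]
          linarith
        calc A * (1 / (A + 1) * X) = A / (A + 1) * X := by ring
          _ ≤ 1 * X := by gcongr
          _ = X := one_mul _

/-- one residue class -/
lemma one_class (r : ℕ) (C2 Y0 : ℝ) (hC2 : 1 ≤ C2)
    (hsv : ∀ Y : ℝ, Y0 ≤ Y → ∀ F : Finset (ℤ × ℤ), F.card = r →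
      (∀ f ∈ F, f.1 ≠ 0) → (∀ f ∈ F, ∀ g ∈ F, f ≠ g → f.1 * g.2 - g.1 * f.2 ≠ 0) →
      (((Icc 1 ⌊Y⌋₊).filter (fun n : ℕ => ∀ f ∈ F, (f.1 * (n : ℤ) + f.2).toNat.Prime)).card : ℝ) ≤
        C2 * Real.exp (C2 * (∑ f ∈ F, sg f.1.natAbs + ∑ f ∈ F, ∑ g ∈ F, sg (f.1 * g.2 - g.1 * f.2).natAbs)) *
          (Y / Real.log Y ^ r))
    (A0 X : ℕ) (hX : 3 ≤ X) (hXY : Y0 ≤ (X : ℝ) ^ (1 / 2 : ℝ)) (F : Finset (ℤ × ℤ)) (hFr : F.card = r)
    (hF1 : ∀ f ∈ F, f.1 ≠ 0) (hF2 : ∀ f ∈ F, ∀ g ∈ F, f ≠ g → f.1 * g.2 - g.1 * f.2 ≠ 0)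
    (α β : ℤ) (hα : α ≠ 0) (hαA : |α| ≤ A0) (S : Finset ℕ) (hS : S ⊆ PE A0 X) :
    (((Icc 1 X).filter (fun n : ℕ => (∀ f ∈ F, (f.1 * (n : ℤ) + f.2).toNat.Prime) ∧
      ∀ p ∈ S, p ∣ (α * (n : ℤ) + β).natAbs)).card : ℝ) ≤
      1 + C2 * 2 ^ r * Real.exp (C2 * (∑ f ∈ F, sg f.1.natAbs + ∑ f ∈ F, ∑ g ∈ F, sg (f.1 * g.2 - g.1 * f.2).natAbs)) *
        (X / Real.log X ^ r) * (Real.exp (C2 * (r + r ^ 2) * ∑ p ∈ S, (1 : ℝ) / p) / ((∏ p ∈ S, p : ℕ) : ℝ)) := by
  classical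
  have hXr : (3 : ℝ) ≤ X := by exact_mod_cast hX
  have hX0 : (0 : ℝ) < X := by linarith
  have hlog : 0 < Real.log X := Real.log_pos (by linarith)
  set d : ℕ := ∏ p ∈ S, p with hd
  have hSp : ∀ p ∈ S, p.Prime := fun p hp => PE_prime (hS hp)
  have hd1 : 1 ≤ d := prod_pos fun p hp => (hSp p hp).pos
  have hdr : (1 : ℝ) ≤ d := by exact_mod_cast hd1
  have hdX : (d : ℝ) ≤ (X : ℝ) ^ (1 / 2 : ℝ) := PE_prod_le A0 X (by omega) S hS
  set Ω := (Icc 1 X).filter (fun n : ℕ => (∀ f ∈ F, (f.1 * (n : ℤ) + f.2).toNat.Prime) ∧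
      ∀ p ∈ S, p ∣ (α * (n : ℤ) + β).natAbs) with hΩ
  set σ := ∑ f ∈ F, sg f.1.natAbs + ∑ f ∈ F, ∑ g ∈ F, sg (f.1 * g.2 - g.1 * f.2).natAbs with hσ
  rcases Ω.eq_empty_or_nonempty with h0 | ⟨n₁, hn₁⟩
  · rw [h0, card_empty, Nat.cast_zero]
    positivity
  have hn₁' := (mem_filter.1 hn₁).2.2
  set n₀ := n₁ % d with hn₀
  have hn₀d : n₀ < d := Nat.mod_lt _ hd1
  -- all elements are in one class
  have hcl : ∀ n ∈ Ω, n % d = n₀ := by
    intro n hn
    have hn' := (mem_filter.1 hn).2.2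
    have h1 : d ∣ ((n : ℤ) - n₁).natAbs := by
      rw [hd]
      apply Finset.prod_primes_dvd
      · intro p hp
        exact (hSp p hp).prime
      · intro p hp
        have h2 : (p : ℤ) ∣ α * (n : ℤ) + β := Int.natCast_dvd.2 (hn' p hp)
        have h3 : (p : ℤ) ∣ α * (n₁ : ℤ) + β := Int.natCast_dvd.2 (hn₁' p hp)
        have h4 : (p : ℤ) ∣ α * ((n : ℤ) - n₁) := by
          have := dvd_sub h2 h3
          have e : α * (n : ℤ) + β - (α * (n₁ : ℤ) + β) = α * ((n : ℤ) - n₁) := by ring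
          rwa [e] at this
        rcases (Nat.prime_iff_prime_int.1 (hSp p hp)).dvd_or_dvd h4 with h5 | h5
        · exfalso
          have h6 : (p : ℤ) ≤ |α| := by
            have := Int.le_of_dvd (abs_pos.2 hα) ((dvd_abs _ _).2 h5)
            exact this
          have h7 : A0 < p := by
            have := hS hp
            unfold PE at this
            rw [mem_filter, mem_Ioc] at this
            exact this.1.1
          have h8 : (A0 : ℤ) < p := by exact_mod_cast h7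
          linarith
        · exact Int.natCast_dvd.1 h5
    have h2 : (d : ℤ) ∣ (n : ℤ) - n₁ := Int.natCast_dvd.2 h1
    have h3 : (n₁ : ℤ) ≡ n [ZMOD d] := (Int.modEq_iff_dvd).2 h2
    exact (Int.natCast_modEq_iff.1 h3).symm
  -- the new forms
  set G : Finset (ℤ × ℤ) := F.image (fun f => ((d : ℤ) * f.1, f.1 * (n₀ : ℤ) + f.2)) with hG
  have hdz : (d : ℤ) ≠ 0 := by
    have : (d : ℤ) ≥ 1 := by exact_mod_cast hd1
    omega
  have hinj : Set.InjOn (fun f : ℤ × ℤ => ((d : ℤ) * f.1, f.1 * (n₀ : ℤ) + f.2)) (F : Set (ℤ × ℤ)) := by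
    intro f _ g _ h
    simp only [Prod.mk.injEq] at h
    have h1 : f.1 = g.1 := mul_left_cancel₀ hdz h.1
    have h2 := h.2
    rw [h1] at h2
    exact Prod.ext h1 (by linarith)
  have hGr : G.card = r := by rw [hG, card_image_of_injOn hinj, hFr]
  have hdet : ∀ f g : ℤ × ℤ, (d : ℤ) * f.1 * (g.1 * (n₀ : ℤ) + g.2) - (d : ℤ) * g.1 * (f.1 * (n₀ : ℤ) + f.2) =
      d * (f.1 * g.2 - g.1 * f.2) := fun f g => by ring
  set Y : ℝ := (X : ℝ) / d with hY
  have hsqrt : (X : ℝ) ^ (1 / 2 : ℝ) * (X : ℝ) ^ (1 / 2 : ℝ) = X := by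
    rw [← Real.rpow_add hX0]
    norm_num
  have hXs : (X : ℝ) ^ (1 / 2 : ℝ) ≤ Y := by
    rw [hY, le_div_iff₀ (by linarith)]
    calc (X : ℝ) ^ (1 / 2 : ℝ) * d ≤ (X : ℝ) ^ (1 / 2 : ℝ) * (X : ℝ) ^ (1 / 2 : ℝ) := by gcongr
      _ = X := hsqrt
  have hlY : Real.log X / 2 ≤ Real.log Y := by
    have h1 := Real.log_le_log (by positivity) hXs
    rw [Real.log_rpow hX0] at h1
    linarith
  have h1 := hsv Y (hXY.trans hXs) G hGr (by
    intro f hf
    obtain ⟨f', hf', rfl⟩ := mem_image.1 hf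
    exact mul_ne_zero hdz (hF1 f' hf')) (by
    intro f hf g hg hne
    obtain ⟨f', hf', rfl⟩ := mem_image.1 hf
    obtain ⟨g', hg', rfl⟩ := mem_image.1 hg
    rw [hdet]
    apply mul_ne_zero hdz
    apply hF2 f' hf' g' hg'
    rintro rfl
    exact hne rfl)
  -- the exponent
  set s := ∑ p ∈ S, (1 : ℝ) / p with hs
  have hsd : sg d = s := by
    unfold sg
    rw [hd, Nat.primeFactors_prod hSp]
  have hs0 : 0 ≤ s := sum_nonneg fun p _ => by positivity
  have hd0 : d ≠ 0 := by omega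
  have h2 : ∑ f ∈ G, sg f.1.natAbs + ∑ f ∈ G, ∑ g ∈ G, sg (f.1 * g.2 - g.1 * f.2).natAbs ≤ σ + (r + r ^ 2) * s := by
    have h3 : ∑ f ∈ G, sg f.1.natAbs ≤ r * s + ∑ f ∈ F, sg f.1.natAbs := by
      rw [hG, sum_image hinj]
      calc ∑ f ∈ F, sg ((d : ℤ) * f.1).natAbs ≤ ∑ f ∈ F, (s + sg f.1.natAbs) := by
            apply sum_le_sum
            intro f _
            rw [Int.natAbs_mul, Int.natAbs_natCast, ← hsd]
            exact sg_mul_le _ _ hd0
        _ = _ := by rw [sum_add_distrib, sum_const, hFr, nsmul_eq_mul]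
    have h4 : ∑ f ∈ G, ∑ g ∈ G, sg (f.1 * g.2 - g.1 * f.2).natAbs ≤
        r ^ 2 * s + ∑ f ∈ F, ∑ g ∈ F, sg (f.1 * g.2 - g.1 * f.2).natAbs := by
      rw [hG, sum_image hinj]
      calc _ ≤ ∑ f ∈ F, (r * s + ∑ g ∈ F, sg (f.1 * g.2 - g.1 * f.2).natAbs) := by
            apply sum_le_sum
            intro f _
            rw [sum_image hinj]
            calc _ ≤ ∑ g ∈ F, (s + sg (f.1 * g.2 - g.1 * f.2).natAbs) := by
                  apply sum_le_sum
                  intro g _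
                  simp only
                  rw [hdet, Int.natAbs_mul, Int.natAbs_natCast, ← hsd]
                  exact sg_mul_le _ _ hd0
              _ = _ := by rw [sum_add_distrib, sum_const, hFr, nsmul_eq_mul]
        _ = _ := by
            rw [sum_add_distrib, sum_const, hFr, nsmul_eq_mul]
            ring
    rw [hσ]
    linarith
  -- the count
  have h3 : Ω.card ≤ 1 + ((Icc 1 ⌊Y⌋₊).filter (fun n : ℕ => ∀ f ∈ G, (f.1 * (n : ℤ) + f.2).toNat.Prime)).card := by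
    have h4 : Ω ⊆ insert n₀ (((Icc 1 ⌊Y⌋₊).filter (fun n : ℕ => ∀ f ∈ G, (f.1 * (n : ℤ) + f.2).toNat.Prime)).image
        (fun m => n₀ + d * m)) := by
      intro n hn
      have hn1 := hcl n hn
      have hn2 : n₀ + d * (n / d) = n := by rw [← hn1]; exact Nat.mod_add_div n d
      have hn' := mem_filter.1 hn
      rcases Nat.eq_zero_or_pos (n / d) with h5 | h5
      · rw [h5, mul_zero, add_zero] at hn2
        rw [mem_insert]
        exact Or.inl hn2.symm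
      · rw [mem_insert, mem_image]
        refine Or.inr ⟨n / d, mem_filter.2 ⟨mem_Icc.2 ⟨h5, ?_⟩, ?_⟩, hn2⟩
        · apply Nat.le_floor
          rw [hY, le_div_iff₀ (by linarith)]
          have h6 : n / d * d ≤ X := (Nat.div_mul_le_self n d).trans (mem_Icc.1 hn'.1).2
          exact_mod_cast h6
        · intro f hf
          obtain ⟨f', hf', rfl⟩ := mem_image.1 hf
          have h6 := hn'.2.1 f' hf'
          have e : (d : ℤ) * f'.1 * ((n / d : ℕ) : ℤ) + (f'.1 * (n₀ : ℤ) + f'.2) = f'.1 * (n : ℤ) + f'.2 := by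
            have e1 : (n : ℤ) = n₀ + d * ((n / d : ℕ) : ℤ) := by exact_mod_cast hn2.symm
            rw [e1]
            ring
          simp only
          rw [e]
          exact h6
    have h5 := card_le_card h4
    have h6 := card_insert_le n₀ (((Icc 1 ⌊Y⌋₊).filter (fun n : ℕ => ∀ f ∈ G, (f.1 * (n : ℤ) + f.2).toNat.Prime)).image
        (fun m => n₀ + d * m))
    have h7 : (((Icc 1 ⌊Y⌋₊).filter (fun n : ℕ => ∀ f ∈ G, (f.1 * (n : ℤ) + f.2).toNat.Prime)).image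
        (fun m => n₀ + d * m)).card ≤ _ := card_image_le
    omega
  have h4 : (Ω.card : ℝ) ≤ 1 + (((Icc 1 ⌊Y⌋₊).filter (fun n : ℕ => ∀ f ∈ G, (f.1 * (n : ℤ) + f.2).toNat.Prime)).card : ℝ) := by
    exact_mod_cast h3
  refine h4.trans (add_le_add_right ?_ 1)
  refine h1.trans ?_
  have h5 : Real.exp (C2 * (∑ f ∈ G, sg f.1.natAbs + ∑ f ∈ G, ∑ g ∈ G, sg (f.1 * g.2 - g.1 * f.2).natAbs)) ≤
      Real.exp (C2 * σ) * Real.exp (C2 * (r + r ^ 2) * s) := by
    rw [← Real.exp_add]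
    apply Real.exp_le_exp.2
    calc _ ≤ C2 * (σ + (r + r ^ 2) * s) := mul_le_mul_of_nonneg_left h2 (by linarith)
      _ = _ := by ring
  have h6 : Y / Real.log Y ^ r ≤ 2 ^ r * (X / Real.log X ^ r) / d := by
    have h7 : (Real.log X / 2) ^ r ≤ Real.log Y ^ r := pow_le_pow_left₀ (by positivity) hlY r
    calc Y / Real.log Y ^ r ≤ Y / (Real.log X / 2) ^ r := by
          apply div_le_div_of_nonneg_left (by positivity) (by positivity) h7
      _ = _ := by
          rw [hY, div_pow]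
          field_simp
  have hY0 : 0 ≤ Y / Real.log Y ^ r := by
    have : 0 < Real.log Y := by linarith
    positivity
  calc C2 * Real.exp (C2 * (∑ f ∈ G, sg f.1.natAbs + ∑ f ∈ G, ∑ g ∈ G, sg (f.1 * g.2 - g.1 * f.2).natAbs)) *
      (Y / Real.log Y ^ r) ≤ C2 * (Real.exp (C2 * σ) * Real.exp (C2 * (r + r ^ 2) * s)) *
      (2 ^ r * (X / Real.log X ^ r) / d) := by gcongr
    _ = _ := by ring

/-- **the weighted sieve on one line** -/
theorem weighted_line (hSV : P_SV) (r : ℕ) (c : ℝ) (hc : 0 ≤ c) (A0 : ℕ) (B0 : ℝ) : ∃ C : ℝ, 1 ≤ C ∧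
    ∀ᶠ X : ℕ in atTop, ∀ F : Finset (ℤ × ℤ), F.card = r → (∀ f ∈ F, f.1 ≠ 0) →
    (∀ f ∈ F, ∀ g ∈ F, f ≠ g → f.1 * g.2 - g.1 * f.2 ≠ 0) →
    ∀ α β : ℤ, α ≠ 0 → |α| ≤ A0 → (∀ n ∈ Icc 1 X, Real.log ((α * (n : ℤ) + β).natAbs : ℝ) ≤ B0 * Real.log X) →
    ∑ n ∈ (Icc 1 X).filter (fun n : ℕ => ∀ f ∈ F, (f.1 * (n : ℤ) + f.2).toNat.Prime),
      Real.exp (c * sg (α * (n : ℤ) + β).natAbs) ≤
      C * Real.exp (C * (∑ f ∈ F, sg f.1.natAbs + ∑ f ∈ F, ∑ g ∈ F, sg (f.1 * g.2 - g.1 * f.2).natAbs)) *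
        (X / Real.log X ^ r) := by
  classical
  obtain ⟨C1, hC1, h1⟩ := sg_expand c hc A0 B0
  obtain ⟨C2, hC2, h2⟩ := hSV r
  obtain ⟨Y0, hY0⟩ := eventually_atTop.1 h2
  obtain ⟨C3, hC3, h3⟩ := sum_sub c (C2 * (r + r ^ 2)) hc (by positivity)
  have h4 := ev_crude c 1 r
  have h5 : ∀ᶠ X : ℕ in atTop, Y0 ≤ (X : ℝ) ^ (1 / 2 : ℝ) :=
    ((tendsto_rpow_atTop (show (0 : ℝ) < 1 / 2 by norm_num)).comp
      (tendsto_natCast_atTop_atTop (R := ℝ))).eventually_ge_atTop Y0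
  refine ⟨C1 * (1 + C2 * 2 ^ r * C3) + C2, by
    have : 0 ≤ C1 * (1 + C2 * 2 ^ r * C3) := by positivity
    linarith, ?_⟩
  filter_upwards [h1, h4, h5, eventually_ge_atTop 3] with X hX1 hX4 hX5 hX3 F hFr hF1 hF2 α β hα hαA hB
  have hXr : (3 : ℝ) ≤ X := by exact_mod_cast hX3
  have hX0 : (0 : ℝ) < X := by linarith
  have hlog : 0 < Real.log X := Real.log_pos (by linarith)
  set σ := ∑ f ∈ F, sg f.1.natAbs + ∑ f ∈ F, ∑ g ∈ F, sg (f.1 * g.2 - g.1 * f.2).natAbs with hσ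
  have hσ0 : 0 ≤ σ := add_nonneg (sum_nonneg fun f _ => sg_nonneg _)
    (sum_nonneg fun f _ => sum_nonneg fun g _ => sg_nonneg _)
  set Φ := (Icc 1 X).filter (fun n : ℕ => ∀ f ∈ F, (f.1 * (n : ℤ) + f.2).toNat.Prime) with hΦ
  set Z : ℝ := X / Real.log X ^ r with hZ
  have hZ0 : 0 ≤ Z := by positivity
  have hw0 : ∀ S ∈ (PE A0 X).powerset, 0 ≤ ∏ p ∈ S, (Real.exp (c / p) - 1) := by
    intro S _
    apply prod_nonneg
    intro p _
    have : 1 ≤ Real.exp (c / p) := Real.one_le_exp (by positivity)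
    linarith
  have h6 : ∑ n ∈ Φ, Real.exp (c * sg (α * (n : ℤ) + β).natAbs) ≤
      C1 * ∑ S ∈ (PE A0 X).powerset, (∏ p ∈ S, (Real.exp (c / p) - 1)) *
        (((Icc 1 X).filter (fun n : ℕ => (∀ f ∈ F, (f.1 * (n : ℤ) + f.2).toNat.Prime) ∧
          ∀ p ∈ S, p ∣ (α * (n : ℤ) + β).natAbs)).card : ℝ) := by
    calc _ ≤ ∑ n ∈ Φ, C1 * ∑ S ∈ (PE A0 X).powerset,
          (if (∀ p ∈ S, p ∣ (α * (n : ℤ) + β).natAbs) then ∏ p ∈ S, (Real.exp (c / p) - 1) else 0) := by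
          apply sum_le_sum
          intro n hn
          exact hX1 _ (hB n (mem_filter.1 hn).1)
      _ = C1 * ∑ S ∈ (PE A0 X).powerset, ∑ n ∈ Φ,
          (if (∀ p ∈ S, p ∣ (α * (n : ℤ) + β).natAbs) then ∏ p ∈ S, (Real.exp (c / p) - 1) else 0) := by
          rw [← mul_sum, sum_comm]
      _ = _ := by
          congr 1
          apply sum_congr rfl
          intro S _
          rw [← sum_filter, sum_const, nsmul_eq_mul, mul_comm, hΦ, filter_filter]
  refine h6.trans ?_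
  have h7 : ∑ S ∈ (PE A0 X).powerset, (∏ p ∈ S, (Real.exp (c / p) - 1)) *
        (((Icc 1 X).filter (fun n : ℕ => (∀ f ∈ F, (f.1 * (n : ℤ) + f.2).toNat.Prime) ∧
          ∀ p ∈ S, p ∣ (α * (n : ℤ) + β).natAbs)).card : ℝ) ≤
      Z + C2 * 2 ^ r * Real.exp (C2 * σ) * Z * C3 := by
    calc _ ≤ ∑ S ∈ (PE A0 X).powerset, (∏ p ∈ S, (Real.exp (c / p) - 1)) *
          (1 + C2 * 2 ^ r * Real.exp (C2 * σ) * Z *
            (Real.exp (C2 * (r + r ^ 2) * ∑ p ∈ S, (1 : ℝ) / p) / ((∏ p ∈ S, p : ℕ) : ℝ))) := by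
          apply sum_le_sum
          intro S hS
          apply mul_le_mul_of_nonneg_left _ (hw0 S hS)
          exact one_class r C2 Y0 hC2 hY0 A0 X hX3 hX5 F hFr hF1 hF2 α β hα hαA S (mem_powerset.1 hS)
      _ = ∑ S ∈ (PE A0 X).powerset, ∏ p ∈ S, (Real.exp (c / p) - 1) +
          C2 * 2 ^ r * Real.exp (C2 * σ) * Z * ∑ S ∈ (PE A0 X).powerset, (∏ p ∈ S, (Real.exp (c / p) - 1)) *
            (Real.exp (C2 * (r + r ^ 2) * ∑ p ∈ S, (1 : ℝ) / p) / ((∏ p ∈ S, p : ℕ) : ℝ)) := by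
          rw [mul_sum, ← sum_add_distrib]
          apply sum_congr rfl
          intro S _
          ring
      _ ≤ _ := by
          apply add_le_add
          · refine (sum_crude c hc A0 X hX3).trans ?_
            rw [one_mul] at hX4
            exact hX4
          · exact mul_le_mul_of_nonneg_left (h3 _ fun p hp => PE_prime hp) (by positivity)
  have hE : 1 ≤ Real.exp (C2 * σ) := Real.one_le_exp (by positivity)
  have hE2 : Real.exp (C2 * σ) ≤ Real.exp ((C1 * (1 + C2 * 2 ^ r * C3) + C2) * σ) := by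
    apply Real.exp_le_exp.2
    apply mul_le_mul_of_nonneg_right _ hσ0
    have : 0 ≤ C1 * (1 + C2 * 2 ^ r * C3) := by positivity
    linarith
  calc C1 * _ ≤ C1 * (Z + C2 * 2 ^ r * Real.exp (C2 * σ) * Z * C3) := mul_le_mul_of_nonneg_left h7 (by linarith)
    _ ≤ C1 * (1 + C2 * 2 ^ r * C3) * Real.exp (C2 * σ) * Z := by
        have h8 : Z ≤ Real.exp (C2 * σ) * Z := le_mul_of_one_le_left hZ0 hE
        have h9 : C1 * Z ≤ C1 * (Real.exp (C2 * σ) * Z) := mul_le_mul_of_nonneg_left h8 (by linarith)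
        calc C1 * (Z + C2 * 2 ^ r * Real.exp (C2 * σ) * Z * C3) = C1 * Z + C1 * (C2 * 2 ^ r * C3) * Real.exp (C2 * σ) * Z := by ring
          _ ≤ C1 * (Real.exp (C2 * σ) * Z) + C1 * (C2 * 2 ^ r * C3) * Real.exp (C2 * σ) * Z := by linarith
          _ = _ := by ring
    _ ≤ (C1 * (1 + C2 * 2 ^ r * C3) + C2) * Real.exp ((C1 * (1 + C2 * 2 ^ r * C3) + C2) * σ) * Z := by
        have h8 : 0 ≤ C1 * (1 + C2 * 2 ^ r * C3) := by positivity
        gcongr
        linarith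

end Pool.Agent.U288.RO
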