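import Pool.Agent.U288.RO.B2

/-! The weighted upper bound for the prime points of a graph system. -/

set_option autoImplicit false
set_option linter.unusedSectionVars false

namespace Pool.Agent.U288.RO

open Finset Filter Topology
open Pool.Agent.Y851.DK Pool.Agent.U288.SP

lemma sum_le_inj {α β : Type*} [DecidableEq β] (A : Finset α) (B : Finset β) (i : α → β) (f : α → ℝ) (g : β → ℝ)
    (hi : ∀ a ∈ A, i a ∈ B) (hinj : Set.InjOn i (A : Set α)) (hfg : ∀ a ∈ A, f a ≤ g (i a)) (hg : ∀ b ∈ B, 0 ≤ g b) :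
    ∑ a ∈ A, f a ≤ ∑ b ∈ B, g b := by
  calc ∑ a ∈ A, f a ≤ ∑ a ∈ A, g (i a) := sum_le_sum hfg
    _ = ∑ b ∈ A.image i, g b := (sum_image hinj).symm
    _ ≤ ∑ b ∈ B, g b := by
        apply sum_le_sum_of_subset_of_nonneg
        · intro b hb
          obtain ⟨a, ha, rfl⟩ := mem_image.1 hb
          exact hi a ha
        · intro b hb _
          exact hg b hb

variable {V : Type} [Fintype V] [DecidableEq V]

open Classical in
/-- the good points of the line through `z` -/
noncomputable def linS (E : Finset (V × V)) (σ : V × V → ℤ) (X : ℕ) (z : V → ℕ) : Finset ℕ :=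
  (Icc 1 X).filter (fun n : ℕ => ∀ e ∈ E,
    (((dir V e.2 : ℤ) - dir V e.1) * (n : ℤ) + ((z e.2 : ℤ) - z e.1 + σ e)).toNat.Prime)

/-- fibring over the lines, with weights -/
lemma fibW (E : Finset (V × V)) (σ : V × V → ℤ) (X : ℕ) (φ : ℤ → ℝ) (hφ : ∀ m, 0 ≤ φ m) (u v : V) :
    (X : ℝ) * ∑ y ∈ sol E σ X, φ ((y u : ℤ) - y v) ≤
      ∑ z ∈ Fintype.piFinset (fun _ : V => Icc 1 ((Fintype.card V + 1) * X)),
        ∑ n ∈ linS E σ X z, φ (((dir V u : ℤ) - dir V v) * (n : ℤ) + ((z u : ℤ) - z v)) := by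
  classical
  have h1 : (X : ℝ) * ∑ y ∈ sol E σ X, φ ((y u : ℤ) - y v) =
      ∑ q ∈ (sol E σ X) ×ˢ (Icc 1 X), φ ((q.1 u : ℤ) - q.1 v) := by
    rw [sum_product]
    simp only [sum_const, Nat.card_Icc, Nat.add_sub_cancel, nsmul_eq_mul]
    rw [mul_sum]
  have h2 : ∑ z ∈ Fintype.piFinset (fun _ : V => Icc 1 ((Fintype.card V + 1) * X)),
        ∑ n ∈ linS E σ X z, φ (((dir V u : ℤ) - dir V v) * (n : ℤ) + ((z u : ℤ) - z v)) =
      ∑ q ∈ (Fintype.piFinset (fun _ : V => Icc 1 ((Fintype.card V + 1) * X))).sigma (fun z => linS E σ X z),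
        φ (((dir V u : ℤ) - dir V v) * (q.2 : ℤ) + ((q.1 u : ℤ) - q.1 v)) := by
    rw [sum_sigma]
  rw [h1, h2]
  apply sum_le_inj _ _ (fun q : (V → ℕ) × ℕ =>
      (⟨fun i => q.1 i + Fintype.card V * X - q.2 * dir V i, q.2⟩ : (_ : V → ℕ) × ℕ))
  · rintro ⟨y, n⟩ hq
    rw [mem_product] at hq
    obtain ⟨hy, hn⟩ := hq
    simp only [sol, mem_filter, Fintype.mem_piFinset, mem_Icc] at hy hn
    have hle : ∀ i, n * dir V i ≤ Fintype.card V * X := fun i => by
      rw [mul_comm (Fintype.card V)]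
      exact Nat.mul_le_mul hn.2 (dir_lt i).le
    rw [mem_sigma, Fintype.mem_piFinset]
    unfold linS
    rw [mem_filter, mem_Icc]
    refine ⟨fun i => ?_, hn, fun e he => ?_⟩
    · rw [mem_Icc]
      have h3 := hy.1 i
      have h4 := hle i
      have h5 : (Fintype.card V + 1) * X = Fintype.card V * X + X := by ring
      rw [h5]
      show 1 ≤ y i + Fintype.card V * X - n * dir V i ∧
        y i + Fintype.card V * X - n * dir V i ≤ Fintype.card V * X + X
      generalize Fintype.card V * X = A at *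
      generalize n * dir V i = B at *
      constructor <;> omega
    · have h3 := hy.2 e he
      have h4 := hle e.1
      have h5 := hle e.2
      have e1 : ((y e.1 + Fintype.card V * X - n * dir V e.1 : ℕ) : ℤ) =
          y e.1 + Fintype.card V * X - n * dir V e.1 := by
        rw [Nat.cast_sub (by omega)]
        push_cast
        ring
      have e2 : ((y e.2 + Fintype.card V * X - n * dir V e.2 : ℕ) : ℤ) =
          y e.2 + Fintype.card V * X - n * dir V e.2 := by
        rw [Nat.cast_sub (by omega)]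
        push_cast
        ring
      simp only [e1, e2]
      have e3 : ((dir V e.2 : ℤ) - dir V e.1) * (n : ℤ) + ((y e.2 : ℤ) + Fintype.card V * X - n * dir V e.2 -
          ((y e.1 : ℤ) + Fintype.card V * X - n * dir V e.1) + σ e) = (y e.2 : ℤ) - y e.1 + σ e := by ring
      rw [e3]
      exact h3
  · rintro ⟨y, n⟩ hq ⟨y', n'⟩ hq' heq
    rw [mem_coe, mem_product] at hq hq'
    obtain ⟨hy, hn⟩ := hq
    obtain ⟨hy', hn'⟩ := hq'
    simp only [sol, mem_filter, Fintype.mem_piFinset, mem_Icc] at hy hn hy' hn'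
    simp only [Sigma.mk.injEq] at heq
    obtain ⟨h3, h4⟩ := heq
    have h4' : n = n' := eq_of_heq h4
    subst h4'
    refine Prod.ext ?_ rfl
    funext i
    have h5 := congrFun h3 i
    have hle : n * dir V i ≤ Fintype.card V * X := by
      rw [mul_comm (Fintype.card V)]
      exact Nat.mul_le_mul hn.2 (dir_lt i).le
    simp only at h5 ⊢
    generalize Fintype.card V * X = A at *
    generalize n * dir V i = B at *
    omega
  · rintro ⟨y, n⟩ hq
    rw [mem_product] at hq
    obtain ⟨hy, hn⟩ := hq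
    simp only [sol, mem_filter, Fintype.mem_piFinset, mem_Icc] at hy hn
    have hle : ∀ i, n * dir V i ≤ Fintype.card V * X := fun i => by
      rw [mul_comm (Fintype.card V)]
      exact Nat.mul_le_mul hn.2 (dir_lt i).le
    apply le_of_eq
    congr 1
    have h4 := hle u
    have h5 := hle v
    have e1 : ((y u + Fintype.card V * X - n * dir V u : ℕ) : ℤ) =
        y u + Fintype.card V * X - n * dir V u := by
      rw [Nat.cast_sub (by omega)]
      push_cast
      ring
    have e2 : ((y v + Fintype.card V * X - n * dir V v : ℕ) : ℤ) =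
        y v + Fintype.card V * X - n * dir V v := by
      rw [Nat.cast_sub (by omega)]
      push_cast
      ring
    simp only [e1, e2]
    ring
  · intro b _
    exact hφ _

/-- the weighted sieve on one line of a graph system -/
lemma lineW (hSV : P_SV) (E : Finset (V × V)) (hE : Simple E) (σ : V × V → ℤ) (c : ℝ) (hc : 0 ≤ c) :
    ∃ C : ℝ, 1 ≤ C ∧ ∀ᶠ X : ℕ in atTop, ∀ z : V → ℕ, (∀ e ∈ E, ∀ f ∈ E, e ≠ f → det σ e f z ≠ 0) →
      (∀ i, z i ≤ (Fintype.card V + 1) * X) → ∀ u v : V, u ≠ v →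
      ∑ n ∈ linS E σ X z, Real.exp (c * sg (((dir V u : ℤ) - dir V v) * (n : ℤ) + ((z u : ℤ) - z v)).natAbs) ≤
        C * Real.exp (C * ∑ q ∈ E ×ˢ E, sg (det σ q.1 q.2 z).natAbs) * (X / Real.log X ^ E.card) := by
  classical
  obtain ⟨C, hC, h'⟩ := weighted_line hSV E.card c hc (Fintype.card V) 2
  refine ⟨C * Real.exp (C * (E.card * Fintype.card V)), ?_, ?_⟩
  · have : 1 ≤ Real.exp (C * (E.card * Fintype.card V)) := Real.one_le_exp (by positivity)
    nlinarith
  filter_upwards [h', eventually_ge_atTop 3, eventually_ge_atTop (2 * Fintype.card V + 1)]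
    with X hX hX3 hXD z hz hzb u v huv
  have hXr : (3 : ℝ) ≤ X := by exact_mod_cast hX3
  have hlog : 0 < Real.log X := Real.log_pos (by linarith)
  set φ : V × V → ℤ × ℤ := fun e => ((dir V e.2 : ℤ) - dir V e.1, (z e.2 : ℤ) - z e.1 + σ e) with hφ
  have hdet : ∀ e f, (φ e).1 * (φ f).2 - (φ f).1 * (φ e).2 = det σ e f z := fun e f => rfl
  have hinj : Set.InjOn φ (E : Set (V × V)) := by
    intro e he f hf hef
    by_contra hne
    apply hz e he f hf hne
    rw [← hdet, hef]
    ring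
  set F : Finset (ℤ × ℤ) := E.image φ with hF
  have hFc : F.card = E.card := card_image_of_injOn hinj
  have h1 := hX F hFc (by
      intro f hf
      obtain ⟨e, he, rfl⟩ := mem_image.1 hf
      exact dir_inj (hE e he).1.symm) (by
      intro f hf g hg hfg
      obtain ⟨e, he, rfl⟩ := mem_image.1 hf
      obtain ⟨e', he', rfl⟩ := mem_image.1 hg
      rw [hdet]
      apply hz e he e' he'
      rintro rfl
      exact hfg rfl) ((dir V u : ℤ) - dir V v) ((z u : ℤ) - z v) (dir_inj huv) (dir_abs u v) (by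
      intro n hn
      rw [mem_Icc] at hn
      set m := (((dir V u : ℤ) - dir V v) * (n : ℤ) + ((z u : ℤ) - z v)).natAbs with hm
      rcases Nat.eq_zero_or_pos m with h0 | h0
      · rw [h0, Nat.cast_zero, Real.log_zero]
        positivity
      · have h2 : (m : ℤ) ≤ X ^ 2 := by
          rw [hm, Int.natCast_natAbs]
          have h3 : |((dir V u : ℤ) - dir V v) * (n : ℤ)| ≤ Fintype.card V * X := by
            rw [abs_mul, Nat.abs_cast]
            have h4 := dir_abs u v
            have h5 : (n : ℤ) ≤ X := by exact_mod_cast hn.2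
            exact mul_le_mul h4 h5 (by positivity) (by positivity)
          have h4 : |(z u : ℤ) - z v| ≤ (Fintype.card V + 1) * X := by
            have h5 : (z u : ℤ) ≤ (Fintype.card V + 1) * X := by exact_mod_cast hzb u
            have h6 : (z v : ℤ) ≤ (Fintype.card V + 1) * X := by exact_mod_cast hzb v
            rw [abs_le]
            constructor <;> omega
          have h5 := abs_add_le (((dir V u : ℤ) - dir V v) * (n : ℤ)) ((z u : ℤ) - z v)
          have h6 : (2 * (Fintype.card V : ℤ) + 1) ≤ X := by exact_mod_cast hXD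
          have h7 : (0 : ℤ) ≤ X := by positivity
          nlinarith
        have h3 : (m : ℝ) ≤ (X : ℝ) ^ 2 := by exact_mod_cast h2
        have h4 := Real.log_le_log (by exact_mod_cast h0) h3
        rw [Real.log_pow] at h4
        push_cast at h4
        exact h4)
  have h2 : linS E σ X z ⊆ (Icc 1 X).filter (fun n : ℕ => ∀ f ∈ F, (f.1 * (n : ℤ) + f.2).toNat.Prime) := by
    unfold linS
    intro n hn
    rw [mem_filter] at hn ⊢
    refine ⟨hn.1, fun f hf => ?_⟩
    obtain ⟨e, he, rfl⟩ := mem_image.1 hf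
    exact hn.2 e he
  refine (sum_le_sum_of_subset_of_nonneg h2 fun _ _ _ => (Real.exp_pos _).le).trans (h1.trans ?_)
  have hs1 : ∑ f ∈ F, sg f.1.natAbs ≤ E.card * Fintype.card V := by
    rw [hF, sum_image hinj]
    calc ∑ e ∈ E, sg (φ e).1.natAbs ≤ ∑ _e ∈ E, (Fintype.card V : ℝ) := by
          apply sum_le_sum
          intro e _
          refine (sg_le _).trans ?_
          have h3 := dir_abs e.2 e.1
          have h4 : (((φ e).1.natAbs : ℕ) : ℤ) ≤ Fintype.card V := by
            rw [Int.natCast_natAbs]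
            exact h3
          exact_mod_cast h4
      _ = _ := by rw [sum_const, nsmul_eq_mul]
  have hs2 : ∑ f ∈ F, ∑ g ∈ F, sg (f.1 * g.2 - g.1 * f.2).natAbs = ∑ q ∈ E ×ˢ E, sg (det σ q.1 q.2 z).natAbs := by
    rw [hF, sum_image hinj, sum_product]
    apply sum_congr rfl
    intro e _
    rw [sum_image hinj]
    rfl
  rw [hs2]
  set S := ∑ q ∈ E ×ˢ E, sg (det σ q.1 q.2 z).natAbs with hS
  have hS0 : 0 ≤ S := sum_nonneg fun _ _ => sg_nonneg _
  have hC0 : 0 ≤ C := by linarith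
  have hee : 1 ≤ Real.exp (C * (E.card * Fintype.card V)) := Real.one_le_exp (by positivity)
  have h5 : Real.exp (C * (∑ f ∈ F, sg f.1.natAbs + S)) ≤
      Real.exp (C * (E.card * Fintype.card V)) * Real.exp (C * Real.exp (C * (E.card * Fintype.card V)) * S) := by
    rw [← Real.exp_add]
    apply Real.exp_le_exp.2
    have h6 : C * S ≤ C * Real.exp (C * (E.card * Fintype.card V)) * S := by
      have : C * S * 1 ≤ C * S * Real.exp (C * (E.card * Fintype.card V)) :=
        mul_le_mul_of_nonneg_left hee (by positivity)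
      linarith
    have h7 : C * ∑ f ∈ F, sg f.1.natAbs ≤ C * (E.card * Fintype.card V) := mul_le_mul_of_nonneg_left hs1 hC0
    rw [mul_add]
    linarith
  calc C * Real.exp (C * (∑ f ∈ F, sg f.1.natAbs + S)) * (X / Real.log X ^ E.card) ≤
      C * (Real.exp (C * (E.card * Fintype.card V)) * Real.exp (C * Real.exp (C * (E.card * Fintype.card V)) * S)) *
        (X / Real.log X ^ E.card) := by
        apply mul_le_mul_of_nonneg_right _ (by positivity)
        exact mul_le_mul_of_nonneg_left h5 hC0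
    _ = _ := by ring

/-- all points of the line -/
lemma lineAll (hSV : P_SV) (c : ℝ) (hc : 0 ≤ c) (E : Finset (V × V)) (σ : V × V → ℤ) :
    ∃ C : ℝ, 1 ≤ C ∧ ∀ᶠ X : ℕ in atTop, ∀ z : V → ℕ,
      (∀ i, z i ≤ (Fintype.card V + 1) * X) → ∀ u v : V, u ≠ v →
      ∑ n ∈ linS E σ X z, Real.exp (c * sg (((dir V u : ℤ) - dir V v) * (n : ℤ) + ((z u : ℤ) - z v)).natAbs) ≤ C * X := by
  classical
  obtain ⟨C, hC, h⟩ := lineW (V := V) hSV ∅ (fun e he => absurd he (notMem_empty e)) (fun _ => 0) c hc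
  refine ⟨C, hC, ?_⟩
  filter_upwards [h] with X hX z hz u v huv
  have h1 := hX z (fun e he => absurd he (notMem_empty e)) hz u v huv
  simp only [card_empty, pow_zero, div_one, empty_product, sum_empty, mul_zero, Real.exp_zero, mul_one] at h1
  refine le_trans (sum_le_sum_of_subset_of_nonneg ?_ fun _ _ _ => (Real.exp_pos _).le) h1
  unfold linS
  intro n hn
  rw [mem_filter] at hn ⊢
  exact ⟨hn.1, fun e he => absurd he (notMem_empty e)⟩

/-- **weighted upper bound** -/
theorem upperW (hSV : P_SV) (hAVG : P_AVG) (E : Finset (V × V)) (hE : Simple E) (σ : V × V → ℤ) (c : ℝ) (hc : 0 ≤ c)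
    (u v : V) (huv : u ≠ v) :
    ∃ C : ℝ, 0 < C ∧ ∀ᶠ X : ℕ in atTop, ∑ y ∈ sol E σ X, Real.exp (c * sg ((y u : ℤ) - y v).natAbs) ≤
      C * ((X : ℝ) ^ Fintype.card V / Real.log X ^ E.card) := by
  classical
  obtain ⟨C1, hC1, h1⟩ := lineW hSV E hE σ c hc
  obtain ⟨C3, hC3, h3a⟩ := lineAll hSV c hc E σ
  set D := Fintype.card V with hD
  set r := E.card with hr
  -- constants for the averages
  set c' : ℝ := C1 * (E ×ˢ E).card + 1 with hc'
  have hc0 : 0 < c' := by positivity
  set B : ℝ := ∑ q ∈ E ×ˢ E, (D * (2 + |(σ q.1 : ℝ)| + |(σ q.2 : ℝ)|)) with hB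
  obtain ⟨C2, hC2, h2⟩ := avgU hAVG c' D B hc0
  have hMt : Tendsto (fun X : ℕ => (D + 1) * X) atTop atTop := by
    apply tendsto_atTop_mono (fun n => ?_) tendsto_id
    simp only [id]
    nlinarith [Nat.zero_le D]
  have h2' := hMt.eventually h2
  have h3 : ∀ᶠ X : ℕ in atTop, Real.log X ^ r ≤ (X : ℝ) := by
    have h4 := (Real.isLittleO_pow_log_id_atTop (n := r)).bound (show (0 : ℝ) < 1 by norm_num)
    have h5 := (tendsto_natCast_atTop_atTop (R := ℝ)).eventually h4
    filter_upwards [h5, eventually_ge_atTop 3] with X hX hX3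
    have hXr : (3 : ℝ) ≤ X := by exact_mod_cast hX3
    have hl : 0 ≤ Real.log X := Real.log_nonneg (by linarith)
    rw [one_mul, Real.norm_of_nonneg (by positivity)] at hX
    simp only [id, Real.norm_eq_abs] at hX
    rwa [abs_of_nonneg (by linarith : (0 : ℝ) ≤ X)] at hX
  refine ⟨(C1 * (1 + (E ×ˢ E).card * C2) + C3 * (E ×ˢ E).card) * (D + 1) ^ D, by positivity, ?_⟩
  filter_upwards [h1, h2', h3, h3a, eventually_ge_atTop 3] with X hX1 hX2 hX3 hX3a hX4
  have hXr : (3 : ℝ) ≤ X := by exact_mod_cast hX4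
  have hX0 : (0 : ℝ) < X := by linarith
  have hlog : 0 < Real.log X := Real.log_pos (by linarith)
  set M := (D + 1) * X with hM
  have hM1 : 1 ≤ M := by
    rw [hM]
    have : 1 ≤ D + 1 := by omega
    nlinarith
  have hMr : (M : ℝ) = (D + 1) * X := by rw [hM]; push_cast; ring
  have hM0 : (0 : ℝ) < M := by exact_mod_cast hM1
  set Box := Fintype.piFinset (fun _ : V => Icc 1 M) with hBox
  have hBoxb : ∀ z ∈ Box, ∀ i, z i ≤ (D + 1) * X := by
    intro z hz i
    have := Fintype.mem_piFinset.1 hz i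
    exact (mem_Icc.1 this).2
  set lw : (V → ℕ) → ℝ := fun z => ∑ n ∈ linS E σ X z,
    Real.exp (c * sg (((dir V u : ℤ) - dir V v) * (n : ℤ) + ((z u : ℤ) - z v)).natAbs) with hlw
  -- the degenerate points
  set Off := (E ×ˢ E).filter (fun q => q.1 ≠ q.2) with hOff
  set Deg := Box.filter (fun z => ∃ q ∈ Off, det σ q.1 q.2 z = 0) with hDeg
  have hDegc : (M : ℝ) * (Deg.card : ℝ) ≤ (E ×ˢ E).card * (M : ℝ) ^ D := by
    have h5 : Deg ⊆ Off.biUnion (fun q => Box.filter (fun z => det σ q.1 q.2 z = 0)) := by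
      intro z hz
      rw [hDeg, mem_filter] at hz
      obtain ⟨q, hq, hq2⟩ := hz.2
      rw [mem_biUnion]
      exact ⟨q, hq, mem_filter.2 ⟨hz.1, hq2⟩⟩
    have h6 : (Deg.card : ℝ) ≤ ∑ q ∈ Off, ((Box.filter (fun z => det σ q.1 q.2 z = 0)).card : ℝ) := by
      exact_mod_cast (card_le_card h5).trans card_biUnion_le
    calc (M : ℝ) * (Deg.card : ℝ) ≤ M * ∑ q ∈ Off, ((Box.filter (fun z => det σ q.1 q.2 z = 0)).card : ℝ) :=
          mul_le_mul_of_nonneg_left h6 hM0.le
      _ = ∑ q ∈ Off, (M : ℝ) * ((Box.filter (fun z => det σ q.1 q.2 z = 0)).card : ℝ) := by rw [mul_sum]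
      _ ≤ ∑ _q ∈ Off, (M : ℝ) ^ D := by
          apply sum_le_sum
          intro q hq
          rw [hOff, mem_filter, mem_product] at hq
          obtain ⟨m, α, hα, -, hup⟩ := det_update σ hE hq.1.1 hq.1.2 hq.2
          exact zerosU M m (det σ q.1 q.2) α hα hup
      _ = Off.card * (M : ℝ) ^ D := by rw [sum_const, nsmul_eq_mul]
      _ ≤ _ := by
          apply mul_le_mul_of_nonneg_right _ (by positivity)
          exact_mod_cast card_filter_le _ _
  -- the other points
  have hgood : ∀ z ∈ Box, z ∉ Deg → lw z ≤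
      C1 * (X / Real.log X ^ r) * (1 + ∑ q ∈ E ×ˢ E, Real.exp (c' * sg (det σ q.1 q.2 z).natAbs)) := by
    intro z hz hzd
    have h5 := hX1 z (by
      intro e he f hf hef h0
      apply hzd
      rw [hDeg, mem_filter]
      exact ⟨hz, (e, f), by rw [hOff, mem_filter, mem_product]; exact ⟨⟨he, hf⟩, hef⟩, h0⟩) (hBoxb z hz) u v huv
    refine h5.trans ?_
    have h6 := exp_sum_le (E ×ˢ E) (fun q => sg (det σ q.1 q.2 z).natAbs) (fun _ _ => sg_nonneg _) C1 (by linarith)
    have h7 : ∑ q ∈ E ×ˢ E, Real.exp (C1 * (E ×ˢ E).card * sg (det σ q.1 q.2 z).natAbs) ≤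
        ∑ q ∈ E ×ˢ E, Real.exp (c' * sg (det σ q.1 q.2 z).natAbs) := by
      apply sum_le_sum
      intro q _
      apply Real.exp_le_exp.2
      apply mul_le_mul_of_nonneg_right _ (sg_nonneg _)
      rw [hc']
      linarith
    calc C1 * Real.exp (C1 * ∑ q ∈ E ×ˢ E, sg (det σ q.1 q.2 z).natAbs) * (X / Real.log X ^ r) =
        C1 * (X / Real.log X ^ r) * Real.exp (C1 * ∑ q ∈ E ×ˢ E, sg (det σ q.1 q.2 z).natAbs) := by ring
      _ ≤ _ := by
        apply mul_le_mul_of_nonneg_left _ (by positivity)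
        linarith
  have hsum1 : ∑ z ∈ Box, (1 + ∑ q ∈ E ×ˢ E, Real.exp (c' * sg (det σ q.1 q.2 z).natAbs)) ≤
      (1 + (E ×ˢ E).card * C2) * (M : ℝ) ^ D := by
    rw [sum_add_distrib, sum_const, nsmul_eq_mul, mul_one, sum_comm]
    have h5 : (Box.card : ℝ) = (M : ℝ) ^ D := card_boxV M
    rw [h5]
    have h6 : ∀ q ∈ E ×ˢ E, ∑ z ∈ Box, Real.exp (c' * sg (det σ q.1 q.2 z).natAbs) ≤ C2 * (M : ℝ) ^ D := by
      intro q hq
      by_cases hqe : q.1 = q.2
      · have h7 : ∀ z ∈ Box, Real.exp (c' * sg (det σ q.1 q.2 z).natAbs) = 1 := by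
          intro z _
          have h8 : det σ q.1 q.2 z = 0 := by
            rw [hqe]
            unfold det
            ring
          rw [h8]
          simp [sg]
        rw [sum_congr rfl h7, sum_const, nsmul_eq_mul, mul_one, h5]
        have : 0 ≤ (M : ℝ) ^ D := by positivity
        nlinarith
      · obtain ⟨m, α, hα, hαD, hup⟩ := det_update σ hE (mem_product.1 hq).1 (mem_product.1 hq).2 hqe
        apply hX2 V m (det σ q.1 q.2) α hα hαD hup
        intro z hz
        refine (det_bound σ q.1 q.2 M hM1 z hz).trans ?_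
        apply mul_le_mul_of_nonneg_right _ hM0.le
        rw [hB]
        exact single_le_sum (f := fun q : (V × V) × (V × V) => (D * (2 + |(σ q.1 : ℝ)| + |(σ q.2 : ℝ)|)))
          (fun i _ => by positivity) hq
    have h7 := sum_le_sum h6
    rw [sum_const, nsmul_eq_mul] at h7
    calc (M : ℝ) ^ D + ∑ q ∈ E ×ˢ E, ∑ z ∈ Box, Real.exp (c' * sg (det σ q.1 q.2 z).natAbs) ≤
        (M : ℝ) ^ D + (E ×ˢ E).card * (C2 * (M : ℝ) ^ D) := by linarith
      _ = _ := by ring
  have hfib := fibW E σ X (fun m => Real.exp (c * sg m.natAbs)) (fun _ => (Real.exp_pos _).le) u v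
  rw [← hD, ← hM, ← hBox] at hfib
  have hall : ∀ z ∈ Box, lw z ≤
      C1 * (X / Real.log X ^ r) * (1 + ∑ q ∈ E ×ˢ E, Real.exp (c' * sg (det σ q.1 q.2 z).natAbs)) +
        (if z ∈ Deg then C3 * (X : ℝ) else 0) := by
    intro z hz
    by_cases hzd : z ∈ Deg
    · rw [if_pos hzd]
      have h5 : lw z ≤ C3 * X := hX3a z (hBoxb z hz) u v huv
      have h6 : 0 ≤ C1 * (X / Real.log X ^ r) * (1 + ∑ q ∈ E ×ˢ E, Real.exp (c' * sg (det σ q.1 q.2 z).natAbs)) := by
        have : 0 ≤ ∑ q ∈ E ×ˢ E, Real.exp (c' * sg (det σ q.1 q.2 z).natAbs) := sum_nonneg fun _ _ => (Real.exp_pos _).le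
        positivity
      linarith
    · rw [if_neg hzd, add_zero]
      exact hgood z hz hzd
  set TS := ∑ y ∈ sol E σ X, Real.exp (c * sg ((y u : ℤ) - y v).natAbs) with hTS
  have htot : (X : ℝ) * TS ≤
      C1 * (X / Real.log X ^ r) * ((1 + (E ×ˢ E).card * C2) * (M : ℝ) ^ D) + C3 * X * (Deg.card : ℝ) := by
    refine hfib.trans ((sum_le_sum hall).trans ?_)
    rw [sum_add_distrib, ← mul_sum, ← sum_filter, sum_const, nsmul_eq_mul]
    have h5 : Box.filter (fun z => z ∈ Deg) = Deg := by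
      ext z
      rw [mem_filter, hDeg, mem_filter]
      tauto
    rw [h5]
    have h6 := mul_le_mul_of_nonneg_left hsum1 (show 0 ≤ C1 * (X / Real.log X ^ r) by positivity)
    linarith
  have hMX : (X : ℝ) ≤ M := by
    rw [hMr]
    have : (0 : ℝ) ≤ D := Nat.cast_nonneg _
    nlinarith
  have hdeg2 : C3 * X * (Deg.card : ℝ) ≤ C3 * ((E ×ˢ E).card * (M : ℝ) ^ D) := by
    rw [mul_assoc]
    apply mul_le_mul_of_nonneg_left _ (by linarith)
    exact (mul_le_mul_of_nonneg_right hMX (Nat.cast_nonneg _)).trans hDegc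
  -- conclusion
  have hXL : 1 ≤ (X : ℝ) / Real.log X ^ r := by
    rw [le_div_iff₀ (by positivity), one_mul]
    exact hX3
  have hMD : 0 ≤ (M : ℝ) ^ D := by positivity
  have h8 : (X : ℝ) * TS ≤
      (C1 * (1 + (E ×ˢ E).card * C2) + C3 * (E ×ˢ E).card) * (M : ℝ) ^ D * (X / Real.log X ^ r) := by
    have h9 : C3 * (((E ×ˢ E).card : ℝ) * (M : ℝ) ^ D) ≤ C3 * ((E ×ˢ E).card * (M : ℝ) ^ D) * (X / Real.log X ^ r) :=
      le_mul_of_one_le_right (by positivity) hXL
    calc (X : ℝ) * TS ≤ C1 * (X / Real.log X ^ r) * ((1 + (E ×ˢ E).card * C2) * (M : ℝ) ^ D) +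
          C3 * ((E ×ˢ E).card * (M : ℝ) ^ D) * (X / Real.log X ^ r) := by linarith
      _ = _ := by ring
  have h10 : (X : ℝ) * TS ≤
      X * ((C1 * (1 + (E ×ˢ E).card * C2) + C3 * (E ×ˢ E).card) * (D + 1) ^ D * ((X : ℝ) ^ D / Real.log X ^ r)) := by
    refine h8.trans (le_of_eq ?_)
    rw [hMr, mul_pow]
    ring
  exact le_of_mul_le_mul_left h10 hX0

/-- **weighted upper bound, all pairs** -/
theorem upperS (hSV : P_SV) (hAVG : P_AVG) (E : Finset (V × V)) (hE : Simple E) (σ : V × V → ℤ) (c : ℝ) (hc : 0 ≤ c) :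
    ∃ C : ℝ, 0 < C ∧ ∀ᶠ X : ℕ in atTop,
      ∑ y ∈ sol E σ X, Real.exp (c * ∑ q : V × V, sg ((y q.1 : ℤ) - y q.2).natAbs) ≤
      C * ((X : ℝ) ^ Fintype.card V / Real.log X ^ E.card) := by
  classical
  set n : ℝ := ((univ : Finset (V × V)).card : ℝ) with hn
  have hn0 : 0 ≤ n := Nat.cast_nonneg _
  obtain ⟨C0, hC0, h0⟩ := upper hSV hAVG E hE σ
  have h1 : ∀ q : V × V, ∃ C : ℝ, 0 < C ∧ ∀ᶠ X : ℕ in atTop,
      ∑ y ∈ sol E σ X, Real.exp (c * n * sg ((y q.1 : ℤ) - y q.2).natAbs) ≤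
      C * ((X : ℝ) ^ Fintype.card V / Real.log X ^ E.card) := by
    intro q
    by_cases hq : q.1 = q.2
    · refine ⟨C0, hC0, ?_⟩
      filter_upwards [h0] with X hX
      refine le_trans (le_of_eq ?_) hX
      rw [hq]
      simp [sg]
    · exact upperW hSV hAVG E hE σ (c * n) (by positivity) q.1 q.2 hq
  choose Cq hCq hq using h1
  refine ⟨C0 + ∑ q, Cq q, add_pos_of_pos_of_nonneg hC0 (sum_nonneg fun q _ => (hCq q).le), ?_⟩
  filter_upwards [h0, eventually_all.2 hq] with X hX hX1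
  calc ∑ y ∈ sol E σ X, Real.exp (c * ∑ q : V × V, sg ((y q.1 : ℤ) - y q.2).natAbs) ≤
      ∑ y ∈ sol E σ X, (1 + ∑ q : V × V, Real.exp (c * n * sg ((y q.1 : ℤ) - y q.2).natAbs)) := by
        apply sum_le_sum
        intro y _
        exact exp_sum_le univ (fun q : V × V => sg ((y q.1 : ℤ) - y q.2).natAbs) (fun _ _ => sg_nonneg _) c hc
    _ = ((sol E σ X).card : ℝ) + ∑ q : V × V, ∑ y ∈ sol E σ X, Real.exp (c * n * sg ((y q.1 : ℤ) - y q.2).natAbs) := by
        rw [sum_add_distrib, sum_const, nsmul_eq_mul, mul_one, sum_comm]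
    _ ≤ C0 * ((X : ℝ) ^ Fintype.card V / Real.log X ^ E.card) +
        ∑ q : V × V, Cq q * ((X : ℝ) ^ Fintype.card V / Real.log X ^ E.card) :=
        add_le_add hX (sum_le_sum fun q _ => hX1 q)
    _ = _ := by rw [← sum_mul]; ring

end Pool.Agent.U288.RO
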