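import Pool.Agent.U288.RO.A1
import Pool.Agent.U288.RO.B3

/-! The number of the prime points of a graph system all of whose translates by `n` are free of small primes. -/

set_option autoImplicit false
set_option linter.unusedSectionVars false

namespace Pool.Agent.U288.RO

open Finset Filter Topology
open Pool.Agent.Y851.DK Pool.Agent.U288.SP

open Classical in
/-- the `n ≤ N` such that all `n + z v` are free of small primes -/
noncomputable def RN {V : Type} (κ : ℝ) (N : ℕ) (z : V → ℕ) : Finset ℕ :=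
  (Icc 1 N).filter (fun n : ℕ => ∀ v, Ro κ N ((n : ℤ) + z v))

lemma mem_RN {V : Type} {κ : ℝ} {N : ℕ} {z : V → ℕ} {n : ℕ} :
    n ∈ RN κ N z ↔ n ∈ Icc 1 N ∧ ∀ v, Ro κ N ((n : ℤ) + z v) := by
  unfold RN
  exact @Finset.mem_filter _ _ (fun _ => Classical.propDecidable _) _ _

lemma sum_RN {V : Type} (κ : ℝ) (N : ℕ) (S : Finset (V → ℕ)) : ∑ z ∈ S, ((RN κ N z).card : ℝ) =
    ∑ n ∈ Icc 1 N, ((S.filter (fun z => n ∈ RN κ N z)).card : ℝ) := by
  have h : ∀ z : V → ℕ, ((RN κ N z).card : ℝ) = ∑ n ∈ Icc 1 N, if n ∈ RN κ N z then (1 : ℝ) else 0 := by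
    intro z
    rw [sum_boole]
    congr 2
    ext n
    rw [mem_filter]
    exact ⟨fun h => ⟨(mem_RN.1 h).1, h⟩, fun h => h.2⟩
  simp only [h]
  rw [sum_comm]
  apply sum_congr rfl
  intro n _
  rw [sum_boole]

/-- injective points -/
lemma rn_inj (V : Type) [Fintype V] [DecidableEq V] (κ : ℝ) (hκ : 0 < κ) : ∃ C : ℝ, 1 ≤ C ∧ ∀ᶠ N : ℕ in atTop,
    ∀ z : V → ℕ, Function.Injective z →
      ((RN κ N z).card : ℝ) ≤ C * Real.exp (C * ∑ q : V × V, sg ((z q.1 : ℤ) - z q.2).natAbs) *
        (N / Real.log N ^ Fintype.card V) := by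
  classical
  obtain ⟨C, hC, h⟩ := rough_sieve (Fintype.card V) κ hκ
  refine ⟨C, hC, ?_⟩
  filter_upwards [h] with N hN z hz
  have hinj : Set.InjOn (fun v => (z v : ℤ)) ((univ : Finset V) : Set V) := by
    intro a _ b _ hab
    have hab' : (z a : ℤ) = z b := hab
    exact hz (by exact_mod_cast hab')
  have h1 := hN (univ.image (fun v => (z v : ℤ))) (by rw [card_image_of_injOn hinj, card_univ])
  have h2 : ∑ f ∈ univ.image (fun v => (z v : ℤ)), ∑ g ∈ univ.image (fun v => (z v : ℤ)), sg (g - f).natAbs =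
      ∑ q : V × V, sg ((z q.1 : ℤ) - z q.2).natAbs := by
    rw [sum_image hinj, Fintype.sum_prod_type, sum_comm]
    rw [sum_image hinj]
  rw [h2] at h1
  refine le_trans ?_ h1
  rw [Nat.cast_le]
  apply card_le_card
  intro n hn
  rw [mem_RN] at hn
  rw [mem_filter]
  refine ⟨hn.1, fun b hb => ?_⟩
  obtain ⟨v, _, rfl⟩ := mem_image.1 hb
  exact hn.2 v

section
variable {V : Type} [Fintype V] [DecidableEq V]

open Classical in
lemma me_inj (hSV : P_SV) (hAVG : P_AVG) (E : Finset (V × V)) (hE : Simple E) (σ : V × V → ℤ) (κ : ℝ) (hκ : 0 < κ) :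
    ∃ C : ℝ, 0 < C ∧ ∃ M₀ : ℕ, ∀ N X : ℕ, M₀ ≤ N → M₀ ≤ X →
      ∑ z ∈ (sol E σ X).filter (fun z => Function.Injective z), ((RN κ N z).card : ℝ) ≤
        C * ((N / Real.log N ^ Fintype.card V) * ((X : ℝ) ^ Fintype.card V / Real.log X ^ E.card)) := by
  obtain ⟨C1, hC1, h1⟩ := rn_inj V κ hκ
  obtain ⟨C2, hC2, h2⟩ := upperS hSV hAVG E hE σ C1 (by linarith)
  obtain ⟨M1, hM1⟩ := eventually_atTop.1 h1
  obtain ⟨M2, hM2⟩ := eventually_atTop.1 h2
  refine ⟨C1 * C2, by positivity, max (max M1 M2) 3, fun N X hN hX => ?_⟩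
  have hN3 : 3 ≤ N := (le_max_right _ _).trans hN
  have hNr : (3 : ℝ) ≤ N := by exact_mod_cast hN3
  have hlN : 0 < Real.log N := Real.log_pos (by linarith)
  have h3 := hM1 N (((le_max_left _ _).trans (le_max_left _ _)).trans hN)
  have h4 := hM2 X (((le_max_right _ _).trans (le_max_left _ _)).trans hX)
  calc _ ≤ ∑ z ∈ (sol E σ X).filter (fun z => Function.Injective z),
        C1 * Real.exp (C1 * ∑ q : V × V, sg ((z q.1 : ℤ) - z q.2).natAbs) * (N / Real.log N ^ Fintype.card V) := by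
        apply sum_le_sum
        intro z hz
        exact h3 z (mem_filter.1 hz).2
    _ ≤ ∑ z ∈ sol E σ X,
        C1 * Real.exp (C1 * ∑ q : V × V, sg ((z q.1 : ℤ) - z q.2).natAbs) * (N / Real.log N ^ Fintype.card V) := by
        apply sum_le_sum_of_subset_of_nonneg (filter_subset _ _)
        intro z _ _
        positivity
    _ = C1 * (N / Real.log N ^ Fintype.card V) * ∑ z ∈ sol E σ X,
        Real.exp (C1 * ∑ q : V × V, sg ((z q.1 : ℤ) - z q.2).natAbs) := by
        rw [mul_sum]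
        apply sum_congr rfl
        intro z _
        ring
    _ ≤ C1 * (N / Real.log N ^ Fintype.card V) * (C2 * ((X : ℝ) ^ Fintype.card V / Real.log X ^ E.card)) := by
        apply mul_le_mul_of_nonneg_left h4 (by positivity)
    _ = _ := by ring

end

lemma pow_le_choose' (Z r : ℕ) : (Z : ℝ) ^ r ≤
    (2 * r : ℝ) ^ r + 2 ^ r * r.factorial * ((Z.choose r : ℕ) : ℝ) := by
  have hc : (0:ℝ) ≤ ((Z.choose r : ℕ) : ℝ) := Nat.cast_nonneg _
  rcases le_or_gt Z (2 * r) with h | h
  · have h3 : (Z:ℝ) ^ r ≤ (2 * r : ℝ) ^ r := by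
      apply pow_le_pow_left₀ (Nat.cast_nonneg _)
      exact_mod_cast h
    have h4 : (0:ℝ) ≤ 2 ^ r * r.factorial * ((Z.choose r : ℕ) : ℝ) := by positivity
    linarith
  · have h3 := Nat.pow_le_choose (α := ℝ) r Z
    have hf : (0:ℝ) < r.factorial := by exact_mod_cast Nat.factorial_pos _
    rw [div_le_iff₀ hf] at h3
    have h4 : (Z:ℝ) / 2 ≤ ((Z + 1 - r : ℕ) : ℝ) := by
      rw [Nat.cast_sub (by omega)]
      push_cast
      have : (2 * r : ℝ) < Z := by exact_mod_cast h
      linarith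
    have h5 : ((Z:ℝ) / 2) ^ r ≤ (((Z + 1 - r : ℕ)) : ℝ) ^ r :=
      pow_le_pow_left₀ (by positivity) h4 _
    have h6 : (Z:ℝ) ^ r = 2 ^ r * ((Z:ℝ) / 2) ^ r := by
      rw [← mul_pow]; congr 1; ring
    rw [h6]
    have h8 : ((Z:ℝ) / 2) ^ r ≤ ((Z.choose r : ℕ) : ℝ) * r.factorial := h5.trans h3
    have h9 : 2 ^ r * ((Z:ℝ) / 2) ^ r ≤ 2 ^ r * (((Z.choose r : ℕ) : ℝ) * r.factorial) :=
      mul_le_mul_of_nonneg_left h8 (by positivity)
    have h10 : (0:ℝ) ≤ (2 * r : ℝ) ^ r := by positivity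
    linarith

open Classical in
/-- the shifts `t ≤ X` with `n + t` free of small primes -/
noncomputable def SN (κ : ℝ) (N X n : ℕ) : Finset ℕ := (Icc 1 X).filter (fun t : ℕ => Ro κ N ((n : ℤ) + t))

lemma mem_SN {κ : ℝ} {N X n t : ℕ} : t ∈ SN κ N X n ↔ t ∈ Icc 1 X ∧ Ro κ N ((n : ℤ) + t) := by
  unfold SN
  exact @Finset.mem_filter _ _ (fun _ => Classical.propDecidable _) _ _

/-- moments -/
lemma mom (hSV : P_SV) (hAVG : P_AVG) (κ : ℝ) (hκ : 0 < κ) (m : ℕ) :
    ∃ C : ℝ, 0 < C ∧ ∃ M₀ : ℕ, ∀ N X : ℕ, M₀ ≤ N → M₀ ≤ X → Real.log N ≤ X →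
      ∑ n ∈ Icc 1 N, ((SN κ N X n).card : ℝ) ^ m ≤ C * (N * (X / Real.log N) ^ m) := by
  classical
  obtain ⟨C1, hC1, M₀, h1⟩ := me_inj (V := Fin m) hSV hAVG ∅ (fun e he => absurd he (notMem_empty e)) (fun _ => 0) κ hκ
  refine ⟨(2 * m : ℝ) ^ m + 2 ^ m * m.factorial * C1, by positivity, max M₀ 3, fun N X hN hX hNX => ?_⟩
  have hN3 : 3 ≤ N := (le_max_right _ _).trans hN
  have hNr : (3 : ℝ) ≤ N := by exact_mod_cast hN3
  have hlN : 0 < Real.log N := Real.log_pos (by linarith)
  have h2 := h1 N X ((le_max_left _ _).trans hN) ((le_max_left _ _).trans hX)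
  rw [Fintype.card_fin, card_empty, pow_zero, div_one] at h2
  have h3 : ∑ n ∈ Icc 1 N, (((SN κ N X n).card.choose m : ℕ) : ℝ) ≤
      ∑ z ∈ (sol (V := Fin m) ∅ (fun _ => 0) X).filter (fun z => Function.Injective z), ((RN κ N z).card : ℝ) := by
    rw [sum_RN]
    apply sum_le_sum
    intro n hnN
    rw [← card_powersetCard, Nat.cast_le]
    apply card_le_card_of_injOn (fun R : Finset ℕ => if h : R.card = m then (fun i => R.orderEmbOfFin h i) else (fun _ => 0))
    · intro R hR
      rw [mem_coe, mem_powersetCard] at hR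
      rw [mem_coe]
      simp only [dif_pos hR.2]
      simp only [mem_filter, mem_RN]
      have h5 : ∀ i, R.orderEmbOfFin hR.2 i ∈ SN κ N X n := fun i => hR.1 (orderEmbOfFin_mem R hR.2 i)
      refine ⟨⟨?_, (R.orderEmbOfFin hR.2).injective⟩, ?_, fun v => ?_⟩
      · simp only [sol, mem_filter, Fintype.mem_piFinset]
        refine ⟨fun i => ?_, fun e he => absurd he (notMem_empty e)⟩
        exact (mem_SN.1 (h5 i)).1
      · assumption
      · exact (mem_SN.1 (h5 v)).2
    · intro R hR R' hR' h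
      rw [mem_coe, mem_powersetCard] at hR hR'
      simp only [dif_pos hR.2, dif_pos hR'.2] at h
      have h5 : Set.range (R.orderEmbOfFin hR.2) = Set.range (R'.orderEmbOfFin hR'.2) := by
        congr 1
      rw [range_orderEmbOfFin, range_orderEmbOfFin] at h5
      exact_mod_cast h5
  have h5 : ∀ n ∈ Icc 1 N, ((SN κ N X n).card : ℝ) ^ m ≤
      (2 * m : ℝ) ^ m + 2 ^ m * m.factorial * (((SN κ N X n).card.choose m : ℕ) : ℝ) :=
    fun n _ => pow_le_choose' _ _
  have hXl : 1 ≤ (X : ℝ) / Real.log N := by rw [le_div_iff₀ hlN]; linarith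
  have hXm : 1 ≤ ((X : ℝ) / Real.log N) ^ m := one_le_pow₀ hXl
  calc _ ≤ ∑ n ∈ Icc 1 N, ((2 * m : ℝ) ^ m + 2 ^ m * m.factorial * (((SN κ N X n).card.choose m : ℕ) : ℝ)) :=
        sum_le_sum h5
    _ = N * (2 * m : ℝ) ^ m + 2 ^ m * m.factorial * ∑ n ∈ Icc 1 N, (((SN κ N X n).card.choose m : ℕ) : ℝ) := by
        rw [sum_add_distrib, sum_const, Nat.card_Icc, Nat.add_sub_cancel, nsmul_eq_mul, ← mul_sum]
    _ ≤ N * (2 * m : ℝ) ^ m * (X / Real.log N) ^ m + 2 ^ m * m.factorial * (C1 * ((N / Real.log N ^ m) * (X : ℝ) ^ m)) := by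
        apply add_le_add
        · exact le_mul_of_one_le_right (by positivity) hXm
        · exact mul_le_mul_of_nonneg_left (h3.trans h2) (by positivity)
    _ = _ := by
        rw [div_pow]
        ring

open Classical in
/-- few functions are not injective -/
lemma noninj' {ι : Type} [Fintype ι] [DecidableEq ι] (J : Finset ℕ) :
    ((Fintype.piFinset (fun _ : ι => J)).filter (fun A => ¬ Function.Injective A)).card ≤
      (Fintype.card ι) ^ 2 * J.card ^ (Fintype.card ι - 1) := by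
  have h1 : (Fintype.piFinset (fun _ : ι => J)).filter (fun A => ¬ Function.Injective A) ⊆
      ((univ : Finset (ι × ι)).filter (fun z => z.1 ≠ z.2)).biUnion (fun z =>
        (Fintype.piFinset (fun _ : ι => J)).filter (fun A => A z.1 = A z.2)) := by
    intro A hA
    rw [mem_filter] at hA
    obtain ⟨hA1, hA2⟩ := hA
    unfold Function.Injective at hA2
    push Not at hA2
    obtain ⟨a, b, hab, hne⟩ := hA2
    rw [mem_biUnion]
    exact ⟨(a, b), mem_filter.2 ⟨mem_univ _, hne⟩, mem_filter.2 ⟨hA1, hab⟩⟩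
  refine (card_le_card h1).trans (card_biUnion_le.trans ?_)
  have h2 : ∀ z ∈ (univ : Finset (ι × ι)).filter (fun z => z.1 ≠ z.2),
      ((Fintype.piFinset (fun _ : ι => J)).filter (fun A => A z.1 = A z.2)).card ≤ J.card ^ (Fintype.card ι - 1) := by
    rintro ⟨a, b⟩ hz
    have hne : a ≠ b := (mem_filter.1 hz).2
    have h3 : ((Fintype.piFinset (fun _ : ι => J)).filter (fun A => A a = A b)).card ≤
        (Fintype.piFinset (fun _ : {x : ι // x ≠ b} => J)).card := by
      refine card_le_card_of_injOn (fun A => fun x => A x.1) ?_ ?_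
      · intro A hA
        rw [mem_coe, mem_filter, Fintype.mem_piFinset] at hA
        rw [mem_coe, Fintype.mem_piFinset]
        exact fun x => hA.1 x.1
      · intro A hA B hB hAB
        rw [mem_coe, mem_filter] at hA hB
        funext x
        by_cases hx : x = b
        · rw [hx, ← hA.2, ← hB.2]
          exact congrFun hAB ⟨a, hne⟩
        · exact congrFun hAB ⟨x, hx⟩
    refine h3.trans (le_of_eq ?_)
    rw [Fintype.card_piFinset]
    simp only [prod_const, card_univ]
    congr 1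
    rw [Fintype.card_subtype_compl, Fintype.card_subtype_eq]
  refine (sum_le_card_nsmul _ _ _ h2).trans ?_
  rw [smul_eq_mul]
  apply Nat.mul_le_mul_right
  refine (card_filter_le _ _).trans ?_
  rw [card_univ, Fintype.card_prod, sq]

section
variable {V : Type} [Fintype V] [DecidableEq V]

/-- **all points** -/
theorem me_all (hSV : P_SV) (hAVG : P_AVG) (E : Finset (V × V)) (hE : Simple E) (σ : V × V → ℤ) (κ : ℝ) (hκ : 0 < κ) :
    ∃ C : ℝ, 0 < C ∧ ∃ M₀ : ℕ, ∀ N X : ℕ, M₀ ≤ N → M₀ ≤ X → Real.log N * Real.log X ^ E.card ≤ X →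
      ∑ z ∈ sol E σ X, ((RN κ N z).card : ℝ) ≤
        C * ((N / Real.log N ^ Fintype.card V) * ((X : ℝ) ^ Fintype.card V / Real.log X ^ E.card)) := by
  classical
  obtain ⟨C1, hC1, M1, h1⟩ := me_inj hSV hAVG E hE σ κ hκ
  obtain ⟨C2, hC2, M2, h2⟩ := mom hSV hAVG κ hκ (Fintype.card V - 1)
  refine ⟨C1 + (Fintype.card V : ℝ) ^ 2 * C2, by positivity, max (max M1 M2) 3, fun N X hN hX hNX => ?_⟩
  have hN3 : 3 ≤ N := (le_max_right _ _).trans hN
  have hNr : (3 : ℝ) ≤ N := by exact_mod_cast hN3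
  have hX3 : 3 ≤ X := (le_max_right _ _).trans hX
  have hXr : (3 : ℝ) ≤ X := by exact_mod_cast hX3
  have hlN : 0 < Real.log N := Real.log_pos (by linarith)
  have hlX : 1 ≤ Real.log X := by
    have := Real.exp_one_lt_d9
    rw [Real.le_log_iff_exp_le (by linarith)]
    linarith
  have hNX' : Real.log N ≤ X := by
    refine le_trans ?_ hNX
    exact le_mul_of_one_le_right hlN.le (one_le_pow₀ hlX)
  have h3 := h1 N X (((le_max_left _ _).trans (le_max_left _ _)).trans hN) (((le_max_left _ _).trans (le_max_left _ _)).trans hX)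
  have h4 := h2 N X (((le_max_right _ _).trans (le_max_left _ _)).trans hN)
    (((le_max_right _ _).trans (le_max_left _ _)).trans hX) hNX'
  rw [← sum_filter_add_sum_filter_not (sol E σ X) (fun z => Function.Injective z)]
  have h5 : ∑ z ∈ (sol E σ X).filter (fun z => ¬ Function.Injective z), ((RN κ N z).card : ℝ) ≤
      (Fintype.card V : ℝ) ^ 2 * (C2 * (N * (X / Real.log N) ^ (Fintype.card V - 1))) := by
    rw [sum_RN]
    calc _ ≤ ∑ n ∈ Icc 1 N, ((Fintype.card V : ℝ) ^ 2 * ((SN κ N X n).card : ℝ) ^ (Fintype.card V - 1)) := by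
          apply sum_le_sum
          intro n _
          have h7 := noninj' (ι := V) (SN κ N X n)
          have h8 : ((((sol E σ X).filter (fun z => ¬ Function.Injective z)).filter
              (fun z => n ∈ RN κ N z)).card : ℕ) ≤
              ((Fintype.piFinset (fun _ : V => SN κ N X n)).filter (fun A => ¬ Function.Injective A)).card := by
            apply card_le_card
            intro z hz
            simp only [mem_filter, mem_RN] at hz
            obtain ⟨⟨hz1, hz2⟩, -, hz3⟩ := hz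
            simp only [sol, mem_filter, Fintype.mem_piFinset] at hz1
            simp only [mem_filter, Fintype.mem_piFinset]
            refine ⟨fun v => ?_, hz2⟩
            rw [mem_SN]
            exact ⟨hz1.1 v, hz3 v⟩
          exact_mod_cast h8.trans h7
      _ = (Fintype.card V : ℝ) ^ 2 * ∑ n ∈ Icc 1 N, ((SN κ N X n).card : ℝ) ^ (Fintype.card V - 1) := by rw [mul_sum]
      _ ≤ _ := mul_le_mul_of_nonneg_left h4 (by positivity)
  have h6 : (Fintype.card V : ℝ) ^ 2 * (C2 * (N * (X / Real.log N) ^ (Fintype.card V - 1))) ≤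
      (Fintype.card V : ℝ) ^ 2 * C2 * ((N / Real.log N ^ Fintype.card V) * ((X : ℝ) ^ Fintype.card V / Real.log X ^ E.card)) := by
    rcases Nat.eq_zero_or_pos (Fintype.card V) with h0 | h0
    · rw [h0]
      simp
    · obtain ⟨w, hw⟩ : ∃ w, Fintype.card V = w + 1 := ⟨Fintype.card V - 1, by omega⟩
      rw [hw, Nat.add_sub_cancel, mul_assoc]
      apply mul_le_mul_of_nonneg_left _ (by positivity)
      apply mul_le_mul_of_nonneg_left _ hC2.le
      rw [div_pow, pow_succ (Real.log (N : ℝ)), pow_succ (X : ℝ)]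
      have h7 : (N : ℝ) * ((X : ℝ) ^ w / Real.log N ^ w) = (N / (Real.log N ^ w * Real.log N)) * ((X : ℝ) ^ w * Real.log N) := by
        field_simp
      rw [h7]
      apply mul_le_mul_of_nonneg_left _ (by positivity)
      rw [mul_div_assoc]
      apply mul_le_mul_of_nonneg_left _ (by positivity)
      rw [le_div_iff₀ (by positivity)]
      exact hNX
  calc _ ≤ C1 * ((N / Real.log N ^ Fintype.card V) * ((X : ℝ) ^ Fintype.card V / Real.log X ^ E.card)) +
      (Fintype.card V : ℝ) ^ 2 * C2 * ((N / Real.log N ^ Fintype.card V) * ((X : ℝ) ^ Fintype.card V / Real.log X ^ E.card)) :=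
        add_le_add h3 (h5.trans h6)
    _ = _ := by ring

end

end Pool.Agent.U288.RO
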