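import Pool.Agent.U288.RO.C1
import Pool.Agent.U288.SP.Asm1
import Pool.Agent.U288.SP.LB2
import Pool.Agent.Y949.DK.SV
import Pool.Agent.Y185.DK.Avg

/-! Few configurations contain no pattern with the right order of magnitude. -/

set_option autoImplicit false
set_option linter.unusedSectionVars false

namespace Pool.Agent.U288.RO

open Finset Filter Topology
open Pool.Agent.Y851.DK Pool.Agent.U288.SP

/-- the `m ≤ N` with all `m + F a` prime -/
def GF {k : ℕ} (N : ℕ) (F : Fin (k + 1) → ℕ) : Finset ℕ := (Icc 1 N).filter (fun m => ∀ a, (m + F a).Prime)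

lemma mem_GF {k N : ℕ} {F : Fin (k + 1) → ℕ} {m : ℕ} : m ∈ GF N F ↔ m ∈ Icc 1 N ∧ ∀ a, (m + F a).Prime := by
  unfold GF
  exact mem_filter

section glue
variable {D k : ℕ} (v : Fin (k + 1) → Fin D)

lemma pt_bd (Q x : ℕ) (hQ : 1 ≤ Q) (i : Fin D) (m : ℕ) (h1 : 1 ≤ m) (h2 : m ≤ x) :
    1 ≤ pt Q x i m ∧ pt Q x i m ≤ 2 * Q * D * x := by
  unfold pt
  have hi : (i : ℕ) + 1 ≤ D := i.2
  constructor
  · exact Nat.mul_pos hQ (by omega)
  · calc Q * (2 * (i : ℕ) * x + m) ≤ Q * (2 * (i : ℕ) * x + 2 * x) := Nat.mul_le_mul_left _ (by omega)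
      _ = 2 * Q * ((i : ℕ) + 1) * x := by ring
      _ ≤ _ := Nat.mul_le_mul_right _ (Nat.mul_le_mul_left _ hi)

lemma pt_inj {Q x : ℕ} (hQ : 1 ≤ Q) {i a b : ℕ} (hab : pt Q x i a = pt Q x i b) : a = b := by
  unfold pt at hab
  have := Nat.eq_of_mul_eq_mul_left hQ hab
  omega

lemma mem_conf {s : ℕ → ℕ → ℤ} {Q t x : ℕ} {n : Fin t → ℕ} : n ∈ conf s Q t x ↔
    (∀ i, 1 ≤ n i ∧ n i ≤ x) ∧ ∀ i j : Fin t, i < j → s i j ≠ 0 →
      ((pt Q x j (n j) : ℤ) - pt Q x i (n i) + s i j).toNat.Prime := by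
  simp only [conf, mem_filter, Fintype.mem_piFinset, mem_Icc]

lemma pt_mono {s : ℕ → ℕ → ℤ} {Q x : ℕ} (hQ : 1 ≤ Q) {n : Fin D → ℕ} (hn : n ∈ conf s Q D x) :
    StrictMono (fun i : Fin D => pt Q x i (n i)) := by
  rw [mem_conf] at hn
  intro i j hij
  have h1 : (i : ℕ) + 1 ≤ j := hij
  have h2 := hn.1 i
  have h3 := hn.1 j
  simp only [pt]
  apply Nat.mul_lt_mul_of_pos_left _ hQ
  have h4 : 2 * ((i : ℕ) + 1) * x ≤ 2 * (j : ℕ) * x := Nat.mul_le_mul_right _ (by omega)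
  have h5 : 2 * ((i : ℕ) + 1) * x = 2 * (i : ℕ) * x + 2 * x := by ring
  omega

lemma gy_mem {s : ℕ → ℕ → ℤ} {Q x : ℕ} (hQ : 1 ≤ Q) {n n' : Fin D → ℕ} (hn : n ∈ conf s Q D x)
    (hn' : n' ∈ conf s Q D x) (hag : ∀ a, n (v a) = n' (v a)) :
    gy v Q x (n, n') ∈ sol (gE v s) (gs v s) (2 * Q * D * x) := by
  classical
  have hgi := gy_gi v Q x (n, n') hag
  rw [mem_conf] at hn hn'
  simp only [sol, mem_filter, Fintype.mem_piFinset, mem_Icc]
  refine ⟨fun g => ?_, fun e he => ?_⟩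
  · rcases g with i | i
    · exact pt_bd Q x hQ i _ (hn.1 i).1 (hn.1 i).2
    · exact pt_bd Q x hQ i.1 _ (hn'.1 i.1).1 (hn'.1 i.1).2
  · unfold gE at he
    rw [mem_union, mem_image, mem_image] at he
    rcases he with ⟨q, hq, rfl⟩ | ⟨q, hq, rfl⟩
    · unfold EDs at hq
      rw [mem_filter] at hq
      exact hn.2 q.1 q.2 hq.2.1 hq.2.2
    · rw [mem_filter] at hq
      have hq1 := hq.1
      unfold EDs at hq1
      rw [mem_filter] at hq1
      simp only [hgi, gs, gpi_gi]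
      exact hn'.2 q.1 q.2 hq1.2.1 hq1.2.2

lemma gy_inj {Q x : ℕ} (hQ : 1 ≤ Q) {n n' m m' : Fin D → ℕ} (h1 : ∀ a, n (v a) = n' (v a))
    (h2 : ∀ a, m (v a) = m' (v a)) (h : gy v Q x (n, n') = gy v Q x (m, m')) : n = m ∧ n' = m' := by
  classical
  have h3 : n = m := by
    funext i
    have := congrFun h (Sum.inl i)
    exact pt_inj hQ this
  refine ⟨h3, ?_⟩
  funext i
  by_cases hi : ∀ a, v a ≠ i
  · have := congrFun h (Sum.inr ⟨i, hi⟩)
    exact pt_inj hQ this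
  · push Not at hi
    obtain ⟨a, ha⟩ := hi
    rw [← ha, ← h1 a, ← h2 a, h3]

/-- the pattern of a configuration -/
def Fv (Q x : ℕ) (n : Fin D → ℕ) : Fin (k + 1) → ℕ := fun a => pt Q x (v a) (n (v a))

open Classical in
/-- the pairs of a configuration with few pattern points and a common point -/
noncomputable def Av (s : ℕ → ℕ → ℤ) (Q x N : ℕ) (κ T : ℝ) : Finset ((Fin D → ℕ) × ℕ) :=
  ((conf s Q D x) ×ˢ (Icc 1 N)).filter (fun p => ((GF N (Fv v Q x p.1)).card : ℝ) < T ∧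
    p.2 ∈ RN κ N (fun i : Fin D => pt Q x i (p.1 i)) ∧ p.2 ∈ GF N (Fv v Q x p.1))

lemma mem_Av {s : ℕ → ℕ → ℤ} {Q x N : ℕ} {κ T : ℝ} {p : (Fin D → ℕ) × ℕ} : p ∈ Av v s Q x N κ T ↔
    p.1 ∈ conf s Q D x ∧ ((GF N (Fv v Q x p.1)).card : ℝ) < T ∧
    p.2 ∈ RN κ N (fun i : Fin D => pt Q x i (p.1 i)) ∧ p.2 ∈ GF N (Fv v Q x p.1) := by
  unfold Av
  simp only [mem_filter, mem_product]
  constructor
  · rintro ⟨⟨h1, h2⟩, h3⟩
    exact ⟨h1, h3⟩
  · rintro ⟨h1, h3⟩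
    exact ⟨⟨h1, (mem_GF.1 h3.2.2).1⟩, h3⟩

/-- the matrix of the pattern -/
def sv (s : ℕ → ℕ → ℤ) : Fin (k + 1) → Fin (k + 1) → ℤ := fun i j => s (v i) (v j)

lemma edg_simple {k : ℕ} (t : Fin (k + 1) → Fin (k + 1) → ℤ) : Simple (edg t) := by
  classical
  intro e he
  unfold edg at he ⊢
  simp only [mem_filter, mem_univ, true_and] at he ⊢
  refine ⟨he.1.ne, fun h => ?_⟩
  exact absurd (h.1.trans he.1) (lt_irrefl _)

/-- **few points over the patterns with few points** -/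
theorem Av_small (hSV : P_SV) (hAVG : P_AVG) (s : ℕ → ℕ → ℤ) (Q : ℕ) (hQ : 1 ≤ Q) (hD : 1 ≤ D) (hv : StrictMono v)
    (κ : ℝ) (hκ : 0 < κ) :
    ∃ C : ℝ, 0 < C ∧ ∃ M₀ : ℕ, ∀ N x : ℕ, M₀ ≤ N → M₀ ≤ x →
      Real.log N * Real.log ((2 * Q * D * x : ℕ) : ℝ) ^ (2 * ed s D) ≤ ((2 * Q * D * x : ℕ) : ℝ) → ∀ κ₁ : ℝ, 0 ≤ κ₁ →
      ((Av v s Q x N κ (κ₁ * (N / Real.log N ^ (k + 1)))).card : ℝ) ^ 2 ≤
        κ₁ * C * ((N / Real.log N ^ D) * (((2 * Q * D * x : ℕ) : ℝ) ^ D / Real.log ((2 * Q * D * x : ℕ) : ℝ) ^ ed s D)) ^ 2 := by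
  classical
  obtain ⟨C1, hC1, M1, h1⟩ := me_all hSV hAVG (gE v s) (gE_simple v s) (gs v s) κ hκ
  obtain ⟨C2, hC2, h2⟩ := upper hSV hAVG (edg (sv v s)) (edg_simple _) (fun q => sv v s q.1 q.2)
  obtain ⟨M2, h2⟩ := eventually_atTop.1 h2
  refine ⟨C2 * C1, by positivity, max (max M1 M2) 3, fun N x hN hx hNx κ₁ hκ₁ => ?_⟩
  set X := 2 * Q * D * x with hX
  have hxX : x ≤ X := by
    rw [hX]
    have : 1 ≤ 2 * Q * D := by nlinarith
    nlinarith
  have hN3 : 3 ≤ N := (le_max_right _ _).trans hN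
  have hNr : (3 : ℝ) ≤ N := by exact_mod_cast hN3
  have hX3 : 3 ≤ X := ((le_max_right _ _).trans hx).trans hxX
  have hXr : (3 : ℝ) ≤ X := by exact_mod_cast hX3
  have hlN : 0 < Real.log N := Real.log_pos (by linarith)
  have hlX : 1 ≤ Real.log X := by
    have := Real.exp_one_lt_d9
    rw [Real.le_log_iff_exp_le (by linarith)]
    linarith
  have hlX0 : 0 < Real.log X := by linarith
  set V2 := Fintype.card (GV v) with hV2
  set g := (gE v s).card with hg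
  set e := (edg (sv v s)).card with he
  have hV2e : V2 + (k + 1) = 2 * D := GV_card v hv
  have hge : g + e = 2 * ed s D := by
    have := gE_card v s (sv v s) hv (fun _ _ _ => rfl)
    rw [EDs_card] at this
    exact this
  have h3 := h1 N X (((le_max_left _ _).trans (le_max_left _ _)).trans hN)
    ((((le_max_left _ _).trans (le_max_left _ _)).trans hx).trans hxX) (by
      refine le_trans ?_ hNx
      apply mul_le_mul_of_nonneg_left _ hlN.le
      exact pow_le_pow_right₀ hlX (by omega))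
  have h4 := h2 X ((((le_max_right _ _).trans (le_max_left _ _)).trans hx).trans hxX)
  rw [Fintype.card_fin] at h4
  set T := κ₁ * (N / Real.log N ^ (k + 1)) with hT
  have hT0 : 0 ≤ T := by positivity
  set A := Av v s Q x N κ T with hA
  -- the target
  set 𝓕 := ((conf s Q D x).image (Fv v Q x)).filter (fun F => ((GF N F).card : ℝ) < T) with h𝓕
  set G := 𝓕.sigma (fun F => GF N F) with hG
  have h5 := cs A (G.image (fun q => (q.1, q.2))) (fun p => (Fv v Q x p.1, p.2)) (by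
    intro p hp
    rw [hA, mem_Av] at hp
    rw [mem_image]
    refine ⟨⟨Fv v Q x p.1, p.2⟩, ?_, rfl⟩
    rw [hG, mem_sigma, h𝓕, mem_filter, mem_image]
    exact ⟨⟨⟨p.1, hp.1, rfl⟩, hp.2.1⟩, hp.2.2.2⟩)
  have h6 : ((G.image (fun q => (q.1, q.2))).card : ℝ) ≤ C2 * ((X : ℝ) ^ (k + 1) / Real.log X ^ e) * T := by
    have h7 : (G.image (fun q => (q.1, q.2))).card ≤ G.card := card_image_le
    have h8 : (G.card : ℝ) ≤ 𝓕.card * T := by
      rw [hG, card_sigma]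
      push_cast
      calc ∑ F ∈ 𝓕, ((GF N F).card : ℝ) ≤ ∑ _F ∈ 𝓕, T := by
            apply sum_le_sum
            intro F hF
            exact (mem_filter.1 hF).2.le
        _ = _ := by rw [sum_const, nsmul_eq_mul]
    have h9 : 𝓕 ⊆ sol (edg (sv v s)) (fun q => sv v s q.1 q.2) X := by
      intro F hF
      rw [h𝓕, mem_filter, mem_image] at hF
      obtain ⟨⟨n, hn, rfl⟩, -⟩ := hF
      rw [mem_conf] at hn
      simp only [sol, mem_filter, Fintype.mem_piFinset, mem_Icc]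
      refine ⟨fun a => pt_bd Q x hQ (v a) _ (hn.1 (v a)).1 (hn.1 (v a)).2, fun q hq => ?_⟩
      unfold edg at hq
      simp only [mem_filter, mem_univ, true_and] at hq
      exact hn.2 (v q.1) (v q.2) (hv hq.1) hq.2
    have h10 : (𝓕.card : ℝ) ≤ C2 * ((X : ℝ) ^ (k + 1) / Real.log X ^ e) := by
      refine le_trans ?_ h4
      exact_mod_cast card_le_card h9
    calc ((G.image (fun q => (q.1, q.2))).card : ℝ) ≤ G.card := by exact_mod_cast h7
      _ ≤ 𝓕.card * T := h8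
      _ ≤ _ := mul_le_mul_of_nonneg_right h10 hT0
  have h7 : (((A ×ˢ A).filter (fun p => (Fv v Q x p.1.1, p.1.2) = (Fv v Q x p.2.1, p.2.2))).card : ℝ) ≤
      C1 * ((N / Real.log N ^ V2) * ((X : ℝ) ^ V2 / Real.log X ^ g)) := by
    refine le_trans ?_ h3
    have h8 : ∑ z ∈ sol (gE v s) (gs v s) X, ((RN κ N z).card : ℝ) =
        (((sol (gE v s) (gs v s) X).sigma (fun z => RN κ N z)).card : ℝ) := by
      rw [card_sigma]
      push_cast
      rfl
    rw [h8, Nat.cast_le]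
    apply card_le_card_of_injOn (fun p : ((Fin D → ℕ) × ℕ) × ((Fin D → ℕ) × ℕ) =>
      (⟨gy v Q x (p.1.1, p.2.1), p.1.2⟩ : (_ : GV v → ℕ) × ℕ))
    · rintro ⟨⟨n, m⟩, ⟨n', m'⟩⟩ hp
      rw [mem_coe, mem_filter, mem_product, hA, mem_Av, mem_Av] at hp
      obtain ⟨⟨⟨ha1, ha2, ha3, ha4⟩, ⟨hb1, hb2, hb3, hb4⟩⟩, hab⟩ := hp
      simp only [Prod.mk.injEq] at hab
      obtain ⟨hF, hm⟩ := hab
      have hag : ∀ a, n (v a) = n' (v a) := fun a => pt_inj hQ (congrFun hF a)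
      rw [mem_coe, mem_sigma]
      refine ⟨gy_mem v hQ ha1 hb1 hag, ?_⟩
      simp only at ha3 hb3 hm ⊢
      rw [mem_RN] at ha3 hb3 ⊢
      refine ⟨ha3.1, fun g => ?_⟩
      rcases g with i | i
      · exact ha3.2 i
      · have := hb3.2 i.1
        rw [← hm] at this
        exact this
    · rintro ⟨⟨n, m⟩, ⟨n', m'⟩⟩ hp ⟨⟨l, r⟩, ⟨l', r'⟩⟩ hq h
      rw [mem_coe, mem_filter] at hp hq
      have hp2 := hp.2
      have hq2 := hq.2
      simp only [Prod.mk.injEq] at hp2 hq2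
      simp only [Sigma.mk.injEq] at h
      obtain ⟨ha, hb⟩ := h
      have hb' : m = r := eq_of_heq hb
      have h9 := gy_inj v hQ (fun a => pt_inj hQ (congrFun hp2.1 a)) (fun a => pt_inj hQ (congrFun hq2.1 a)) ha
      obtain ⟨rfl, rfl⟩ := h9
      subst hb'
      have h10 : m' = r' := hp2.2.symm.trans hq2.2
      rw [h10]
  refine h5.trans ?_
  have h8 : (((G.image (fun q => (q.1, q.2))).card : ℕ) : ℝ) *
      (((A ×ˢ A).filter (fun p => (Fv v Q x p.1.1, p.1.2) = (Fv v Q x p.2.1, p.2.2))).card : ℝ) ≤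
      (C2 * ((X : ℝ) ^ (k + 1) / Real.log X ^ e) * T) * (C1 * ((N / Real.log N ^ V2) * ((X : ℝ) ^ V2 / Real.log X ^ g))) :=
    mul_le_mul h6 h7 (Nat.cast_nonneg _) (by positivity)
  refine h8.trans (le_of_eq ?_)
  have e1 : ((X : ℝ) ^ D) ^ 2 = (X : ℝ) ^ (k + 1) * (X : ℝ) ^ V2 := by
    rw [← pow_mul, ← pow_add]
    congr 1
    omega
  have e2 : (Real.log (X : ℝ) ^ ed s D) ^ 2 = Real.log X ^ e * Real.log X ^ g := by
    rw [← pow_mul, ← pow_add]
    congr 1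
    omega
  have e3 : (Real.log (N : ℝ) ^ D) ^ 2 = Real.log N ^ (k + 1) * Real.log N ^ V2 := by
    rw [← pow_mul, ← pow_add]
    congr 1
    omega
  rw [mul_pow, div_pow, div_pow, e1, e2, e3, hT]
  field_simp

end glue

end Pool.Agent.U288.RO
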