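import Pool.Agent.U288.RO.C2

/-! Few configurations contain no pattern with the right order of magnitude: conclusion. -/

set_option autoImplicit false
set_option linter.unusedSectionVars false

namespace Pool.Agent.U288.RO

open Finset Filter Topology
open Pool.Agent.Y851.DK Pool.Agent.U288.SP

open Classical in
/-- the bad configurations -/
noncomputable def BadC (k : ℕ) (s : ℕ → ℕ → ℤ) (J Q x N : ℕ) (T : ℝ) : Finset (Fin J → ℕ) :=
  (conf s Q J x).filter (fun n => ∀ v : Fin (k + 1) → Fin J, StrictMono v → ((GF N (Fv v Q x n)).card : ℝ) < T)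

lemma mem_BadC {k : ℕ} {s : ℕ → ℕ → ℤ} {J Q x N : ℕ} {T : ℝ} {n : Fin J → ℕ} : n ∈ BadC k s J Q x N T ↔
    n ∈ conf s Q J x ∧ ∀ v : Fin (k + 1) → Fin J, StrictMono v → ((GF N (Fv v Q x n)).card : ℝ) < T := by
  simp only [BadC, mem_filter]

open Classical in
/-- the `n` with many primes among the `n + a`, all of them without small prime factors -/
noncomputable def LSet (k N : ℕ) (κ : ℝ) (R : Finset ℕ) : Finset ℕ :=
  (Icc 1 N).filter (fun n : ℕ => k + 1 ≤ (R.filter (fun a => (n + a).Prime)).card ∧ ∀ a ∈ R, Ro κ N ((n : ℤ) + a))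

lemma mem_LSet {k N : ℕ} {κ : ℝ} {R : Finset ℕ} {n : ℕ} : n ∈ LSet k N κ R ↔
    n ∈ Icc 1 N ∧ k + 1 ≤ (R.filter (fun a => (n + a).Prime)).card ∧ ∀ a ∈ R, Ro κ N ((n : ℤ) + a) := by
  simp only [LSet, mem_filter]

/-- the theorem of Maynard with the right order of magnitude, for one scale -/
def LowR (k J Q X N : ℕ) (κ c : ℝ) : Prop := ∀ R : Finset ℕ, R.card = J → (∀ a ∈ R, a ≤ X) → (∀ a ∈ R, Q ∣ a) →
  c * (N / Real.log N ^ J) ≤ ((LSet k N κ R).card : ℝ)

theorem few_bad (hSV : P_SV) (hAVG : P_AVG) (k J Q : ℕ) (hJ : 1 ≤ J) (hQ : 1 ≤ Q) (s : ℕ → ℕ → ℤ)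
    (κ : ℝ) (hκ : 0 < κ) (c : ℝ) (hc : 0 < c) (ε : ℝ) (hε : 0 < ε) :
    ∃ κ₁ : ℝ, 0 < κ₁ ∧ ∃ M₀ : ℕ, ∀ N x : ℕ, M₀ ≤ N → M₀ ≤ x →
      Real.log N * Real.log ((2 * Q * J * x : ℕ) : ℝ) ^ (2 * ed s J) ≤ ((2 * Q * J * x : ℕ) : ℝ) →
      LowR k J Q (2 * Q * J * x) N κ c →
      ((BadC k s J Q x N (κ₁ * (N / Real.log N ^ (k + 1)))).card : ℝ) ≤ ε * ((x : ℝ) ^ J / Real.log x ^ ed s J) := by
  classical
  have h1 : ∀ v : Fin (k + 1) → Fin J, ∃ C : ℝ, 0 < C ∧ ∃ M₀ : ℕ, StrictMono v → ∀ N x : ℕ, M₀ ≤ N → M₀ ≤ x →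
      Real.log N * Real.log ((2 * Q * J * x : ℕ) : ℝ) ^ (2 * ed s J) ≤ ((2 * Q * J * x : ℕ) : ℝ) → ∀ κ₁ : ℝ, 0 ≤ κ₁ →
      ((Av v s Q x N κ (κ₁ * (N / Real.log N ^ (k + 1)))).card : ℝ) ^ 2 ≤
        κ₁ * C * ((N / Real.log N ^ J) * (((2 * Q * J * x : ℕ) : ℝ) ^ J / Real.log ((2 * Q * J * x : ℕ) : ℝ) ^ ed s J)) ^ 2 := by
    intro v
    by_cases hv : StrictMono v
    · obtain ⟨C, hC, M₀, h⟩ := Av_small v hSV hAVG s Q hQ hJ hv κ hκ
      exact ⟨C, hC, M₀, fun _ => h⟩
    · exact ⟨1, one_pos, 0, fun h => absurd h hv⟩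
  choose Cv hCv Mv hv using h1
  set W : ℕ := 2 * Q * J with hW
  have hW1 : 1 ≤ W := by rw [hW]; nlinarith
  have hWr : (1 : ℝ) ≤ W := by exact_mod_cast hW1
  set Cs : ℝ := ∑ v, √(Cv v) + 1 with hCs
  have hCs0 : 0 < Cs := by
    have : 0 ≤ ∑ v, √(Cv v) := sum_nonneg fun v _ => Real.sqrt_nonneg _
    linarith
  set κ₁ : ℝ := (c * ε / (Cs * (W : ℝ) ^ J)) ^ 2 with hκ₁
  have hκ₁0 : 0 < κ₁ := by positivity
  have hsq : √κ₁ = c * ε / (Cs * (W : ℝ) ^ J) := by rw [hκ₁, Real.sqrt_sq (by positivity)]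
  refine ⟨κ₁, hκ₁0, max (∑ v, Mv v) 3, fun N x hN hx hNx hlow => ?_⟩
  set X := 2 * Q * J * x with hX
  have hXW : X = W * x := by rw [hX, hW]
  have hx3 : 3 ≤ x := (le_max_right _ _).trans hx
  have hxr : (3 : ℝ) ≤ x := by exact_mod_cast hx3
  have hxX : x ≤ X := by rw [hXW]; nlinarith
  have hXr : (3 : ℝ) ≤ X := by exact_mod_cast hx3.trans hxX
  have hN3 : 3 ≤ N := (le_max_right _ _).trans hN
  have hNr : (3 : ℝ) ≤ N := by exact_mod_cast hN3
  have hlN : 0 < Real.log N := Real.log_pos (by linarith)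
  have hlx : 0 < Real.log x := Real.log_pos (by linarith)
  have hlX : 0 < Real.log X := Real.log_pos (by linarith)
  set L : ℝ := N / Real.log N ^ J with hL
  have hL0 : 0 < L := by positivity
  set P : ℝ := (X : ℝ) ^ J / Real.log X ^ ed s J with hP
  have hP0 : 0 < P := by positivity
  set T : ℝ := κ₁ * (N / Real.log N ^ (k + 1)) with hT
  set Bd := BadC k s J Q x N T with hBd
  -- the size of the sets `Av`
  have hAv : ∀ v : Fin (k + 1) → Fin J, StrictMono v → ((Av v s Q x N κ T).card : ℝ) ≤ √κ₁ * √(Cv v) * (L * P) := by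
    intro v hvm
    have hMv : Mv v ≤ ∑ v, Mv v := single_le_sum (f := Mv) (fun _ _ => Nat.zero_le _) (mem_univ v)
    have h2 := hv v hvm N x ((hMv.trans (le_max_left _ _)).trans hN) ((hMv.trans (le_max_left _ _)).trans hx) hNx κ₁ hκ₁0.le
    have h3 : √κ₁ * √(Cv v) * (L * P) = √(κ₁ * Cv v * (L * P) ^ 2) := by
      rw [Real.sqrt_mul (by have := hCv v; positivity), Real.sqrt_mul hκ₁0.le,
        Real.sqrt_sq (by positivity : (0 : ℝ) ≤ L * P)]
    rw [h3]
    exact Real.le_sqrt_of_sq_le h2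
  -- one configuration
  have hone : ∀ n ∈ Bd, c * L ≤ ∑ v ∈ univ.filter (fun v : Fin (k + 1) → Fin J => StrictMono v),
      (((Av v s Q x N κ T).filter (fun p => p.1 = n)).card : ℝ) := by
    intro n hn
    rw [hBd, mem_BadC] at hn
    obtain ⟨hn1, hn2⟩ := hn
    have hmono := pt_mono hQ hn1
    set y : Fin J → ℕ := fun i => pt Q x i (n i) with hy
    have hR1 : (univ.image y).card = J := by
      rw [card_image_of_injective _ hmono.injective, card_univ, Fintype.card_fin]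
    have h2 := hlow (univ.image y) hR1 (by
      intro a ha
      obtain ⟨i, _, rfl⟩ := mem_image.1 ha
      have h3 := (mem_conf.1 hn1).1 i
      exact (pt_bd Q x hQ i _ h3.1 h3.2).2) (by
      intro a ha
      obtain ⟨i, _, rfl⟩ := mem_image.1 ha
      exact Dvd.intro _ rfl)
    refine h2.trans ?_
    have h3 : LSet k N κ (univ.image y) ⊆
        (univ.filter (fun v : Fin (k + 1) → Fin J => StrictMono v)).biUnion
          (fun v => ((Av v s Q x N κ T).filter (fun p => p.1 = n)).image Prod.snd) := by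
      intro m hm
      obtain ⟨hm1, hm2, hm3⟩ := mem_LSet.1 hm
      set I := (univ : Finset (Fin J)).filter (fun i => (m + y i).Prime) with hI
      have hIc : k + 1 ≤ I.card := by
        refine hm2.trans ?_
        have h4 : (univ.image y).filter (fun a => (m + a).Prime) ⊆ I.image y := by
          intro a ha
          rw [mem_filter] at ha
          obtain ⟨i, _, rfl⟩ := mem_image.1 ha.1
          exact mem_image_of_mem _ (mem_filter.2 ⟨mem_univ _, ha.2⟩)
        exact (card_le_card h4).trans card_image_le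
      obtain ⟨I', hI', hI'c⟩ := exists_subset_card_eq hIc
      set v : Fin (k + 1) → Fin J := fun a => I'.orderEmbOfFin hI'c a with hvd
      have hvm : StrictMono v := (I'.orderEmbOfFin hI'c).strictMono
      have hvI : ∀ a, (m + y (v a)).Prime := fun a =>
        (mem_filter.1 (hI' (orderEmbOfFin_mem I' hI'c a))).2
      rw [mem_biUnion]
      refine ⟨v, mem_filter.2 ⟨mem_univ _, hvm⟩, ?_⟩
      rw [mem_image]
      refine ⟨(n, m), mem_filter.2 ⟨?_, rfl⟩, rfl⟩
      rw [mem_Av, mem_RN, mem_GF]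
      exact ⟨hn1, hn2 v hvm, ⟨hm1, fun i => hm3 _ (mem_image_of_mem _ (mem_univ i))⟩, hm1, hvI⟩
    have h4 := (card_le_card h3).trans card_biUnion_le
    have h5 : ∑ v ∈ univ.filter (fun v : Fin (k + 1) → Fin J => StrictMono v),
        (((Av v s Q x N κ T).filter (fun p => p.1 = n)).image Prod.snd).card ≤
        ∑ v ∈ univ.filter (fun v : Fin (k + 1) → Fin J => StrictMono v),
        ((Av v s Q x N κ T).filter (fun p => p.1 = n)).card := sum_le_sum fun v _ => card_image_le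
    exact_mod_cast h4.trans h5
  have h2 := sum_le_sum hone
  rw [sum_const, nsmul_eq_mul, sum_comm] at h2
  have h3 : ∑ v ∈ univ.filter (fun v : Fin (k + 1) → Fin J => StrictMono v), ∑ n ∈ Bd,
      (((Av v s Q x N κ T).filter (fun p => p.1 = n)).card : ℝ) ≤ √κ₁ * Cs * (L * P) := by
    calc _ ≤ ∑ v ∈ univ.filter (fun v : Fin (k + 1) → Fin J => StrictMono v), √κ₁ * √(Cv v) * (L * P) := by
          apply sum_le_sum
          intro v hvm
          refine le_trans ?_ (hAv v (mem_filter.1 hvm).2)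
          have h4 : ∑ n ∈ Bd, ((Av v s Q x N κ T).filter (fun p => p.1 = n)).card ≤ (Av v s Q x N κ T).card := by
            rw [sum_card_fiberwise_eq_card_filter]
            exact card_filter_le _ _
          exact_mod_cast h4
      _ ≤ ∑ v : Fin (k + 1) → Fin J, √κ₁ * √(Cv v) * (L * P) := by
          apply sum_le_sum_of_subset_of_nonneg (filter_subset _ _)
          intro v _ _
          positivity
      _ = √κ₁ * (∑ v, √(Cv v)) * (L * P) := by
          rw [mul_sum, sum_mul]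
      _ ≤ _ := by
          apply mul_le_mul_of_nonneg_right _ (by positivity)
          apply mul_le_mul_of_nonneg_left _ (Real.sqrt_nonneg _)
          rw [hCs]
          linarith
  have h4 := h2.trans h3
  have h5 : P ≤ (W : ℝ) ^ J * ((x : ℝ) ^ J / Real.log x ^ ed s J) := by
    have h6 : Real.log x ≤ Real.log X := Real.log_le_log (by linarith) (by exact_mod_cast hxX)
    calc P ≤ (X : ℝ) ^ J / Real.log x ^ ed s J := by
          apply div_le_div_of_nonneg_left (by positivity) (by positivity)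
          exact pow_le_pow_left₀ hlx.le h6 _
      _ = _ := by
          rw [hXW]
          push_cast
          rw [mul_pow]
          ring
  have h6 : √κ₁ * Cs * (L * P) ≤ c * L * (ε * ((x : ℝ) ^ J / Real.log x ^ ed s J)) := by
    calc √κ₁ * Cs * (L * P) ≤ √κ₁ * Cs * (L * ((W : ℝ) ^ J * ((x : ℝ) ^ J / Real.log x ^ ed s J))) := by gcongr
      _ = _ := by
          rw [hsq]
          field_simp
  have h7 : (Bd.card : ℝ) * (c * L) ≤ (ε * ((x : ℝ) ^ J / Real.log x ^ ed s J)) * (c * L) := by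
    refine (h4.trans h6).trans (le_of_eq (by ring))
  exact le_of_mul_le_mul_right h7 (by positivity)

end Pool.Agent.U288.RO
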