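import Pool.Agent.U288.RO.C3
import Pool.Agent.U288.SP.Asm3

/-! From many good configurations to many good patterns. -/

set_option autoImplicit false
set_option linter.unusedSectionVars false

namespace Pool.Agent.U288.RO

open Finset Filter Topology
open Pool.Agent.Y851.DK Pool.Agent.U288.SP

/-- the constant matrices -/
abbrev cs2 (σ : ℤ) : ℕ → ℕ → ℤ := fun _ _ => σ

abbrev csF (k : ℕ) (σ : ℤ) : Fin (k + 1) → Fin (k + 1) → ℤ := fun _ _ => σ

theorem gz_many (hSV : P_SV) (hAVG : P_AVG) (k J Q : ℕ) (hJ : 1 ≤ J) (hQ : 1 ≤ Q) (σ : ℤ) (c : ℝ) (hc : 0 < c) :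
    ∃ c' : ℝ, 0 < c' ∧ ∃ M₀ : ℕ, ∀ x : ℕ, M₀ ≤ x → ∀ G : (Fin (k + 1) → ℕ) → Prop,
      ∀ A ⊆ conf (cs2 σ) Q J x, c * ((x : ℝ) ^ J / Real.log x ^ ed (cs2 σ) J) ≤ (A.card : ℝ) →
      (∀ n ∈ A, ∃ v : Fin (k + 1) → Fin J, StrictMono v ∧ G (Fv v Q x n)) →
      c' * ((x : ℝ) ^ (k + 1) / Real.log x ^ (edg (csF k σ)).card) ≤ ((GZ 1 G (csF k σ) (2 * Q * J * x)).card : ℝ) := by
  classical
  choose Cv hCv hup using fun v : Fin (k + 1) → Fin J => upper hSV hAVG (gE v (cs2 σ)) (gE_simple v (cs2 σ)) (gs v (cs2 σ))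
  set W : ℕ := 2 * Q * J with hW
  have hW1 : 1 ≤ W := by rw [hW]; nlinarith
  have hWt : Tendsto (fun x : ℕ => W * x) atTop atTop := by
    apply tendsto_atTop_mono (fun n => ?_) tendsto_id
    simp only [id]
    nlinarith
  have hup' := hWt.eventually (eventually_all.2 hup)
  obtain ⟨M1, hM1⟩ := eventually_atTop.1 hup'
  set C0 : ℝ := ∑ v, Cv v with hC0
  have : Nonempty (Fin J) := ⟨⟨0, hJ⟩⟩
  have hC0p : 0 < C0 := sum_pos (fun v _ => hCv v) univ_nonempty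
  set n0 : ℝ := (Fintype.card (Fin (k + 1) → Fin J) : ℝ) with hn0
  have hn0p : 0 < n0 := by
    rw [hn0]
    exact_mod_cast Fintype.card_pos
  have hWr : (1 : ℝ) ≤ W := by exact_mod_cast hW1
  refine ⟨c ^ 2 / (n0 ^ 2 * (C0 * (W : ℝ) ^ (2 * J))), by positivity, max M1 3, fun x hx G A₀ hA₀ hx1 hG => ?_⟩
  have hx2 := hM1 x ((le_max_left _ _).trans hx)
  have hx3 : 3 ≤ x := (le_max_right _ _).trans hx
  have hxr : (3 : ℝ) ≤ x := by exact_mod_cast hx3
  have hx0 : (0 : ℝ) < x := by linarith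
  have hlog : 0 < Real.log x := Real.log_pos (by linarith)
  set A : (Fin (k + 1) → Fin J) → Finset (Fin J → ℕ) := fun v => A₀.filter (fun n =>
    StrictMono v ∧ Fv v Q x n ∈ GZ 1 G (csF k σ) (W * x)) with hA
  have hcover : A₀ ⊆ univ.biUnion A := by
    intro n hn
    have hnc := hA₀ hn
    have hmono := pt_mono hQ hnc
    have hn' := mem_conf.1 hnc
    obtain ⟨v, hv1, hv3⟩ := hG n hn
    rw [mem_biUnion]
    refine ⟨v, mem_univ _, ?_⟩
    simp only [hA, mem_filter]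
    refine ⟨hn, hv1, ?_⟩
    unfold GZ
    rw [mem_filter, Fintype.mem_piFinset]
    refine ⟨fun a => mem_Icc.2 (pt_bd Q x hQ (v a) _ (hn'.1 (v a)).1 (hn'.1 (v a)).2), fun i j hij => hmono (hv1 hij),
      fun i => one_dvd _, fun i j hij h => ?_, hv3⟩
    exact hn'.2 (v i) (v j) (hv1 hij) h
  obtain ⟨v, _, hvmax⟩ := exists_max_image (univ : Finset (Fin (k + 1) → Fin J)) (fun v => (A v).card) univ_nonempty
  have h1 : (A₀.card : ℝ) ≤ n0 * ((A v).card : ℝ) := by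
    have h2 : A₀.card ≤ ∑ v, (A v).card := (card_le_card hcover).trans card_biUnion_le
    have h3 : ∑ v, (A v).card ≤ ∑ _v : Fin (k + 1) → Fin J, (A v).card := sum_le_sum hvmax
    rw [sum_const, card_univ, smul_eq_mul] at h3
    rw [hn0]
    exact_mod_cast h2.trans h3
  have hpos : 0 < (A₀.card : ℝ) := lt_of_lt_of_le (by positivity) hx1
  have hAne : (A v).Nonempty := by
    rw [nonempty_iff_ne_empty]
    intro h
    rw [h] at h1
    simp only [card_empty, Nat.cast_zero, mul_zero] at h1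
    linarith
  obtain ⟨n₁, hn₁⟩ := hAne
  have hn₁' := hn₁
  simp only [hA, mem_filter] at hn₁'
  obtain ⟨-, hv1, -⟩ := hn₁'
  -- Cauchy-Schwarz
  have h2 := cs (A v) (GZ 1 G (csF k σ) (W * x)) (fun n => Fv v Q x n) (fun n hn => by
    simp only [hA, mem_filter] at hn
    exact hn.2.2)
  have h3 : (((A v) ×ˢ (A v)).filter (fun p => Fv v Q x p.1 = Fv v Q x p.2)).card ≤
      (((conf (cs2 σ) Q J x) ×ˢ (conf (cs2 σ) Q J x)).filter (fun p => ∀ a, p.1 (v a) = p.2 (v a))).card := by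
    apply card_le_card
    rintro ⟨n, n'⟩ hp
    rw [mem_filter, mem_product] at hp ⊢
    obtain ⟨⟨hn, hn'⟩, hag⟩ := hp
    simp only [hA, mem_filter] at hn hn'
    exact ⟨⟨hA₀ hn.1, hA₀ hn'.1⟩, fun a => pt_inj hQ (congrFun hag a)⟩
  have h4 := pairs_le v (cs2 σ) Q x hQ
  have h5 := hx2 v
  have hWx : (2 * Q * J * x) = W * x := by rw [hW]
  rw [hWx] at h4
  set V2 := Fintype.card (GV v) with hV2
  set g := (gE v (cs2 σ)).card with hg
  set e := (edg (csF k σ)).card with he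
  set dd := ed (cs2 σ) J with hdd
  have hV2e : V2 + (k + 1) = 2 * J := GV_card v hv1
  have hge : g + e = 2 * dd := by
    have := gE_card v (cs2 σ) (csF k σ) hv1 (fun _ _ _ => rfl)
    rw [EDs_card] at this
    exact this
  have h6 : (Cv v) * (((W * x : ℕ) : ℝ) ^ V2 / Real.log ((W * x : ℕ) : ℝ) ^ g) ≤
      C0 * (W : ℝ) ^ (2 * J) * ((x : ℝ) ^ V2 / Real.log x ^ g) := by
    have h7 : Cv v ≤ C0 := single_le_sum (f := Cv) (fun v _ => (hCv v).le) (mem_univ v)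
    have h8 : Real.log x ≤ Real.log ((W * x : ℕ) : ℝ) := by
      apply Real.log_le_log hx0
      push_cast
      nlinarith
    have h9 : ((W * x : ℕ) : ℝ) ^ V2 ≤ (W : ℝ) ^ (2 * J) * (x : ℝ) ^ V2 := by
      push_cast
      rw [mul_pow]
      apply mul_le_mul_of_nonneg_right _ (by positivity)
      exact pow_le_pow_right₀ hWr (by omega)
    calc (Cv v) * (((W * x : ℕ) : ℝ) ^ V2 / Real.log ((W * x : ℕ) : ℝ) ^ g) ≤
        C0 * (((W : ℝ) ^ (2 * J) * (x : ℝ) ^ V2) / Real.log x ^ g) := by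
          apply mul_le_mul h7 _ (by positivity) hC0p.le
          apply div_le_div₀ (by positivity) h9 (by positivity)
          exact pow_le_pow_left₀ hlog.le h8 g
      _ = _ := by ring
  have h7 : ((A v).card : ℝ) ^ 2 ≤ ((GZ 1 G (csF k σ) (W * x)).card : ℝ) * (C0 * (W : ℝ) ^ (2 * J) * ((x : ℝ) ^ V2 / Real.log x ^ g)) := by
    refine h2.trans (mul_le_mul_of_nonneg_left ?_ (Nat.cast_nonneg _))
    refine le_trans ?_ h6
    refine le_trans ?_ h5
    exact_mod_cast h3.trans h4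
  have h8 : (c * ((x : ℝ) ^ J / Real.log x ^ dd)) ^ 2 ≤
      n0 ^ 2 * (((GZ 1 G (csF k σ) (W * x)).card : ℝ) * (C0 * (W : ℝ) ^ (2 * J) * ((x : ℝ) ^ V2 / Real.log x ^ g))) := by
    calc (c * ((x : ℝ) ^ J / Real.log x ^ dd)) ^ 2 ≤ (n0 * ((A v).card : ℝ)) ^ 2 :=
          pow_le_pow_left₀ (by positivity) (hx1.trans h1) 2
      _ = n0 ^ 2 * ((A v).card : ℝ) ^ 2 := by ring
      _ ≤ _ := mul_le_mul_of_nonneg_left h7 (by positivity)
  have h9 : (c * ((x : ℝ) ^ J / Real.log x ^ dd)) ^ 2 =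
      c ^ 2 * ((x : ℝ) ^ (k + 1) / Real.log x ^ e) * ((x : ℝ) ^ V2 / Real.log x ^ g) := by
    have e1 : ((x : ℝ) ^ J) ^ 2 = (x : ℝ) ^ (k + 1) * (x : ℝ) ^ V2 := by
      rw [← pow_mul, ← pow_add]
      congr 1
      omega
    have e2 : (Real.log x ^ dd) ^ 2 = Real.log x ^ e * Real.log x ^ g := by
      rw [← pow_mul, ← pow_add]
      congr 1
      omega
    rw [mul_pow, div_pow, e1, e2]
    field_simp
  rw [h9] at h8
  have hpg : 0 < (x : ℝ) ^ V2 / Real.log x ^ g := by positivity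
  have h10 : c ^ 2 * ((x : ℝ) ^ (k + 1) / Real.log x ^ e) ≤
      (n0 ^ 2 * (C0 * (W : ℝ) ^ (2 * J))) * ((GZ 1 G (csF k σ) (W * x)).card : ℝ) := by
    apply le_of_mul_le_mul_right _ hpg
    refine h8.trans (le_of_eq (by ring))
  rw [hWx, div_mul_eq_mul_div, div_le_iff₀ (by positivity)]
  linarith

/-- few configurations with a large sum of `1 / p` -/
theorem few_sg (hSV : P_SV) (hAVG : P_AVG) (J Q : ℕ) (hJ : 1 ≤ J) (hQ : 1 ≤ Q) (σ : ℤ) (ε : ℝ) (hε : 0 < ε) :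
    ∃ t : ℝ, 0 < t ∧ ∃ M₀ : ℕ, ∀ x : ℕ, M₀ ≤ x →
      ((((conf (cs2 σ) Q J x)).filter (fun n => t < ∑ q : Fin J × Fin J,
        sg ((pt Q x q.1 (n q.1) : ℤ) - pt Q x q.2 (n q.2)).natAbs)).card : ℝ) ≤
        ε * ((x : ℝ) ^ J / Real.log x ^ ed (cs2 σ) J) := by
  classical
  have hsim : Simple (EDs (cs2 σ) J) := by
    intro e he
    unfold EDs at he ⊢
    simp only [mem_filter, mem_univ, true_and] at he ⊢
    refine ⟨he.1.ne, fun h => ?_⟩
    exact absurd (h.1.trans he.1) (lt_irrefl _)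
  obtain ⟨C, hC, h1⟩ := upperS hSV hAVG (EDs (cs2 σ) J) hsim (fun _ => σ) 1 zero_le_one
  obtain ⟨M1, h1⟩ := eventually_atTop.1 h1
  set W : ℕ := 2 * Q * J with hW
  have hW1 : 1 ≤ W := by rw [hW]; nlinarith
  have hWr : (1 : ℝ) ≤ W := by exact_mod_cast hW1
  set t : ℝ := max 1 (Real.log (C * (W : ℝ) ^ J / ε)) with ht
  refine ⟨t, by positivity, max M1 3, fun x hx => ?_⟩
  have hx3 : 3 ≤ x := (le_max_right _ _).trans hx
  have hxr : (3 : ℝ) ≤ x := by exact_mod_cast hx3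
  have hx0 : (0 : ℝ) < x := by linarith
  have hlog : 0 < Real.log x := Real.log_pos (by linarith)
  have hWx : (2 * Q * J * x) = W * x := by rw [hW]
  have hxW : x ≤ W * x := by nlinarith
  have h2 := h1 (W * x) (((le_max_left _ _).trans hx).trans hxW)
  rw [Fintype.card_fin, EDs_card] at h2
  set S := ((conf (cs2 σ) Q J x)).filter (fun n => t < ∑ q : Fin J × Fin J,
        sg ((pt Q x q.1 (n q.1) : ℤ) - pt Q x q.2 (n q.2)).natAbs) with hS
  have h3 : (S.card : ℝ) * Real.exp t ≤ ∑ y ∈ sol (EDs (cs2 σ) J) (fun _ => σ) (W * x),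
      Real.exp (1 * ∑ q : Fin J × Fin J, sg ((y q.1 : ℤ) - y q.2).natAbs) := by
    have h4 : (S.card : ℝ) * Real.exp t = ∑ _n ∈ S, Real.exp t := by rw [sum_const, nsmul_eq_mul]
    rw [h4]
    apply sum_le_inj S _ (fun n => fun i : Fin J => pt Q x i (n i))
    · intro n hn
      rw [hS, mem_filter, mem_conf] at hn
      obtain ⟨⟨hn1, hn2⟩, -⟩ := hn
      simp only [sol, mem_filter, Fintype.mem_piFinset, mem_Icc]
      refine ⟨fun i => ?_, fun e he => ?_⟩
      · rw [← hWx]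
        exact pt_bd Q x hQ i _ (hn1 i).1 (hn1 i).2
      · unfold EDs at he
        rw [mem_filter] at he
        exact hn2 e.1 e.2 he.2.1 he.2.2
    · intro n _ n' _ h
      funext i
      exact pt_inj hQ (congrFun h i)
    · intro n hn
      rw [hS, mem_filter] at hn
      apply Real.exp_le_exp.2
      rw [one_mul]
      exact hn.2.le
    · intro b _
      exact (Real.exp_pos _).le
  have h4 := h3.trans h2
  have h5 : C * (((W * x : ℕ) : ℝ) ^ J / Real.log ((W * x : ℕ) : ℝ) ^ ed (cs2 σ) J) ≤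
      C * (W : ℝ) ^ J * ((x : ℝ) ^ J / Real.log x ^ ed (cs2 σ) J) := by
    have h8 : Real.log x ≤ Real.log ((W * x : ℕ) : ℝ) := by
      apply Real.log_le_log hx0
      exact_mod_cast hxW
    calc C * (((W * x : ℕ) : ℝ) ^ J / Real.log ((W * x : ℕ) : ℝ) ^ ed (cs2 σ) J) ≤
        C * (((W * x : ℕ) : ℝ) ^ J / Real.log x ^ ed (cs2 σ) J) := by
          apply mul_le_mul_of_nonneg_left _ hC.le
          apply div_le_div_of_nonneg_left (by positivity) (by positivity)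
          exact pow_le_pow_left₀ hlog.le h8 _
      _ = _ := by
          push_cast
          rw [mul_pow]
          ring
  have h6 : C * (W : ℝ) ^ J ≤ ε * Real.exp t := by
    have h7 : Real.log (C * (W : ℝ) ^ J / ε) ≤ t := le_max_right _ _
    have h8 := Real.exp_le_exp.2 h7
    rw [Real.exp_log (by positivity), div_le_iff₀ hε] at h8
    linarith
  have hP0 : 0 ≤ (x : ℝ) ^ J / Real.log x ^ ed (cs2 σ) J := by positivity
  have h7 : (S.card : ℝ) * Real.exp t ≤ ε * ((x : ℝ) ^ J / Real.log x ^ ed (cs2 σ) J) * Real.exp t := by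
    calc _ ≤ C * (W : ℝ) ^ J * ((x : ℝ) ^ J / Real.log x ^ ed (cs2 σ) J) := h4.trans h5
      _ ≤ ε * Real.exp t * ((x : ℝ) ^ J / Real.log x ^ ed (cs2 σ) J) := mul_le_mul_of_nonneg_right h6 hP0
      _ = _ := by ring
  exact le_of_mul_le_mul_right h7 (Real.exp_pos _)

end Pool.Agent.U288.RO
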