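import Pool.Agent.U288.RO.D1
import Pool.Agent.U288.RO.A2
import Pool.Agent.U288.SP.Cl0
import Pool.Agent.U288.SP.LB1

/-! **Patterns of primes with shifted prime distances, right order of magnitude.** -/

set_option autoImplicit false
set_option linter.unusedSectionVars false

namespace Pool.Agent.U288.RO

open Finset Filter Topology
open Pool.Agent.Y851.DK Pool.Agent.U288.SP

/-- the sum of the `1 / p` over the prime factors of the differences -/
noncomputable def sgs {k : ℕ} (h : Fin (k + 1) → ℕ) : ℝ :=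
  ∑ q : Fin (k + 1) × Fin (k + 1), sg ((h q.1 : ℤ) - h q.2).natAbs

open Classical in
/-- the good patterns -/
noncomputable def goodP (k : ℕ) (σ : ℤ) (N D : ℕ) (κ₁ t : ℝ) : Finset (Fin (k + 1) → ℕ) :=
  (shifts (csF k σ) D).filter (fun h => κ₁ * (N / Real.log N ^ (k + 1)) ≤ ((GF (2 * N) h).card : ℝ) ∧ sgs h ≤ t)

lemma mem_goodP {k : ℕ} {σ : ℤ} {N D : ℕ} {κ₁ t : ℝ} {h : Fin (k + 1) → ℕ} : h ∈ goodP k σ N D κ₁ t ↔
    h ∈ shifts (csF k σ) D ∧ κ₁ * (N / Real.log N ^ (k + 1)) ≤ ((GF (2 * N) h).card : ℝ) ∧ sgs h ≤ t := by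
  simp only [goodP, mem_filter]

theorem main_pat (k : ℕ) (σ : ℤ) (hσ : σ = 1 ∨ σ = -1) : ∃ c κ₁ t : ℝ, 0 < c ∧ 0 < κ₁ ∧ 0 < t ∧ ∃ B : ℕ,
    ∀ A : ℝ, ∀ᶠ N : ℕ in atTop, ∀ D : ℕ, 2 ≤ D → Real.log N * Real.log D ^ B ≤ D → (D : ℝ) ≤ Real.log N ^ A →
      c * ((D : ℝ) ^ k / Real.log D ^ (k * (k + 1) / 2)) ≤ ((goodP k σ N D κ₁ t).card : ℝ) := by
  classical
  have hSV := Pool.Agent.Y949.DK.t_SV
  have hAVG := Pool.Agent.Y185.DK.AV.t_AVG
  obtain ⟨J, hJ, κ, hκ, hlow⟩ := low_global k
  set Q : ℕ := (4 * J ^ 2).factorial with hQd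
  have hQ : 1 ≤ Q := Nat.factorial_pos _
  have hQ2 : ∀ p : ℕ, p.Prime → p ≤ 4 * J ^ 2 → p ∣ Q := fun p hp h => (hp.dvd_factorial).2 h
  obtain ⟨c0, hc0, hlow⟩ := hlow Q hQ hQ2
  have hs : ∀ i j : ℕ, cs2 σ i j = 0 ∨ cs2 σ i j = 1 ∨ cs2 σ i j = -1 := fun _ _ => Or.inr hσ
  obtain ⟨c1, hc1, hconf⟩ := lower ext_main (cs2 σ) hs J Q hQ (fun p hp h => hQ2 p hp (by nlinarith)) J le_rfl
  obtain ⟨Mc, hconf⟩ := eventually_atTop.1 hconf
  obtain ⟨κ₁, hκ₁, Mb, hbad⟩ := few_bad hSV hAVG k J Q hJ hQ (cs2 σ) κ hκ c0 hc0 (c1 / 4) (by positivity)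
  obtain ⟨t, ht, Ms, hsg⟩ := few_sg hSV hAVG J Q hJ hQ σ (c1 / 4) (by positivity)
  obtain ⟨c2, hc2, Mg, hgz⟩ := gz_many hSV hAVG k J Q hJ hQ σ (c1 / 2) (by positivity)
  set W : ℕ := 2 * Q * J with hW
  have hW1 : 1 ≤ W := by rw [hW]; nlinarith
  have hWr : (1 : ℝ) ≤ W := by exact_mod_cast hW1
  set dd := ed (cs2 σ) J with hdd
  set B : ℕ := 2 * dd + 1 with hB
  have he : (edg (csF k σ)).card = k * (k + 1) / 2 := by
    have h1 := edg_const k σ
    rw [if_neg (by rcases hσ with h | h <;> omega)] at h1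
    exact h1
  refine ⟨c2 / (W * (2 * W) ^ k), κ₁, t, by positivity, hκ₁, ht, B, fun A => ?_⟩
  have tN : Tendsto (fun N : ℕ => (N : ℝ)) atTop atTop := tendsto_natCast_atTop_atTop
  have tL : Tendsto (fun N : ℕ => Real.log (N : ℝ)) atTop atTop := Real.tendsto_log_atTop.comp tN
  set Mx : ℕ := Mc + Mb + Ms + Mg + 8 with hMx
  have e1 : ∀ᶠ N : ℕ in atTop, ((W * (Mx + 1) : ℕ) : ℝ) ≤ Real.log N * Real.log 2 ^ B := by
    have h1 : 0 < Real.log 2 ^ B := pow_pos (Real.log_pos (by norm_num)) _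
    have h2 := tL.eventually_ge_atTop (((W * (Mx + 1) : ℕ) : ℝ) / Real.log 2 ^ B)
    filter_upwards [h2] with N hN
    rwa [div_le_iff₀ h1] at hN
  have e2 : ∀ᶠ N : ℕ in atTop, Real.log N ^ A ≤ (N : ℝ) := by
    have h1 := (isLittleO_log_rpow_rpow_atTop A (show (0 : ℝ) < 1 by norm_num)).bound (show (0 : ℝ) < 1 by norm_num)
    filter_upwards [tN.eventually h1, eventually_ge_atTop 3] with N hN hN3
    have hNr : (3 : ℝ) ≤ N := by exact_mod_cast hN3
    have hl : 0 ≤ Real.log N := Real.log_nonneg (by linarith)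
    rw [Real.norm_of_nonneg (Real.rpow_nonneg hl _), Real.norm_of_nonneg (by positivity), Real.rpow_one, one_mul] at hN
    exact hN
  filter_upwards [hlow A, e1, e2, eventually_ge_atTop (Mb + 3)] with N hN1 hN2 hN3 hN4 D hD2 hDB hDA
  have hN3' : 3 ≤ N := by omega
  have hNr : (3 : ℝ) ≤ N := by exact_mod_cast hN3'
  have hlN : 0 < Real.log N := Real.log_pos (by linarith)
  have hDr2 : (2 : ℝ) ≤ D := by exact_mod_cast hD2
  have hl2D : Real.log 2 ≤ Real.log D := Real.log_le_log (by norm_num) hDr2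
  have hDbig : W * (Mx + 1) ≤ D := by
    have h1 : ((W * (Mx + 1) : ℕ) : ℝ) ≤ D := by
      refine hN2.trans (le_trans ?_ hDB)
      apply mul_le_mul_of_nonneg_left _ hlN.le
      exact pow_le_pow_left₀ (Real.log_nonneg (by norm_num)) hl2D _
    exact_mod_cast h1
  have hDN : D ≤ N := by exact_mod_cast hDA.trans hN3
  set x := D / W with hx
  have hxM : Mx + 1 ≤ x := by
    rw [hx, Nat.le_div_iff_mul_le (by omega), mul_comm]
    exact hDbig
  have hWx : W * x ≤ D := Nat.mul_div_le D W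
  have hXW : D ≤ 2 * (W * x) := by
    have h4 : D < W * (x + 1) := by
      rw [hx]
      exact Nat.lt_mul_div_succ D (by omega)
    nlinarith
  have hxr : (8 : ℝ) ≤ x := by
    have : 8 ≤ x := by omega
    exact_mod_cast this
  have hx0 : (0 : ℝ) < x := by linarith
  have hxD : x ≤ D := by
    have : x ≤ W * x := by nlinarith
    omega
  have hDr8 : (8 : ℝ) ≤ D := hxr.trans (by exact_mod_cast hxD)
  have hlD : 2 ≤ Real.log D := by
    have h1 := Real.exp_one_lt_d9
    rw [Real.le_log_iff_exp_le (by linarith)]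
    have h2 : Real.exp 2 = Real.exp 1 * Real.exp 1 := by rw [← Real.exp_add]; norm_num
    rw [h2]
    nlinarith [Real.exp_pos 1]
  have hlx : 0 < Real.log x := Real.log_pos (by linarith)
  have hXr : ((W * x : ℕ) : ℝ) ≤ D := by exact_mod_cast hWx
  have hX1 : (1 : ℝ) ≤ ((W * x : ℕ) : ℝ) := by
    have : 1 ≤ W * x := by nlinarith
    exact_mod_cast this
  have hlX0 : 0 ≤ Real.log ((W * x : ℕ) : ℝ) := Real.log_nonneg hX1
  have hlXD : Real.log ((W * x : ℕ) : ℝ) ≤ Real.log D := Real.log_le_log (by linarith) hXr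
  -- the condition on the scale
  have hscale : Real.log N * Real.log ((W * x : ℕ) : ℝ) ^ (2 * dd) ≤ ((W * x : ℕ) : ℝ) := by
    have h1 : Real.log N * Real.log D ^ (2 * dd) * 2 ≤ D := by
      refine le_trans ?_ hDB
      rw [hB, pow_succ, ← mul_assoc]
      apply mul_le_mul_of_nonneg_left hlD (by positivity)
    have h2 : (D : ℝ) ≤ 2 * ((W * x : ℕ) : ℝ) := by exact_mod_cast hXW
    have h3 : Real.log N * Real.log ((W * x : ℕ) : ℝ) ^ (2 * dd) ≤ Real.log N * Real.log D ^ (2 * dd) :=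
      mul_le_mul_of_nonneg_left (pow_le_pow_left₀ hlX0 hlXD _) hlN.le
    linarith
  -- Maynard
  have hLR : LowR k J Q (W * x) N κ c0 := by
    intro R hR1 hR2 hR3
    have h1 := hN1 R hR1 (fun a ha => by
      refine le_trans ?_ hDA
      exact_mod_cast (hR2 a ha).trans hWx) hR3
    refine h1.trans (le_of_eq ?_)
    unfold LSet
    congr!
  have h1 := hbad N x (by omega) (by omega) hscale hLR
  have h2 := hsg x (by omega)
  have h3 := hconf x (by omega)
  set T : ℝ := κ₁ * (N / Real.log N ^ (k + 1)) with hT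
  set P : ℝ := (x : ℝ) ^ J / Real.log x ^ dd with hP
  set Sg := ((conf (cs2 σ) Q J x)).filter (fun n => t < ∑ q : Fin J × Fin J,
        sg ((pt Q x q.1 (n q.1) : ℤ) - pt Q x q.2 (n q.2)).natAbs) with hSg
  set Bd := BadC k (cs2 σ) J Q x N T with hBd
  set A₀ := (conf (cs2 σ) Q J x).filter (fun n => n ∉ Bd ∧ n ∉ Sg) with hA₀
  set G : (Fin (k + 1) → ℕ) → Prop := fun z => T ≤ ((GF N z).card : ℝ) ∧ sgs z ≤ t with hG
  have h4 : c1 / 2 * P ≤ (A₀.card : ℝ) := by
    have h5 : (conf (cs2 σ) Q J x).card ≤ A₀.card + (Bd.card + Sg.card) := by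
      calc (conf (cs2 σ) Q J x).card ≤ (A₀ ∪ (Bd ∪ Sg)).card := by
            apply card_le_card
            intro n hn
            simp only [mem_union, hA₀, mem_filter]
            by_cases h : n ∈ Bd
            · exact Or.inr (Or.inl h)
            · by_cases h' : n ∈ Sg
              · exact Or.inr (Or.inr h')
              · exact Or.inl ⟨hn, h, h'⟩
        _ ≤ A₀.card + (Bd ∪ Sg).card := card_union_le _ _
        _ ≤ _ := by
            have := card_union_le Bd Sg
            omega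
    have h6 : ((conf (cs2 σ) Q J x).card : ℝ) ≤ A₀.card + (Bd.card + Sg.card) := by exact_mod_cast h5
    linarith
  have h5 := hgz x (by omega) G A₀ (filter_subset _ _) h4 (by
    intro n hn
    rw [hA₀, mem_filter] at hn
    obtain ⟨hn1, hn2, hn3⟩ := hn
    rw [hBd, mem_BadC] at hn2
    push Not at hn2
    obtain ⟨v, hv1, hv2⟩ := hn2 hn1
    refine ⟨v, hv1, hv2, ?_⟩
    rw [hSg, mem_filter] at hn3
    push Not at hn3
    refine le_trans ?_ (hn3 hn1)
    unfold sgs
    apply sum_le_inj _ _ (fun q : Fin (k + 1) × Fin (k + 1) => (v q.1, v q.2))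
    · intro q _
      exact mem_univ _
    · intro q _ q' _ h
      simp only [Prod.mk.injEq] at h
      exact Prod.ext (hv1.injective h.1) (hv1.injective h.2)
    · intro q _
      exact le_rfl
    · intro b _
      exact sg_nonneg _)
  -- from points to shifts
  have h6 : (GZ 1 G (csF k σ) (W * x)).card ≤ ((goodP k σ N D κ₁ t) ×ˢ (Icc 1 (W * x))).card := by
    apply card_le_card_of_injOn (fun z : Fin (k + 1) → ℕ => ((fun i => z i - z 0), z 0))
    · intro z hz
      rw [mem_coe] at hz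
      simp only [GZ, mem_filter, Fintype.mem_piFinset] at hz
      obtain ⟨hz1, hz2, hzq, hz3, hz4, hz5⟩ := hz
      have hz0 : ∀ i, z 0 ≤ z i := fun i => hz2.monotone (Fin.zero_le i)
      have hcast : ∀ i j, (((z j - z 0 : ℕ) : ℤ) - ((z i - z 0 : ℕ) : ℤ)) = (z j : ℤ) - z i := by
        intro i j
        rw [Nat.cast_sub (hz0 j), Nat.cast_sub (hz0 i)]
        ring
      rw [mem_coe, mem_product, mem_goodP]
      refine ⟨⟨?_, ?_, ?_⟩, hz1 0⟩
      · simp only [shifts, mem_filter, Fintype.mem_piFinset]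
        refine ⟨fun i => ?_, by simp, fun i j hij => ?_, fun i j hij h => ?_⟩
        · rw [mem_range]
          have := (mem_Icc.1 (hz1 i)).2
          omega
        · have := hz2 hij
          have := hz0 i
          dsimp only
          omega
        · have h5 := hz3 i j hij h
          rw [hcast i j]
          exact h5
      · refine hz4.trans ?_
        rw [Nat.cast_le]
        apply card_le_card_of_injOn (fun m => m + z 0)
        · intro m hm
          rw [mem_coe, mem_GF, mem_Icc] at hm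
          rw [mem_coe]
          show m + z 0 ∈ GF (2 * N) (fun i => z i - z 0)
          rw [mem_GF, mem_Icc]
          have h7 := (mem_Icc.1 (hz1 0)).2
          refine ⟨⟨by omega, by omega⟩, fun a => ?_⟩
          have h8 := hm.2 a
          have h9 := hz0 a
          have h10 : m + z 0 + (z a - z 0) = m + z a := by omega
          rw [h10]
          exact h8
        · intro a _ b _ hab
          simp only at hab
          omega
      · refine le_trans (le_of_eq ?_) hz5
        unfold sgs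
        apply sum_congr rfl
        intro q _
        dsimp only
        rw [hcast q.2 q.1]
    · intro z hz z' hz' h
      rw [mem_coe] at hz hz'
      simp only [GZ, mem_filter, Fintype.mem_piFinset] at hz hz'
      have hz0 : ∀ i, z 0 ≤ z i := fun i => hz.2.1.monotone (Fin.zero_le i)
      have hz0' : ∀ i, z' 0 ≤ z' i := fun i => hz'.2.1.monotone (Fin.zero_le i)
      simp only [Prod.mk.injEq] at h
      funext i
      have h5 := congrFun h.1 i
      have h6 := h.2
      have h7 := hz0 i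
      have h8 := hz0' i
      omega
  rw [card_product, Nat.card_Icc, Nat.add_sub_cancel] at h6
  have h7 : ((GZ 1 G (csF k σ) (W * x)).card : ℝ) ≤ ((goodP k σ N D κ₁ t).card : ℝ) * (W * x) := by
    exact_mod_cast h6
  rw [he] at h5
  have h8 : c2 / W * ((x : ℝ) ^ k / Real.log x ^ (k * (k + 1) / 2)) ≤ ((goodP k σ N D κ₁ t).card : ℝ) := by
    have h9 : 0 < (W : ℝ) * x := by positivity
    apply le_of_mul_le_mul_right _ h9
    refine le_trans (le_of_eq ?_) (h5.trans h7)
    rw [pow_succ]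
    field_simp
  refine le_trans ?_ h8
  have hDr : (D : ℝ) ≤ 2 * W * x := by
    have : (D : ℝ) ≤ ((2 * (W * x) : ℕ) : ℝ) := by exact_mod_cast hXW
    push_cast at this
    linarith
  have hlxD : Real.log x ≤ Real.log D := Real.log_le_log hx0 (by exact_mod_cast hxD)
  have h9 : (D : ℝ) ^ k ≤ (2 * W) ^ k * (x : ℝ) ^ k := by
    rw [← mul_pow]
    exact pow_le_pow_left₀ (Nat.cast_nonneg _) hDr k
  calc c2 / (W * (2 * W) ^ k) * ((D : ℝ) ^ k / Real.log D ^ (k * (k + 1) / 2)) ≤
      c2 / (W * (2 * W) ^ k) * (((2 * W) ^ k * (x : ℝ) ^ k) / Real.log x ^ (k * (k + 1) / 2)) := by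
        apply mul_le_mul_of_nonneg_left _ (by positivity)
        apply div_le_div₀ (by positivity) h9 (by positivity)
        exact pow_le_pow_left₀ hlx.le hlxD _
    _ = _ := by field_simp

end Pool.Agent.U288.RO
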