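import Pool.Agent.U288.RO.D1

/-! General families of index vectors and general signs. -/

set_option autoImplicit false
set_option linter.unusedSectionVars false

namespace Pool.Agent.U288.RO

open Finset Filter Topology
open Pool.Agent.Y851.DK Pool.Agent.U288.SP

section
variable {k J : ℕ}

open Classical in
/-- the bad configurations -/
noncomputable def BadV (𝒱 : Finset (Fin (k + 1) → Fin J)) (s : ℕ → ℕ → ℤ) (Q x N : ℕ) (T : ℝ) : Finset (Fin J → ℕ) :=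
  (conf s Q J x).filter (fun n => ∀ v ∈ 𝒱, ((GF N (Fv v Q x n)).card : ℝ) < T)

lemma mem_BadV {𝒱 : Finset (Fin (k + 1) → Fin J)} {s : ℕ → ℕ → ℤ} {Q x N : ℕ} {T : ℝ} {n : Fin J → ℕ} :
    n ∈ BadV 𝒱 s Q x N T ↔ n ∈ conf s Q J x ∧ ∀ v ∈ 𝒱, ((GF N (Fv v Q x n)).card : ℝ) < T := by
  simp only [BadV, mem_filter]

/-- the coloured theorem of Maynard with the right order of magnitude, for one scale -/
def LowV (𝒱 : Finset (Fin (k + 1) → Fin J)) (s : ℕ → ℕ → ℤ) (Q x N : ℕ) (κ c : ℝ) : Prop :=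
  ∀ n ∈ conf s Q J x, ∃ S : Finset ℕ, c * (N / Real.log N ^ J) ≤ (S.card : ℝ) ∧
    ∀ m ∈ S, m ∈ RN κ N (fun i : Fin J => pt Q x i (n i)) ∧ ∃ v ∈ 𝒱, m ∈ GF N (Fv v Q x n)

theorem few_badV (hSV : P_SV) (hAVG : P_AVG) (Q : ℕ) (hJ : 1 ≤ J) (hQ : 1 ≤ Q) (s : ℕ → ℕ → ℤ)
    (𝒱 : Finset (Fin (k + 1) → Fin J)) (h𝒱 : ∀ v ∈ 𝒱, StrictMono v)
    (κ : ℝ) (hκ : 0 < κ) (c : ℝ) (hc : 0 < c) (ε : ℝ) (hε : 0 < ε) :
    ∃ κ₁ : ℝ, 0 < κ₁ ∧ ∃ M₀ : ℕ, ∀ N x : ℕ, M₀ ≤ N → M₀ ≤ x →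
      Real.log N * Real.log ((2 * Q * J * x : ℕ) : ℝ) ^ (2 * ed s J) ≤ ((2 * Q * J * x : ℕ) : ℝ) →
      LowV 𝒱 s Q x N κ c →
      ((BadV 𝒱 s Q x N (κ₁ * (N / Real.log N ^ (k + 1)))).card : ℝ) ≤ ε * ((x : ℝ) ^ J / Real.log x ^ ed s J) := by
  classical
  have h1 : ∀ v : Fin (k + 1) → Fin J, ∃ C : ℝ, 0 < C ∧ ∃ M₀ : ℕ, StrictMono v → ∀ N x : ℕ, M₀ ≤ N → M₀ ≤ x →
      Real.log N * Real.log ((2 * Q * J * x : ℕ) : ℝ) ^ (2 * ed s J) ≤ ((2 * Q * J * x : ℕ) : ℝ) → ∀ κ₁ : ℝ, 0 ≤ κ₁ →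
      ((Av v s Q x N κ (κ₁ * (N / Real.log N ^ (k + 1)))).card : ℝ) ^ 2 ≤
        κ₁ * C * ((N / Real.log N ^ J) * (((2 * Q * J * x : ℕ) : ℝ) ^ J / Real.log ((2 * Q * J * x : ℕ) : ℝ) ^ ed s J)) ^ 2 := by
    intro v
    by_cases hv : StrictMono v
    · obtain ⟨C, hC, M₀, h⟩ := Av_small v hSV hAVG s Q hQ hJ hv κ hκ
      exact ⟨C, hC, M₀, fun _ => h⟩
    · exact ⟨1, one_pos, 0, fun h => absurd h hv⟩
  choose Cv hCv Mv hv using h1
  set W : ℕ := 2 * Q * J with hW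
  have hW1 : 1 ≤ W := by rw [hW]; nlinarith
  have hWr : (1 : ℝ) ≤ W := by exact_mod_cast hW1
  set Cs : ℝ := ∑ v, √(Cv v) + 1 with hCs
  have hCs0 : 0 < Cs := by
    have : 0 ≤ ∑ v, √(Cv v) := sum_nonneg fun v _ => Real.sqrt_nonneg _
    linarith
  set κ₁ : ℝ := (c * ε / (Cs * (W : ℝ) ^ J)) ^ 2 with hκ₁
  have hκ₁0 : 0 < κ₁ := by positivity
  have hsq : √κ₁ = c * ε / (Cs * (W : ℝ) ^ J) := by rw [hκ₁, Real.sqrt_sq (by positivity)]
  refine ⟨κ₁, hκ₁0, max (∑ v, Mv v) 3, fun N x hN hx hNx hlow => ?_⟩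
  set X := 2 * Q * J * x with hX
  have hXW : X = W * x := by rw [hX, hW]
  have hx3 : 3 ≤ x := (le_max_right _ _).trans hx
  have hxr : (3 : ℝ) ≤ x := by exact_mod_cast hx3
  have hxX : x ≤ X := by rw [hXW]; nlinarith
  have hXr : (3 : ℝ) ≤ X := by exact_mod_cast hx3.trans hxX
  have hN3 : 3 ≤ N := (le_max_right _ _).trans hN
  have hNr : (3 : ℝ) ≤ N := by exact_mod_cast hN3
  have hlN : 0 < Real.log N := Real.log_pos (by linarith)
  have hlx : 0 < Real.log x := Real.log_pos (by linarith)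
  have hlX : 0 < Real.log X := Real.log_pos (by linarith)
  set L : ℝ := N / Real.log N ^ J with hL
  have hL0 : 0 < L := by positivity
  set P : ℝ := (X : ℝ) ^ J / Real.log X ^ ed s J with hP
  have hP0 : 0 < P := by positivity
  set T : ℝ := κ₁ * (N / Real.log N ^ (k + 1)) with hT
  set Bd := BadV 𝒱 s Q x N T with hBd
  -- the size of the sets `Av`
  have hAv : ∀ v ∈ 𝒱, ((Av v s Q x N κ T).card : ℝ) ≤ √κ₁ * √(Cv v) * (L * P) := by
    intro v hvm
    have hMv : Mv v ≤ ∑ v, Mv v := single_le_sum (f := Mv) (fun _ _ => Nat.zero_le _) (mem_univ v)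
    have h2 := hv v (h𝒱 v hvm) N x ((hMv.trans (le_max_left _ _)).trans hN) ((hMv.trans (le_max_left _ _)).trans hx) hNx κ₁ hκ₁0.le
    have h3 : √κ₁ * √(Cv v) * (L * P) = √(κ₁ * Cv v * (L * P) ^ 2) := by
      rw [Real.sqrt_mul (by have := hCv v; positivity), Real.sqrt_mul hκ₁0.le,
        Real.sqrt_sq (by positivity : (0 : ℝ) ≤ L * P)]
    rw [h3]
    exact Real.le_sqrt_of_sq_le h2
  -- one configuration
  have hone : ∀ n ∈ Bd, c * L ≤ ∑ v ∈ 𝒱, (((Av v s Q x N κ T).filter (fun p => p.1 = n)).card : ℝ) := by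
    intro n hn
    rw [hBd, mem_BadV] at hn
    obtain ⟨hn1, hn2⟩ := hn
    obtain ⟨S, hS1, hS2⟩ := hlow n hn1
    refine hS1.trans ?_
    have h3 : S ⊆ 𝒱.biUnion (fun v => ((Av v s Q x N κ T).filter (fun p => p.1 = n)).image Prod.snd) := by
      intro m hm
      obtain ⟨hm1, v, hv1, hv2⟩ := hS2 m hm
      rw [mem_biUnion]
      refine ⟨v, hv1, ?_⟩
      rw [mem_image]
      refine ⟨(n, m), mem_filter.2 ⟨?_, rfl⟩, rfl⟩
      rw [mem_Av]
      exact ⟨hn1, hn2 v hv1, hm1, hv2⟩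
    have h4 := (card_le_card h3).trans card_biUnion_le
    have h5 : ∑ v ∈ 𝒱, (((Av v s Q x N κ T).filter (fun p => p.1 = n)).image Prod.snd).card ≤
        ∑ v ∈ 𝒱, ((Av v s Q x N κ T).filter (fun p => p.1 = n)).card := sum_le_sum fun v _ => card_image_le
    exact_mod_cast h4.trans h5
  have h2 := sum_le_sum hone
  rw [sum_const, nsmul_eq_mul, sum_comm] at h2
  have h3 : ∑ v ∈ 𝒱, ∑ n ∈ Bd,
      (((Av v s Q x N κ T).filter (fun p => p.1 = n)).card : ℝ) ≤ √κ₁ * Cs * (L * P) := by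
    calc _ ≤ ∑ v ∈ 𝒱, √κ₁ * √(Cv v) * (L * P) := by
          apply sum_le_sum
          intro v hvm
          refine le_trans ?_ (hAv v hvm)
          have h4 : ∑ n ∈ Bd, ((Av v s Q x N κ T).filter (fun p => p.1 = n)).card ≤ (Av v s Q x N κ T).card := by
            rw [sum_card_fiberwise_eq_card_filter]
            exact card_filter_le _ _
          exact_mod_cast h4
      _ ≤ ∑ v : Fin (k + 1) → Fin J, √κ₁ * √(Cv v) * (L * P) := by
          apply sum_le_sum_of_subset_of_nonneg (subset_univ _)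
          intro v _ _
          positivity
      _ = √κ₁ * (∑ v, √(Cv v)) * (L * P) := by
          rw [mul_sum, sum_mul]
      _ ≤ _ := by
          apply mul_le_mul_of_nonneg_right _ (by positivity)
          apply mul_le_mul_of_nonneg_left _ (Real.sqrt_nonneg _)
          rw [hCs]
          linarith
  have h4 := h2.trans h3
  have h5 : P ≤ (W : ℝ) ^ J * ((x : ℝ) ^ J / Real.log x ^ ed s J) := by
    have h6 : Real.log x ≤ Real.log X := Real.log_le_log (by linarith) (by exact_mod_cast hxX)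
    calc P ≤ (X : ℝ) ^ J / Real.log x ^ ed s J := by
          apply div_le_div_of_nonneg_left (by positivity) (by positivity)
          exact pow_le_pow_left₀ hlx.le h6 _
      _ = _ := by
          rw [hXW]
          push_cast
          rw [mul_pow]
          ring
  have h6 : √κ₁ * Cs * (L * P) ≤ c * L * (ε * ((x : ℝ) ^ J / Real.log x ^ ed s J)) := by
    calc √κ₁ * Cs * (L * P) ≤ √κ₁ * Cs * (L * ((W : ℝ) ^ J * ((x : ℝ) ^ J / Real.log x ^ ed s J))) := by gcongr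
      _ = _ := by
          rw [hsq]
          field_simp
  have h7 : (Bd.card : ℝ) * (c * L) ≤ (ε * ((x : ℝ) ^ J / Real.log x ^ ed s J)) * (c * L) := by
    refine (h4.trans h6).trans (le_of_eq (by ring))
  exact le_of_mul_le_mul_right h7 (by positivity)

theorem gz_manyV (hSV : P_SV) (hAVG : P_AVG) (Q : ℕ) (hJ : 1 ≤ J) (hQ : 1 ≤ Q) (sD : ℕ → ℕ → ℤ)
    (s : Fin (k + 1) → Fin (k + 1) → ℤ) (𝒱 : Finset (Fin (k + 1) → Fin J)) (h𝒱 : ∀ v ∈ 𝒱, StrictMono v)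
    (h𝒱s : ∀ v ∈ 𝒱, ∀ i j, i < j → sD (v i) (v j) = s i j) (c : ℝ) (hc : 0 < c) :
    ∃ c' : ℝ, 0 < c' ∧ ∃ M₀ : ℕ, ∀ x : ℕ, M₀ ≤ x → ∀ G : (Fin (k + 1) → ℕ) → Prop,
      ∀ A ⊆ conf sD Q J x, c * ((x : ℝ) ^ J / Real.log x ^ ed sD J) ≤ (A.card : ℝ) →
      (∀ n ∈ A, ∃ v ∈ 𝒱, G (Fv v Q x n)) →
      c' * ((x : ℝ) ^ (k + 1) / Real.log x ^ (edg s).card) ≤ ((GZ 1 G s (2 * Q * J * x)).card : ℝ) := by
  classical
  choose Cv hCv hup using fun v : Fin (k + 1) → Fin J => upper hSV hAVG (gE v sD) (gE_simple v sD) (gs v sD)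
  set W : ℕ := 2 * Q * J with hW
  have hW1 : 1 ≤ W := by rw [hW]; nlinarith
  have hWt : Tendsto (fun x : ℕ => W * x) atTop atTop := by
    apply tendsto_atTop_mono (fun n => ?_) tendsto_id
    simp only [id]
    nlinarith
  have hup' := hWt.eventually (eventually_all.2 hup)
  obtain ⟨M1, hM1⟩ := eventually_atTop.1 hup'
  set C0 : ℝ := ∑ v, Cv v with hC0
  have : Nonempty (Fin J) := ⟨⟨0, hJ⟩⟩
  have hC0p : 0 < C0 := sum_pos (fun v _ => hCv v) univ_nonempty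
  set n0 : ℝ := (Fintype.card (Fin (k + 1) → Fin J) : ℝ) with hn0
  have hn0p : 0 < n0 := by
    rw [hn0]
    exact_mod_cast Fintype.card_pos
  have hWr : (1 : ℝ) ≤ W := by exact_mod_cast hW1
  refine ⟨c ^ 2 / (n0 ^ 2 * (C0 * (W : ℝ) ^ (2 * J))), by positivity, max M1 3, fun x hx G A₀ hA₀ hx1 hG => ?_⟩
  have hx2 := hM1 x ((le_max_left _ _).trans hx)
  have hx3 : 3 ≤ x := (le_max_right _ _).trans hx
  have hxr : (3 : ℝ) ≤ x := by exact_mod_cast hx3
  have hx0 : (0 : ℝ) < x := by linarith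
  have hlog : 0 < Real.log x := Real.log_pos (by linarith)
  set A : (Fin (k + 1) → Fin J) → Finset (Fin J → ℕ) := fun v => A₀.filter (fun n =>
    v ∈ 𝒱 ∧ Fv v Q x n ∈ GZ 1 G s (W * x)) with hA
  have hcover : A₀ ⊆ univ.biUnion A := by
    intro n hn
    have hnc := hA₀ hn
    have hmono := pt_mono hQ hnc
    have hn' := mem_conf.1 hnc
    obtain ⟨v, hv1, hv3⟩ := hG n hn
    rw [mem_biUnion]
    refine ⟨v, mem_univ _, ?_⟩
    simp only [hA, mem_filter]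
    refine ⟨hn, hv1, ?_⟩
    simp only [GZ, mem_filter, Fintype.mem_piFinset]
    refine ⟨fun a => mem_Icc.2 (pt_bd Q x hQ (v a) _ (hn'.1 (v a)).1 (hn'.1 (v a)).2),
      fun i j hij => hmono (h𝒱 v hv1 hij), fun i => one_dvd _, fun i j hij h => ?_, hv3⟩
    have h1 := hn'.2 (v i) (v j) (h𝒱 v hv1 hij) (by rw [h𝒱s v hv1 i j hij]; exact h)
    rw [h𝒱s v hv1 i j hij] at h1
    exact h1
  obtain ⟨v, _, hvmax⟩ := exists_max_image (univ : Finset (Fin (k + 1) → Fin J)) (fun v => (A v).card) univ_nonempty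
  have h1 : (A₀.card : ℝ) ≤ n0 * ((A v).card : ℝ) := by
    have h2 : A₀.card ≤ ∑ v, (A v).card := (card_le_card hcover).trans card_biUnion_le
    have h3 : ∑ v, (A v).card ≤ ∑ _v : Fin (k + 1) → Fin J, (A v).card := sum_le_sum hvmax
    rw [sum_const, card_univ, smul_eq_mul] at h3
    rw [hn0]
    exact_mod_cast h2.trans h3
  have hpos : 0 < (A₀.card : ℝ) := lt_of_lt_of_le (by positivity) hx1
  have hAne : (A v).Nonempty := by
    rw [nonempty_iff_ne_empty]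
    intro h
    rw [h] at h1
    simp only [card_empty, Nat.cast_zero, mul_zero] at h1
    linarith
  obtain ⟨n₁, hn₁⟩ := hAne
  have hn₁' := hn₁
  simp only [hA, mem_filter] at hn₁'
  obtain ⟨-, hv1, -⟩ := hn₁'
  -- Cauchy-Schwarz
  have h2 := cs (A v) (GZ 1 G s (W * x)) (fun n => Fv v Q x n) (fun n hn => by
    simp only [hA, mem_filter] at hn
    exact hn.2.2)
  have h3 : (((A v) ×ˢ (A v)).filter (fun p => Fv v Q x p.1 = Fv v Q x p.2)).card ≤
      (((conf sD Q J x) ×ˢ (conf sD Q J x)).filter (fun p => ∀ a, p.1 (v a) = p.2 (v a))).card := by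
    apply card_le_card
    rintro ⟨n, n'⟩ hp
    rw [mem_filter, mem_product] at hp ⊢
    obtain ⟨⟨hn, hn'⟩, hag⟩ := hp
    simp only [hA, mem_filter] at hn hn'
    exact ⟨⟨hA₀ hn.1, hA₀ hn'.1⟩, fun a => pt_inj hQ (congrFun hag a)⟩
  have h4 := pairs_le v sD Q x hQ
  have h5 := hx2 v
  have hWx : (2 * Q * J * x) = W * x := by rw [hW]
  rw [hWx] at h4
  set V2 := Fintype.card (GV v) with hV2
  set g := (gE v sD).card with hg
  set e := (edg s).card with he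
  set dd := ed sD J with hdd
  have hV2e : V2 + (k + 1) = 2 * J := GV_card v (h𝒱 v hv1)
  have hge : g + e = 2 * dd := by
    have := gE_card v sD s (h𝒱 v hv1) (h𝒱s v hv1)
    rw [EDs_card] at this
    exact this
  have h6 : (Cv v) * (((W * x : ℕ) : ℝ) ^ V2 / Real.log ((W * x : ℕ) : ℝ) ^ g) ≤
      C0 * (W : ℝ) ^ (2 * J) * ((x : ℝ) ^ V2 / Real.log x ^ g) := by
    have h7 : Cv v ≤ C0 := single_le_sum (f := Cv) (fun v _ => (hCv v).le) (mem_univ v)
    have h8 : Real.log x ≤ Real.log ((W * x : ℕ) : ℝ) := by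
      apply Real.log_le_log hx0
      push_cast
      nlinarith
    have h9 : ((W * x : ℕ) : ℝ) ^ V2 ≤ (W : ℝ) ^ (2 * J) * (x : ℝ) ^ V2 := by
      push_cast
      rw [mul_pow]
      apply mul_le_mul_of_nonneg_right _ (by positivity)
      exact pow_le_pow_right₀ hWr (by omega)
    calc (Cv v) * (((W * x : ℕ) : ℝ) ^ V2 / Real.log ((W * x : ℕ) : ℝ) ^ g) ≤
        C0 * (((W : ℝ) ^ (2 * J) * (x : ℝ) ^ V2) / Real.log x ^ g) := by
          apply mul_le_mul h7 _ (by positivity) hC0p.le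
          apply div_le_div₀ (by positivity) h9 (by positivity)
          exact pow_le_pow_left₀ hlog.le h8 g
      _ = _ := by ring
  have h7 : ((A v).card : ℝ) ^ 2 ≤ ((GZ 1 G s (W * x)).card : ℝ) * (C0 * (W : ℝ) ^ (2 * J) * ((x : ℝ) ^ V2 / Real.log x ^ g)) := by
    refine h2.trans (mul_le_mul_of_nonneg_left ?_ (Nat.cast_nonneg _))
    refine le_trans ?_ h6
    refine le_trans ?_ h5
    exact_mod_cast h3.trans h4
  have h8 : (c * ((x : ℝ) ^ J / Real.log x ^ dd)) ^ 2 ≤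
      n0 ^ 2 * (((GZ 1 G s (W * x)).card : ℝ) * (C0 * (W : ℝ) ^ (2 * J) * ((x : ℝ) ^ V2 / Real.log x ^ g))) := by
    calc (c * ((x : ℝ) ^ J / Real.log x ^ dd)) ^ 2 ≤ (n0 * ((A v).card : ℝ)) ^ 2 :=
          pow_le_pow_left₀ (by positivity) (hx1.trans h1) 2
      _ = n0 ^ 2 * ((A v).card : ℝ) ^ 2 := by ring
      _ ≤ _ := mul_le_mul_of_nonneg_left h7 (by positivity)
  have h9 : (c * ((x : ℝ) ^ J / Real.log x ^ dd)) ^ 2 =
      c ^ 2 * ((x : ℝ) ^ (k + 1) / Real.log x ^ e) * ((x : ℝ) ^ V2 / Real.log x ^ g) := by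
    have e1 : ((x : ℝ) ^ J) ^ 2 = (x : ℝ) ^ (k + 1) * (x : ℝ) ^ V2 := by
      rw [← pow_mul, ← pow_add]
      congr 1
      omega
    have e2 : (Real.log x ^ dd) ^ 2 = Real.log x ^ e * Real.log x ^ g := by
      rw [← pow_mul, ← pow_add]
      congr 1
      omega
    rw [mul_pow, div_pow, e1, e2]
    field_simp
  rw [h9] at h8
  have hpg : 0 < (x : ℝ) ^ V2 / Real.log x ^ g := by positivity
  have h10 : c ^ 2 * ((x : ℝ) ^ (k + 1) / Real.log x ^ e) ≤
      (n0 ^ 2 * (C0 * (W : ℝ) ^ (2 * J))) * ((GZ 1 G s (W * x)).card : ℝ) := by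
    apply le_of_mul_le_mul_right _ hpg
    refine h8.trans (le_of_eq (by ring))
  rw [hWx, div_mul_eq_mul_div, div_le_iff₀ (by positivity)]
  linarith

/-- few configurations with a large sum of `1 / p` -/
theorem few_sgV (hSV : P_SV) (hAVG : P_AVG) (J Q : ℕ) (hJ : 1 ≤ J) (hQ : 1 ≤ Q) (sD : ℕ → ℕ → ℤ) (ε : ℝ) (hε : 0 < ε) :
    ∃ t : ℝ, 0 < t ∧ ∃ M₀ : ℕ, ∀ x : ℕ, M₀ ≤ x →
      ((((conf sD Q J x)).filter (fun n => t < ∑ q : Fin J × Fin J,
        sg ((pt Q x q.1 (n q.1) : ℤ) - pt Q x q.2 (n q.2)).natAbs)).card : ℝ) ≤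
        ε * ((x : ℝ) ^ J / Real.log x ^ ed sD J) := by
  classical
  have hsim : Simple (EDs sD J) := by
    intro e he
    unfold EDs at he ⊢
    simp only [mem_filter, mem_univ, true_and] at he ⊢
    refine ⟨he.1.ne, fun h => ?_⟩
    exact absurd (h.1.trans he.1) (lt_irrefl _)
  obtain ⟨C, hC, h1⟩ := upperS hSV hAVG (EDs sD J) hsim (fun e => sD e.1 e.2) 1 zero_le_one
  obtain ⟨M1, h1⟩ := eventually_atTop.1 h1
  set W : ℕ := 2 * Q * J with hW
  have hW1 : 1 ≤ W := by rw [hW]; nlinarith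
  have hWr : (1 : ℝ) ≤ W := by exact_mod_cast hW1
  set t : ℝ := max 1 (Real.log (C * (W : ℝ) ^ J / ε)) with ht
  refine ⟨t, by positivity, max M1 3, fun x hx => ?_⟩
  have hx3 : 3 ≤ x := (le_max_right _ _).trans hx
  have hxr : (3 : ℝ) ≤ x := by exact_mod_cast hx3
  have hx0 : (0 : ℝ) < x := by linarith
  have hlog : 0 < Real.log x := Real.log_pos (by linarith)
  have hWx : (2 * Q * J * x) = W * x := by rw [hW]
  have hxW : x ≤ W * x := by nlinarith
  have h2 := h1 (W * x) (((le_max_left _ _).trans hx).trans hxW)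
  rw [Fintype.card_fin, EDs_card] at h2
  set S := ((conf sD Q J x)).filter (fun n => t < ∑ q : Fin J × Fin J,
        sg ((pt Q x q.1 (n q.1) : ℤ) - pt Q x q.2 (n q.2)).natAbs) with hS
  have h3 : (S.card : ℝ) * Real.exp t ≤ ∑ y ∈ sol (EDs sD J) (fun e => sD e.1 e.2) (W * x),
      Real.exp (1 * ∑ q : Fin J × Fin J, sg ((y q.1 : ℤ) - y q.2).natAbs) := by
    have h4 : (S.card : ℝ) * Real.exp t = ∑ _n ∈ S, Real.exp t := by rw [sum_const, nsmul_eq_mul]
    rw [h4]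
    apply sum_le_inj S _ (fun n => fun i : Fin J => pt Q x i (n i))
    · intro n hn
      rw [hS, mem_filter, mem_conf] at hn
      obtain ⟨⟨hn1, hn2⟩, -⟩ := hn
      simp only [sol, mem_filter, Fintype.mem_piFinset, mem_Icc]
      refine ⟨fun i => ?_, fun e he => ?_⟩
      · rw [← hWx]
        exact pt_bd Q x hQ i _ (hn1 i).1 (hn1 i).2
      · unfold EDs at he
        rw [mem_filter] at he
        exact hn2 e.1 e.2 he.2.1 he.2.2
    · intro n _ n' _ h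
      funext i
      exact pt_inj hQ (congrFun h i)
    · intro n hn
      rw [hS, mem_filter] at hn
      apply Real.exp_le_exp.2
      rw [one_mul]
      exact hn.2.le
    · intro b _
      exact (Real.exp_pos _).le
  have h4 := h3.trans h2
  have h5 : C * (((W * x : ℕ) : ℝ) ^ J / Real.log ((W * x : ℕ) : ℝ) ^ ed sD J) ≤
      C * (W : ℝ) ^ J * ((x : ℝ) ^ J / Real.log x ^ ed sD J) := by
    have h8 : Real.log x ≤ Real.log ((W * x : ℕ) : ℝ) := by
      apply Real.log_le_log hx0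
      exact_mod_cast hxW
    calc C * (((W * x : ℕ) : ℝ) ^ J / Real.log ((W * x : ℕ) : ℝ) ^ ed sD J) ≤
        C * (((W * x : ℕ) : ℝ) ^ J / Real.log x ^ ed sD J) := by
          apply mul_le_mul_of_nonneg_left _ hC.le
          apply div_le_div_of_nonneg_left (by positivity) (by positivity)
          exact pow_le_pow_left₀ hlog.le h8 _
      _ = _ := by
          push_cast
          rw [mul_pow]
          ring
  have h6 : C * (W : ℝ) ^ J ≤ ε * Real.exp t := by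
    have h7 : Real.log (C * (W : ℝ) ^ J / ε) ≤ t := le_max_right _ _
    have h8 := Real.exp_le_exp.2 h7
    rw [Real.exp_log (by positivity), div_le_iff₀ hε] at h8
    linarith
  have hP0 : 0 ≤ (x : ℝ) ^ J / Real.log x ^ ed sD J := by positivity
  have h7 : (S.card : ℝ) * Real.exp t ≤ ε * ((x : ℝ) ^ J / Real.log x ^ ed sD J) * Real.exp t := by
    calc _ ≤ C * (W : ℝ) ^ J * ((x : ℝ) ^ J / Real.log x ^ ed sD J) := h4.trans h5
      _ ≤ ε * Real.exp t * ((x : ℝ) ^ J / Real.log x ^ ed sD J) := mul_le_mul_of_nonneg_right h6 hP0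
      _ = _ := by ring
  exact le_of_mul_le_mul_right h7 (Real.exp_pos _)

end

end Pool.Agent.U288.RO
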