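import Pool.Agent.U288.RO.G1

/-! Few configurations without a pattern all of whose subpatterns have the right order of magnitude. -/

set_option autoImplicit false
set_option linter.unusedSectionVars false

namespace Pool.Agent.U288.RO

open Finset Filter Topology
open Pool.Agent.Y851.DK Pool.Agent.U288.SP

/-- all the subpatterns `h (u 0) < h (u 1) < ... < h (u b)` have at least `κ N / (log N) ^ (b + 1)` translates by
numbers `m ≤ M` in the primes -/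
def Her {k : ℕ} (N : ℕ) (κ : ℝ) (M : ℕ) (h : Fin (k + 1) → ℕ) : Prop :=
  ∀ b : Fin (k + 1), ∀ u : Fin ((b : ℕ) + 1) → Fin (k + 1), StrictMono u →
    κ * (N / Real.log N ^ ((b : ℕ) + 1)) ≤ ((GF M (fun a => h (u a))).card : ℝ)

section
variable {k J : ℕ}

open Classical in
/-- the bad configurations -/
noncomputable def BadH (𝒱 : Finset (Fin (k + 1) → Fin J)) (s : ℕ → ℕ → ℤ) (Q x N : ℕ) (κ₁ : ℝ) : Finset (Fin J → ℕ) :=
  (conf s Q J x).filter (fun n => ∀ v ∈ 𝒱, ¬ Her N κ₁ N (Fv v Q x n))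

lemma mem_BadH {𝒱 : Finset (Fin (k + 1) → Fin J)} {s : ℕ → ℕ → ℤ} {Q x N : ℕ} {κ₁ : ℝ} {n : Fin J → ℕ} :
    n ∈ BadH 𝒱 s Q x N κ₁ ↔ n ∈ conf s Q J x ∧ ∀ v ∈ 𝒱, ¬ Her N κ₁ N (Fv v Q x n) := by
  simp only [BadH, mem_filter]

theorem few_badH (hSV : P_SV) (hAVG : P_AVG) (Q : ℕ) (hJ : 1 ≤ J) (hQ : 1 ≤ Q) (s : ℕ → ℕ → ℤ)
    (𝒱 : Finset (Fin (k + 1) → Fin J)) (h𝒱 : ∀ v ∈ 𝒱, StrictMono v)
    (κ : ℝ) (hκ : 0 < κ) (c : ℝ) (hc : 0 < c) (ε : ℝ) (hε : 0 < ε) :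
    ∃ κ₁ : ℝ, 0 < κ₁ ∧ ∃ M₀ : ℕ, ∀ N x : ℕ, M₀ ≤ N → M₀ ≤ x →
      Real.log N * Real.log ((2 * Q * J * x : ℕ) : ℝ) ^ (2 * ed s J) ≤ ((2 * Q * J * x : ℕ) : ℝ) →
      LowV 𝒱 s Q x N κ c →
      ((BadH 𝒱 s Q x N κ₁).card : ℝ) ≤ ε * ((x : ℝ) ^ J / Real.log x ^ ed s J) := by
  classical
  have h1 : ∀ v : (Σ b : Fin (k + 1), (Fin ((b : ℕ) + 1) → Fin J)), ∃ C : ℝ, 0 < C ∧ ∃ M₀ : ℕ, StrictMono v.2 →
      ∀ N x : ℕ, M₀ ≤ N → M₀ ≤ x →
      Real.log N * Real.log ((2 * Q * J * x : ℕ) : ℝ) ^ (2 * ed s J) ≤ ((2 * Q * J * x : ℕ) : ℝ) → ∀ κ₁ : ℝ, 0 ≤ κ₁ →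
      ((Av v.2 s Q x N κ (κ₁ * (N / Real.log N ^ ((v.1 : ℕ) + 1)))).card : ℝ) ^ 2 ≤
        κ₁ * C * ((N / Real.log N ^ J) * (((2 * Q * J * x : ℕ) : ℝ) ^ J / Real.log ((2 * Q * J * x : ℕ) : ℝ) ^ ed s J)) ^ 2 := by
    rintro ⟨b, v⟩
    by_cases hv : StrictMono v
    · obtain ⟨C, hC, M₀, h⟩ := Av_small v hSV hAVG s Q hQ hJ hv κ hκ
      exact ⟨C, hC, M₀, fun _ => h⟩
    · exact ⟨1, one_pos, 0, fun h => absurd h hv⟩
  choose Cv hCv Mv hv using h1
  set W : ℕ := 2 * Q * J with hW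
  have hW1 : 1 ≤ W := by rw [hW]; nlinarith
  have hWr : (1 : ℝ) ≤ W := by exact_mod_cast hW1
  set Cs : ℝ := ∑ v, √(Cv v) + 1 with hCs
  have hCs0 : 0 < Cs := by
    have : 0 ≤ ∑ v, √(Cv v) := sum_nonneg fun v _ => Real.sqrt_nonneg _
    linarith
  set κ₁ : ℝ := (c * ε / (Cs * (W : ℝ) ^ J)) ^ 2 with hκ₁
  have hκ₁0 : 0 < κ₁ := by positivity
  have hsq : √κ₁ = c * ε / (Cs * (W : ℝ) ^ J) := by rw [hκ₁, Real.sqrt_sq (by positivity)]
  refine ⟨κ₁, hκ₁0, max (∑ v, Mv v) 3, fun N x hN hx hNx hlow => ?_⟩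
  set X := 2 * Q * J * x with hX
  have hXW : X = W * x := by rw [hX, hW]
  have hx3 : 3 ≤ x := (le_max_right _ _).trans hx
  have hxr : (3 : ℝ) ≤ x := by exact_mod_cast hx3
  have hxX : x ≤ X := by rw [hXW]; nlinarith
  have hXr : (3 : ℝ) ≤ X := by exact_mod_cast hx3.trans hxX
  have hN3 : 3 ≤ N := (le_max_right _ _).trans hN
  have hNr : (3 : ℝ) ≤ N := by exact_mod_cast hN3
  have hlN : 0 < Real.log N := Real.log_pos (by linarith)
  have hlx : 0 < Real.log x := Real.log_pos (by linarith)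
  have hlX : 0 < Real.log X := Real.log_pos (by linarith)
  set L : ℝ := N / Real.log N ^ J with hL
  have hL0 : 0 < L := by positivity
  set P : ℝ := (X : ℝ) ^ J / Real.log X ^ ed s J with hP
  have hP0 : 0 < P := by positivity
  set T : ℕ → ℝ := fun b => κ₁ * (N / Real.log N ^ (b + 1)) with hT
  set Bd := BadH 𝒱 s Q x N κ₁ with hBd
  set 𝒲 : Finset (Σ b : Fin (k + 1), (Fin ((b : ℕ) + 1) → Fin J)) := univ.filter (fun w => StrictMono w.2) with h𝒲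
  -- the size of the sets `Av`
  have hAv : ∀ v ∈ 𝒲, ((Av v.2 s Q x N κ (T v.1)).card : ℝ) ≤ √κ₁ * √(Cv v) * (L * P) := by
    intro v hvm
    have hMv : Mv v ≤ ∑ v, Mv v := single_le_sum (f := Mv) (fun _ _ => Nat.zero_le _) (mem_univ v)
    have h2 := hv v (mem_filter.1 hvm).2 N x ((hMv.trans (le_max_left _ _)).trans hN)
      ((hMv.trans (le_max_left _ _)).trans hx) hNx κ₁ hκ₁0.le
    have h3 : √κ₁ * √(Cv v) * (L * P) = √(κ₁ * Cv v * (L * P) ^ 2) := by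
      rw [Real.sqrt_mul (by have := hCv v; positivity), Real.sqrt_mul hκ₁0.le,
        Real.sqrt_sq (by positivity : (0 : ℝ) ≤ L * P)]
    rw [h3]
    exact Real.le_sqrt_of_sq_le h2
  -- one configuration
  have hone : ∀ n ∈ Bd, c * L ≤ ∑ v ∈ 𝒲, (((Av v.2 s Q x N κ (T v.1)).filter (fun p => p.1 = n)).card : ℝ) := by
    intro n hn
    rw [hBd, mem_BadH] at hn
    obtain ⟨hn1, hn2⟩ := hn
    obtain ⟨S, hS1, hS2⟩ := hlow n hn1
    refine hS1.trans ?_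
    have h3 : S ⊆ 𝒲.biUnion (fun v => ((Av v.2 s Q x N κ (T v.1)).filter (fun p => p.1 = n)).image Prod.snd) := by
      intro m hm
      obtain ⟨hm1, v, hv1, hv2⟩ := hS2 m hm
      have h4 := hn2 v hv1
      unfold Her at h4
      push Not at h4
      obtain ⟨b, u, hu, h4⟩ := h4
      rw [mem_biUnion]
      refine ⟨⟨b, fun a => v (u a)⟩, mem_filter.2 ⟨mem_univ _, (h𝒱 v hv1).comp hu⟩, ?_⟩
      rw [mem_image]
      refine ⟨(n, m), mem_filter.2 ⟨?_, rfl⟩, rfl⟩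
      rw [mem_Av]
      refine ⟨hn1, h4, hm1, ?_⟩
      rw [mem_GF] at hv2 ⊢
      exact ⟨hv2.1, fun a => hv2.2 (u a)⟩
    have h4 := (card_le_card h3).trans card_biUnion_le
    have h5 : ∑ v ∈ 𝒲, (((Av v.2 s Q x N κ (T v.1)).filter (fun p => p.1 = n)).image Prod.snd).card ≤
        ∑ v ∈ 𝒲, ((Av v.2 s Q x N κ (T v.1)).filter (fun p => p.1 = n)).card := sum_le_sum fun v _ => card_image_le
    exact_mod_cast h4.trans h5
  have h2 := sum_le_sum hone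
  rw [sum_const, nsmul_eq_mul, sum_comm] at h2
  have h3 : ∑ v ∈ 𝒲, ∑ n ∈ Bd,
      (((Av v.2 s Q x N κ (T v.1)).filter (fun p => p.1 = n)).card : ℝ) ≤ √κ₁ * Cs * (L * P) := by
    calc _ ≤ ∑ v ∈ 𝒲, √κ₁ * √(Cv v) * (L * P) := by
          apply sum_le_sum
          intro v hvm
          refine le_trans ?_ (hAv v hvm)
          have h4 : ∑ n ∈ Bd, ((Av v.2 s Q x N κ (T v.1)).filter (fun p => p.1 = n)).card ≤
              (Av v.2 s Q x N κ (T v.1)).card := by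
            rw [sum_card_fiberwise_eq_card_filter]
            exact card_filter_le _ _
          exact_mod_cast h4
      _ ≤ ∑ v, √κ₁ * √(Cv v) * (L * P) := by
          apply sum_le_sum_of_subset_of_nonneg (subset_univ _)
          intro v _ _
          positivity
      _ = √κ₁ * (∑ v, √(Cv v)) * (L * P) := by
          rw [mul_sum, sum_mul]
      _ ≤ _ := by
          apply mul_le_mul_of_nonneg_right _ (by positivity)
          apply mul_le_mul_of_nonneg_left _ (Real.sqrt_nonneg _)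
          rw [hCs]
          linarith
  have h4 := h2.trans h3
  have h5 : P ≤ (W : ℝ) ^ J * ((x : ℝ) ^ J / Real.log x ^ ed s J) := by
    have h6 : Real.log x ≤ Real.log X := Real.log_le_log (by linarith) (by exact_mod_cast hxX)
    calc P ≤ (X : ℝ) ^ J / Real.log x ^ ed s J := by
          apply div_le_div_of_nonneg_left (by positivity) (by positivity)
          exact pow_le_pow_left₀ hlx.le h6 _
      _ = _ := by
          rw [hXW]
          push_cast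
          rw [mul_pow]
          ring
  have h6 : √κ₁ * Cs * (L * P) ≤ c * L * (ε * ((x : ℝ) ^ J / Real.log x ^ ed s J)) := by
    calc √κ₁ * Cs * (L * P) ≤ √κ₁ * Cs * (L * ((W : ℝ) ^ J * ((x : ℝ) ^ J / Real.log x ^ ed s J))) := by gcongr
      _ = _ := by
          rw [hsq]
          field_simp
  have h7 : (Bd.card : ℝ) * (c * L) ≤ (ε * ((x : ℝ) ^ J / Real.log x ^ ed s J)) * (c * L) := by
    refine (h4.trans h6).trans (le_of_eq (by ring))
  exact le_of_mul_le_mul_right h7 (by positivity)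

end

end Pool.Agent.U288.RO
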