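import Pool.Agent.U288.RO.K1
import Pool.Agent.U288.RO.G2

/-! **Coloured primes: monochromatic patterns for all graphs of shifted prime distances, all the subpatterns have the
right order of magnitude.** -/

set_option autoImplicit false
set_option linter.unusedSectionVars false

namespace Pool.Agent.U288.RO

open Finset Filter Topology Combinatorics
open Pool.Agent.Y851.DK Pool.Agent.U288.SP

section fam
variable (k n K' : ℕ)

/-- many classes contain a line, density `1 / (4 r)` -/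
lemma line_famK (r : ℕ) (hr : 1 ≤ r) (hn : ∀ A : Set (Fin n → Fin (k + 1)), 1 / (4 * (r : ℝ)) ≤ Pool.Agent.Helper903.DHJ.dens A →
      ∃ L : Line (Fin (k + 1)) (Fin n), ∀ i, L i ∈ A)
    (G : Finset (Fin (4 * (k + 1) ^ n))) (hG : (k + 1) ^ n ≤ r * G.card) (j : Fin (4 * (k + 1) ^ n) → Fin K') :
    ∃ v : Fin (k + 1) → Fin (4 * (k + 1) ^ n * K'), StrictMono v ∧
      (∀ a, ∃ g ∈ G, v a = finProdFinEquiv (g, j g)) ∧
      ∀ a b, a < b → Pure (wd k n K' (v a)) (wd k n K' (v b)) (a, b) := by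
  classical
  have hT1 : 1 ≤ (k + 1) ^ n := Nat.one_le_pow _ _ (by omega)
  set A : Set (Fin n → Fin (k + 1)) := {w | ∃ g ∈ G, (g : ℕ) / 4 = (finFunctionFinEquiv w : ℕ)} with hA
  -- the set of the words
  set S : Finset (Fin ((k + 1) ^ n)) := G.image (fun g : Fin (4 * (k + 1) ^ n) =>
    (⟨(g : ℕ) / 4, by have := g.2; omega⟩ : Fin ((k + 1) ^ n))) with hS
  have hSc : (k + 1) ^ n ≤ 4 * r * S.card := by
    have h1 : G.card ≤ 4 * S.card := by
      apply card_le_mul_card_image
      intro b _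
      have h2 : (G.filter (fun g : Fin (4 * (k + 1) ^ n) =>
          (⟨(g : ℕ) / 4, by have := g.2; omega⟩ : Fin ((k + 1) ^ n)) = b)).card ≤
          (Icc (4 * (b : ℕ)) (4 * b + 3)).card := by
        apply card_le_card_of_injOn (fun g : Fin (4 * (k + 1) ^ n) => (g : ℕ))
        · intro g hg
          rw [mem_coe, mem_filter] at hg
          have h3 := congrArg Fin.val hg.2
          simp only at h3
          rw [mem_coe, mem_Icc]
          show 4 * (b : ℕ) ≤ (g : ℕ) ∧ (g : ℕ) ≤ 4 * b + 3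
          omega
        · intro g _ g' _ h
          exact Fin.ext h
      rw [Nat.card_Icc] at h2
      omega
    calc (k + 1) ^ n ≤ r * G.card := hG
      _ ≤ r * (4 * S.card) := Nat.mul_le_mul_left _ h1
      _ = _ := by ring
  have hdens : 1 / (4 * (r : ℝ)) ≤ Pool.Agent.Helper903.DHJ.dens A := by
    unfold Pool.Agent.Helper903.DHJ.dens Pool.Agent.Helper903.DHJ.avg
    have h1 : ∑ w, Pool.Agent.Helper903.DHJ.ind A w = (S.card : ℝ) := by
      have h2 : ∀ w : Fin n → Fin (k + 1), Pool.Agent.Helper903.DHJ.ind A w =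
          if (finFunctionFinEquiv w : Fin ((k + 1) ^ n)) ∈ S then (1 : ℝ) else 0 := by
        intro w
        have h3 : (finFunctionFinEquiv w : Fin ((k + 1) ^ n)) ∈ S ↔ w ∈ A := by
          rw [hS, mem_image]
          constructor
          · rintro ⟨g, hg, h⟩
            exact ⟨g, hg, congrArg Fin.val h⟩
          · rintro ⟨g, hg, h⟩
            exact ⟨g, hg, Fin.ext h⟩
        by_cases h : w ∈ A
        · rw [if_pos (h3.2 h), Pool.Agent.Helper903.DHJ.ind_mem h]
        · rw [if_neg (fun h4 => h (h3.1 h4)), Pool.Agent.Helper903.DHJ.ind_not_mem h]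
      rw [sum_congr rfl (fun w _ => h2 w),
        Equiv.sum_comp finFunctionFinEquiv (fun t => if t ∈ S then (1 : ℝ) else 0), ← sum_filter]
      rw [filter_mem_eq_inter, univ_inter, sum_const, nsmul_eq_mul, mul_one]
    have h3 : (Fintype.card (Fin n → Fin (k + 1)) : ℝ) = (((k + 1) ^ n : ℕ) : ℝ) := by
      rw [Fintype.card_fun, Fintype.card_fin, Fintype.card_fin]
    have hrr : (0 : ℝ) < r := by exact_mod_cast hr
    rw [h1, h3, le_div_iff₀ (by exact_mod_cast hT1), div_mul_eq_mul_div, one_mul, div_le_iff₀ (by positivity)]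
    have h4 : (((k + 1) ^ n : ℕ) : ℝ) ≤ 4 * r * S.card := by exact_mod_cast hSc
    linarith
  obtain ⟨L, hL⟩ := hn A hdens
  choose g hg1 hg2 using hL
  have hword : ∀ a, wd k n K' (finProdFinEquiv (g a, j (g a))) = L a := fun a => wd_eq k n K' _ _ _ (hg2 a)
  refine ⟨fun a => finProdFinEquiv (g a, j (g a)), ?_, fun a => ⟨g a, hg1 a, rfl⟩, fun a b hab => ?_⟩
  · intro a b hab
    have h1 := code_lt L hab
    rw [← hg2 a, ← hg2 b] at h1
    rw [Fin.lt_def]
    simp only [finProdFinEquiv_apply_val]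
    have h2 := (j (g a)).2
    have h3 : (g a : ℕ) + 1 ≤ g b := by omega
    calc (j (g a) : ℕ) + K' * (g a : ℕ) < K' + K' * (g a : ℕ) := by omega
      _ = K' * ((g a : ℕ) + 1) := by ring
      _ ≤ K' * (g b : ℕ) := Nat.mul_le_mul_left _ h3
      _ ≤ _ := Nat.le_add_left _ _
  · rw [hword, hword]
    exact line_pure L hab

end fam

/-- the `m ≤ N` such that all `m + F a` are primes of one colour -/
def GC {r : ℕ} (f : ℕ → Fin r) (N b : ℕ) (F : Fin (b + 1) → ℕ) : Finset ℕ :=
  (Icc 1 N).filter (fun m => (∀ a, (m + F a).Prime) ∧ ∀ a, f (m + F a) = f (m + F 0))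

lemma mem_GC {r : ℕ} {f : ℕ → Fin r} {N b : ℕ} {F : Fin (b + 1) → ℕ} {m : ℕ} : m ∈ GC f N b F ↔
    m ∈ Icc 1 N ∧ (∀ a, (m + F a).Prime) ∧ ∀ a, f (m + F a) = f (m + F 0) := by
  unfold GC
  exact mem_filter

open Classical in
/-- the good patterns -/
noncomputable def goodK {k r : ℕ} (f : ℕ → Fin r) (s : Fin (k + 1) → Fin (k + 1) → ℤ) (N D : ℕ) (κ₁ t : ℝ) :
    Finset (Fin (k + 1) → ℕ) :=
  (shifts s D).filter (fun h => HerK (GC f (2 * N)) N κ₁ h ∧ sgs h ≤ t)

lemma mem_goodK {k r : ℕ} {f : ℕ → Fin r} {s : Fin (k + 1) → Fin (k + 1) → ℤ} {N D : ℕ} {κ₁ t : ℝ}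
    {h : Fin (k + 1) → ℕ} : h ∈ goodK f s N D κ₁ t ↔
    h ∈ shifts s D ∧ HerK (GC f (2 * N)) N κ₁ h ∧ sgs h ≤ t := by
  simp only [goodK, mem_filter]

theorem main_graphK (r : ℕ) (hr : 1 ≤ r) (k : ℕ) (s : Fin (k + 1) → Fin (k + 1) → ℤ) (hs : ∀ i j, s i j = 0 ∨ s i j = 1 ∨ s i j = -1) :
    ∃ c κ₁ t : ℝ, 0 < c ∧ 0 < κ₁ ∧ 0 < t ∧ ∃ B : ℕ,
    ∀ A : ℝ, ∀ᶠ N : ℕ in atTop, ∀ f : ℕ → Fin r, ∀ D : ℕ, 2 ≤ D → Real.log N * Real.log D ^ B ≤ D → (D : ℝ) ≤ Real.log N ^ A →
      c * ((D : ℝ) ^ k / Real.log D ^ (edg s).card) ≤ ((goodK f s N D κ₁ t).card : ℝ) := by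
  classical
  have hSV := Pool.Agent.Y949.DK.t_SV
  have hAVG := Pool.Agent.Y185.DK.AV.t_AVG
  have hrr : (0 : ℝ) < r := by exact_mod_cast hr
  obtain ⟨n, hn⟩ := Pool.Agent.Helper903.DHJ.ldhj (Fin (k + 1)) (1 / (4 * (r : ℝ))) (by positivity)
  set Tn := (k + 1) ^ n with hTn
  have hTn1 : 1 ≤ Tn := Nat.one_le_pow _ _ (by omega)
  obtain ⟨K', hK', κ, hκ, hlow⟩ := low_globalC Tn hTn1
  set J : ℕ := 4 * Tn * K' with hJd
  have hJ : 1 ≤ J := by rw [hJd]; nlinarith
  -- the signs
  set sD : ℕ → ℕ → ℤ := fun i j => if h : i < J ∧ j < J then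
    sW s (wd k n K' ⟨i, h.1⟩) (wd k n K' ⟨j, h.2⟩) else 0 with hsD
  have hsDv : ∀ i j, sD i j = 0 ∨ sD i j = 1 ∨ sD i j = -1 := by
    intro i j
    rw [hsD]
    dsimp only
    split_ifs
    · exact sW_vals s hs _ _
    · exact Or.inl rfl
  set 𝒱 : Finset (Fin (k + 1) → Fin J) := univ.filter (fun v => StrictMono v ∧ ∀ i j, i < j → sD (v i) (v j) = s i j) with h𝒱
  have h𝒱1 : ∀ v ∈ 𝒱, StrictMono v := fun v hv => (mem_filter.1 hv).2.1
  have h𝒱2 : ∀ v ∈ 𝒱, ∀ i j, i < j → sD (v i) (v j) = s i j := fun v hv => (mem_filter.1 hv).2.2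
  set Q : ℕ := (4 * J ^ 2).factorial with hQd
  have hQ : 1 ≤ Q := Nat.factorial_pos _
  have hQ2 : ∀ p : ℕ, p.Prime → p ≤ 4 * J ^ 2 → p ∣ Q := fun p hp h => (hp.dvd_factorial).2 h
  obtain ⟨c0, hc0, hlow⟩ := hlow Q hQ hQ2
  obtain ⟨c1, hc1, hconf⟩ := lower ext_main sD hsDv J Q hQ (fun p hp h => hQ2 p hp (by nlinarith)) J le_rfl
  obtain ⟨Mc, hconf⟩ := eventually_atTop.1 hconf
  obtain ⟨κ₁, hκ₁, Mb, hbad⟩ := few_badK hSV hAVG Q hJ hQ sD 𝒱 h𝒱1 κ hκ c0 hc0 (c1 / 4) (by positivity)
  obtain ⟨t, ht, Ms, hsg⟩ := few_sgV hSV hAVG J Q hJ hQ sD (c1 / 4) (by positivity)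
  obtain ⟨c2, hc2, Mg, hgz⟩ := gz_manyV hSV hAVG Q hJ hQ sD s 𝒱 h𝒱1 h𝒱2 (c1 / 2) (by positivity)
  set W : ℕ := 2 * Q * J with hW
  have hW1 : 1 ≤ W := by rw [hW]; nlinarith
  have hWr : (1 : ℝ) ≤ W := by exact_mod_cast hW1
  set dd := ed sD J with hdd
  set B : ℕ := 2 * dd + 1 with hB
  set e0 := (edg s).card with he0
  refine ⟨c2 / (W * (2 * W) ^ k), κ₁, t, by positivity, hκ₁, ht, B, fun A => ?_⟩
  have tN : Tendsto (fun N : ℕ => (N : ℝ)) atTop atTop := tendsto_natCast_atTop_atTop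
  have tL : Tendsto (fun N : ℕ => Real.log (N : ℝ)) atTop atTop := Real.tendsto_log_atTop.comp tN
  set Mx : ℕ := Mc + Mb + Ms + Mg + 8 with hMx
  have e1 : ∀ᶠ N : ℕ in atTop, ((W * (Mx + 1) : ℕ) : ℝ) ≤ Real.log N * Real.log 2 ^ B := by
    have h1 : 0 < Real.log 2 ^ B := pow_pos (Real.log_pos (by norm_num)) _
    have h2 := tL.eventually_ge_atTop (((W * (Mx + 1) : ℕ) : ℝ) / Real.log 2 ^ B)
    filter_upwards [h2] with N hN
    rwa [div_le_iff₀ h1] at hN
  have e2 : ∀ᶠ N : ℕ in atTop, Real.log N ^ A ≤ (N : ℝ) := by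
    have h1 := (isLittleO_log_rpow_rpow_atTop A (show (0 : ℝ) < 1 by norm_num)).bound (show (0 : ℝ) < 1 by norm_num)
    filter_upwards [tN.eventually h1, eventually_ge_atTop 3] with N hN hN3
    have hNr : (3 : ℝ) ≤ N := by exact_mod_cast hN3
    have hl : 0 ≤ Real.log N := Real.log_nonneg (by linarith)
    rw [Real.norm_of_nonneg (Real.rpow_nonneg hl _), Real.norm_of_nonneg (by positivity), Real.rpow_one, one_mul] at hN
    exact hN
  filter_upwards [hlow A, e1, e2, eventually_ge_atTop (Mb + 3)] with N hN1 hN2 hN3 hN4 f D hD2 hDB hDA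
  have hN3' : 3 ≤ N := by omega
  have hNr : (3 : ℝ) ≤ N := by exact_mod_cast hN3'
  have hlN : 0 < Real.log N := Real.log_pos (by linarith)
  have hDr2 : (2 : ℝ) ≤ D := by exact_mod_cast hD2
  have hl2D : Real.log 2 ≤ Real.log D := Real.log_le_log (by norm_num) hDr2
  have hDbig : W * (Mx + 1) ≤ D := by
    have h1 : ((W * (Mx + 1) : ℕ) : ℝ) ≤ D := by
      refine hN2.trans (le_trans ?_ hDB)
      apply mul_le_mul_of_nonneg_left _ hlN.le
      exact pow_le_pow_left₀ (Real.log_nonneg (by norm_num)) hl2D _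
    exact_mod_cast h1
  have hDN : D ≤ N := by exact_mod_cast hDA.trans hN3
  set x := D / W with hx
  have hxM : Mx + 1 ≤ x := by
    rw [hx, Nat.le_div_iff_mul_le (by omega), mul_comm]
    exact hDbig
  have hWx : W * x ≤ D := Nat.mul_div_le D W
  have hXW : D ≤ 2 * (W * x) := by
    have h4 : D < W * (x + 1) := by
      rw [hx]
      exact Nat.lt_mul_div_succ D (by omega)
    nlinarith
  have hxr : (8 : ℝ) ≤ x := by
    have : 8 ≤ x := by omega
    exact_mod_cast this
  have hx0 : (0 : ℝ) < x := by linarith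
  have hxD : x ≤ D := by
    have : x ≤ W * x := by nlinarith
    omega
  have hDr8 : (8 : ℝ) ≤ D := hxr.trans (by exact_mod_cast hxD)
  have hlD : 2 ≤ Real.log D := by
    have h1 := Real.exp_one_lt_d9
    rw [Real.le_log_iff_exp_le (by linarith)]
    have h2 : Real.exp 2 = Real.exp 1 * Real.exp 1 := by rw [← Real.exp_add]; norm_num
    rw [h2]
    nlinarith [Real.exp_pos 1]
  have hlx : 0 < Real.log x := Real.log_pos (by linarith)
  have hXr : ((W * x : ℕ) : ℝ) ≤ D := by exact_mod_cast hWx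
  have hX1 : (1 : ℝ) ≤ ((W * x : ℕ) : ℝ) := by
    have : 1 ≤ W * x := by nlinarith
    exact_mod_cast this
  have hlX0 : 0 ≤ Real.log ((W * x : ℕ) : ℝ) := Real.log_nonneg hX1
  have hlXD : Real.log ((W * x : ℕ) : ℝ) ≤ Real.log D := Real.log_le_log (by linarith) hXr
  -- the condition on the scale
  have hscale : Real.log N * Real.log ((W * x : ℕ) : ℝ) ^ (2 * dd) ≤ ((W * x : ℕ) : ℝ) := by
    have h1 : Real.log N * Real.log D ^ (2 * dd) * 2 ≤ D := by
      refine le_trans ?_ hDB
      rw [hB, pow_succ, ← mul_assoc]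
      apply mul_le_mul_of_nonneg_left hlD (by positivity)
    have h2 : (D : ℝ) ≤ 2 * ((W * x : ℕ) : ℝ) := by exact_mod_cast hXW
    have h3 : Real.log N * Real.log ((W * x : ℕ) : ℝ) ^ (2 * dd) ≤ Real.log N * Real.log D ^ (2 * dd) :=
      mul_le_mul_of_nonneg_left (pow_le_pow_left₀ hlX0 hlXD _) hlN.le
    linarith
  -- Maynard
  have hLR : LowK (GC f N) 𝒱 sD Q x N κ c0 := by
    intro l hl
    have hmono := pt_mono hQ hl
    have hl' := (mem_conf.1 hl).1
    set R : Fin (4 * Tn) × Fin K' → ℕ := fun z => pt Q x (finProdFinEquiv z : Fin J) (l (finProdFinEquiv z)) with hR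
    have hRinj : Function.Injective R := fun z z' h => finProdFinEquiv.injective (hmono.injective h)
    have h1 := hN1 R hRinj (fun z => by
      refine le_trans ?_ hDA
      have h2 := (pt_bd Q x hQ (finProdFinEquiv z : Fin J) (l (finProdFinEquiv z)) (hl' (finProdFinEquiv z)).1
        (hl' (finProdFinEquiv z)).2).2
      exact_mod_cast h2.trans hWx) (fun z => Dvd.intro _ rfl)
    refine ⟨CSet Tn K' N κ R, h1, fun m hm => ?_⟩
    obtain ⟨hm1, hm2, hm3⟩ := mem_CSet.1 hm
    refine ⟨mem_RN.2 ⟨hm1, fun i => ?_⟩, ?_⟩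
    · have h2 := hm3 (finProdFinEquiv.symm i)
      simp only [hR, Equiv.apply_symm_apply] at h2
      exact h2
    · set G := (univ : Finset (Fin (4 * Tn))).filter (fun g => ∃ j, (m + R (g, j)).Prime) with hG
      have hj : ∀ g : Fin (4 * Tn), ∃ j : Fin K', g ∈ G → (m + R (g, j)).Prime := by
        intro g
        by_cases hg : g ∈ G
        · obtain ⟨j, hj⟩ := (mem_filter.1 hg).2
          exact ⟨j, fun _ => hj⟩
        · exact ⟨⟨0, hK'⟩, fun h => absurd h hg⟩
      choose j hj using hj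
      -- the most frequent colour
      obtain ⟨c, hc⟩ : ∃ c : Fin r, Tn ≤ r * (G.filter (fun g => f (m + R (g, j g)) = c)).card := by
        by_contra hcon
        push Not at hcon
        have h2 : G.card = ∑ c : Fin r, (G.filter (fun g => f (m + R (g, j g)) = c)).card :=
          card_eq_sum_card_fiberwise (fun g _ => mem_coe.2 (mem_univ _))
        have h3 : r * G.card < r * Tn := by
          rw [h2, mul_sum]
          calc ∑ c : Fin r, r * (G.filter (fun g => f (m + R (g, j g)) = c)).card < ∑ _c : Fin r, Tn := by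
                apply sum_lt_sum_of_nonempty ⟨⟨0, hr⟩, mem_univ _⟩
                intro c _
                exact hcon c
            _ = r * Tn := by rw [sum_const, card_univ, Fintype.card_fin, smul_eq_mul]
        have h4 := Nat.lt_of_mul_lt_mul_left h3
        omega
      obtain ⟨v, hv1, hv2, hv3⟩ := line_famK k n K' r hr hn _ hc j
      refine ⟨v, ?_, ?_⟩
      · rw [h𝒱, mem_filter]
        refine ⟨mem_univ _, hv1, fun a b hab => ?_⟩
        have h2 : ((v a : ℕ) < J ∧ (v b : ℕ) < J) := ⟨(v a).2, (v b).2⟩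
        rw [hsD]
        dsimp only
        rw [dif_pos h2]
        exact sW_eq s (hv3 a b hab)
      · have hval : ∀ a, ∃ g ∈ G, f (m + R (g, j g)) = c ∧ Fv v Q x l a = R (g, j g) := by
          intro a
          obtain ⟨g, hg1, hg2⟩ := hv2 a
          rw [mem_filter] at hg1
          refine ⟨g, hg1.1, hg1.2, ?_⟩
          unfold Fv
          rw [hg2]
        intro b u hu
        rw [mem_GC]
        refine ⟨hm1, fun a => ?_, fun a => ?_⟩
        · obtain ⟨g, hg1, hg2, hg3⟩ := hval (u a)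
          have h2 := hj g hg1
          rw [← hg3] at h2
          exact h2
        · obtain ⟨g, hg1, hg2, hg3⟩ := hval (u a)
          obtain ⟨g', hg1', hg2', hg3'⟩ := hval (u 0)
          rw [← hg3] at hg2
          rw [← hg3'] at hg2'
          exact hg2.trans hg2'.symm
  have h1 := hbad N x (by omega) (by omega) hscale (GC f N) hLR
  have h2 := hsg x (by omega)
  have h3 := hconf x (by omega)
  set P : ℝ := (x : ℝ) ^ J / Real.log x ^ dd with hP
  set Sg := ((conf sD Q J x)).filter (fun n => t < ∑ q : Fin J × Fin J,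
        sg ((pt Q x q.1 (n q.1) : ℤ) - pt Q x q.2 (n q.2)).natAbs) with hSg
  set Bd := BadK (GC f N) 𝒱 sD Q x N κ₁ with hBd
  set A₀ := (conf sD Q J x).filter (fun n => n ∉ Bd ∧ n ∉ Sg) with hA₀
  set G : (Fin (k + 1) → ℕ) → Prop := fun z => HerK (GC f N) N κ₁ z ∧ sgs z ≤ t with hG
  have h4 : c1 / 2 * P ≤ (A₀.card : ℝ) := by
    have h5 : (conf sD Q J x).card ≤ A₀.card + (Bd.card + Sg.card) := by
      calc (conf sD Q J x).card ≤ (A₀ ∪ (Bd ∪ Sg)).card := by
            apply card_le_card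
            intro n hn
            simp only [mem_union, hA₀, mem_filter]
            by_cases h : n ∈ Bd
            · exact Or.inr (Or.inl h)
            · by_cases h' : n ∈ Sg
              · exact Or.inr (Or.inr h')
              · exact Or.inl ⟨hn, h, h'⟩
        _ ≤ A₀.card + (Bd ∪ Sg).card := card_union_le _ _
        _ ≤ _ := by
            have := card_union_le Bd Sg
            omega
    have h6 : ((conf sD Q J x).card : ℝ) ≤ A₀.card + (Bd.card + Sg.card) := by exact_mod_cast h5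
    linarith
  have h5 := hgz x (by omega) G A₀ (filter_subset _ _) h4 (by
    intro n hn
    rw [hA₀, mem_filter] at hn
    obtain ⟨hn1, hn2, hn3⟩ := hn
    rw [hBd, mem_BadK] at hn2
    push Not at hn2
    obtain ⟨v, hv1, hv2⟩ := hn2 hn1
    refine ⟨v, hv1, hv2, ?_⟩
    rw [hSg, mem_filter] at hn3
    push Not at hn3
    refine le_trans ?_ (hn3 hn1)
    unfold sgs
    apply sum_le_inj _ _ (fun q : Fin (k + 1) × Fin (k + 1) => (v q.1, v q.2))
    · intro q _
      exact mem_univ _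
    · intro q _ q' _ h
      simp only [Prod.mk.injEq] at h
      exact Prod.ext ((h𝒱1 v hv1).injective h.1) ((h𝒱1 v hv1).injective h.2)
    · intro q _
      exact le_rfl
    · intro b _
      exact sg_nonneg _)
  -- from points to shifts
  have h6 : (GZ 1 G s (W * x)).card ≤ ((goodK f s N D κ₁ t) ×ˢ (Icc 1 (W * x))).card := by
    apply card_le_card_of_injOn (fun z : Fin (k + 1) → ℕ => ((fun i => z i - z 0), z 0))
    · intro z hz
      rw [mem_coe] at hz
      simp only [GZ, mem_filter, Fintype.mem_piFinset] at hz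
      obtain ⟨hz1, hz2, hzq, hz3, hz4, hz5⟩ := hz
      have hz0 : ∀ i, z 0 ≤ z i := fun i => hz2.monotone (Fin.zero_le i)
      have hcast : ∀ i j, (((z j - z 0 : ℕ) : ℤ) - ((z i - z 0 : ℕ) : ℤ)) = (z j : ℤ) - z i := by
        intro i j
        rw [Nat.cast_sub (hz0 j), Nat.cast_sub (hz0 i)]
        ring
      rw [mem_coe, mem_product, mem_goodK]
      refine ⟨⟨?_, ?_, ?_⟩, hz1 0⟩
      · simp only [shifts, mem_filter, Fintype.mem_piFinset]
        refine ⟨fun i => ?_, by simp, fun i j hij => ?_, fun i j hij h => ?_⟩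
        · rw [mem_range]
          have := (mem_Icc.1 (hz1 i)).2
          omega
        · have := hz2 hij
          have := hz0 i
          dsimp only
          omega
        · have h5 := hz3 i j hij h
          rw [hcast i j]
          exact h5
      · intro b u hu
        refine (hz4 b u hu).trans ?_
        rw [Nat.cast_le]
        apply card_le_card_of_injOn (fun m => m + z 0)
        · intro m hm
          rw [mem_coe, mem_GC, mem_Icc] at hm
          rw [mem_coe]
          show m + z 0 ∈ GC f (2 * N) b (fun a => z (u a) - z 0)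
          rw [mem_GC, mem_Icc]
          have h7 := (mem_Icc.1 (hz1 0)).2
          have h10 : ∀ a, m + z 0 + (z (u a) - z 0) = m + z (u a) := by
            intro a
            have h9 := hz0 (u a)
            omega
          refine ⟨⟨by omega, by omega⟩, fun a => ?_, fun a => ?_⟩
          · rw [h10 a]
            exact hm.2.1 a
          · rw [h10 a, h10 0]
            exact hm.2.2 a
        · intro a _ b _ hab
          simp only at hab
          omega
      · refine le_trans (le_of_eq ?_) hz5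
        unfold sgs
        apply sum_congr rfl
        intro q _
        dsimp only
        rw [hcast q.2 q.1]
    · intro z hz z' hz' h
      rw [mem_coe] at hz hz'
      simp only [GZ, mem_filter, Fintype.mem_piFinset] at hz hz'
      have hz0 : ∀ i, z 0 ≤ z i := fun i => hz.2.1.monotone (Fin.zero_le i)
      have hz0' : ∀ i, z' 0 ≤ z' i := fun i => hz'.2.1.monotone (Fin.zero_le i)
      simp only [Prod.mk.injEq] at h
      funext i
      have h5 := congrFun h.1 i
      have h6 := h.2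
      have h7 := hz0 i
      have h8 := hz0' i
      omega
  rw [card_product, Nat.card_Icc, Nat.add_sub_cancel] at h6
  have h7 : ((GZ 1 G s (W * x)).card : ℝ) ≤ ((goodK f s N D κ₁ t).card : ℝ) * (W * x) := by
    exact_mod_cast h6
  have h8 : c2 / W * ((x : ℝ) ^ k / Real.log x ^ e0) ≤ ((goodK f s N D κ₁ t).card : ℝ) := by
    have h9 : 0 < (W : ℝ) * x := by positivity
    apply le_of_mul_le_mul_right _ h9
    refine le_trans (le_of_eq ?_) (h5.trans h7)
    rw [pow_succ]
    field_simp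
  refine le_trans ?_ h8
  have hDr : (D : ℝ) ≤ 2 * W * x := by
    have : (D : ℝ) ≤ ((2 * (W * x) : ℕ) : ℝ) := by exact_mod_cast hXW
    push_cast at this
    linarith
  have hlxD : Real.log x ≤ Real.log D := Real.log_le_log hx0 (by exact_mod_cast hxD)
  have h9 : (D : ℝ) ^ k ≤ (2 * W) ^ k * (x : ℝ) ^ k := by
    rw [← mul_pow]
    exact pow_le_pow_left₀ (Nat.cast_nonneg _) hDr k
  calc c2 / (W * (2 * W) ^ k) * ((D : ℝ) ^ k / Real.log D ^ e0) ≤
      c2 / (W * (2 * W) ^ k) * (((2 * W) ^ k * (x : ℝ) ^ k) / Real.log x ^ e0) := by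
        apply mul_le_mul_of_nonneg_left _ (by positivity)
        apply div_le_div₀ (by positivity) h9 (by positivity)
        exact pow_le_pow_left₀ hlx.le hlxD _
    _ = _ := by field_simp

end Pool.Agent.U288.RO
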