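import Pool.Agent.U288.RO.T1

/-! The main theorem for real `x` in terms of subsets and the singular series. -/

set_option autoImplicit false

namespace Pool.Agent.U288.RO

open Finset Filter Topology
open Pool.Agent.Y851.DK Pool.Agent.U288.SP Pool.Agent.H387R2.Uni

open Classical in
/-- the number of `1 ≤ m ≤ x` such that all `m + t`, `t ∈ T`, are prime -/
noncomputable def cnt (x : ℝ) (T : Finset ℕ) : ℕ :=
  ((Icc 1 ⌊x⌋₊).filter (fun m => ∀ t ∈ T, (m + t).Prime)).card

lemma GF_eq_cnt {k : ℕ} (x : ℝ) (h : Fin (k + 1) → ℕ) (I : Finset (Fin (k + 1))) (b : ℕ) (hI : I.card = b + 1) :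
    (GF ⌊x⌋₊ (fun a : Fin (b + 1) => h (I.orderEmbOfFin hI a))).card = cnt x (I.image h) := by
  classical
  unfold cnt
  congr 1
  ext m
  rw [mem_GF, mem_filter]
  constructor
  · rintro ⟨h1, h2⟩
    refine ⟨h1, fun t ht => ?_⟩
    obtain ⟨i, hi, rfl⟩ := mem_image.1 ht
    have h3 : i ∈ Set.range (I.orderEmbOfFin hI) := by
      rw [range_orderEmbOfFin]
      exact hi
    obtain ⟨a, rfl⟩ := h3
    exact h2 a
  · rintro ⟨h1, h2⟩
    exact ⟨h1, fun a => h2 _ (mem_image_of_mem _ (orderEmbOfFin_mem I hI a))⟩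

/-- all the subsets of the pattern reach the predicted order of magnitude -/
theorem real_sub (k : ℕ) (κ t : ℝ) (hκ : 0 < κ) : ∀ᶠ x : ℝ in atTop, ∀ (s : Fin (k + 1) → Fin (k + 1) → ℤ) (D : ℕ),
    ∀ h ∈ goodR s x D κ t, ∀ I : Finset (Fin (k + 1)), I.Nonempty →
      Adm (I.image h) ∧ 0 < CT (I.image h) ∧ CT (I.image h) ≤ Real.exp (2 * k * t) ∧
      κ * (x / Real.log x ^ I.card) ≤ (cnt x (I.image h) : ℝ) := by
  classical
  have e1 : ∀ᶠ x : ℝ in atTop, Real.log x ^ (k + 1) ≤ κ / (k + 2) * x := by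
    have h1 := (isLittleO_log_rpow_rpow_atTop ((k + 1 : ℕ) : ℝ) (show (0 : ℝ) < 1 by norm_num)).bound
      (show (0 : ℝ) < κ / (k + 2) by positivity)
    filter_upwards [h1, eventually_ge_atTop 3] with x hx hx3
    have hl : 0 ≤ Real.log x := Real.log_nonneg (by linarith)
    rw [Real.norm_of_nonneg (Real.rpow_nonneg hl _), Real.norm_of_nonneg (by positivity), Real.rpow_one,
      Real.rpow_natCast] at hx
    exact hx
  filter_upwards [e1, Real.tendsto_log_atTop.eventually_ge_atTop 1, eventually_ge_atTop 3] with x hx hl hx3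
    s D h hh I hI
  rw [mem_goodR] at hh
  obtain ⟨hh1, hh2, hh3⟩ := hh
  have hmono : StrictMono h := by
    simp only [shifts, mem_filter] at hh1
    exact hh1.2.2.1
  have hinj := hmono.injective
  have key : ∀ I : Finset (Fin (k + 1)), I.Nonempty → κ * (x / Real.log x ^ I.card) ≤ (cnt x (I.image h) : ℝ) := by
    intro I hI
    have hc1 : 0 < I.card := card_pos.2 hI
    have hc2 : I.card ≤ k + 1 := by
      have := card_le_univ I
      rwa [Fintype.card_fin] at this
    obtain ⟨b, hb⟩ : ∃ b, I.card = b + 1 := ⟨I.card - 1, by omega⟩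
    have h1 := hh2 ⟨b, by omega⟩ (I.orderEmbOfFin hb) (I.orderEmbOfFin hb).strictMono
    rw [GF_eq_cnt x h I b hb] at h1
    rw [hb]
    exact h1
  have hcard : (univ.image h).card = k + 1 := by
    rw [card_image_of_injective _ hinj, card_univ, Fintype.card_fin]
  have hadm : Adm (univ.image h) := by
    apply adm_of_card (M := ⌊x⌋₊)
    have h1 := key univ univ_nonempty
    rw [card_univ, Fintype.card_fin] at h1
    have hlp : 0 < Real.log x ^ (k + 1) := by positivity
    have h2 : (k : ℝ) + 2 ≤ κ * (x / Real.log x ^ (k + 1)) := by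
      rw [← mul_div_assoc, le_div_iff₀ hlp]
      calc ((k : ℝ) + 2) * Real.log x ^ (k + 1) ≤ (k + 2) * (κ / (k + 2) * x) :=
            mul_le_mul_of_nonneg_left hx (by positivity)
        _ = κ * x := by field_simp
    have h3 : ((k + 2 : ℕ) : ℝ) ≤ (cnt x (univ.image h) : ℝ) := by
      push_cast
      linarith
    have h4 : k + 2 ≤ cnt x (univ.image h) := by exact_mod_cast h3
    unfold cnt at h4
    rw [hcard]
    refine lt_of_lt_of_le (by omega : k + 1 < k + 2) (h4.trans (le_of_eq ?_))
    congr!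
  have hadmI : Adm (I.image h) := by
    intro p hp
    refine lt_of_le_of_lt ?_ (hadm p hp)
    unfold nuT
    apply card_le_card
    apply image_subset_image
    exact image_subset_image (subset_univ _)
  refine ⟨hadmI, CT_pos hadmI, ?_, key I hI⟩
  have h1 : (I.image h).card ≤ k + 1 := by
    refine card_image_le.trans ?_
    have := card_le_univ I
    rwa [Fintype.card_fin] at this
  refine (CT_le (hI.image h) h1).trans ?_
  apply Real.exp_le_exp.2
  apply mul_le_mul_of_nonneg_left _ (by positivity)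
  exact (spair_le h h hinj (fun _ _ => rfl) I).trans hh3

/-- the elements of admissible sets containing `0` are even -/
lemma even_of_adm {T : Finset ℕ} (h : Adm T) (h0 : 0 ∈ T) {t : ℕ} (ht : t ∈ T) : Even t := by
  classical
  by_contra hodd
  rw [Nat.not_even_iff_odd] at hodd
  have h1 := h 2 Nat.prime_two
  unfold nuT at h1
  have h2 : ({0, 1} : Finset ℕ) ⊆ T.image (· % 2) := by
    intro r hr
    rw [mem_insert, mem_singleton] at hr
    rcases hr with rfl | rfl
    · exact mem_image.2 ⟨0, h0, rfl⟩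
    · exact mem_image.2 ⟨t, ht, Nat.odd_iff.1 hodd⟩
  have h3 := card_le_card h2
  rw [card_pair (by norm_num)] at h3
  omega

end Pool.Agent.U288.RO
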