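import Pool.Agent.U288.RO.K2
import Pool.Agent.U288.RO.T2

/-! The coloured theorem for real `x`. -/

set_option autoImplicit false

namespace Pool.Agent.U288.RO

open Finset Filter Topology
open Pool.Agent.Y851.DK Pool.Agent.U288.SP Pool.Agent.H387R2.Uni

open Classical in
/-- the good patterns at the scale `x` -/
noncomputable def goodRK {k r : ℕ} (f : ℕ → Fin r) (s : Fin (k + 1) → Fin (k + 1) → ℤ) (x : ℝ) (D : ℕ) (κ t : ℝ) :
    Finset (Fin (k + 1) → ℕ) :=
  (shifts s D).filter (fun h => (∀ b : Fin (k + 1), ∀ u : Fin ((b : ℕ) + 1) → Fin (k + 1), StrictMono u →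
    κ * (x / Real.log x ^ ((b : ℕ) + 1)) ≤ ((GC f ⌊x⌋₊ b (fun a => h (u a))).card : ℝ)) ∧ sgs h ≤ t)

lemma mem_goodRK {k r : ℕ} {f : ℕ → Fin r} {s : Fin (k + 1) → Fin (k + 1) → ℤ} {x : ℝ} {D : ℕ} {κ t : ℝ} {h : Fin (k + 1) → ℕ} :
    h ∈ goodRK f s x D κ t ↔ h ∈ shifts s D ∧ (∀ b : Fin (k + 1), ∀ u : Fin ((b : ℕ) + 1) → Fin (k + 1), StrictMono u →
    κ * (x / Real.log x ^ ((b : ℕ) + 1)) ≤ ((GC f ⌊x⌋₊ b (fun a => h (u a))).card : ℝ)) ∧ sgs h ≤ t := by
  simp only [goodRK, mem_filter]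

lemma GC_mono {r b M M' : ℕ} (f : ℕ → Fin r) (hM : M ≤ M') (h : Fin (b + 1) → ℕ) :
    (GC f M b h).card ≤ (GC f M' b h).card := by
  apply card_le_card
  intro m hm
  rw [mem_GC, mem_Icc] at hm ⊢
  exact ⟨⟨hm.1.1, hm.1.2.trans hM⟩, hm.2⟩

theorem real_mainK (r : ℕ) (hr : 1 ≤ r) (k : ℕ) (s : Fin (k + 1) → Fin (k + 1) → ℤ) (hs : ∀ i j, s i j = 0 ∨ s i j = 1 ∨ s i j = -1) :
    ∃ c κ t C : ℝ, 0 < c ∧ 0 < κ ∧ 0 < t ∧ 0 < C ∧ ∃ B : ℕ, ∀ A : ℝ, ∀ᶠ x : ℝ in atTop, ∀ f : ℕ → Fin r, ∀ D : ℝ,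
      Real.log x * Real.log (Real.log x) ^ B ≤ D → D ≤ Real.log x ^ A →
      c * (D ^ k / Real.log D ^ (edg s).card) ≤ ((goodRK f s x ⌊D⌋₊ κ t).card : ℝ) ∧
      ((shifts s ⌊D⌋₊).card : ℝ) ≤ C * (D ^ k / Real.log D ^ (edg s).card) := by
  classical
  obtain ⟨c, κ₁, t, hc, hκ₁, ht, B, hmain⟩ := main_graphK r hr k s hs
  obtain ⟨C0, hC0, hup⟩ := shifts_upper Pool.Agent.Y949.DK.t_SV Pool.Agent.Y185.DK.AV.t_AVG k s
  obtain ⟨X0, hup⟩ := eventually_atTop.1 hup
  set E := (edg s).card with hE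
  refine ⟨c / 2 ^ k, κ₁ / 3, t, C0 * 2 ^ E, by positivity, by positivity, ht, by positivity, B + 1, fun A => ?_⟩
  obtain ⟨N0, hmain⟩ := eventually_atTop.1 (hmain (A + 1))
  have tL : Tendsto (fun x : ℝ => Real.log x) atTop atTop := Real.tendsto_log_atTop
  have tLL : Tendsto (fun x : ℝ => Real.log (Real.log x)) atTop atTop := Real.tendsto_log_atTop.comp tL
  filter_upwards [eventually_ge_atTop (2 * (N0 : ℝ) + 20), tL.eventually_ge_atTop (4 * (X0 : ℝ) + 8),
    tL.eventually_ge_atTop (2 ^ (A + 1)), tLL.eventually_ge_atTop (2 * |A| ^ B), tLL.eventually_ge_atTop 1]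
    with x hx1 hx2 hx3 hx4 hx5 f D hD1 hD2
  set L := Real.log x with hL
  set l := Real.log L with hl
  have hN0 : (0 : ℝ) ≤ N0 := Nat.cast_nonneg _
  have hX0 : (0 : ℝ) ≤ X0 := Nat.cast_nonneg _
  have hx20 : 20 ≤ x := by linarith
  have hL8 : 8 ≤ L := by linarith
  have hl0 : 0 < l := by linarith
  set N := ⌊x⌋₊ / 2 with hN
  have hfl1 : (⌊x⌋₊ : ℝ) ≤ x := Nat.floor_le (by linarith)
  have hfl2 : x < (⌊x⌋₊ : ℝ) + 1 := Nat.lt_floor_add_one x
  have h2N : 2 * N ≤ ⌊x⌋₊ := by omega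
  have h2N' : ⌊x⌋₊ ≤ 2 * N + 1 := by omega
  have h2N'' : (⌊x⌋₊ : ℝ) ≤ 2 * N + 1 := by exact_mod_cast h2N'
  have hNx : (N : ℝ) ≤ x := by
    have : (2 * (N : ℝ)) ≤ ⌊x⌋₊ := by exact_mod_cast h2N
    have : (0 : ℝ) ≤ N := Nat.cast_nonneg _
    linarith
  have hN3 : x / 3 ≤ N := by linarith
  have hNN0 : N0 ≤ N := by
    have : (N0 : ℝ) ≤ N := by linarith
    exact_mod_cast this
  have hNpos : (0 : ℝ) < N := by linarith
  have hlNL : Real.log N ≤ L := Real.log_le_log hNpos hNx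
  have hLlN : L / 2 ≤ Real.log N := by
    have h1 : x ≤ (N : ℝ) ^ 2 := by nlinarith
    have h2 : L ≤ Real.log ((N : ℝ) ^ 2) := Real.log_le_log (by linarith) h1
    rw [Real.log_pow] at h2
    push_cast at h2
    linarith
  have hlN0 : 0 < Real.log N := by linarith
  -- `D`
  have hlB : (1 : ℝ) ≤ l ^ (B + 1) := one_le_pow₀ hx5
  have hDL : L ≤ D := by
    refine le_trans ?_ hD1
    exact le_mul_of_one_le_right (by linarith) hlB
  have hD8 : 8 ≤ D := hL8.trans hDL
  set n := ⌊D⌋₊ with hn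
  have hn1 : (n : ℝ) ≤ D := Nat.floor_le (by linarith)
  have hn2 : D < (n : ℝ) + 1 := Nat.lt_floor_add_one D
  have hnD : D / 2 ≤ n := by linarith
  have hn4 : (4 : ℝ) ≤ n := by linarith
  have hlogn : 0 < Real.log n := Real.log_pos (by linarith)
  have hlognD : Real.log n ≤ Real.log D := Real.log_le_log (by linarith) hn1
  have hlogDA : Real.log D ≤ A * l := by
    have h1 := Real.log_le_log (by linarith) hD2
    rwa [Real.log_rpow (by linarith)] at h1
  have hA0 : 0 ≤ A := by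
    by_contra h
    push Not at h
    nlinarith
  have c1 : 2 ≤ n := by
    have : (2 : ℝ) ≤ n := by linarith
    exact_mod_cast this
  have c2 : Real.log N * Real.log n ^ B ≤ n := by
    rw [abs_of_nonneg hA0] at hx4
    calc Real.log N * Real.log n ^ B ≤ L * (A * l) ^ B := by
          apply mul_le_mul hlNL (pow_le_pow_left₀ hlogn.le (hlognD.trans hlogDA) B) (by positivity) (by linarith)
      _ = L * l ^ B * A ^ B := by rw [mul_pow]; ring
      _ ≤ L * l ^ B * (l / 2) := by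
          apply mul_le_mul_of_nonneg_left _ (by positivity)
          linarith
      _ = L * l ^ (B + 1) / 2 := by ring
      _ ≤ n := by linarith
  have c3 : (n : ℝ) ≤ Real.log N ^ (A + 1) := by
    calc (n : ℝ) ≤ L ^ A := hn1.trans hD2
      _ ≤ (L / 2) ^ (A + 1) := by
          have h3 : L ^ (A + 1) = L ^ A * L := by rw [Real.rpow_add (by linarith), Real.rpow_one]
          rw [Real.div_rpow (by linarith) (by norm_num), le_div_iff₀ (by positivity), h3]
          exact mul_le_mul_of_nonneg_left hx3 (by positivity)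
      _ ≤ _ := Real.rpow_le_rpow (by linarith) hLlN (by linarith)
  have h1 := hmain N hNN0 f n c1 c2 c3
  constructor
  · have h2 : goodK f s N n κ₁ t ⊆ goodRK f s x n (κ₁ / 3) t := by
      intro h hh
      rw [mem_goodK] at hh
      rw [mem_goodRK]
      refine ⟨hh.1, fun b u hu => ?_, hh.2.2⟩
      have h3 := hh.2.1 b u hu
      have h4 : ((GC f (2 * N) b (fun a => h (u a))).card : ℝ) ≤ ((GC f ⌊x⌋₊ b (fun a => h (u a))).card : ℝ) := by
        exact_mod_cast GC_mono f h2N _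
      refine le_trans ?_ (h3.trans h4)
      calc κ₁ / 3 * (x / L ^ ((b : ℕ) + 1)) = κ₁ * ((x / 3) / L ^ ((b : ℕ) + 1)) := by ring
        _ ≤ κ₁ * (N / Real.log N ^ ((b : ℕ) + 1)) := by
            apply mul_le_mul_of_nonneg_left _ hκ₁.le
            apply div_le_div₀ hNpos.le hN3 (by positivity)
            exact pow_le_pow_left₀ hlN0.le hlNL _
    have h3 : ((goodK f s N n κ₁ t).card : ℝ) ≤ ((goodRK f s x n (κ₁ / 3) t).card : ℝ) := by
      exact_mod_cast card_le_card h2
    refine le_trans ?_ (h1.trans h3)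
    calc c / 2 ^ k * (D ^ k / Real.log D ^ E) = c * ((D / 2) ^ k / Real.log D ^ E) := by
          rw [div_pow]
          ring
      _ ≤ _ := by
          apply mul_le_mul_of_nonneg_left _ hc.le
          apply div_le_div₀ (by positivity) (pow_le_pow_left₀ (by linarith) hnD k) (by positivity)
          exact pow_le_pow_left₀ hlogn.le hlognD E
  · have h2 : X0 ≤ n := by
      have : (X0 : ℝ) ≤ n := by linarith
      exact_mod_cast this
    refine (hup n h2).trans ?_
    have h3 : Real.log D / 2 ≤ Real.log n := by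
      have h4 : D ≤ (n : ℝ) ^ 2 := by nlinarith
      have h5 : Real.log D ≤ Real.log ((n : ℝ) ^ 2) := Real.log_le_log (by linarith) h4
      rw [Real.log_pow] at h5
      push_cast at h5
      linarith
    have hlD : 0 < Real.log D := Real.log_pos (by linarith)
    calc C0 * ((n : ℝ) ^ k / Real.log n ^ E) ≤ C0 * (D ^ k / (Real.log D / 2) ^ E) := by
          apply mul_le_mul_of_nonneg_left _ hC0.le
          apply div_le_div₀ (by positivity) (pow_le_pow_left₀ (by linarith) hn1 k) (by positivity)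
          exact pow_le_pow_left₀ (by linarith) h3 E
      _ = _ := by
          rw [div_pow]
          field_simp

open Classical in
/-- the number of `1 ≤ m ≤ x` such that all `m + t`, `t ∈ T`, are primes of one colour -/
noncomputable def cntK {r : ℕ} (f : ℕ → Fin r) (x : ℝ) (T : Finset ℕ) : ℕ :=
  ((Icc 1 ⌊x⌋₊).filter (fun m => (∀ t ∈ T, (m + t).Prime) ∧ ∃ c, ∀ t ∈ T, f (m + t) = c)).card

lemma GC_eq_cntK {k r : ℕ} (f : ℕ → Fin r) (x : ℝ) (h : Fin (k + 1) → ℕ) (I : Finset (Fin (k + 1))) (b : ℕ) (hI : I.card = b + 1) :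
    (GC f ⌊x⌋₊ b (fun a : Fin (b + 1) => h (I.orderEmbOfFin hI a))).card = cntK f x (I.image h) := by
  classical
  unfold cntK
  congr 1
  ext m
  rw [mem_GC, mem_filter]
  constructor
  · rintro ⟨h1, h2, h2'⟩
    refine ⟨h1, fun t ht => ?_, f (m + h (I.orderEmbOfFin hI 0)), fun t ht => ?_⟩
    · obtain ⟨i, hi, rfl⟩ := mem_image.1 ht
      have h3 : i ∈ Set.range (I.orderEmbOfFin hI) := by
        rw [range_orderEmbOfFin]
        exact hi
      obtain ⟨a, rfl⟩ := h3
      exact h2 a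
    · obtain ⟨i, hi, rfl⟩ := mem_image.1 ht
      have h3 : i ∈ Set.range (I.orderEmbOfFin hI) := by
        rw [range_orderEmbOfFin]
        exact hi
      obtain ⟨a, rfl⟩ := h3
      exact h2' a
  · rintro ⟨h1, h2, c, h3⟩
    refine ⟨h1, fun a => h2 _ (mem_image_of_mem _ (orderEmbOfFin_mem I hI a)), fun a => ?_⟩
    rw [h3 _ (mem_image_of_mem _ (orderEmbOfFin_mem I hI a)), h3 _ (mem_image_of_mem _ (orderEmbOfFin_mem I hI 0))]

/-- all the subsets of the pattern reach the predicted order of magnitude -/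
theorem real_subK (r k : ℕ) (κ t : ℝ) (hκ : 0 < κ) : ∀ᶠ x : ℝ in atTop, ∀ (f : ℕ → Fin r) (s : Fin (k + 1) → Fin (k + 1) → ℤ) (D : ℕ),
    ∀ h ∈ goodRK f s x D κ t, ∀ I : Finset (Fin (k + 1)), I.Nonempty →
      Adm (I.image h) ∧ 0 < CT (I.image h) ∧ CT (I.image h) ≤ Real.exp (2 * k * t) ∧
      κ * (x / Real.log x ^ I.card) ≤ (cntK f x (I.image h) : ℝ) := by
  classical
  have e1 : ∀ᶠ x : ℝ in atTop, Real.log x ^ (k + 1) ≤ κ / (k + 2) * x := by
    have h1 := (isLittleO_log_rpow_rpow_atTop ((k + 1 : ℕ) : ℝ) (show (0 : ℝ) < 1 by norm_num)).bound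
      (show (0 : ℝ) < κ / (k + 2) by positivity)
    filter_upwards [h1, eventually_ge_atTop 3] with x hx hx3
    have hl : 0 ≤ Real.log x := Real.log_nonneg (by linarith)
    rw [Real.norm_of_nonneg (Real.rpow_nonneg hl _), Real.norm_of_nonneg (by positivity), Real.rpow_one,
      Real.rpow_natCast] at hx
    exact hx
  filter_upwards [e1, Real.tendsto_log_atTop.eventually_ge_atTop 1, eventually_ge_atTop 3] with x hx hl hx3
    f s D h hh I hI
  rw [mem_goodRK] at hh
  obtain ⟨hh1, hh2, hh3⟩ := hh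
  have hmono : StrictMono h := by
    simp only [shifts, mem_filter] at hh1
    exact hh1.2.2.1
  have hinj := hmono.injective
  have key : ∀ I : Finset (Fin (k + 1)), I.Nonempty → κ * (x / Real.log x ^ I.card) ≤ (cntK f x (I.image h) : ℝ) := by
    intro I hI
    have hc1 : 0 < I.card := card_pos.2 hI
    have hc2 : I.card ≤ k + 1 := by
      have := card_le_univ I
      rwa [Fintype.card_fin] at this
    obtain ⟨b, hb⟩ : ∃ b, I.card = b + 1 := ⟨I.card - 1, by omega⟩
    have h1 := hh2 ⟨b, by omega⟩ (I.orderEmbOfFin hb) (I.orderEmbOfFin hb).strictMono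
    rw [GC_eq_cntK f x h I b hb] at h1
    rw [hb]
    exact h1
  have hcard : (univ.image h).card = k + 1 := by
    rw [card_image_of_injective _ hinj, card_univ, Fintype.card_fin]
  have hadm : Adm (univ.image h) := by
    apply adm_of_card (M := ⌊x⌋₊)
    have h1 := key univ univ_nonempty
    rw [card_univ, Fintype.card_fin] at h1
    have hlp : 0 < Real.log x ^ (k + 1) := by positivity
    have h2 : (k : ℝ) + 2 ≤ κ * (x / Real.log x ^ (k + 1)) := by
      rw [← mul_div_assoc, le_div_iff₀ hlp]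
      calc ((k : ℝ) + 2) * Real.log x ^ (k + 1) ≤ (k + 2) * (κ / (k + 2) * x) :=
            mul_le_mul_of_nonneg_left hx (by positivity)
        _ = κ * x := by field_simp
    have h3 : ((k + 2 : ℕ) : ℝ) ≤ (cntK f x (univ.image h) : ℝ) := by
      push_cast
      linarith
    have h4 : k + 2 ≤ cntK f x (univ.image h) := by exact_mod_cast h3
    unfold cntK at h4
    rw [hcard]
    refine lt_of_lt_of_le (by omega : k + 1 < k + 2) (h4.trans ?_)
    apply card_le_card
    intro m hm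
    rw [mem_filter] at hm ⊢
    exact ⟨hm.1, hm.2.1⟩
  have hadmI : Adm (I.image h) := by
    intro p hp
    refine lt_of_le_of_lt ?_ (hadm p hp)
    unfold nuT
    apply card_le_card
    apply image_subset_image
    exact image_subset_image (subset_univ _)
  refine ⟨hadmI, CT_pos hadmI, ?_, key I hI⟩
  have h1 : (I.image h).card ≤ k + 1 := by
    refine card_image_le.trans ?_
    have := card_le_univ I
    rwa [Fintype.card_fin] at this
  refine (CT_le (hI.image h) h1).trans ?_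
  apply Real.exp_le_exp.2
  apply mul_le_mul_of_nonneg_left _ (by positivity)
  exact (spair_le h h hinj (fun _ _ => rfl) I).trans hh3

end Pool.Agent.U288.RO
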