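import Pool.Agent.U288.RO.C1

/-! The number of the prime points of a graph system such that the translates by `n` of the images of some of the
coordinates under an affine map are free of small primes. -/

set_option autoImplicit false
set_option linter.unusedSectionVars false

namespace Pool.Agent.U288.RO

open Finset Filter Topology
open Pool.Agent.Y851.DK Pool.Agent.U288.SP

open Classical in
/-- the `n ≤ N` such that all `n + z v` are free of small primes -/
noncomputable def RZ {V : Type} (κ : ℝ) (N : ℕ) (z : V → ℤ) : Finset ℕ :=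
  (Icc 1 N).filter (fun n : ℕ => ∀ v, Ro κ N ((n : ℤ) + z v))

lemma mem_RZ {V : Type} {κ : ℝ} {N : ℕ} {z : V → ℤ} {n : ℕ} :
    n ∈ RZ κ N z ↔ n ∈ Icc 1 N ∧ ∀ v, Ro κ N ((n : ℤ) + z v) := by
  unfold RZ
  exact @Finset.mem_filter _ _ (fun _ => Classical.propDecidable _) _ _

lemma sum_RZ {V W : Type} (κ : ℝ) (N : ℕ) (S : Finset (V → ℕ)) (φ : (V → ℕ) → W → ℤ) :
    ∑ z ∈ S, ((RZ κ N (φ z)).card : ℝ) =
    ∑ n ∈ Icc 1 N, ((S.filter (fun z => n ∈ RZ κ N (φ z))).card : ℝ) := by
  have h : ∀ z : V → ℕ, ((RZ κ N (φ z)).card : ℝ) = ∑ n ∈ Icc 1 N, if n ∈ RZ κ N (φ z) then (1 : ℝ) else 0 := by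
    intro z
    rw [sum_boole]
    congr 2
    ext n
    rw [mem_filter]
    exact ⟨fun h => ⟨(mem_RZ.1 h).1, h⟩, fun h => h.2⟩
  simp only [h]
  rw [sum_comm]
  apply sum_congr rfl
  intro n _
  rw [sum_boole]

/-- injective points -/
lemma rz_inj (V : Type) [Fintype V] [DecidableEq V] (κ : ℝ) (hκ : 0 < κ) : ∃ C : ℝ, 1 ≤ C ∧ ∀ᶠ N : ℕ in atTop,
    ∀ z : V → ℤ, Function.Injective z →
      ((RZ κ N z).card : ℝ) ≤ C * Real.exp (C * ∑ q : V × V, sg (z q.1 - z q.2).natAbs) *
        (N / Real.log N ^ Fintype.card V) := by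
  classical
  obtain ⟨C, hC, h⟩ := rough_sieve (Fintype.card V) κ hκ
  refine ⟨C, hC, ?_⟩
  filter_upwards [h] with N hN z hz
  have hinj : Set.InjOn z ((univ : Finset V) : Set V) := fun a _ b _ hab => hz hab
  have h1 := hN (univ.image z) (by rw [card_image_of_injOn hinj, card_univ])
  have h2 : ∑ f ∈ univ.image z, ∑ g ∈ univ.image z, sg (g - f).natAbs =
      ∑ q : V × V, sg (z q.1 - z q.2).natAbs := by
    rw [sum_image hinj, Fintype.sum_prod_type, sum_comm]
    rw [sum_image hinj]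
  rw [h2] at h1
  refine le_trans ?_ h1
  rw [Nat.cast_le]
  apply card_le_card
  intro n hn
  rw [mem_RZ] at hn
  rw [mem_filter]
  refine ⟨hn.1, fun b hb => ?_⟩
  obtain ⟨v, _, rfl⟩ := mem_image.1 hb
  exact hn.2 v

lemma sgz_mul_le (l d : ℤ) (L : ℕ) (hl : l ≠ 0) (hL : l.natAbs ≤ L) :
    sg (l * d).natAbs ≤ L + sg d.natAbs := by
  have h0 : ∀ m : ℕ, 0 ≤ sg m := fun m => sum_nonneg fun p _ => by positivity
  by_cases hd : d = 0
  · rw [hd, mul_zero]
    have := h0 (0 : ℤ).natAbs
    have : (0 : ℝ) ≤ L := Nat.cast_nonneg _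
    linarith
  · rw [Int.natAbs_mul]
    have hl' : l.natAbs ≠ 0 := Int.natAbs_ne_zero.2 hl
    have hd' : d.natAbs ≠ 0 := Int.natAbs_ne_zero.2 hd
    unfold sg
    rw [Nat.primeFactors_mul hl' hd']
    have h1 : ∑ p ∈ l.natAbs.primeFactors ∪ d.natAbs.primeFactors, (1 : ℝ) / p ≤
        ∑ p ∈ l.natAbs.primeFactors, (1 : ℝ) / p + ∑ p ∈ d.natAbs.primeFactors, (1 : ℝ) / p := by
      rw [← sum_union_inter]
      have : 0 ≤ ∑ p ∈ l.natAbs.primeFactors ∩ d.natAbs.primeFactors, (1 : ℝ) / p :=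
        sum_nonneg fun p _ => by positivity
      linarith
    have h2 : ∑ p ∈ l.natAbs.primeFactors, (1 : ℝ) / p ≤ L := by
      calc ∑ p ∈ l.natAbs.primeFactors, (1 : ℝ) / p ≤ ∑ _p ∈ l.natAbs.primeFactors, (1 : ℝ) := by
            apply sum_le_sum
            intro p hp
            have : (1 : ℝ) ≤ p := by exact_mod_cast (Nat.prime_of_mem_primeFactors hp).one_le
            rw [div_le_one (by linarith)]
            exact this
        _ = (l.natAbs.primeFactors.card : ℝ) := by rw [sum_const, nsmul_eq_mul, mul_one]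
        _ ≤ L := by
            have h3 : l.natAbs.primeFactors ⊆ Icc 1 l.natAbs := by
              intro p hp
              rw [mem_Icc]
              exact ⟨(Nat.prime_of_mem_primeFactors hp).one_le, Nat.le_of_mem_primeFactors hp⟩
            have h4 := card_le_card h3
            rw [Nat.card_Icc, Nat.add_sub_cancel] at h4
            exact_mod_cast h4.trans hL
    linarith

section
variable {V V' : Type} [Fintype V] [DecidableEq V] [Fintype V'] [DecidableEq V']

open Classical in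
lemma me_injA (hSV : P_SV) (hAVG : P_AVG) (E : Finset (V × V)) (hE : Simple E) (σ : V × V → ℤ) (κ : ℝ) (hκ : 0 < κ)
    (ι : V' → V) (hι : Function.Injective ι) (L : ℕ) :
    ∃ C : ℝ, 0 < C ∧ ∃ M₀ : ℕ, ∀ N X : ℕ, M₀ ≤ N → M₀ ≤ X → ∀ l c₀ : ℤ, l ≠ 0 → l.natAbs ≤ L →
      ∑ z ∈ (sol E σ X).filter (fun z => Function.Injective (fun v => z (ι v))),
        ((RZ κ N (fun v : V' => c₀ + l * z (ι v))).card : ℝ) ≤
        C * ((N / Real.log N ^ Fintype.card V') * ((X : ℝ) ^ Fintype.card V / Real.log X ^ E.card)) := by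
  obtain ⟨C1, hC1, h1⟩ := rz_inj V' κ hκ
  obtain ⟨C2, hC2, h2⟩ := upperS hSV hAVG E hE σ C1 (by linarith)
  obtain ⟨M1, hM1⟩ := eventually_atTop.1 h1
  obtain ⟨M2, hM2⟩ := eventually_atTop.1 h2
  set n0 : ℝ := (Fintype.card (V' × V') : ℝ) * L with hn0
  refine ⟨C1 * Real.exp (C1 * n0) * C2, by positivity, max (max M1 M2) 3, fun N X hN hX l c₀ hl hL => ?_⟩
  have hN3 : 3 ≤ N := (le_max_right _ _).trans hN
  have hNr : (3 : ℝ) ≤ N := by exact_mod_cast hN3
  have hlN : 0 < Real.log N := Real.log_pos (by linarith)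
  have h3 := hM1 N (((le_max_left _ _).trans (le_max_left _ _)).trans hN)
  have h4 := hM2 X (((le_max_right _ _).trans (le_max_left _ _)).trans hX)
  have hsg0 : ∀ m : ℕ, 0 ≤ sg m := fun m => sum_nonneg fun p _ => by positivity
  have key : ∀ z : V → ℕ, ∑ q : V' × V', sg ((c₀ + l * (z (ι q.1) : ℤ)) - (c₀ + l * z (ι q.2))).natAbs ≤
      n0 + ∑ q : V × V, sg ((z q.1 : ℤ) - z q.2).natAbs := by
    intro z
    calc ∑ q : V' × V', sg ((c₀ + l * (z (ι q.1) : ℤ)) - (c₀ + l * z (ι q.2))).natAbs ≤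
        ∑ q : V' × V', ((L : ℝ) + sg ((z (ι q.1) : ℤ) - z (ι q.2)).natAbs) := by
          apply sum_le_sum
          intro q _
          have h5 : (c₀ + l * (z (ι q.1) : ℤ)) - (c₀ + l * z (ι q.2)) = l * ((z (ι q.1) : ℤ) - z (ι q.2)) := by ring
          rw [h5]
          exact sgz_mul_le l _ L hl hL
      _ = n0 + ∑ q : V' × V', sg ((z (ι q.1) : ℤ) - z (ι q.2)).natAbs := by
          rw [sum_add_distrib, sum_const, card_univ, nsmul_eq_mul]
      _ ≤ _ := by
          apply add_le_add le_rfl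
          have h6 : ∑ q : V' × V', sg ((z (ι q.1) : ℤ) - z (ι q.2)).natAbs =
              ∑ p ∈ (univ : Finset (V' × V')).image (fun q => (ι q.1, ι q.2)), sg ((z p.1 : ℤ) - z p.2).natAbs := by
            rw [sum_image]
            intro q _ q' _ h
            simp only [Prod.mk.injEq] at h
            exact Prod.ext (hι h.1) (hι h.2)
          rw [h6]
          exact sum_le_sum_of_subset_of_nonneg (subset_univ _) fun _ _ _ => hsg0 _
  calc _ ≤ ∑ z ∈ (sol E σ X).filter (fun z => Function.Injective (fun v => z (ι v))),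
        C1 * Real.exp (C1 * n0) * Real.exp (C1 * ∑ q : V × V, sg ((z q.1 : ℤ) - z q.2).natAbs) *
          (N / Real.log N ^ Fintype.card V') := by
        apply sum_le_sum
        intro z hz
        have hzi := (mem_filter.1 hz).2
        have h5 := h3 (fun v : V' => c₀ + l * z (ι v)) (by
          intro a b hab
          have h6 : l * (z (ι a) : ℤ) = l * z (ι b) := add_left_cancel hab
          have h7 := mul_left_cancel₀ hl h6
          exact hzi (by exact_mod_cast h7))
        refine h5.trans ?_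
        apply mul_le_mul_of_nonneg_right _ (by positivity)
        rw [mul_assoc, ← Real.exp_add, ← mul_add]
        apply mul_le_mul_of_nonneg_left _ (by linarith)
        apply Real.exp_le_exp.2
        apply mul_le_mul_of_nonneg_left (key z) (by linarith)
    _ ≤ ∑ z ∈ sol E σ X,
        C1 * Real.exp (C1 * n0) * Real.exp (C1 * ∑ q : V × V, sg ((z q.1 : ℤ) - z q.2).natAbs) *
          (N / Real.log N ^ Fintype.card V') := by
        apply sum_le_sum_of_subset_of_nonneg (filter_subset _ _)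
        intro z _ _
        positivity
    _ = C1 * Real.exp (C1 * n0) * (N / Real.log N ^ Fintype.card V') * ∑ z ∈ sol E σ X,
        Real.exp (C1 * ∑ q : V × V, sg ((z q.1 : ℤ) - z q.2).natAbs) := by
        rw [mul_sum]
        apply sum_congr rfl
        intro z _
        ring
    _ ≤ C1 * Real.exp (C1 * n0) * (N / Real.log N ^ Fintype.card V') *
        (C2 * ((X : ℝ) ^ Fintype.card V / Real.log X ^ E.card)) := by
        apply mul_le_mul_of_nonneg_left h4 (by positivity)
    _ = _ := by ring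

end

open Classical in
/-- the shifts `t ≤ X` with `n + c₀ + l t` free of small primes -/
noncomputable def SZ (κ : ℝ) (N X : ℕ) (l c₀ : ℤ) (n : ℕ) : Finset ℕ :=
  (Icc 1 X).filter (fun t : ℕ => Ro κ N ((n : ℤ) + (c₀ + l * t)))

lemma mem_SZ {κ : ℝ} {N X : ℕ} {l c₀ : ℤ} {n t : ℕ} :
    t ∈ SZ κ N X l c₀ n ↔ t ∈ Icc 1 X ∧ Ro κ N ((n : ℤ) + (c₀ + l * t)) := by
  unfold SZ
  exact @Finset.mem_filter _ _ (fun _ => Classical.propDecidable _) _ _

/-- moments -/
lemma momA (hSV : P_SV) (hAVG : P_AVG) (κ : ℝ) (hκ : 0 < κ) (m L : ℕ) :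
    ∃ C : ℝ, 0 < C ∧ ∃ M₀ : ℕ, ∀ N X : ℕ, M₀ ≤ N → M₀ ≤ X → Real.log N ≤ X → ∀ l c₀ : ℤ, l ≠ 0 → l.natAbs ≤ L →
      ∑ n ∈ Icc 1 N, ((SZ κ N X l c₀ n).card : ℝ) ^ m ≤ C * (N * (X / Real.log N) ^ m) := by
  classical
  obtain ⟨C1, hC1, M₀, h1⟩ := me_injA (V := Fin m) hSV hAVG ∅ (fun e he => absurd he (notMem_empty e)) (fun _ => 0) κ hκ
    (id : Fin m → Fin m) Function.injective_id L
  refine ⟨(2 * m : ℝ) ^ m + 2 ^ m * m.factorial * C1, by positivity, max M₀ 3, fun N X hN hX hNX l c₀ hl hL => ?_⟩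
  have hN3 : 3 ≤ N := (le_max_right _ _).trans hN
  have hNr : (3 : ℝ) ≤ N := by exact_mod_cast hN3
  have hlN : 0 < Real.log N := Real.log_pos (by linarith)
  have h2 := h1 N X ((le_max_left _ _).trans hN) ((le_max_left _ _).trans hX) l c₀ hl hL
  rw [Fintype.card_fin, card_empty, pow_zero, div_one] at h2
  have h3 : ∑ n ∈ Icc 1 N, (((SZ κ N X l c₀ n).card.choose m : ℕ) : ℝ) ≤
      ∑ z ∈ (sol (V := Fin m) ∅ (fun _ => 0) X).filter (fun z => Function.Injective (fun v => z (id v))),
        ((RZ κ N (fun v : Fin m => c₀ + l * z (id v))).card : ℝ) := by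
    rw [sum_RZ κ N _ (fun z => fun v : Fin m => c₀ + l * (z (id v) : ℤ))]
    apply sum_le_sum
    intro n hnN
    rw [← card_powersetCard, Nat.cast_le]
    apply card_le_card_of_injOn (fun R : Finset ℕ => if h : R.card = m then (fun i => R.orderEmbOfFin h i) else (fun _ => 0))
    · intro R hR
      rw [mem_coe, mem_powersetCard] at hR
      rw [mem_coe]
      simp only [dif_pos hR.2]
      simp only [mem_filter, mem_RZ]
      have h5 : ∀ i, R.orderEmbOfFin hR.2 i ∈ SZ κ N X l c₀ n := fun i => hR.1 (orderEmbOfFin_mem R hR.2 i)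
      refine ⟨⟨?_, (R.orderEmbOfFin hR.2).injective⟩, ?_, fun v => ?_⟩
      · simp only [sol, mem_filter, Fintype.mem_piFinset]
        refine ⟨fun i => ?_, fun e he => absurd he (notMem_empty e)⟩
        exact (mem_SZ.1 (h5 i)).1
      · assumption
      · exact (mem_SZ.1 (h5 v)).2
    · intro R hR R' hR' h
      rw [mem_coe, mem_powersetCard] at hR hR'
      simp only [dif_pos hR.2, dif_pos hR'.2] at h
      have h5 : Set.range (R.orderEmbOfFin hR.2) = Set.range (R'.orderEmbOfFin hR'.2) := by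
        congr 1
      rw [range_orderEmbOfFin, range_orderEmbOfFin] at h5
      exact_mod_cast h5
  have h5 : ∀ n ∈ Icc 1 N, ((SZ κ N X l c₀ n).card : ℝ) ^ m ≤
      (2 * m : ℝ) ^ m + 2 ^ m * m.factorial * (((SZ κ N X l c₀ n).card.choose m : ℕ) : ℝ) :=
    fun n _ => pow_le_choose' _ _
  have hXl : 1 ≤ (X : ℝ) / Real.log N := by rw [le_div_iff₀ hlN]; linarith
  have hXm : 1 ≤ ((X : ℝ) / Real.log N) ^ m := one_le_pow₀ hXl
  calc _ ≤ ∑ n ∈ Icc 1 N, ((2 * m : ℝ) ^ m + 2 ^ m * m.factorial * (((SZ κ N X l c₀ n).card.choose m : ℕ) : ℝ)) :=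
        sum_le_sum h5
    _ = N * (2 * m : ℝ) ^ m + 2 ^ m * m.factorial * ∑ n ∈ Icc 1 N, (((SZ κ N X l c₀ n).card.choose m : ℕ) : ℝ) := by
        rw [sum_add_distrib, sum_const, Nat.card_Icc, Nat.add_sub_cancel, nsmul_eq_mul, ← mul_sum]
    _ ≤ N * (2 * m : ℝ) ^ m * (X / Real.log N) ^ m + 2 ^ m * m.factorial * (C1 * ((N / Real.log N ^ m) * (X : ℝ) ^ m)) := by
        apply add_le_add
        · exact le_mul_of_one_le_right (by positivity) hXm
        · exact mul_le_mul_of_nonneg_left (h3.trans h2) (by positivity)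
    _ = _ := by
        rw [div_pow]
        ring

section
variable {V V' : Type} [Fintype V] [DecidableEq V] [Fintype V'] [DecidableEq V']

lemma card_compl_range (ι : V' → V) (hι : Function.Injective ι) :
    Fintype.card {v : V // ∀ w, ι w ≠ v} + Fintype.card V' = Fintype.card V := by
  classical
  have h2 : Fintype.card {v : V // ∀ w, ι w ≠ v} = (univ.image ι)ᶜ.card := by
    rw [Fintype.card_subtype]
    congr 1
    ext i
    simp only [mem_filter, mem_univ, true_and, mem_compl, mem_image, not_exists]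
  rw [h2, card_compl, card_image_of_injective _ hι, card_univ]
  have := Fintype.card_le_of_injective ι hι
  omega

open Classical in
/-- the points with a coincidence among the chosen coordinates -/
lemma noninjA (ι : V' → V) (hι : Function.Injective ι) (J : Finset ℕ) (X : ℕ) :
    ((Fintype.piFinset (fun _ : V => Icc 1 X)).filter (fun z => (∀ v, z (ι v) ∈ J) ∧
      ¬ Function.Injective (fun v => z (ι v)))).card ≤
      (Fintype.card V') ^ 2 * J.card ^ (Fintype.card V' - 1) * X ^ (Fintype.card V - Fintype.card V') := by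
  have h1 : ((Fintype.piFinset (fun _ : V => Icc 1 X)).filter (fun z => (∀ v, z (ι v) ∈ J) ∧
      ¬ Function.Injective (fun v => z (ι v)))).card ≤
      (((Fintype.piFinset (fun _ : V' => J)).filter (fun A => ¬ Function.Injective A)) ×ˢ
        (Fintype.piFinset (fun _ : {v : V // ∀ w, ι w ≠ v} => Icc 1 X))).card := by
    apply card_le_card_of_injOn (fun z => ((fun v => z (ι v)), fun v => z v.1))
    · intro z hz
      rw [mem_coe, mem_filter, Fintype.mem_piFinset] at hz
      rw [mem_coe, mem_product, mem_filter, Fintype.mem_piFinset, Fintype.mem_piFinset]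
      exact ⟨⟨hz.2.1, hz.2.2⟩, fun v => hz.1 v.1⟩
    · intro z _ z' _ h
      simp only [Prod.mk.injEq] at h
      funext v
      by_cases hv : ∀ w, ι w ≠ v
      · exact congrFun h.2 ⟨v, hv⟩
      · push Not at hv
        obtain ⟨w, rfl⟩ := hv
        exact congrFun h.1 w
  refine h1.trans ?_
  rw [card_product]
  apply Nat.mul_le_mul (noninj' J)
  rw [Fintype.card_piFinset]
  simp only [Nat.card_Icc, Nat.add_sub_cancel, prod_const, card_univ]
  have := card_compl_range ι hι
  apply le_of_eq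
  congr 1
  omega

/-- **all points** -/
theorem me_allA (hSV : P_SV) (hAVG : P_AVG) (E : Finset (V × V)) (hE : Simple E) (σ : V × V → ℤ) (κ : ℝ) (hκ : 0 < κ)
    (ι : V' → V) (hι : Function.Injective ι) (L : ℕ) :
    ∃ C : ℝ, 0 < C ∧ ∃ M₀ : ℕ, ∀ N X : ℕ, M₀ ≤ N → M₀ ≤ X → Real.log N * Real.log X ^ E.card ≤ X →
      ∀ l c₀ : ℤ, l ≠ 0 → l.natAbs ≤ L →
      ∑ z ∈ sol E σ X, ((RZ κ N (fun v : V' => c₀ + l * z (ι v))).card : ℝ) ≤
        C * ((N / Real.log N ^ Fintype.card V') * ((X : ℝ) ^ Fintype.card V / Real.log X ^ E.card)) := by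
  classical
  obtain ⟨C1, hC1, M1, h1⟩ := me_injA hSV hAVG E hE σ κ hκ ι hι L
  obtain ⟨C2, hC2, M2, h2⟩ := momA hSV hAVG κ hκ (Fintype.card V' - 1) L
  refine ⟨C1 + (Fintype.card V' : ℝ) ^ 2 * C2, by positivity, max (max M1 M2) 3, fun N X hN hX hNX l c₀ hl hL => ?_⟩
  have hN3 : 3 ≤ N := (le_max_right _ _).trans hN
  have hNr : (3 : ℝ) ≤ N := by exact_mod_cast hN3
  have hX3 : 3 ≤ X := (le_max_right _ _).trans hX
  have hXr : (3 : ℝ) ≤ X := by exact_mod_cast hX3
  have hlN : 0 < Real.log N := Real.log_pos (by linarith)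
  have hlX : 1 ≤ Real.log X := by
    have := Real.exp_one_lt_d9
    rw [Real.le_log_iff_exp_le (by linarith)]
    linarith
  have hlX0 : 0 < Real.log X := by linarith
  have hNX' : Real.log N ≤ X := by
    refine le_trans ?_ hNX
    exact le_mul_of_one_le_right hlN.le (one_le_pow₀ hlX)
  have h3 := h1 N X (((le_max_left _ _).trans (le_max_left _ _)).trans hN)
    (((le_max_left _ _).trans (le_max_left _ _)).trans hX) l c₀ hl hL
  have h4 := h2 N X (((le_max_right _ _).trans (le_max_left _ _)).trans hN)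
    (((le_max_right _ _).trans (le_max_left _ _)).trans hX) hNX' l c₀ hl hL
  have hcard := card_compl_range ι hι
  obtain ⟨w', hw'⟩ : ∃ w', Fintype.card V = Fintype.card V' + w' :=
    ⟨Fintype.card {v : V // ∀ w, ι w ≠ v}, by omega⟩
  rw [← sum_filter_add_sum_filter_not (sol E σ X) (fun z => Function.Injective (fun v => z (ι v)))]
  have h5 : ∑ z ∈ (sol E σ X).filter (fun z => ¬ Function.Injective (fun v => z (ι v))),
      ((RZ κ N (fun v : V' => c₀ + l * z (ι v))).card : ℝ) ≤
      (Fintype.card V' : ℝ) ^ 2 * (C2 * (N * (X / Real.log N) ^ (Fintype.card V' - 1))) * (X : ℝ) ^ w' := by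
    rw [sum_RZ κ N _ (fun z => fun v : V' => c₀ + l * (z (ι v) : ℤ))]
    calc _ ≤ ∑ n ∈ Icc 1 N, ((Fintype.card V' : ℝ) ^ 2 * ((SZ κ N X l c₀ n).card : ℝ) ^ (Fintype.card V' - 1) * (X : ℝ) ^ w') := by
          apply sum_le_sum
          intro n _
          have h7 := noninjA ι hι (SZ κ N X l c₀ n) X
          rw [show Fintype.card V - Fintype.card V' = w' by omega] at h7
          have h8 : ((((sol E σ X).filter (fun z => ¬ Function.Injective (fun v => z (ι v)))).filter
              (fun z => n ∈ RZ κ N (fun v : V' => c₀ + l * (z (ι v) : ℤ)))).card : ℕ) ≤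
              ((Fintype.piFinset (fun _ : V => Icc 1 X)).filter (fun z => (∀ v, z (ι v) ∈ SZ κ N X l c₀ n) ∧
                ¬ Function.Injective (fun v => z (ι v)))).card := by
            apply card_le_card
            intro z hz
            simp only [mem_filter, mem_RZ] at hz
            obtain ⟨⟨hz1, hz2⟩, -, hz3⟩ := hz
            simp only [sol, mem_filter, Fintype.mem_piFinset] at hz1
            simp only [mem_filter, Fintype.mem_piFinset]
            refine ⟨fun v => hz1.1 v, fun v => ?_, hz2⟩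
            rw [mem_SZ]
            exact ⟨hz1.1 _, hz3 v⟩
          exact_mod_cast h8.trans h7
      _ = (Fintype.card V' : ℝ) ^ 2 * (∑ n ∈ Icc 1 N, ((SZ κ N X l c₀ n).card : ℝ) ^ (Fintype.card V' - 1)) * (X : ℝ) ^ w' := by
          rw [mul_sum, sum_mul]
      _ ≤ _ := by
          apply mul_le_mul_of_nonneg_right _ (by positivity)
          exact mul_le_mul_of_nonneg_left h4 (by positivity)
  have h6 : (Fintype.card V' : ℝ) ^ 2 * (C2 * (N * (X / Real.log N) ^ (Fintype.card V' - 1))) * (X : ℝ) ^ w' ≤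
      (Fintype.card V' : ℝ) ^ 2 * C2 * ((N / Real.log N ^ Fintype.card V') * ((X : ℝ) ^ Fintype.card V / Real.log X ^ E.card)) := by
    rcases Nat.eq_zero_or_pos (Fintype.card V') with h0 | h0
    · rw [h0]
      simp
    · obtain ⟨w, hw⟩ : ∃ w, Fintype.card V' = w + 1 := ⟨Fintype.card V' - 1, by omega⟩
      rw [hw', hw, Nat.add_sub_cancel]
      have h7 : ((w + 1 : ℕ) : ℝ) ^ 2 * (C2 * (N * ((X : ℝ) / Real.log N) ^ w)) * (X : ℝ) ^ w' =
          ((w + 1 : ℕ) : ℝ) ^ 2 * C2 * ((N / (Real.log N ^ w * Real.log N)) * ((X : ℝ) ^ w * (X : ℝ) ^ w' * Real.log N)) := by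
        rw [div_pow]
        field_simp
      rw [h7, pow_succ (Real.log (N : ℝ))]
      apply mul_le_mul_of_nonneg_left _ (by positivity)
      apply mul_le_mul_of_nonneg_left _ (by positivity)
      rw [pow_add, pow_succ (X : ℝ), le_div_iff₀ (by positivity)]
      calc (X : ℝ) ^ w * (X : ℝ) ^ w' * Real.log N * Real.log X ^ E.card =
          (X : ℝ) ^ w * (X : ℝ) ^ w' * (Real.log N * Real.log X ^ E.card) := by ring
        _ ≤ (X : ℝ) ^ w * (X : ℝ) ^ w' * X := mul_le_mul_of_nonneg_left hNX (by positivity)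
        _ = _ := by ring
  calc _ ≤ C1 * ((N / Real.log N ^ Fintype.card V') * ((X : ℝ) ^ Fintype.card V / Real.log X ^ E.card)) +
      (Fintype.card V' : ℝ) ^ 2 * C2 * ((N / Real.log N ^ Fintype.card V') * ((X : ℝ) ^ Fintype.card V / Real.log X ^ E.card)) :=
        add_le_add h3 (h5.trans h6)
    _ = _ := by ring

end

end Pool.Agent.U288.RO
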