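import Pool.Agent.U288.RO.M1
import Pool.Agent.U288.RO.K1

/-! Few configurations contain, in a given subset of the points, no pattern whose image under an affine map is good. -/

set_option autoImplicit false
set_option linter.unusedSectionVars false

namespace Pool.Agent.U288.RO

open Finset Filter Topology
open Pool.Agent.Y851.DK Pool.Agent.U288.SP

section glue
variable {D K k : ℕ} (w : Fin K → Fin D) (v' : Fin (k + 1) → Fin K)

open Classical in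
/-- the pairs of a configuration whose pattern has a small set and an element of this set -/
noncomputable def AvL (𝒢 : (Fin (k + 1) → ℕ) → Finset ℕ) (s : ℕ → ℕ → ℤ) (Q x N : ℕ) (κ T : ℝ) (l c₀ : ℤ) :
    Finset ((Fin D → ℕ) × ℕ) :=
  ((conf s Q D x) ×ˢ (Icc 1 N)).filter (fun p => ((𝒢 (Fv (fun a => w (v' a)) Q x p.1)).card : ℝ) < T ∧
    p.2 ∈ RZ κ N (fun i : Fin K => c₀ + l * (pt Q x (w i) (p.1 (w i)) : ℤ)) ∧ p.2 ∈ 𝒢 (Fv (fun a => w (v' a)) Q x p.1))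

lemma mem_AvL {𝒢 : (Fin (k + 1) → ℕ) → Finset ℕ} {s : ℕ → ℕ → ℤ} {Q x N : ℕ} {κ T : ℝ} {l c₀ : ℤ}
    {p : (Fin D → ℕ) × ℕ} :
    p ∈ AvL w v' 𝒢 s Q x N κ T l c₀ ↔
    p.1 ∈ conf s Q D x ∧ ((𝒢 (Fv (fun a => w (v' a)) Q x p.1)).card : ℝ) < T ∧
    p.2 ∈ RZ κ N (fun i : Fin K => c₀ + l * (pt Q x (w i) (p.1 (w i)) : ℤ)) ∧
    p.2 ∈ 𝒢 (Fv (fun a => w (v' a)) Q x p.1) := by
  unfold AvL
  simp only [mem_filter, mem_product]
  constructor
  · rintro ⟨⟨h1, h2⟩, h3⟩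
    exact ⟨h1, h3⟩
  · rintro ⟨h1, h3⟩
    exact ⟨⟨h1, (mem_RZ.1 h3.2.1).1⟩, h3⟩

/-- the embedding of the glued subsets -/
def gio (hw : Function.Injective w) : GV v' → GV (fun a => w (v' a)) :=
  Sum.map w (fun i => ⟨w i.1, fun a h => i.2 a (hw h)⟩)

lemma gio_inj (hw : Function.Injective w) : Function.Injective (gio w v' hw) := by
  rintro (i | i) (j | j) h
  · simp only [gio, Sum.map_inl, Sum.inl.injEq] at h
    rw [hw h]
  · simp only [gio, Sum.map_inl, Sum.map_inr, reduceCtorEq] at h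
  · simp only [gio, Sum.map_inl, Sum.map_inr, reduceCtorEq] at h
  · simp only [gio, Sum.map_inr, Sum.inr.injEq, Subtype.mk.injEq] at h
    have := hw h
    rw [Subtype.ext this]

/-- **few points over the patterns with few points** -/
theorem AvL_small (hSV : P_SV) (hAVG : P_AVG) (s : ℕ → ℕ → ℤ) (Q : ℕ) (hQ : 1 ≤ Q) (hD : 1 ≤ D) (hw : StrictMono w)
    (hv' : StrictMono v') (κ : ℝ) (hκ : 0 < κ) (L : ℕ) :
    ∃ C : ℝ, 0 < C ∧ ∃ M₀ : ℕ, ∀ N x : ℕ, M₀ ≤ N → M₀ ≤ x →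
      Real.log N * Real.log ((2 * Q * D * x : ℕ) : ℝ) ^ (2 * ed s D) ≤ ((2 * Q * D * x : ℕ) : ℝ) → ∀ κ₁ : ℝ, 0 ≤ κ₁ →
      ∀ 𝒢 : (Fin (k + 1) → ℕ) → Finset ℕ, ∀ l c₀ : ℤ, l ≠ 0 → l.natAbs ≤ L →
      ((AvL w v' 𝒢 s Q x N κ (κ₁ * (N / Real.log N ^ (k + 1))) l c₀).card : ℝ) ^ 2 ≤
        κ₁ * C * ((N / Real.log N ^ K) * (((2 * Q * D * x : ℕ) : ℝ) ^ D / Real.log ((2 * Q * D * x : ℕ) : ℝ) ^ ed s D)) ^ 2 := by
  classical
  set v : Fin (k + 1) → Fin D := fun a => w (v' a) with hvd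
  have hv : StrictMono v := hw.comp hv'
  obtain ⟨C1, hC1, M1, h1⟩ := me_allA hSV hAVG (gE v s) (gE_simple v s) (gs v s) κ hκ (gio w v' hw.injective)
    (gio_inj w v' hw.injective) L
  obtain ⟨C2, hC2, h2⟩ := upper hSV hAVG (edg (sv v s)) (edg_simple _) (fun q => sv v s q.1 q.2)
  obtain ⟨M2, h2⟩ := eventually_atTop.1 h2
  refine ⟨C2 * C1, by positivity, max (max M1 M2) 3, fun N x hN hx hNx κ₁ hκ₁ 𝒢 l c₀ hl hL => ?_⟩
  set X := 2 * Q * D * x with hX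
  have hxX : x ≤ X := by
    rw [hX]
    have : 1 ≤ 2 * Q * D := by nlinarith
    nlinarith
  have hN3 : 3 ≤ N := (le_max_right _ _).trans hN
  have hNr : (3 : ℝ) ≤ N := by exact_mod_cast hN3
  have hX3 : 3 ≤ X := ((le_max_right _ _).trans hx).trans hxX
  have hXr : (3 : ℝ) ≤ X := by exact_mod_cast hX3
  have hlN : 0 < Real.log N := Real.log_pos (by linarith)
  have hlX : 1 ≤ Real.log X := by
    have := Real.exp_one_lt_d9
    rw [Real.le_log_iff_exp_le (by linarith)]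
    linarith
  have hlX0 : 0 < Real.log X := by linarith
  set V2 := Fintype.card (GV v) with hV2
  set V3 := Fintype.card (GV v') with hV3
  set g := (gE v s).card with hg
  set e := (edg (sv v s)).card with he
  have hV2e : V2 + (k + 1) = 2 * D := GV_card v hv
  have hV3e : V3 + (k + 1) = 2 * K := GV_card v' hv'
  have hge : g + e = 2 * ed s D := by
    have := gE_card v s (sv v s) hv (fun _ _ _ => rfl)
    rw [EDs_card] at this
    exact this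
  have h3 := h1 N X (((le_max_left _ _).trans (le_max_left _ _)).trans hN)
    ((((le_max_left _ _).trans (le_max_left _ _)).trans hx).trans hxX) (by
      refine le_trans ?_ hNx
      apply mul_le_mul_of_nonneg_left _ hlN.le
      exact pow_le_pow_right₀ hlX (by omega)) l c₀ hl hL
  have h4 := h2 X ((((le_max_right _ _).trans (le_max_left _ _)).trans hx).trans hxX)
  rw [Fintype.card_fin] at h4
  set T := κ₁ * (N / Real.log N ^ (k + 1)) with hT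
  have hT0 : 0 ≤ T := by positivity
  set A := AvL w v' 𝒢 s Q x N κ T l c₀ with hA
  -- the target
  set 𝓕 := ((conf s Q D x).image (Fv v Q x)).filter (fun F => ((𝒢 F).card : ℝ) < T) with h𝓕
  set G := 𝓕.sigma (fun F => 𝒢 F) with hG
  have h5 := cs A (G.image (fun q => (q.1, q.2))) (fun p => (Fv v Q x p.1, p.2)) (by
    intro p hp
    rw [hA, mem_AvL] at hp
    rw [mem_image]
    refine ⟨⟨Fv v Q x p.1, p.2⟩, ?_, rfl⟩
    rw [hG, mem_sigma, h𝓕, mem_filter, mem_image]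
    exact ⟨⟨⟨p.1, hp.1, rfl⟩, hp.2.1⟩, hp.2.2.2⟩)
  have h6 : ((G.image (fun q => (q.1, q.2))).card : ℝ) ≤ C2 * ((X : ℝ) ^ (k + 1) / Real.log X ^ e) * T := by
    have h7 : (G.image (fun q => (q.1, q.2))).card ≤ G.card := card_image_le
    have h8 : (G.card : ℝ) ≤ 𝓕.card * T := by
      rw [hG, card_sigma]
      push_cast
      calc ∑ F ∈ 𝓕, ((𝒢 F).card : ℝ) ≤ ∑ _F ∈ 𝓕, T := by
            apply sum_le_sum
            intro F hF
            exact (mem_filter.1 hF).2.le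
        _ = _ := by rw [sum_const, nsmul_eq_mul]
    have h9 : 𝓕 ⊆ sol (edg (sv v s)) (fun q => sv v s q.1 q.2) X := by
      intro F hF
      rw [h𝓕, mem_filter, mem_image] at hF
      obtain ⟨⟨n, hn, rfl⟩, -⟩ := hF
      rw [mem_conf] at hn
      simp only [sol, mem_filter, Fintype.mem_piFinset, mem_Icc]
      refine ⟨fun a => pt_bd Q x hQ (v a) _ (hn.1 (v a)).1 (hn.1 (v a)).2, fun q hq => ?_⟩
      unfold edg at hq
      simp only [mem_filter, mem_univ, true_and] at hq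
      exact hn.2 (v q.1) (v q.2) (hv hq.1) hq.2
    have h10 : (𝓕.card : ℝ) ≤ C2 * ((X : ℝ) ^ (k + 1) / Real.log X ^ e) := by
      refine le_trans ?_ h4
      exact_mod_cast card_le_card h9
    calc ((G.image (fun q => (q.1, q.2))).card : ℝ) ≤ G.card := by exact_mod_cast h7
      _ ≤ 𝓕.card * T := h8
      _ ≤ _ := mul_le_mul_of_nonneg_right h10 hT0
  have h7 : (((A ×ˢ A).filter (fun p => (Fv v Q x p.1.1, p.1.2) = (Fv v Q x p.2.1, p.2.2))).card : ℝ) ≤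
      C1 * ((N / Real.log N ^ V3) * ((X : ℝ) ^ V2 / Real.log X ^ g)) := by
    refine le_trans ?_ h3
    have h8 : ∑ z ∈ sol (gE v s) (gs v s) X,
        ((RZ κ N (fun i : GV v' => c₀ + l * (z (gio w v' hw.injective i) : ℤ))).card : ℝ) =
        (((sol (gE v s) (gs v s) X).sigma
          (fun z => RZ κ N (fun i : GV v' => c₀ + l * (z (gio w v' hw.injective i) : ℤ)))).card : ℝ) := by
      rw [card_sigma]
      push_cast
      rfl
    rw [h8, Nat.cast_le]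
    apply card_le_card_of_injOn (fun p : ((Fin D → ℕ) × ℕ) × ((Fin D → ℕ) × ℕ) =>
      (⟨gy v Q x (p.1.1, p.2.1), p.1.2⟩ : (_ : GV v → ℕ) × ℕ))
    · rintro ⟨⟨n, m⟩, ⟨n', m'⟩⟩ hp
      rw [mem_coe, mem_filter, mem_product, hA, mem_AvL, mem_AvL] at hp
      obtain ⟨⟨⟨ha1, ha2, ha3, ha4⟩, ⟨hb1, hb2, hb3, hb4⟩⟩, hab⟩ := hp
      simp only [Prod.mk.injEq] at hab
      obtain ⟨hF, hm⟩ := hab
      have hag : ∀ a, n (v a) = n' (v a) := fun a => pt_inj hQ (congrFun hF a)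
      rw [mem_coe, mem_sigma]
      refine ⟨gy_mem v hQ ha1 hb1 hag, ?_⟩
      simp only at ha3 hb3 hm ⊢
      rw [mem_RZ] at ha3 hb3 ⊢
      refine ⟨ha3.1, fun g => ?_⟩
      rcases g with i | i
      · exact ha3.2 i
      · have := hb3.2 i.1
        rw [← hm] at this
        exact this
    · rintro ⟨⟨n, m⟩, ⟨n', m'⟩⟩ hp ⟨⟨n₁, r⟩, ⟨n₁', r'⟩⟩ hq h
      rw [mem_coe, mem_filter] at hp hq
      have hp2 := hp.2
      have hq2 := hq.2
      simp only [Prod.mk.injEq] at hp2 hq2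
      simp only [Sigma.mk.injEq] at h
      obtain ⟨ha, hb⟩ := h
      have hb' : m = r := eq_of_heq hb
      have h9 := gy_inj v hQ (fun a => pt_inj hQ (congrFun hp2.1 a)) (fun a => pt_inj hQ (congrFun hq2.1 a)) ha
      obtain ⟨rfl, rfl⟩ := h9
      subst hb'
      have h10 : m' = r' := hp2.2.symm.trans hq2.2
      rw [h10]
  refine h5.trans ?_
  have h8 : (((G.image (fun q => (q.1, q.2))).card : ℕ) : ℝ) *
      (((A ×ˢ A).filter (fun p => (Fv v Q x p.1.1, p.1.2) = (Fv v Q x p.2.1, p.2.2))).card : ℝ) ≤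
      (C2 * ((X : ℝ) ^ (k + 1) / Real.log X ^ e) * T) * (C1 * ((N / Real.log N ^ V3) * ((X : ℝ) ^ V2 / Real.log X ^ g))) :=
    mul_le_mul h6 h7 (Nat.cast_nonneg _) (by positivity)
  refine h8.trans (le_of_eq ?_)
  have e1 : ((X : ℝ) ^ D) ^ 2 = (X : ℝ) ^ (k + 1) * (X : ℝ) ^ V2 := by
    rw [← pow_mul, ← pow_add]
    congr 1
    omega
  have e2 : (Real.log (X : ℝ) ^ ed s D) ^ 2 = Real.log X ^ e * Real.log X ^ g := by
    rw [← pow_mul, ← pow_add]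
    congr 1
    omega
  have e3 : (Real.log (N : ℝ) ^ K) ^ 2 = Real.log N ^ (k + 1) * Real.log N ^ V3 := by
    rw [← pow_mul, ← pow_add]
    congr 1
    omega
  rw [mul_pow, div_pow, div_pow, e1, e2, e3, hT]
  field_simp

end glue

section
variable {k J K : ℕ}

/-- every configuration has many points in the sets of all the subpatterns of one of its patterns -/
def LowL (w : Fin K → Fin J) (𝒢 : ∀ b : ℕ, (Fin (b + 1) → ℕ) → Finset ℕ) (𝒱 : Finset (Fin (k + 1) → Fin K))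
    (s : ℕ → ℕ → ℤ) (Q x N : ℕ) (κ c : ℝ) (l c₀ : ℤ) : Prop :=
  ∀ n ∈ conf s Q J x, ∃ S : Finset ℕ, c * (N / Real.log N ^ K) ≤ (S.card : ℝ) ∧
    ∀ m ∈ S, m ∈ RZ κ N (fun i : Fin K => c₀ + l * (pt Q x (w i) (n (w i)) : ℤ)) ∧ ∃ v ∈ 𝒱,
      ∀ b : Fin (k + 1), ∀ u : Fin ((b : ℕ) + 1) → Fin (k + 1), StrictMono u →
        m ∈ 𝒢 b (Fv (fun a => w (v (u a))) Q x n)

open Classical in
/-- the bad configurations -/
noncomputable def BadL (w : Fin K → Fin J) (𝒢 : ∀ b : ℕ, (Fin (b + 1) → ℕ) → Finset ℕ)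
    (𝒱 : Finset (Fin (k + 1) → Fin K)) (s : ℕ → ℕ → ℤ) (Q x N : ℕ) (κ₁ : ℝ) : Finset (Fin J → ℕ) :=
  (conf s Q J x).filter (fun n => ∀ v ∈ 𝒱, ¬ HerK 𝒢 N κ₁ (Fv (fun a => w (v a)) Q x n))

lemma mem_BadL {w : Fin K → Fin J} {𝒢 : ∀ b : ℕ, (Fin (b + 1) → ℕ) → Finset ℕ} {𝒱 : Finset (Fin (k + 1) → Fin K)}
    {s : ℕ → ℕ → ℤ} {Q x N : ℕ} {κ₁ : ℝ} {n : Fin J → ℕ} :
    n ∈ BadL w 𝒢 𝒱 s Q x N κ₁ ↔ n ∈ conf s Q J x ∧ ∀ v ∈ 𝒱, ¬ HerK 𝒢 N κ₁ (Fv (fun a => w (v a)) Q x n) := by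
  simp only [BadL, mem_filter]

theorem few_badL (hSV : P_SV) (hAVG : P_AVG) (Q : ℕ) (hJ : 1 ≤ J) (hQ : 1 ≤ Q) (s : ℕ → ℕ → ℤ)
    (w : Fin K → Fin J) (hw : StrictMono w)
    (𝒱 : Finset (Fin (k + 1) → Fin K)) (h𝒱 : ∀ v ∈ 𝒱, StrictMono v)
    (κ : ℝ) (hκ : 0 < κ) (c : ℝ) (hc : 0 < c) (ε : ℝ) (hε : 0 < ε) (L : ℕ) :
    ∃ κ₁ : ℝ, 0 < κ₁ ∧ ∃ M₀ : ℕ, ∀ N x : ℕ, M₀ ≤ N → M₀ ≤ x →
      Real.log N * Real.log ((2 * Q * J * x : ℕ) : ℝ) ^ (2 * ed s J) ≤ ((2 * Q * J * x : ℕ) : ℝ) →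
      ∀ 𝒢 : (∀ b : ℕ, (Fin (b + 1) → ℕ) → Finset ℕ), ∀ l c₀ : ℤ, l ≠ 0 → l.natAbs ≤ L →
      LowL w 𝒢 𝒱 s Q x N κ c l c₀ →
      ((BadL w 𝒢 𝒱 s Q x N κ₁).card : ℝ) ≤ ε * ((x : ℝ) ^ J / Real.log x ^ ed s J) := by
  classical
  have h1 : ∀ v : (Σ b : Fin (k + 1), (Fin ((b : ℕ) + 1) → Fin K)), ∃ C : ℝ, 0 < C ∧ ∃ M₀ : ℕ, StrictMono v.2 →
      ∀ N x : ℕ, M₀ ≤ N → M₀ ≤ x →
      Real.log N * Real.log ((2 * Q * J * x : ℕ) : ℝ) ^ (2 * ed s J) ≤ ((2 * Q * J * x : ℕ) : ℝ) → ∀ κ₁ : ℝ, 0 ≤ κ₁ →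
      ∀ 𝒢 : (Fin ((v.1 : ℕ) + 1) → ℕ) → Finset ℕ, ∀ l c₀ : ℤ, l ≠ 0 → l.natAbs ≤ L →
      ((AvL w v.2 𝒢 s Q x N κ (κ₁ * (N / Real.log N ^ ((v.1 : ℕ) + 1))) l c₀).card : ℝ) ^ 2 ≤
        κ₁ * C * ((N / Real.log N ^ K) * (((2 * Q * J * x : ℕ) : ℝ) ^ J / Real.log ((2 * Q * J * x : ℕ) : ℝ) ^ ed s J)) ^ 2 := by
    rintro ⟨b, v⟩
    by_cases hv : StrictMono v
    · obtain ⟨C, hC, M₀, h⟩ := AvL_small w v hSV hAVG s Q hQ hJ hw hv κ hκ L
      exact ⟨C, hC, M₀, fun _ => h⟩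
    · exact ⟨1, one_pos, 0, fun h => absurd h hv⟩
  choose Cv hCv Mv hv using h1
  set W : ℕ := 2 * Q * J with hW
  have hW1 : 1 ≤ W := by rw [hW]; nlinarith
  have hWr : (1 : ℝ) ≤ W := by exact_mod_cast hW1
  set Cs : ℝ := ∑ v, √(Cv v) + 1 with hCs
  have hCs0 : 0 < Cs := by
    have : 0 ≤ ∑ v, √(Cv v) := sum_nonneg fun v _ => Real.sqrt_nonneg _
    linarith
  set κ₁ : ℝ := (c * ε / (Cs * (W : ℝ) ^ J)) ^ 2 with hκ₁
  have hκ₁0 : 0 < κ₁ := by positivity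
  have hsq : √κ₁ = c * ε / (Cs * (W : ℝ) ^ J) := by rw [hκ₁, Real.sqrt_sq (by positivity)]
  refine ⟨κ₁, hκ₁0, max (∑ v, Mv v) 3, fun N x hN hx hNx 𝒢 l c₀ hl hL hlow => ?_⟩
  set X := 2 * Q * J * x with hX
  have hXW : X = W * x := by rw [hX, hW]
  have hx3 : 3 ≤ x := (le_max_right _ _).trans hx
  have hxr : (3 : ℝ) ≤ x := by exact_mod_cast hx3
  have hxX : x ≤ X := by rw [hXW]; nlinarith
  have hXr : (3 : ℝ) ≤ X := by exact_mod_cast hx3.trans hxX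
  have hN3 : 3 ≤ N := (le_max_right _ _).trans hN
  have hNr : (3 : ℝ) ≤ N := by exact_mod_cast hN3
  have hlN : 0 < Real.log N := Real.log_pos (by linarith)
  have hlx : 0 < Real.log x := Real.log_pos (by linarith)
  have hlX : 0 < Real.log X := Real.log_pos (by linarith)
  set LL : ℝ := N / Real.log N ^ K with hLL
  have hL0 : 0 < LL := by positivity
  set P : ℝ := (X : ℝ) ^ J / Real.log X ^ ed s J with hP
  have hP0 : 0 < P := by positivity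
  set T : ℕ → ℝ := fun b => κ₁ * (N / Real.log N ^ (b + 1)) with hT
  set Bd := BadL w 𝒢 𝒱 s Q x N κ₁ with hBd
  set 𝒲 : Finset (Σ b : Fin (k + 1), (Fin ((b : ℕ) + 1) → Fin K)) := univ.filter (fun w => StrictMono w.2) with h𝒲
  -- the size of the sets `Av`
  have hAv : ∀ v ∈ 𝒲, ((AvL w v.2 (𝒢 v.1) s Q x N κ (T v.1) l c₀).card : ℝ) ≤ √κ₁ * √(Cv v) * (LL * P) := by
    intro v hvm
    have hMv : Mv v ≤ ∑ v, Mv v := single_le_sum (f := Mv) (fun _ _ => Nat.zero_le _) (mem_univ v)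
    have h2 := hv v (mem_filter.1 hvm).2 N x ((hMv.trans (le_max_left _ _)).trans hN)
      ((hMv.trans (le_max_left _ _)).trans hx) hNx κ₁ hκ₁0.le (𝒢 v.1) l c₀ hl hL
    have h3 : √κ₁ * √(Cv v) * (LL * P) = √(κ₁ * Cv v * (LL * P) ^ 2) := by
      rw [Real.sqrt_mul (by have := hCv v; positivity), Real.sqrt_mul hκ₁0.le,
        Real.sqrt_sq (by positivity : (0 : ℝ) ≤ LL * P)]
    rw [h3]
    exact Real.le_sqrt_of_sq_le h2
  -- one configuration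
  have hone : ∀ n ∈ Bd, c * LL ≤ ∑ v ∈ 𝒲, (((AvL w v.2 (𝒢 v.1) s Q x N κ (T v.1) l c₀).filter (fun p => p.1 = n)).card : ℝ) := by
    intro n hn
    rw [hBd, mem_BadL] at hn
    obtain ⟨hn1, hn2⟩ := hn
    obtain ⟨S, hS1, hS2⟩ := hlow n hn1
    refine hS1.trans ?_
    have h3 : S ⊆ 𝒲.biUnion (fun v => ((AvL w v.2 (𝒢 v.1) s Q x N κ (T v.1) l c₀).filter (fun p => p.1 = n)).image Prod.snd) := by
      intro m hm
      obtain ⟨hm1, v, hv1, hv2⟩ := hS2 m hm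
      have h4 := hn2 v hv1
      unfold HerK at h4
      push Not at h4
      obtain ⟨b, u, hu, h4⟩ := h4
      rw [mem_biUnion]
      refine ⟨⟨b, fun a => v (u a)⟩, mem_filter.2 ⟨mem_univ _, (h𝒱 v hv1).comp hu⟩, ?_⟩
      rw [mem_image]
      refine ⟨(n, m), mem_filter.2 ⟨?_, rfl⟩, rfl⟩
      rw [mem_AvL]
      exact ⟨hn1, h4, hm1, hv2 b u hu⟩
    have h4 := (card_le_card h3).trans card_biUnion_le
    have h5 : ∑ v ∈ 𝒲, (((AvL w v.2 (𝒢 v.1) s Q x N κ (T v.1) l c₀).filter (fun p => p.1 = n)).image Prod.snd).card ≤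
        ∑ v ∈ 𝒲, ((AvL w v.2 (𝒢 v.1) s Q x N κ (T v.1) l c₀).filter (fun p => p.1 = n)).card :=
      sum_le_sum fun v _ => card_image_le
    exact_mod_cast h4.trans h5
  have h2 := sum_le_sum hone
  rw [sum_const, nsmul_eq_mul, sum_comm] at h2
  have h3 : ∑ v ∈ 𝒲, ∑ n ∈ Bd,
      (((AvL w v.2 (𝒢 v.1) s Q x N κ (T v.1) l c₀).filter (fun p => p.1 = n)).card : ℝ) ≤ √κ₁ * Cs * (LL * P) := by
    calc _ ≤ ∑ v ∈ 𝒲, √κ₁ * √(Cv v) * (LL * P) := by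
          apply sum_le_sum
          intro v hvm
          refine le_trans ?_ (hAv v hvm)
          have h4 : ∑ n ∈ Bd, ((AvL w v.2 (𝒢 v.1) s Q x N κ (T v.1) l c₀).filter (fun p => p.1 = n)).card ≤
              (AvL w v.2 (𝒢 v.1) s Q x N κ (T v.1) l c₀).card := by
            rw [sum_card_fiberwise_eq_card_filter]
            exact card_filter_le _ _
          exact_mod_cast h4
      _ ≤ ∑ v, √κ₁ * √(Cv v) * (LL * P) := by
          apply sum_le_sum_of_subset_of_nonneg (subset_univ _)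
          intro v _ _
          positivity
      _ = √κ₁ * (∑ v, √(Cv v)) * (LL * P) := by
          rw [mul_sum, sum_mul]
      _ ≤ _ := by
          apply mul_le_mul_of_nonneg_right _ (by positivity)
          apply mul_le_mul_of_nonneg_left _ (Real.sqrt_nonneg _)
          rw [hCs]
          linarith
  have h4 := h2.trans h3
  have h5 : P ≤ (W : ℝ) ^ J * ((x : ℝ) ^ J / Real.log x ^ ed s J) := by
    have h6 : Real.log x ≤ Real.log X := Real.log_le_log (by linarith) (by exact_mod_cast hxX)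
    calc P ≤ (X : ℝ) ^ J / Real.log x ^ ed s J := by
          apply div_le_div_of_nonneg_left (by positivity) (by positivity)
          exact pow_le_pow_left₀ hlx.le h6 _
      _ = _ := by
          rw [hXW]
          push_cast
          rw [mul_pow]
          ring
  have h6 : √κ₁ * Cs * (LL * P) ≤ c * LL * (ε * ((x : ℝ) ^ J / Real.log x ^ ed s J)) := by
    calc √κ₁ * Cs * (LL * P) ≤ √κ₁ * Cs * (LL * ((W : ℝ) ^ J * ((x : ℝ) ^ J / Real.log x ^ ed s J))) := by gcongr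
      _ = _ := by
          rw [hsq]
          field_simp
  have h7 : (Bd.card : ℝ) * (c * LL) ≤ (ε * ((x : ℝ) ^ J / Real.log x ^ ed s J)) * (c * LL) := by
    refine (h4.trans h6).trans (le_of_eq (by ring))
  exact le_of_mul_le_mul_right h7 (by positivity)

end

end Pool.Agent.U288.RO
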