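import Pool.Agent.U288.RO.M2
import Pool.Agent.U288.RO.D2
import Pool.Agent.U288.SP.MT
import Pool.Agent.H152.HR.Ramsey

/-! **Coloured primes, all the dilates of a pattern at once, right order of magnitude.** -/

set_option autoImplicit false
set_option linter.unusedSectionVars false

namespace Pool.Agent.U288.RO

open Finset Filter Topology
open Pool.Agent.Y851.DK Pool.Agent.U288.SP

/-- the `m ≤ M` such that all `m + c₀ + l F a` are primes of one colour -/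
def Gdl {r : ℕ} (f : ℕ → Fin r) (l c₀ : ℤ) (M b : ℕ) (F : Fin (b + 1) → ℕ) : Finset ℕ :=
  (Icc 1 M).filter (fun m : ℕ => (∀ a, ((m : ℤ) + (c₀ + l * (F a : ℤ))).toNat.Prime) ∧
    ∀ a, f ((m : ℤ) + (c₀ + l * (F a : ℤ))).toNat = f ((m : ℤ) + (c₀ + l * (F 0 : ℤ))).toNat)

lemma mem_Gdl {r : ℕ} {f : ℕ → Fin r} {l c₀ : ℤ} {M b : ℕ} {F : Fin (b + 1) → ℕ} {m : ℕ} : m ∈ Gdl f l c₀ M b F ↔
    m ∈ Icc 1 M ∧ (∀ a, ((m : ℤ) + (c₀ + l * (F a : ℤ))).toNat.Prime) ∧
      ∀ a, f ((m : ℤ) + (c₀ + l * (F a : ℤ))).toNat = f ((m : ℤ) + (c₀ + l * (F 0 : ℤ))).toNat := by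
  unfold Gdl
  exact mem_filter

open Classical in
/-- the good patterns -/
noncomputable def goodL {r : ℕ} (f : ℕ → Fin r) (k : ℕ) (σ : ℤ) (L N D : ℕ) (κ₁ t : ℝ) :
    Finset (Fin (k + 1) → ℕ) :=
  (shifts (csF k σ) D).filter (fun h => (∀ l : ℤ, l ≠ 0 → l.natAbs ≤ L → HerK (Gdl f l 0 (2 * N)) N κ₁ h) ∧ sgs h ≤ t)

lemma mem_goodL {r : ℕ} {f : ℕ → Fin r} {k : ℕ} {σ : ℤ} {L N D : ℕ} {κ₁ t : ℝ}
    {h : Fin (k + 1) → ℕ} : h ∈ goodL f k σ L N D κ₁ t ↔
    h ∈ shifts (csF k σ) D ∧ (∀ l : ℤ, l ≠ 0 → l.natAbs ≤ L → HerK (Gdl f l 0 (2 * N)) N κ₁ h) ∧ sgs h ≤ t := by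
  simp only [goodL, mem_filter]

/-- the pigeonhole principle for the primes among the points -/
lemma pig {r k K : ℕ} (f : ℕ → Fin r) (R : Fin K → ℕ) (hR : Function.Injective R) (m : ℕ)
    (h : r * k + 1 ≤ ((univ.image R).filter (fun a => (m + a).Prime)).card) :
    ∃ v : Fin (k + 1) → Fin K, StrictMono v ∧ (∀ a, (m + R (v a)).Prime) ∧ ∀ a, f (m + R (v a)) = f (m + R (v 0)) := by
  classical
  have h1 : ((univ.image R).filter (fun a => (m + a).Prime)).card =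
      ((univ : Finset (Fin K)).filter (fun i => (m + R i).Prime)).card := by
    rw [filter_image, card_image_of_injective _ hR]
  rw [h1] at h
  obtain ⟨c, _, hc⟩ := exists_lt_card_fiber_of_mul_lt_card_of_maps_to (s := (univ : Finset (Fin K)).filter (fun i => (m + R i).Prime))
    (t := (univ : Finset (Fin r))) (f := fun i => f (m + R i)) (n := k) (fun _ _ => mem_univ _) (by
      rw [card_univ, Fintype.card_fin]
      omega)
  obtain ⟨P, hP1, hP2⟩ := exists_subset_card_eq (show k + 1 ≤ _ from hc)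
  refine ⟨P.orderEmbOfFin hP2, (P.orderEmbOfFin hP2).strictMono, fun a => ?_, fun a => ?_⟩
  · have h2 := hP1 (orderEmbOfFin_mem P hP2 a)
    rw [mem_filter, mem_filter] at h2
    exact h2.1.2
  · have h2 := hP1 (orderEmbOfFin_mem P hP2 a)
    have h3 := hP1 (orderEmbOfFin_mem P hP2 0)
    rw [mem_filter] at h2 h3
    exact h2.2.trans h3.2.symm

/-- the type of the dilations -/
abbrev Dl (L : ℕ) : Type := {l : ℤ // l ∈ Icc (-(L : ℤ)) L}

/-- from the Ramsey theorem: a pattern that is good for all dilations -/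
lemma all_good {J K k L J₀ : ℕ} (hL : 1 ≤ L)
    (hram : ∀ c : Finset ℕ → (Dl L → Bool), ∀ S : Finset ℕ, J₀ ≤ S.card → ∃ Q ⊆ S, Q.card = K ∧
      ∃ col : Dl L → Bool, ∀ T ⊆ Q, T.card = k + 1 → c T = col) (hJ : J₀ ≤ J)
    (P : ℤ → (Fin (k + 1) → Fin J) → Prop)
    (hP : ∀ w : Fin K → Fin J, StrictMono w → ∀ l : ℤ, l ≠ 0 → l.natAbs ≤ L →
      ∃ v : Fin (k + 1) → Fin K, StrictMono v ∧ P l (fun a => w (v a))) :
    ∃ v : Fin (k + 1) → Fin J, StrictMono v ∧ ∀ l : ℤ, l ≠ 0 → l.natAbs ≤ L → P l v := by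
  classical
  obtain ⟨Q, hQ1, hQ2, col, hcol⟩ := hram (fun T l => decide (∃ v : Fin (k + 1) → Fin J, StrictMono v ∧
    univ.image (fun a => (v a : ℕ)) = T ∧ P l.1 v)) (range J) (by rw [card_range]; exact hJ)
  set w : Fin K → Fin J := fun i => ⟨Q.orderEmbOfFin hQ2 i, mem_range.1 (hQ1 (orderEmbOfFin_mem Q hQ2 i))⟩ with hw
  have hwm : StrictMono w := by
    intro i j hij
    rw [Fin.lt_def]
    exact (Q.orderEmbOfFin hQ2).strictMono hij
  have hT : ∀ v : Fin (k + 1) → Fin K, StrictMono v → (univ.image (fun a => ((w (v a) : Fin J) : ℕ))) ⊆ Q ∧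
      (univ.image (fun a => ((w (v a) : Fin J) : ℕ))).card = k + 1 := by
    intro v hv
    constructor
    · intro y hy
      obtain ⟨a, _, rfl⟩ := mem_image.1 hy
      exact orderEmbOfFin_mem Q hQ2 (v a)
    · rw [card_image_of_injective, card_univ, Fintype.card_fin]
      intro a b hab
      exact (hwm.comp hv).injective (Fin.ext hab)
  have hmem : ∀ l : ℤ, l.natAbs ≤ L → l ∈ Icc (-(L : ℤ)) L := by
    intro l hl
    rw [mem_Icc]
    omega
  -- all colours are `true`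
  have hcolt : ∀ l : ℤ, l ≠ 0 → ∀ hl : l.natAbs ≤ L, col ⟨l, hmem l hl⟩ = true := by
    intro l hl0 hl
    obtain ⟨v, hv1, hv2⟩ := hP w hwm l hl0 hl
    have h1 := congrFun (hcol _ (hT v hv1).1 (hT v hv1).2) ⟨l, hmem l hl⟩
    rw [← h1]
    simp only [decide_eq_true_eq]
    exact ⟨fun a => w (v a), hwm.comp hv1, rfl, hv2⟩
  obtain ⟨v₁, hv1, -⟩ := hP w hwm 1 one_ne_zero (by simpa using hL)
  refine ⟨fun a => w (v₁ a), hwm.comp hv1, fun l hl0 hl => ?_⟩
  have h1 := congrFun (hcol _ (hT v₁ hv1).1 (hT v₁ hv1).2) ⟨l, hmem l hl⟩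
  rw [hcolt l hl0 hl] at h1
  simp only [decide_eq_true_eq] at h1
  obtain ⟨v, hv2, hv3, hv4⟩ := h1
  have h2 : v = fun a => w (v₁ a) := by
    have h3 : StrictMono (fun a => ((v a : Fin J) : ℕ)) := fun a b hab => hv2 hab
    have h4 : StrictMono (fun a => ((w (v₁ a) : Fin J) : ℕ)) := fun a b hab => hwm (hv1 hab)
    have h5 : (fun a => ((v a : Fin J) : ℕ)) = (fun a => ((w (v₁ a) : Fin J) : ℕ)) := by
      apply (StrictMono.range_inj h3 h4).1
      have h6 := congrArg (fun T : Finset ℕ => (T : Set ℕ)) hv3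
      simp only [coe_image, coe_univ, Set.image_univ] at h6
      exact h6
    funext a
    exact Fin.ext (congrFun h5 a)
  rw [h2] at hv4
  exact hv4

end Pool.Agent.U288.RO
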