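import Pool.Agent.U288.RO.M3

/-! **Coloured primes, all the dilates of a pattern at once, right order of magnitude: the main theorem.** -/

set_option autoImplicit false
set_option linter.unusedSectionVars false

namespace Pool.Agent.U288.RO

open Finset Filter Topology
open Pool.Agent.Y851.DK Pool.Agent.U288.SP

/-- the translation that makes the images of the points up to `X` under the dilation nonnegative -/
def c0f (X : ℕ) (l : ℤ) : ℤ := if 0 < l then 0 else -l * X

lemma c0f_bd {X L t : ℕ} {l : ℤ} (_hl : l ≠ 0) (hL : l.natAbs ≤ L) (ht : t ≤ X) :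
    0 ≤ c0f X l + l * t ∧ c0f X l + l * t ≤ L * X := by
  unfold c0f
  have htX : (t : ℤ) ≤ X := by exact_mod_cast ht
  have ht0 : (0 : ℤ) ≤ t := Int.natCast_nonneg t
  split_ifs with h
  · have h1 : l ≤ L := by omega
    constructor
    · rw [zero_add]
      exact mul_nonneg h.le ht0
    · rw [zero_add]
      exact mul_le_mul h1 htX ht0 (Int.natCast_nonneg L)
  · have h1 : 0 ≤ -l := by omega
    have h2 : -l ≤ L := by omega
    have h3 : -l * (X : ℤ) + l * t = -l * ((X : ℤ) - t) := by ring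
    rw [h3]
    constructor
    · exact mul_nonneg h1 (by linarith)
    · exact mul_le_mul h2 (by linarith) (by linarith) (Int.natCast_nonneg L)

theorem main_dil (r : ℕ) (k : ℕ) (σ : ℤ) (hσ : σ = 0 ∨ σ = 1 ∨ σ = -1) (L : ℕ) (hL : 1 ≤ L) :
    ∃ c κ₁ t : ℝ, 0 < c ∧ 0 < κ₁ ∧ 0 < t ∧ ∃ B : ℕ,
    ∀ A : ℝ, ∀ᶠ N : ℕ in atTop, ∀ f : ℕ → Fin r, ∀ D : ℕ, 2 ≤ D → Real.log N * Real.log D ^ B ≤ D →
      (D : ℝ) ≤ Real.log N ^ A →
      c * ((D : ℝ) ^ k / Real.log D ^ (edg (csF k σ)).card) ≤ ((goodL f k σ L N D κ₁ t).card : ℝ) := by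
  classical
  have hSV := Pool.Agent.Y949.DK.t_SV
  have hAVG := Pool.Agent.Y185.DK.AV.t_AVG
  obtain ⟨K, hK, κ, hκ, hlow⟩ := low_global (r * k)
  obtain ⟨J₀, hram⟩ := H152HR.ramsey (Dl L → Bool) (k + 1) K
  set J : ℕ := J₀ + K with hJd
  have hJ : 1 ≤ J := by omega
  have hKJ : K ≤ J := by omega
  set Q : ℕ := (4 * J ^ 2).factorial with hQd
  have hQ : 1 ≤ Q := Nat.factorial_pos _
  have hQ2 : ∀ p : ℕ, p.Prime → p ≤ 4 * J ^ 2 → p ∣ Q := fun p hp h => (hp.dvd_factorial).2 h
  obtain ⟨c0, hc0, hlow⟩ := hlow Q hQ (fun p hp h => hQ2 p hp (h.trans (by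
    have : K ^ 2 ≤ J ^ 2 := Nat.pow_le_pow_left hKJ 2
    omega)))
  set sD : ℕ → ℕ → ℤ := fun _ _ => σ with hsD
  obtain ⟨c1, hc1, hconf⟩ := lower ext_main sD (fun _ _ => hσ) J Q hQ (fun p hp h => hQ2 p hp (by nlinarith)) J le_rfl
  obtain ⟨Mc, hconf⟩ := eventually_atTop.1 hconf
  set 𝒱K : Finset (Fin (k + 1) → Fin K) := univ.filter (fun v => StrictMono v) with h𝒱K
  have h𝒱K1 : ∀ v ∈ 𝒱K, StrictMono v := fun v hv => (mem_filter.1 hv).2
  set 𝒱J : Finset (Fin (k + 1) → Fin J) := univ.filter (fun v => StrictMono v) with h𝒱J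
  have h𝒱J1 : ∀ v ∈ 𝒱J, StrictMono v := fun v hv => (mem_filter.1 hv).2
  -- the index set of the bad events
  set IP : Finset ((Fin K → Fin J) × ℤ) := (univ.filter (fun w : Fin K → Fin J => StrictMono w)) ×ˢ
    ((Icc (-(L : ℤ)) L).filter (fun l => l ≠ 0)) with hIP
  set n1 : ℝ := (IP.card : ℝ) + 1 with hn1
  have hn1p : 0 < n1 := by positivity
  have hb0 : ∀ w : Fin K → Fin J, ∃ κw : ℝ, 0 < κw ∧ ∃ M₀ : ℕ, StrictMono w → ∀ N x : ℕ, M₀ ≤ N → M₀ ≤ x →
      Real.log N * Real.log ((2 * Q * J * x : ℕ) : ℝ) ^ (2 * ed sD J) ≤ ((2 * Q * J * x : ℕ) : ℝ) →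
      ∀ 𝒢 : (∀ b : ℕ, (Fin (b + 1) → ℕ) → Finset ℕ), ∀ l c₀ : ℤ, l ≠ 0 → l.natAbs ≤ L →
      LowL w 𝒢 𝒱K sD Q x N κ c0 l c₀ →
      ((BadL w 𝒢 𝒱K sD Q x N κw).card : ℝ) ≤ c1 / (4 * n1) * ((x : ℝ) ^ J / Real.log x ^ ed sD J) := by
    intro w
    by_cases hw : StrictMono w
    · obtain ⟨κw, h1, M₀, h2⟩ := few_badL hSV hAVG Q hJ hQ sD w hw 𝒱K h𝒱K1 κ hκ c0 hc0 (c1 / (4 * n1)) (by positivity) L
      exact ⟨κw, h1, M₀, fun _ => h2⟩
    · exact ⟨1, one_pos, 0, fun h => absurd h hw⟩
  choose κw hκw Mw hbad using hb0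
  have : Nonempty (Fin J) := ⟨⟨0, hJ⟩⟩
  obtain ⟨w₀, hw₀⟩ := Finite.exists_min κw
  set κ₁ : ℝ := κw w₀ with hκ₁d
  have hκ₁ : 0 < κ₁ := hκw w₀
  obtain ⟨t, ht, Ms, hsg⟩ := few_sgV hSV hAVG J Q hJ hQ sD (c1 / 4) (by positivity)
  obtain ⟨c2, hc2, Mg, hgz⟩ := gz_manyV hSV hAVG Q hJ hQ sD (csF k σ) 𝒱J h𝒱J1 (fun _ _ _ _ _ => rfl) (c1 / 2) (by positivity)
  set W : ℕ := 2 * Q * J with hW
  have hW1 : 1 ≤ W := by rw [hW]; nlinarith
  have hWr : (1 : ℝ) ≤ W := by exact_mod_cast hW1
  set dd := ed sD J with hdd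
  set B : ℕ := 2 * dd + 1 with hB
  set e0 := (edg (csF k σ)).card with he0
  refine ⟨c2 / (W * (2 * W) ^ k), κ₁, t, by positivity, hκ₁, ht, B, fun A => ?_⟩
  have tN : Tendsto (fun N : ℕ => (N : ℝ)) atTop atTop := tendsto_natCast_atTop_atTop
  have tL : Tendsto (fun N : ℕ => Real.log (N : ℝ)) atTop atTop := Real.tendsto_log_atTop.comp tN
  set Mb : ℕ := ∑ w, Mw w with hMb
  set Mx : ℕ := Mc + Mb + Ms + Mg + 8 with hMx
  have e1 : ∀ᶠ N : ℕ in atTop, ((W * (Mx + 1) : ℕ) : ℝ) ≤ Real.log N * Real.log 2 ^ B := by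
    have h1 : 0 < Real.log 2 ^ B := pow_pos (Real.log_pos (by norm_num)) _
    have h2 := tL.eventually_ge_atTop (((W * (Mx + 1) : ℕ) : ℝ) / Real.log 2 ^ B)
    filter_upwards [h2] with N hN
    rwa [div_le_iff₀ h1] at hN
  have e2 : ∀ᶠ N : ℕ in atTop, Real.log N ^ (A + 1) ≤ (N : ℝ) := by
    have h1 := (isLittleO_log_rpow_rpow_atTop (A + 1) (show (0 : ℝ) < 1 by norm_num)).bound (show (0 : ℝ) < 1 by norm_num)
    filter_upwards [tN.eventually h1, eventually_ge_atTop 3] with N hN hN3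
    have hNr : (3 : ℝ) ≤ N := by exact_mod_cast hN3
    have hl : 0 ≤ Real.log N := Real.log_nonneg (by linarith)
    rw [Real.norm_of_nonneg (Real.rpow_nonneg hl _), Real.norm_of_nonneg (by positivity), Real.rpow_one, one_mul] at hN
    exact hN
  filter_upwards [hlow (A + 1), e1, e2, eventually_ge_atTop (Mb + 3), tL.eventually_ge_atTop ((L : ℝ) + 1)]
    with N hN1 hN2 hN3 hN4 hN5 f D hD2 hDB hDA
  have hN3' : 3 ≤ N := by omega
  have hNr : (3 : ℝ) ≤ N := by exact_mod_cast hN3'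
  have hLr : (1 : ℝ) ≤ L := by exact_mod_cast hL
  have hlN : 0 < Real.log N := Real.log_pos (by linarith)
  have hDr2 : (2 : ℝ) ≤ D := by exact_mod_cast hD2
  have hl2D : Real.log 2 ≤ Real.log D := Real.log_le_log (by norm_num) hDr2
  have hDbig : W * (Mx + 1) ≤ D := by
    have h1 : ((W * (Mx + 1) : ℕ) : ℝ) ≤ D := by
      refine hN2.trans (le_trans ?_ hDB)
      apply mul_le_mul_of_nonneg_left _ hlN.le
      exact pow_le_pow_left₀ (Real.log_nonneg (by norm_num)) hl2D _
    exact_mod_cast h1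
  have hLDr : (L : ℝ) * D ≤ Real.log N ^ (A + 1) := by
    rw [Real.rpow_add hlN, Real.rpow_one]
    have h1 : (0 : ℝ) ≤ D := by linarith
    calc (L : ℝ) * D ≤ Real.log N * Real.log N ^ A := mul_le_mul (by linarith) hDA h1 hlN.le
      _ = _ := by ring
  have hLDN : L * D ≤ N := by exact_mod_cast hLDr.trans hN3
  set x := D / W with hx
  have hxM : Mx + 1 ≤ x := by
    rw [hx, Nat.le_div_iff_mul_le (by omega), mul_comm]
    exact hDbig
  have hWx : W * x ≤ D := Nat.mul_div_le D W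
  have hXW : D ≤ 2 * (W * x) := by
    have h4 : D < W * (x + 1) := by
      rw [hx]
      exact Nat.lt_mul_div_succ D (by omega)
    nlinarith
  have hxr : (8 : ℝ) ≤ x := by
    have : 8 ≤ x := by omega
    exact_mod_cast this
  have hx0 : (0 : ℝ) < x := by linarith
  have hxD : x ≤ D := by
    have : x ≤ W * x := by nlinarith
    omega
  have hDr8 : (8 : ℝ) ≤ D := hxr.trans (by exact_mod_cast hxD)
  have hlD : 2 ≤ Real.log D := by
    have h1 := Real.exp_one_lt_d9
    rw [Real.le_log_iff_exp_le (by linarith)]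
    have h2 : Real.exp 2 = Real.exp 1 * Real.exp 1 := by rw [← Real.exp_add]; norm_num
    rw [h2]
    nlinarith [Real.exp_pos 1]
  have hlx : 0 < Real.log x := Real.log_pos (by linarith)
  have hXr : ((W * x : ℕ) : ℝ) ≤ D := by exact_mod_cast hWx
  have hX1 : (1 : ℝ) ≤ ((W * x : ℕ) : ℝ) := by
    have : 1 ≤ W * x := by nlinarith
    exact_mod_cast this
  have hlX0 : 0 ≤ Real.log ((W * x : ℕ) : ℝ) := Real.log_nonneg hX1
  have hlXD : Real.log ((W * x : ℕ) : ℝ) ≤ Real.log D := Real.log_le_log (by linarith) hXr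
  -- the condition on the scale
  have hscale : Real.log N * Real.log ((W * x : ℕ) : ℝ) ^ (2 * dd) ≤ ((W * x : ℕ) : ℝ) := by
    have h1 : Real.log N * Real.log D ^ (2 * dd) * 2 ≤ D := by
      refine le_trans ?_ hDB
      rw [hB, pow_succ, ← mul_assoc]
      apply mul_le_mul_of_nonneg_left hlD (by positivity)
    have h2 : (D : ℝ) ≤ 2 * ((W * x : ℕ) : ℝ) := by exact_mod_cast hXW
    have h3 : Real.log N * Real.log ((W * x : ℕ) : ℝ) ^ (2 * dd) ≤ Real.log N * Real.log D ^ (2 * dd) :=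
      mul_le_mul_of_nonneg_left (pow_le_pow_left₀ hlX0 hlXD _) hlN.le
    linarith
  set X : ℕ := W * x with hXd
  -- Maynard
  have hLR : ∀ w : Fin K → Fin J, StrictMono w → ∀ l : ℤ, l ≠ 0 → l.natAbs ≤ L →
      LowL w (Gdl f l (c0f X l) N) 𝒱K sD Q x N κ c0 l (c0f X l) := by
    intro w hw l hl hlL n hn
    have hmono := pt_mono hQ hn
    have hl' := (mem_conf.1 hn).1
    have hbd : ∀ i : Fin K, (pt Q x (w i) (n (w i))) ≤ X := by
      intro i
      have h2 := (pt_bd Q x hQ (w i) (n (w i)) (hl' (w i)).1 (hl' (w i)).2).2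
      rw [hXd, hW]
      exact h2
    set R : Fin K → ℕ := fun i => (c0f X l + l * (pt Q x (w i) (n (w i)) : ℤ)).toNat with hR
    have hRc : ∀ i, (R i : ℤ) = c0f X l + l * (pt Q x (w i) (n (w i)) : ℤ) := by
      intro i
      exact Int.toNat_of_nonneg (c0f_bd hl hlL (hbd i)).1
    have hRinj : Function.Injective R := by
      intro i j hij
      have h2 : (R i : ℤ) = R j := by exact_mod_cast hij
      rw [hRc, hRc] at h2
      have h3 := mul_left_cancel₀ hl (add_left_cancel h2)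
      have h4 : pt Q x (w i) (n (w i)) = pt Q x (w j) (n (w j)) := by exact_mod_cast h3
      exact hw.injective (hmono.injective h4)
    have h1 := hN1 (univ.image R) (by rw [card_image_of_injective _ hRinj, card_univ, Fintype.card_fin]) (by
        intro a ha
        obtain ⟨i, _, rfl⟩ := mem_image.1 ha
        refine le_trans ?_ hLDr
        have h2 := (c0f_bd hl hlL (hbd i)).2
        rw [← hRc] at h2
        have h3 : R i ≤ L * X := by exact_mod_cast h2
        have h4 : L * X ≤ L * D := Nat.mul_le_mul_left _ hWx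
        exact_mod_cast h3.trans h4) (by
        intro a ha
        obtain ⟨i, _, rfl⟩ := mem_image.1 ha
        have h2 : (Q : ℤ) ∣ (R i : ℤ) := by
          rw [hRc]
          apply dvd_add
          · unfold c0f
            split_ifs
            · exact dvd_zero _
            · apply Dvd.dvd.mul_left
              have h3 : Q ∣ X := by
                rw [hXd, hW]
                exact Dvd.intro (2 * J * x) (by ring)
              exact_mod_cast h3
          · apply Dvd.dvd.mul_left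
            have h3 : Q ∣ pt Q x (w i) (n (w i)) := Dvd.intro _ rfl
            exact_mod_cast h3
        exact_mod_cast h2)
    refine ⟨_, h1, fun m hm => ?_⟩
    rw [mem_filter] at hm
    obtain ⟨hm1, hm2, hm3⟩ := hm
    refine ⟨mem_RZ.2 ⟨hm1, fun i => ?_⟩, ?_⟩
    · have h2 := hm3 (R i) (mem_image_of_mem _ (mem_univ i))
      rw [hRc] at h2
      exact h2
    · obtain ⟨v, hv1, hv2, hv3⟩ := pig f R hRinj m hm2
      refine ⟨v, mem_filter.2 ⟨mem_univ _, hv1⟩, fun b u hu => ?_⟩
      rw [mem_Gdl]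
      have h2 : ∀ a, ((m : ℤ) + (c0f X l + l * (Fv (fun a => w (v (u a))) Q x n a : ℤ))).toNat = m + R (v (u a)) := by
        intro a
        have h3 : ((m : ℤ) + (c0f X l + l * (Fv (fun a => w (v (u a))) Q x n a : ℤ))) = ((m + R (v (u a)) : ℕ) : ℤ) := by
          rw [Nat.cast_add, hRc]
          rfl
        rw [h3, Int.toNat_natCast]
      refine ⟨hm1, fun a => ?_, fun a => ?_⟩
      · rw [h2 a]
        exact hv2 _
      · rw [h2 a, h2 0, hv3 (u a), hv3 (u 0)]
  have h2 := hsg x (by omega)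
  have h3 := hconf x (by omega)
  set P : ℝ := (x : ℝ) ^ J / Real.log x ^ dd with hP
  have hP0 : 0 ≤ P := by positivity
  set Sg := ((conf sD Q J x)).filter (fun n => t < ∑ q : Fin J × Fin J,
        sg ((pt Q x q.1 (n q.1) : ℤ) - pt Q x q.2 (n q.2)).natAbs) with hSg
  set Bd : Finset (Fin J → ℕ) := IP.biUnion (fun p => BadL p.1 (Gdl f p.2 (c0f X p.2) N) 𝒱K sD Q x N κ₁) with hBd
  have hBdc : (Bd.card : ℝ) ≤ c1 / 4 * P := by
    have h4 : (Bd.card : ℝ) ≤ ∑ p ∈ IP, ((BadL p.1 (Gdl f p.2 (c0f X p.2) N) 𝒱K sD Q x N κ₁).card : ℝ) := by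
      exact_mod_cast card_biUnion_le
    refine h4.trans ?_
    calc ∑ p ∈ IP, ((BadL p.1 (Gdl f p.2 (c0f X p.2) N) 𝒱K sD Q x N κ₁).card : ℝ) ≤ ∑ _p ∈ IP, c1 / (4 * n1) * P := by
          apply sum_le_sum
          intro p hp
          rw [hIP, mem_product, mem_filter, mem_filter, mem_Icc] at hp
          obtain ⟨⟨-, hp1⟩, hp2, hp3⟩ := hp
          have hlL : p.2.natAbs ≤ L := by omega
          have hMw : Mw p.1 ≤ Mb := single_le_sum (f := Mw) (fun _ _ => Nat.zero_le _) (mem_univ p.1)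
          have h5 := hbad p.1 hp1 N x (by omega) (by omega) hscale (Gdl f p.2 (c0f X p.2) N) p.2 (c0f X p.2) hp3 hlL
            (hLR p.1 hp1 p.2 hp3 hlL)
          refine le_trans ?_ h5
          rw [Nat.cast_le]
          apply card_le_card
          intro n hn
          rw [mem_BadL] at hn ⊢
          refine ⟨hn.1, fun v hv hg => hn.2 v hv ?_⟩
          intro b u hu
          refine le_trans ?_ (hg b u hu)
          apply mul_le_mul_of_nonneg_right (hw₀ p.1) (by positivity)
      _ = IP.card * (c1 / (4 * n1) * P) := by rw [sum_const, nsmul_eq_mul]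
      _ ≤ n1 * (c1 / (4 * n1) * P) := by
          apply mul_le_mul_of_nonneg_right _ (by positivity)
          rw [hn1]
          linarith
      _ = _ := by field_simp
  set A₀ := (conf sD Q J x).filter (fun n => n ∉ Bd ∧ n ∉ Sg) with hA₀
  set G : (Fin (k + 1) → ℕ) → Prop := fun z => (∀ l : ℤ, l ≠ 0 → l.natAbs ≤ L → HerK (Gdl f l (c0f X l) N) N κ₁ z) ∧
    sgs z ≤ t with hG
  have h4 : c1 / 2 * P ≤ (A₀.card : ℝ) := by
    have h5 : (conf sD Q J x).card ≤ A₀.card + (Bd.card + Sg.card) := by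
      calc (conf sD Q J x).card ≤ (A₀ ∪ (Bd ∪ Sg)).card := by
            apply card_le_card
            intro n hn
            simp only [mem_union, hA₀, mem_filter]
            by_cases h : n ∈ Bd
            · exact Or.inr (Or.inl h)
            · by_cases h' : n ∈ Sg
              · exact Or.inr (Or.inr h')
              · exact Or.inl ⟨hn, h, h'⟩
        _ ≤ A₀.card + (Bd ∪ Sg).card := card_union_le _ _
        _ ≤ _ := by
            have := card_union_le Bd Sg
            omega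
    have h6 : ((conf sD Q J x).card : ℝ) ≤ A₀.card + (Bd.card + Sg.card) := by exact_mod_cast h5
    linarith
  have h5 := hgz x (by omega) G A₀ (filter_subset _ _) h4 (by
    intro n hn
    rw [hA₀, mem_filter] at hn
    obtain ⟨hn1, hn2, hn3⟩ := hn
    obtain ⟨v, hv1, hv2⟩ := all_good (J := J) (K := K) (k := k) (L := L) (J₀ := J₀) hL hram (by omega)
      (fun l v => HerK (Gdl f l (c0f X l) N) N κ₁ (Fv v Q x n)) (by
        intro w hw l hl hlL
        have h6 : n ∉ BadL w (Gdl f l (c0f X l) N) 𝒱K sD Q x N κ₁ := by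
          intro h7
          apply hn2
          rw [hBd, mem_biUnion]
          refine ⟨(w, l), ?_, h7⟩
          rw [hIP, mem_product, mem_filter, mem_filter, mem_Icc]
          exact ⟨⟨mem_univ _, hw⟩, by constructor <;> omega, hl⟩
        rw [mem_BadL] at h6
        push Not at h6
        obtain ⟨v, hv1, hv2⟩ := h6 hn1
        exact ⟨v, h𝒱K1 v hv1, hv2⟩)
    refine ⟨v, mem_filter.2 ⟨mem_univ _, hv1⟩, hv2, ?_⟩
    rw [hSg, mem_filter] at hn3
    push Not at hn3
    refine le_trans ?_ (hn3 hn1)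
    unfold sgs
    apply sum_le_inj _ _ (fun q : Fin (k + 1) × Fin (k + 1) => (v q.1, v q.2))
    · intro q _
      exact mem_univ _
    · intro q _ q' _ h
      simp only [Prod.mk.injEq] at h
      exact Prod.ext (hv1.injective h.1) (hv1.injective h.2)
    · intro q _
      exact le_rfl
    · intro b _
      exact sg_nonneg _)
  -- from points to shifts
  have h6 : (GZ 1 G (csF k σ) (W * x)).card ≤ ((goodL f k σ L N D κ₁ t) ×ˢ (Icc 1 (W * x))).card := by
    apply card_le_card_of_injOn (fun z : Fin (k + 1) → ℕ => ((fun i => z i - z 0), z 0))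
    · intro z hz
      rw [mem_coe] at hz
      simp only [GZ, mem_filter, Fintype.mem_piFinset] at hz
      obtain ⟨hz1, hz2, hzq, hz3, hz4, hz5⟩ := hz
      have hz0 : ∀ i, z 0 ≤ z i := fun i => hz2.monotone (Fin.zero_le i)
      have hcast : ∀ i j, (((z j - z 0 : ℕ) : ℤ) - ((z i - z 0 : ℕ) : ℤ)) = (z j : ℤ) - z i := by
        intro i j
        rw [Nat.cast_sub (hz0 j), Nat.cast_sub (hz0 i)]
        ring
      rw [mem_coe, mem_product, mem_goodL]
      refine ⟨⟨?_, ?_, ?_⟩, hz1 0⟩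
      · simp only [shifts, mem_filter, Fintype.mem_piFinset]
        refine ⟨fun i => ?_, by simp, fun i j hij => ?_, fun i j hij h => ?_⟩
        · rw [mem_range]
          have := (mem_Icc.1 (hz1 i)).2
          omega
        · have := hz2 hij
          have := hz0 i
          dsimp only
          omega
        · have h5 := hz3 i j hij h
          rw [hcast i j]
          exact h5
      · intro l hl hlL b u hu
        refine (hz4 l hl hlL b u hu).trans ?_
        rw [Nat.cast_le]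
        have h7 := (mem_Icc.1 (hz1 0)).2
        have h8 := c0f_bd hl hlL (show z 0 ≤ X from h7)
        have h9 : ∀ m : ℕ, (((m : ℤ) + (c0f X l + l * (z 0 : ℤ))).toNat : ℤ) = (m : ℤ) + (c0f X l + l * (z 0 : ℤ)) :=
          fun m => Int.toNat_of_nonneg (by have := h8.1; have := Int.natCast_nonneg m; omega)
        apply card_le_card_of_injOn (fun m : ℕ => ((m : ℤ) + (c0f X l + l * (z 0 : ℤ))).toNat)
        · intro m hm
          rw [mem_coe, mem_Gdl, mem_Icc] at hm
          rw [mem_coe]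
          show ((m : ℤ) + (c0f X l + l * (z 0 : ℤ))).toNat ∈ Gdl f l 0 (2 * N) b (fun a => z (u a) - z 0)
          rw [mem_Gdl, mem_Icc]
          have h10 : ∀ a, ((((m : ℤ) + (c0f X l + l * (z 0 : ℤ))).toNat : ℤ) + (0 + l * ((z (u a) - z 0 : ℕ) : ℤ))) =
              (m : ℤ) + (c0f X l + l * (z (u a) : ℤ)) := by
            intro a
            rw [h9 m, Nat.cast_sub (hz0 (u a))]
            ring
          have h11 : L * X ≤ N := (Nat.mul_le_mul_left _ hWx).trans hLDN
          have h12 : (L : ℤ) * X ≤ N := by exact_mod_cast h11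
          have h13 := h9 m
          refine ⟨⟨?_, ?_⟩, fun a => ?_, fun a => ?_⟩
          · have := h8.1
            omega
          · have := h8.2
            omega
          · rw [h10 a]
            exact hm.2.1 a
          · rw [h10 a, h10 0]
            exact hm.2.2 a
        · intro a _ b _ hab
          have h10 : (((a : ℤ) + (c0f X l + l * (z 0 : ℤ))).toNat : ℤ) = (((b : ℤ) + (c0f X l + l * (z 0 : ℤ))).toNat : ℤ) := by
            exact_mod_cast hab
          rw [h9 a, h9 b] at h10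
          omega
      · refine le_trans (le_of_eq ?_) hz5
        unfold sgs
        apply sum_congr rfl
        intro q _
        dsimp only
        rw [hcast q.2 q.1]
    · intro z hz z' hz' h
      rw [mem_coe] at hz hz'
      simp only [GZ, mem_filter, Fintype.mem_piFinset] at hz hz'
      have hz0 : ∀ i, z 0 ≤ z i := fun i => hz.2.1.monotone (Fin.zero_le i)
      have hz0' : ∀ i, z' 0 ≤ z' i := fun i => hz'.2.1.monotone (Fin.zero_le i)
      simp only [Prod.mk.injEq] at h
      funext i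
      have h5 := congrFun h.1 i
      have h6 := h.2
      have h7 := hz0 i
      have h8 := hz0' i
      omega
  rw [card_product, Nat.card_Icc, Nat.add_sub_cancel] at h6
  have h7 : ((GZ 1 G (csF k σ) (W * x)).card : ℝ) ≤ ((goodL f k σ L N D κ₁ t).card : ℝ) * (W * x) := by
    exact_mod_cast h6
  have h8 : c2 / W * ((x : ℝ) ^ k / Real.log x ^ e0) ≤ ((goodL f k σ L N D κ₁ t).card : ℝ) := by
    have h9 : 0 < (W : ℝ) * x := by positivity
    apply le_of_mul_le_mul_right _ h9
    refine le_trans (le_of_eq ?_) (h5.trans h7)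
    rw [pow_succ]
    field_simp
  refine le_trans ?_ h8
  have hDr : (D : ℝ) ≤ 2 * W * x := by
    have : (D : ℝ) ≤ ((2 * (W * x) : ℕ) : ℝ) := by exact_mod_cast hXW
    push_cast at this
    linarith
  have hlxD : Real.log x ≤ Real.log D := Real.log_le_log hx0 (by exact_mod_cast hxD)
  have h9 : (D : ℝ) ^ k ≤ (2 * W) ^ k * (x : ℝ) ^ k := by
    rw [← mul_pow]
    exact pow_le_pow_left₀ (Nat.cast_nonneg _) hDr k
  calc c2 / (W * (2 * W) ^ k) * ((D : ℝ) ^ k / Real.log D ^ e0) ≤
      c2 / (W * (2 * W) ^ k) * (((2 * W) ^ k * (x : ℝ) ^ k) / Real.log x ^ e0) := by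
        apply mul_le_mul_of_nonneg_left _ (by positivity)
        apply div_le_div₀ (by positivity) h9 (by positivity)
        exact pow_le_pow_left₀ hlx.le hlxD _
    _ = _ := by field_simp

end Pool.Agent.U288.RO
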