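import Pool.Agent.U288.RO.H2
import Pool.Agent.H387R2.U2

/-! The singular series of sets whose differences have few small prime factors. -/

set_option autoImplicit false

namespace Pool.Agent.U288.RO

open Finset Filter Topology
open Pool.Agent.H387R2.Uni Pool.Agent.Y851.DK Pool.Agent.U288.SP

lemma nuT_eq_card {T : Finset ℕ} {p : ℕ} (h : ∀ a ∈ T, ∀ b ∈ T, a ≠ b → ¬ (p : ℤ) ∣ (a : ℤ) - b) :
    nuT T p = T.card := by
  unfold nuT
  apply card_image_of_injOn
  intro a ha b hb hab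
  by_contra hne
  apply h a ha b hb hne
  have h1 : (a : ℤ) % p = (b : ℤ) % p := by exact_mod_cast hab
  exact (show (b : ℤ) ≡ a [ZMOD p] from h1.symm).dvd

lemma locT_le_one {T : Finset ℕ} {p : ℕ} (hp : p.Prime)
    (h : ∀ a ∈ T, ∀ b ∈ T, a ≠ b → ¬ (p : ℤ) ∣ (a : ℤ) - b) : locT T p ≤ 1 := by
  unfold locT
  have hp2 : (2 : ℝ) ≤ p := by exact_mod_cast hp.two_le
  have h0 : 0 < 1 - 1 / (p : ℝ) := by
    have : 1 / (p : ℝ) ≤ 1 / 2 := one_div_le_one_div_of_le (by norm_num) hp2
    linarith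
  rw [div_le_one (pow_pos h0 _), nuT_eq_card h]
  have h1 := one_add_mul_le_pow (a := -(1 / (p : ℝ))) (by
    have : 1 / (p : ℝ) ≤ 1 / 2 := one_div_le_one_div_of_le (by norm_num) hp2
    linarith) T.card
  have h2 : 1 - (T.card : ℝ) / p = 1 + (T.card : ℝ) * (-(1 / (p : ℝ))) := by ring
  have h3 : 1 - 1 / (p : ℝ) = 1 + -(1 / (p : ℝ)) := by ring
  rw [h2, h3]
  exact h1

lemma locT_le_exp {T : Finset ℕ} {k p : ℕ} (hp : p.Prime) (hT : T.Nonempty) (hk : T.card ≤ k + 1) :
    locT T p ≤ Real.exp (2 * k * (1 / p)) := by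
  unfold locT
  have hp2 : (2 : ℝ) ≤ p := by exact_mod_cast hp.two_le
  have hp0 : (0 : ℝ) < p := by linarith
  set y : ℝ := 1 / p with hy
  have hy2 : y ≤ 1 / 2 := one_div_le_one_div_of_le (by norm_num) hp2
  have hy0 : 0 < y := by positivity
  have h0 : 0 < 1 - y := by linarith
  have hnu : 1 ≤ nuT T p := by
    unfold nuT
    exact card_pos.2 (hT.image _)
  have hnu' : (1 : ℝ) ≤ nuT T p := by exact_mod_cast hnu
  have h1 : 1 - (nuT T p : ℝ) / p ≤ 1 - y := by
    have : y ≤ (nuT T p : ℝ) / p := by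
      rw [hy]
      exact div_le_div_of_nonneg_right hnu' hp0.le
    linarith
  obtain ⟨n, hn⟩ : ∃ n, T.card = n + 1 := ⟨T.card - 1, by have := card_pos.2 hT; omega⟩
  have hnk : n ≤ k := by omega
  have h2 : (1 - (nuT T p : ℝ) / p) / (1 - y) ^ T.card ≤ (1 - y)⁻¹ ^ n := by
    rw [div_le_iff₀ (pow_pos h0 _), hn, pow_succ, ← mul_assoc, ← mul_pow, inv_mul_cancel₀ h0.ne', one_pow, one_mul]
    exact h1
  have h3 : (1 - y)⁻¹ ≤ Real.exp (2 * y) := by
    rw [inv_le_comm₀ h0 (Real.exp_pos _), ← Real.exp_neg]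
    -- `exp (-2 y) ≤ 1 - y` for `0 ≤ y ≤ 1 / 2`
    have h4 : Real.exp (-(2 * y)) ≤ 1 / (1 + 2 * y) := by
      rw [Real.exp_neg, ← one_div]
      apply one_div_le_one_div_of_le (by linarith)
      have := Real.add_one_le_exp (2 * y)
      linarith
    refine h4.trans ?_
    rw [div_le_iff₀ (by linarith)]
    nlinarith
  calc _ ≤ (1 - y)⁻¹ ^ n := h2
    _ ≤ (1 - y)⁻¹ ^ k := pow_le_pow_right₀ ((one_le_inv₀ h0).2 (by linarith)) hnk
    _ ≤ Real.exp (2 * y) ^ k := pow_le_pow_left₀ (by positivity) h3 k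
    _ = Real.exp (2 * k * y) := by
        rw [← Real.exp_nat_mul]
        congr 1
        ring

/-- the sum over the pairs of `T` -/
noncomputable def spair (T : Finset ℕ) : ℝ := ∑ q ∈ T ×ˢ T, sg ((q.1 : ℤ) - q.2).natAbs

lemma sg_nn (m : ℕ) : 0 ≤ sg m := sum_nonneg fun p _ => by positivity

theorem CT_le {T : Finset ℕ} {k : ℕ} (hT : T.Nonempty) (hk : T.card ≤ k + 1) :
    CT T ≤ Real.exp (2 * k * spair T) := by
  classical
  apply hasProd_le_of_prod_le (CT_hasProd T)
  intro F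
  set bad : ℕ → Prop := fun p => ∃ a ∈ T, ∃ b ∈ T, a ≠ b ∧ (p : ℤ) ∣ (a : ℤ) - b with hbad
  set F' : Finset ℕ := F.map ⟨fun p : Nat.Primes => (p : ℕ), Subtype.val_injective⟩ with hF'
  have hF'p : ∀ p ∈ F', p.Prime := by
    intro p hp
    obtain ⟨q, _, rfl⟩ := mem_map.1 hp
    exact q.2
  have h0 : ∀ p : ℕ, p.Prime → 0 ≤ locT T p := by
    intro p hp
    unfold locT
    have hp2 : (2 : ℝ) ≤ p := by exact_mod_cast hp.two_le
    have h1 : nuT T p ≤ p := by
      unfold nuT
      calc (T.image (· % p)).card ≤ (range p).card := by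
            apply card_le_card
            intro r hr
            obtain ⟨t, _, rfl⟩ := mem_image.1 hr
            exact mem_range.2 (Nat.mod_lt _ hp.pos)
        _ = p := card_range p
    have h2 : (nuT T p : ℝ) ≤ p := by exact_mod_cast h1
    apply div_nonneg
    · rw [sub_nonneg, div_le_one (by linarith)]
      exact h2
    · apply pow_nonneg
      rw [sub_nonneg, div_le_one (by linarith)]
      linarith
  have h1 : ∏ p ∈ F, locT T p = ∏ p ∈ F', locT T p := by
    rw [hF', prod_map]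
    rfl
  rw [h1]
  have h2 : ∏ p ∈ F', locT T p ≤ ∏ p ∈ F', Real.exp (2 * k * (if bad p then 1 / (p : ℝ) else 0)) := by
    apply prod_le_prod (fun p hp => h0 p (hF'p p hp))
    intro p hp
    split_ifs with h
    · exact locT_le_exp (hF'p p hp) hT hk
    · rw [mul_zero, Real.exp_zero]
      apply locT_le_one (hF'p p hp)
      intro a ha b hb hab hd
      exact h ⟨a, ha, b, hb, hab, hd⟩
  refine h2.trans ?_
  rw [← Real.exp_sum, ← mul_sum]
  apply Real.exp_le_exp.2
  apply mul_le_mul_of_nonneg_left _ (by positivity)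
  have h3 : ∀ p ∈ F', (if bad p then 1 / (p : ℝ) else 0) ≤
      ∑ q ∈ T ×ˢ T, if p ∈ (((q.1 : ℤ) - q.2).natAbs).primeFactors then 1 / (p : ℝ) else 0 := by
    intro p hp
    have hnn : ∀ q ∈ T ×ˢ T, (0 : ℝ) ≤ if p ∈ (((q.1 : ℤ) - q.2).natAbs).primeFactors then 1 / (p : ℝ) else 0 := by
      intro q _
      split_ifs <;> positivity
    split_ifs with h
    · obtain ⟨a, ha, b, hb, hab, hd⟩ := h
      have h4 : p ∈ (((a : ℤ) - b).natAbs).primeFactors := by
        rw [Nat.mem_primeFactors]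
        refine ⟨hF'p p hp, ?_, ?_⟩
        · exact Int.natCast_dvd.1 hd
        · rw [Int.natAbs_ne_zero, sub_ne_zero]
          exact_mod_cast hab
      have h5 := single_le_sum hnn (show (a, b) ∈ T ×ˢ T from mem_product.2 ⟨ha, hb⟩)
      rw [if_pos h4] at h5
      exact h5
    · exact sum_nonneg hnn
  refine (sum_le_sum h3).trans ?_
  rw [sum_comm]
  unfold spair
  apply sum_le_sum
  intro q _
  unfold sg
  rw [← sum_filter, ← sum_filter_add_sum_filter_not (((q.1 : ℤ) - q.2).natAbs).primeFactors (fun p => p ∈ F')]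
  have h6 : F'.filter (fun p => p ∈ (((q.1 : ℤ) - q.2).natAbs).primeFactors) =
      (((q.1 : ℤ) - q.2).natAbs).primeFactors.filter (fun p => p ∈ F') := by
    ext p
    simp only [mem_filter]
    tauto
  rw [h6]
  have h7 : 0 ≤ ∑ p ∈ (((q.1 : ℤ) - q.2).natAbs).primeFactors.filter (fun p => p ∉ F'), (1 : ℝ) / p :=
    sum_nonneg fun p _ => by positivity
  linarith

/-- the pairs of an image -/
lemma spair_le {k : ℕ} (h : Fin (k + 1) → ℕ) (f : Fin (k + 1) → ℕ) (hf : Function.Injective f)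
    (hd : ∀ i j, ((f i : ℤ) - f j).natAbs = ((h i : ℤ) - h j).natAbs) (I : Finset (Fin (k + 1))) :
    spair (I.image f) ≤ sgs h := by
  classical
  unfold spair sgs
  have h1 : (I.image f) ×ˢ (I.image f) = (I ×ˢ I).image (fun q => (f q.1, f q.2)) := by
    ext ⟨a, b⟩
    simp only [mem_product, mem_image, Prod.mk.injEq, Prod.exists]
    constructor
    · rintro ⟨⟨i, hi, rfl⟩, ⟨j, hj, rfl⟩⟩
      exact ⟨i, j, ⟨hi, hj⟩, rfl, rfl⟩
    · rintro ⟨i, j, ⟨hi, hj⟩, rfl, rfl⟩
      exact ⟨⟨i, hi, rfl⟩, ⟨j, hj, rfl⟩⟩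
  rw [h1, sum_image]
  · calc _ = ∑ q ∈ I ×ˢ I, sg ((h q.1 : ℤ) - h q.2).natAbs := by
          apply sum_congr rfl
          intro q _
          dsimp only
          rw [hd]
      _ ≤ _ := sum_le_sum_of_subset_of_nonneg (subset_univ _) fun q _ _ => sg_nn _
  · intro q _ q' _ hq
    simp only [Prod.mk.injEq] at hq
    exact Prod.ext (hf hq.1) (hf hq.2)

theorem CT_pos {T : Finset ℕ} (h : Adm T) : 0 < CT T := by
  rw [← CT_en]
  apply Pool.Agent.H386R2.HL.singularSeries_pos (en_inj T)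
  intro p hp
  rw [nu_en]
  exact h p hp

/-- sets with many translates in the primes are admissible -/
lemma adm_of_card {T : Finset ℕ} {M : ℕ} (h : T.card < ((Icc 1 M).filter (fun m => ∀ t ∈ T, (m + t).Prime)).card) :
    Adm T := by
  classical
  intro p hp
  by_contra hcon
  push Not at hcon
  have h1 : T.image (· % p) = range p := by
    apply eq_of_subset_of_card_le
    · intro r hr
      obtain ⟨t, _, rfl⟩ := mem_image.1 hr
      exact mem_range.2 (Nat.mod_lt _ hp.pos)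
    · rw [card_range]
      exact hcon
  have hpT : p ≤ T.card := hcon.trans card_image_le
  have h2 : ((Icc 1 M).filter (fun m => ∀ t ∈ T, (m + t).Prime)) ⊆ Icc 1 p := by
    intro m hm
    rw [mem_filter, mem_Icc] at hm
    rw [mem_Icc]
    refine ⟨hm.1.1, ?_⟩
    have h3 : (p - m % p) % p ∈ T.image (· % p) := by
      rw [h1]
      exact mem_range.2 (Nat.mod_lt _ hp.pos)
    obtain ⟨t, ht, ht2⟩ := mem_image.1 h3
    have h4 : p ∣ m + t := by
      have h5 := Nat.mod_lt m hp.pos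
      have h6 : (m + t) % p = 0 := by
        rw [Nat.add_mod]
        rw [ht2]
        rcases Nat.eq_zero_or_pos (m % p) with h7 | h7
        · rw [h7, Nat.sub_zero, Nat.mod_self, Nat.add_zero, Nat.zero_mod]
        · rw [Nat.mod_eq_of_lt (show p - m % p < p by omega), Nat.add_sub_cancel' h5.le, Nat.mod_self]
      exact Nat.dvd_of_mod_eq_zero h6
    have h5 := (Nat.prime_dvd_prime_iff_eq hp (hm.2 t ht)).1 h4
    omega
  have h3 := card_le_card h2
  rw [Nat.card_Icc] at h3
  omega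

end Pool.Agent.U288.RO
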