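import Pool.Agent.U288.RO.M5

/-! The theorem on dilates with `m ≤ x / 2`, so that all the primes are at most `x`. -/

set_option autoImplicit false

namespace Pool.Agent.U288.RO

open Finset Filter Topology
open Pool.Agent.Y851.DK Pool.Agent.U288.SP Pool.Agent.H387R2.Uni

/-- one colour -/
def f1 : ℕ → Fin 1 := fun _ => 0

theorem half_mainL (k : ℕ) (σ : ℤ) (hσ : σ = 0 ∨ σ = 1 ∨ σ = -1) (L : ℕ) (hL : 1 ≤ L) :
    ∃ c κ t C : ℝ, 0 < c ∧ 0 < κ ∧ 0 < t ∧ 0 < C ∧ ∃ B : ℕ, ∀ A : ℝ, ∀ᶠ x : ℝ in atTop, ∀ D : ℝ,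
      Real.log x * Real.log (Real.log x) ^ B ≤ D → D ≤ Real.log x ^ A →
      2 ≤ D ∧ L * D ≤ x / 2 ∧
      c * (D ^ k / Real.log D ^ (edg (csF k σ)).card) ≤ ((goodRL f1 k σ L (x / 2) ⌊D⌋₊ κ t).card : ℝ) ∧
      ((shifts (csF k σ) ⌊D⌋₊).card : ℝ) ≤ C * (D ^ k / Real.log D ^ (edg (csF k σ)).card) := by
  classical
  obtain ⟨c, κ, t, C, hc, hκ, ht, hC, B, hmain⟩ := real_mainL 1 k σ hσ L hL
  refine ⟨c, κ, t, C, hc, hκ, ht, hC, B, fun A => ?_⟩
  have hLr : (1 : ℝ) ≤ L := by exact_mod_cast hL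
  have th : Tendsto (fun x : ℝ => x / 2) atTop atTop := tendsto_id.atTop_div_const (by norm_num)
  have tL : Tendsto (fun x : ℝ => Real.log x) atTop atTop := Real.tendsto_log_atTop
  have tLL : Tendsto (fun x : ℝ => Real.log (Real.log x)) atTop atTop := Real.tendsto_log_atTop.comp tL
  have e1 : ∀ᶠ x : ℝ in atTop, L * Real.log x ^ A ≤ x / 2 := by
    have h1 := (isLittleO_log_rpow_rpow_atTop A (show (0 : ℝ) < 1 by norm_num)).bound
      (show (0 : ℝ) < 1 / (2 * L) by positivity)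
    filter_upwards [h1, eventually_ge_atTop 3] with x hx hx3
    have hl : 0 ≤ Real.log x := Real.log_nonneg (by linarith)
    rw [Real.norm_of_nonneg (Real.rpow_nonneg hl _), Real.norm_of_nonneg (by positivity), Real.rpow_one] at hx
    calc L * Real.log x ^ A ≤ L * (1 / (2 * L) * x) := mul_le_mul_of_nonneg_left hx (by linarith)
      _ = x / 2 := by field_simp
  filter_upwards [th.eventually (hmain (|A| + 1)), e1, tL.eventually_ge_atTop (2 ^ (|A| + 1)),
    tL.eventually_ge_atTop 4, (tLL.comp th).eventually_ge_atTop 0, tLL.eventually_ge_atTop 1, eventually_ge_atTop 20]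
    with x hx1 hx2 hx3 hx4 hx5 hx6 hx20 D hD1 hD2
  simp only [Function.comp] at hx5
  set M := Real.log x with hM
  set M' := Real.log (x / 2) with hM'
  have hLL : M' ≤ M := Real.log_le_log (by linarith) (by linarith)
  have hL2 : M / 2 ≤ M' := by
    have h1 : x ≤ (x / 2) ^ 2 := by nlinarith
    have h2 : M ≤ Real.log ((x / 2) ^ 2) := Real.log_le_log (by linarith) h1
    rw [Real.log_pow] at h2
    push_cast at h2
    linarith
  have hL'0 : 2 ≤ M' := by linarith
  have h1 : Real.log M' ≤ Real.log M := Real.log_le_log (by linarith) hLL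
  have h2 : M' * Real.log M' ^ B ≤ D := by
    refine le_trans ?_ hD1
    apply mul_le_mul hLL (pow_le_pow_left₀ hx5 h1 B) (pow_nonneg hx5 B) (by linarith)
  have h3 : D ≤ M' ^ (|A| + 1) := by
    calc D ≤ M ^ A := hD2
      _ ≤ M ^ |A| := Real.rpow_le_rpow_of_exponent_le (by linarith) (le_abs_self A)
      _ ≤ (M / 2) ^ (|A| + 1) := by
          have h3 : M ^ (|A| + 1) = M ^ |A| * M := by rw [Real.rpow_add (by linarith), Real.rpow_one]
          rw [Real.div_rpow (by linarith) (by norm_num), le_div_iff₀ (by positivity), h3]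
          exact mul_le_mul_of_nonneg_left hx3 (by positivity)
      _ ≤ _ := Real.rpow_le_rpow (by linarith) hL2 (by positivity)
  obtain ⟨h4, h5⟩ := hx1 f1 D h2 h3
  refine ⟨?_, ?_, h4, h5⟩
  · have h6 : (1 : ℝ) ≤ Real.log M ^ B := one_le_pow₀ hx6
    nlinarith
  · refine le_trans ?_ hx2
    exact mul_le_mul_of_nonneg_left hD2 (by linarith)

open Classical in
/-- the number of the `1 ≤ m ≤ x / 2` with all `m + l t`, `t ∈ T`, prime -/
noncomputable def cnt2 (l : ℤ) (x : ℝ) (T : Finset ℕ) : ℕ :=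
  ((Icc 1 ⌊x / 2⌋₊).filter (fun m : ℕ => ∀ t ∈ T, ((m : ℤ) + l * (t : ℤ)).toNat.Prime)).card

/-- the dilates of a good pattern -/
theorem half_subL (k L : ℕ) (κ t : ℝ) (hκ : 0 < κ) : ∀ᶠ x : ℝ in atTop, ∀ (σ : ℤ) (D : ℕ),
    ∀ h ∈ goodRL f1 k σ L (x / 2) D κ t, ∀ l : ℤ, l ≠ 0 → l.natAbs ≤ L → ∀ I : Finset (Fin (k + 1)), I.Nonempty →
      Adm ((I.image h).image (fun t => l.natAbs * t)) ∧ 0 < CT ((I.image h).image (fun t => l.natAbs * t)) ∧
      CT ((I.image h).image (fun t => l.natAbs * t)) ≤ Real.exp (2 * k * (((k : ℝ) + 1) ^ 2 * L + t)) ∧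
      κ / 2 * (x / Real.log x ^ I.card) ≤ (cnt2 l x (I.image h) : ℝ) := by
  classical
  have th : Tendsto (fun x : ℝ => x / 2) atTop atTop := tendsto_id.atTop_div_const (by norm_num)
  filter_upwards [th.eventually (real_subL 1 k L κ t hκ), eventually_ge_atTop 6] with x hx hx6 σ D h hh l hl0 hlL I hI
  obtain ⟨h1, h2, h3, h4⟩ := hx f1 σ D h hh l hl0 hlL I hI
  refine ⟨h1, h2, h3, ?_⟩
  have hL' : 0 < Real.log (x / 2) := Real.log_pos (by linarith)
  have hLL : Real.log (x / 2) ≤ Real.log x := Real.log_le_log (by linarith) (by linarith)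
  have h5 : (cntL f1 l (x / 2) (I.image h) : ℝ) ≤ (cnt2 l x (I.image h) : ℝ) := by
    unfold cntL cnt2
    rw [Nat.cast_le]
    apply card_le_card
    intro m hm
    rw [mem_filter] at hm ⊢
    exact ⟨hm.1, hm.2.1⟩
  refine le_trans ?_ (h4.trans h5)
  calc κ / 2 * (x / Real.log x ^ I.card) = κ * (x / 2 / Real.log x ^ I.card) := by ring
    _ ≤ _ := by
        apply mul_le_mul_of_nonneg_left _ hκ.le
        apply div_le_div_of_nonneg_left (by linarith) (by positivity)
        exact pow_le_pow_left₀ hL'.le hLL _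

/-- the sum over the prime factors of a difference is bounded by the sum of the pattern -/
lemma sg_le_sgs {k : ℕ} (h : Fin (k + 1) → ℕ) (i j : Fin (k + 1)) : sg ((h i : ℤ) - h j).natAbs ≤ sgs h := by
  unfold sgs
  exact single_le_sum (f := fun q : Fin (k + 1) × Fin (k + 1) => sg ((h q.1 : ℤ) - h q.2).natAbs)
    (fun q _ => sg_nn _) (mem_univ (i, j))

/-- the pattern dilated by `l ≤ L` -/
lemma sgs_dil {k : ℕ} (h : Fin (k + 1) → ℕ) (l L : ℕ) (hl : l ≠ 0) (hL : l ≤ L) :
    sgs (fun i => l * h i) ≤ ((k : ℝ) + 1) ^ 2 * L + sgs h := by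
  calc sgs (fun i => l * h i) ≤ ∑ q : Fin (k + 1) × Fin (k + 1), ((L : ℝ) + sg ((h q.1 : ℤ) - h q.2).natAbs) := by
        unfold sgs
        apply sum_le_sum
        intro q _
        have h3 : (((l * h q.1 : ℕ) : ℤ) - ((l * h q.2 : ℕ) : ℤ)) = (l : ℤ) * ((h q.1 : ℤ) - h q.2) := by
          push_cast
          ring
        rw [h3]
        exact sgz_mul_le _ _ L (by exact_mod_cast hl) (by rw [Int.natAbs_natCast]; exact hL)
    _ = ((k : ℝ) + 1) ^ 2 * L + sgs h := by
        rw [sum_add_distrib, sum_const, card_univ, Fintype.card_prod, Fintype.card_fin, nsmul_eq_mul]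
        unfold sgs
        push_cast
        ring

/-- the elements of admissible sets containing `0` are even -/
lemma even_of_adm' {T : Finset ℕ} (h : Adm T) (h0 : 0 ∈ T) {t : ℕ} (ht : t ∈ T) : Even t := by
  classical
  by_contra hodd
  rw [Nat.not_even_iff_odd] at hodd
  have h1 := h 2 Nat.prime_two
  unfold nuT at h1
  have h2 : ({0, 1} : Finset ℕ) ⊆ T.image (· % 2) := by
    intro r hr
    rw [mem_insert, mem_singleton] at hr
    rcases hr with rfl | rfl
    · exact mem_image.2 ⟨0, h0, rfl⟩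
    · exact mem_image.2 ⟨t, ht, Nat.odd_iff.1 hodd⟩
  have h3 := card_le_card h2
  rw [card_pair (by norm_num)] at h3
  omega

end Pool.Agent.U288.RO
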