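import Pool.Agent.U288.RO.S1

/-! The main theorem for real `x`. -/

set_option autoImplicit false

namespace Pool.Agent.U288.RO

open Finset Filter Topology
open Pool.Agent.Y851.DK Pool.Agent.U288.SP

open Classical in
/-- the good patterns at the scale `x` -/
noncomputable def goodR {k : ℕ} (s : Fin (k + 1) → Fin (k + 1) → ℤ) (x : ℝ) (D : ℕ) (κ t : ℝ) :
    Finset (Fin (k + 1) → ℕ) :=
  (shifts s D).filter (fun h => (∀ b : Fin (k + 1), ∀ u : Fin ((b : ℕ) + 1) → Fin (k + 1), StrictMono u →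
    κ * (x / Real.log x ^ ((b : ℕ) + 1)) ≤ ((GF ⌊x⌋₊ (fun a => h (u a))).card : ℝ)) ∧ sgs h ≤ t)

lemma mem_goodR {k : ℕ} {s : Fin (k + 1) → Fin (k + 1) → ℤ} {x : ℝ} {D : ℕ} {κ t : ℝ} {h : Fin (k + 1) → ℕ} :
    h ∈ goodR s x D κ t ↔ h ∈ shifts s D ∧ (∀ b : Fin (k + 1), ∀ u : Fin ((b : ℕ) + 1) → Fin (k + 1), StrictMono u →
    κ * (x / Real.log x ^ ((b : ℕ) + 1)) ≤ ((GF ⌊x⌋₊ (fun a => h (u a))).card : ℝ)) ∧ sgs h ≤ t := by
  simp only [goodR, mem_filter]

lemma GF_mono {b M M' : ℕ} (hM : M ≤ M') (h : Fin (b + 1) → ℕ) : (GF M h).card ≤ (GF M' h).card := by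
  apply card_le_card
  intro m hm
  rw [mem_GF, mem_Icc] at hm ⊢
  exact ⟨⟨hm.1.1, hm.1.2.trans hM⟩, hm.2⟩

theorem real_main (k : ℕ) (s : Fin (k + 1) → Fin (k + 1) → ℤ) (hs : ∀ i j, s i j = 0 ∨ s i j = 1 ∨ s i j = -1) :
    ∃ c κ t C : ℝ, 0 < c ∧ 0 < κ ∧ 0 < t ∧ 0 < C ∧ ∃ B : ℕ, ∀ A : ℝ, ∀ᶠ x : ℝ in atTop, ∀ D : ℝ,
      Real.log x * Real.log (Real.log x) ^ B ≤ D → D ≤ Real.log x ^ A →
      c * (D ^ k / Real.log D ^ (edg s).card) ≤ ((goodR s x ⌊D⌋₊ κ t).card : ℝ) ∧
      ((shifts s ⌊D⌋₊).card : ℝ) ≤ C * (D ^ k / Real.log D ^ (edg s).card) := by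
  classical
  obtain ⟨c, κ₁, t, hc, hκ₁, ht, B, hmain⟩ := main_graphH k s hs
  obtain ⟨C0, hC0, hup⟩ := shifts_upper Pool.Agent.Y949.DK.t_SV Pool.Agent.Y185.DK.AV.t_AVG k s
  obtain ⟨X0, hup⟩ := eventually_atTop.1 hup
  set E := (edg s).card with hE
  refine ⟨c / 2 ^ k, κ₁ / 3, t, C0 * 2 ^ E, by positivity, by positivity, ht, by positivity, B + 1, fun A => ?_⟩
  obtain ⟨N0, hmain⟩ := eventually_atTop.1 (hmain (A + 1))
  have tL : Tendsto (fun x : ℝ => Real.log x) atTop atTop := Real.tendsto_log_atTop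
  have tLL : Tendsto (fun x : ℝ => Real.log (Real.log x)) atTop atTop := Real.tendsto_log_atTop.comp tL
  filter_upwards [eventually_ge_atTop (2 * (N0 : ℝ) + 20), tL.eventually_ge_atTop (4 * (X0 : ℝ) + 8),
    tL.eventually_ge_atTop (2 ^ (A + 1)), tLL.eventually_ge_atTop (2 * |A| ^ B), tLL.eventually_ge_atTop 1]
    with x hx1 hx2 hx3 hx4 hx5 D hD1 hD2
  set L := Real.log x with hL
  set l := Real.log L with hl
  have hN0 : (0 : ℝ) ≤ N0 := Nat.cast_nonneg _
  have hX0 : (0 : ℝ) ≤ X0 := Nat.cast_nonneg _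
  have hx20 : 20 ≤ x := by linarith
  have hL8 : 8 ≤ L := by linarith
  have hl0 : 0 < l := by linarith
  set N := ⌊x⌋₊ / 2 with hN
  have hfl1 : (⌊x⌋₊ : ℝ) ≤ x := Nat.floor_le (by linarith)
  have hfl2 : x < (⌊x⌋₊ : ℝ) + 1 := Nat.lt_floor_add_one x
  have h2N : 2 * N ≤ ⌊x⌋₊ := by omega
  have h2N' : ⌊x⌋₊ ≤ 2 * N + 1 := by omega
  have h2N'' : (⌊x⌋₊ : ℝ) ≤ 2 * N + 1 := by exact_mod_cast h2N'
  have hNx : (N : ℝ) ≤ x := by
    have : (2 * (N : ℝ)) ≤ ⌊x⌋₊ := by exact_mod_cast h2N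
    have : (0 : ℝ) ≤ N := Nat.cast_nonneg _
    linarith
  have hN3 : x / 3 ≤ N := by linarith
  have hNN0 : N0 ≤ N := by
    have : (N0 : ℝ) ≤ N := by linarith
    exact_mod_cast this
  have hNpos : (0 : ℝ) < N := by linarith
  have hlNL : Real.log N ≤ L := Real.log_le_log hNpos hNx
  have hLlN : L / 2 ≤ Real.log N := by
    have h1 : x ≤ (N : ℝ) ^ 2 := by nlinarith
    have h2 : L ≤ Real.log ((N : ℝ) ^ 2) := Real.log_le_log (by linarith) h1
    rw [Real.log_pow] at h2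
    push_cast at h2
    linarith
  have hlN0 : 0 < Real.log N := by linarith
  -- `D`
  have hlB : (1 : ℝ) ≤ l ^ (B + 1) := one_le_pow₀ hx5
  have hDL : L ≤ D := by
    refine le_trans ?_ hD1
    exact le_mul_of_one_le_right (by linarith) hlB
  have hD8 : 8 ≤ D := hL8.trans hDL
  set n := ⌊D⌋₊ with hn
  have hn1 : (n : ℝ) ≤ D := Nat.floor_le (by linarith)
  have hn2 : D < (n : ℝ) + 1 := Nat.lt_floor_add_one D
  have hnD : D / 2 ≤ n := by linarith
  have hn4 : (4 : ℝ) ≤ n := by linarith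
  have hlogn : 0 < Real.log n := Real.log_pos (by linarith)
  have hlognD : Real.log n ≤ Real.log D := Real.log_le_log (by linarith) hn1
  have hlogDA : Real.log D ≤ A * l := by
    have h1 := Real.log_le_log (by linarith) hD2
    rwa [Real.log_rpow (by linarith)] at h1
  have hA0 : 0 ≤ A := by
    by_contra h
    push Not at h
    nlinarith
  have c1 : 2 ≤ n := by
    have : (2 : ℝ) ≤ n := by linarith
    exact_mod_cast this
  have c2 : Real.log N * Real.log n ^ B ≤ n := by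
    rw [abs_of_nonneg hA0] at hx4
    calc Real.log N * Real.log n ^ B ≤ L * (A * l) ^ B := by
          apply mul_le_mul hlNL (pow_le_pow_left₀ hlogn.le (hlognD.trans hlogDA) B) (by positivity) (by linarith)
      _ = L * l ^ B * A ^ B := by rw [mul_pow]; ring
      _ ≤ L * l ^ B * (l / 2) := by
          apply mul_le_mul_of_nonneg_left _ (by positivity)
          linarith
      _ = L * l ^ (B + 1) / 2 := by ring
      _ ≤ n := by linarith
  have c3 : (n : ℝ) ≤ Real.log N ^ (A + 1) := by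
    calc (n : ℝ) ≤ L ^ A := hn1.trans hD2
      _ ≤ (L / 2) ^ (A + 1) := by
          have h3 : L ^ (A + 1) = L ^ A * L := by rw [Real.rpow_add (by linarith), Real.rpow_one]
          rw [Real.div_rpow (by linarith) (by norm_num), le_div_iff₀ (by positivity), h3]
          exact mul_le_mul_of_nonneg_left hx3 (by positivity)
      _ ≤ _ := Real.rpow_le_rpow (by linarith) hLlN (by linarith)
  have h1 := hmain N hNN0 n c1 c2 c3
  constructor
  · have h2 : goodH s N n κ₁ t ⊆ goodR s x n (κ₁ / 3) t := by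
      intro h hh
      rw [mem_goodH] at hh
      rw [mem_goodR]
      refine ⟨hh.1, fun b u hu => ?_, hh.2.2⟩
      have h3 := hh.2.1 b u hu
      have h4 : ((GF (2 * N) (fun a => h (u a))).card : ℝ) ≤ ((GF ⌊x⌋₊ (fun a => h (u a))).card : ℝ) := by
        exact_mod_cast GF_mono h2N _
      refine le_trans ?_ (h3.trans h4)
      calc κ₁ / 3 * (x / L ^ ((b : ℕ) + 1)) = κ₁ * ((x / 3) / L ^ ((b : ℕ) + 1)) := by ring
        _ ≤ κ₁ * (N / Real.log N ^ ((b : ℕ) + 1)) := by
            apply mul_le_mul_of_nonneg_left _ hκ₁.le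
            apply div_le_div₀ hNpos.le hN3 (by positivity)
            exact pow_le_pow_left₀ hlN0.le hlNL _
    have h3 : ((goodH s N n κ₁ t).card : ℝ) ≤ ((goodR s x n (κ₁ / 3) t).card : ℝ) := by
      exact_mod_cast card_le_card h2
    refine le_trans ?_ (h1.trans h3)
    calc c / 2 ^ k * (D ^ k / Real.log D ^ E) = c * ((D / 2) ^ k / Real.log D ^ E) := by
          rw [div_pow]
          ring
      _ ≤ _ := by
          apply mul_le_mul_of_nonneg_left _ hc.le
          apply div_le_div₀ (by positivity) (pow_le_pow_left₀ (by linarith) hnD k) (by positivity)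
          exact pow_le_pow_left₀ hlogn.le hlognD E
  · have h2 : X0 ≤ n := by
      have : (X0 : ℝ) ≤ n := by linarith
      exact_mod_cast this
    refine (hup n h2).trans ?_
    have h3 : Real.log D / 2 ≤ Real.log n := by
      have h4 : D ≤ (n : ℝ) ^ 2 := by nlinarith
      have h5 : Real.log D ≤ Real.log ((n : ℝ) ^ 2) := Real.log_le_log (by linarith) h4
      rw [Real.log_pow] at h5
      push_cast at h5
      linarith
    have hlD : 0 < Real.log D := Real.log_pos (by linarith)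
    calc C0 * ((n : ℝ) ^ k / Real.log n ^ E) ≤ C0 * (D ^ k / (Real.log D / 2) ^ E) := by
          apply mul_le_mul_of_nonneg_left _ hC0.le
          apply div_le_div₀ (by positivity) (pow_le_pow_left₀ (by linarith) hn1 k) (by positivity)
          exact pow_le_pow_left₀ (by linarith) h3 E
      _ = _ := by
          rw [div_pow]
          field_simp

end Pool.Agent.U288.RO
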